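import Pool.Agent.LibSM56C.S_Defs

/-! # SM56 part (C), section (S), S_A: the bump `psi0` (helper20) -/

set_option autoImplicit false

namespace Pool.Agent.LibSM56C

open MeasureTheory Set Filter Topology Complex
open scoped ENNReal ComplexConjugate

theorem psi0_supp (t : ℝ) (h : 1 ≤ |t|) : psi0 t = 0 := by
  unfold psi0
  rcases le_abs.1 h with h1 | h1
  · rw [Real.smoothTransition.one_of_one_le (by linarith), Real.smoothTransition.one_of_one_le h1, sub_self]
  · rw [Real.smoothTransition.zero_of_nonpos (by linarith), Real.smoothTransition.zero_of_nonpos (by linarith), sub_self]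

theorem psi0_sum (J : ℕ) (t : ℝ) (h0 : 0 ≤ t) (h1 : t ≤ J) : ∑ j ∈ Finset.range (J + 1), psi0 (t - j) = 1 := by
  have key : ∀ K : ℕ, ∑ j ∈ Finset.range K, psi0 (t - j) =
      Real.smoothTransition (t + 1) - Real.smoothTransition (t + 1 - K) := by
    intro K
    induction K with
    | zero => simp
    | succ K ih =>
      rw [Finset.sum_range_succ, ih]
      unfold psi0
      have e1 : t - (K : ℝ) + 1 = t + 1 - K := by ring
      have e2 : t - (K : ℝ) = t + 1 - ((K + 1 : ℕ) : ℝ) := by push_cast; ring
      rw [e1, e2]
      ring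
  rw [key, Real.smoothTransition.one_of_one_le (by linarith), Real.smoothTransition.zero_of_nonpos (by push_cast; linarith),
    sub_zero]

theorem psi0_smooth : ContDiff ℝ ((⊤ : ℕ∞) : WithTop ℕ∞) psi0 := by
  unfold psi0
  exact (Real.smoothTransition.contDiff.comp (contDiff_id.add contDiff_const)).sub Real.smoothTransition.contDiff

theorem psi0_nonneg (t : ℝ) : 0 ≤ psi0 t := by
  unfold psi0
  exact sub_nonneg.2 (Real.smoothTransition.monotone (by linarith))

theorem psi0_le_one (t : ℝ) : psi0 t ≤ 1 := by
  unfold psi0
  have h1 := Real.smoothTransition.le_one (t + 1)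
  have h2 := Real.smoothTransition.nonneg t
  linarith

end Pool.Agent.LibSM56C
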