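import Pool.Agent.LibSM56C.S_D

/-! # SM56 part (C), S_E2: the sum over `(n, d)` for fixed `q` and one block (helper51) -/

set_option autoImplicit false

namespace Pool.Agent.LibSM56C

open Complex

theorem nd_sum (η : ℝ) (hη : 0 < η) : ∃ C : ℝ, 0 < C ∧ ∀ N D X L H : ℝ, 1 ≤ N → 1 ≤ D → 1 ≤ X → 1 ≤ L → ∀ q : ℕ, 1 ≤ q →
    (N * D * q) ^ η ≤ H → (q * X) ^ η ≤ H → ∀ (Q : Finset (ℕ × ℕ)) (Xf : ℕ × ℕ → ℝ),
    Q ⊆ Finset.Icc 1 ⌊N⌋₊ ×ˢ Finset.Icc 1 ⌊D⌋₊ → (∀ p ∈ Q, Xf p ≤ X) →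
    ∑ p ∈ Q, √(1 + L / (p.1 * (p.2 / Nat.gcd p.2 q : ℕ))) * √(1 + KX (p.1 * (p.2 / Nat.gcd p.2 q)) (Xf p)) ≤
      C * H * (√(N * D + L) * √(N * D + √X)) := by
  obtain ⟨C₁, hC₁, h1⟩ := lev_sum η hη
  obtain ⟨C₂, hC₂, h2⟩ := KX_sum η hη
  refine ⟨1 + C₁ + C₂, by positivity, fun N D X L H hN hD hX hL q hq hH1 hH2 Q Xf hQ hXf => ?_⟩
  have hN0 : (0 : ℝ) < N := by linarith
  have hD0 : (0 : ℝ) < D := by linarith
  have hX0 : (0 : ℝ) < X := by linarith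
  have hq1 : (1 : ℝ) ≤ q := by exact_mod_cast hq
  have hq0 : (0 : ℝ) < q := by linarith
  have hNf : 1 ≤ ⌊N⌋₊ := Nat.floor_pos.mpr hN
  have hDf : 1 ≤ ⌊D⌋₊ := Nat.floor_pos.mpr hD
  have hNf' : (⌊N⌋₊ : ℝ) ≤ N := Nat.floor_le hN0.le
  have hDf' : (⌊D⌋₊ : ℝ) ≤ D := Nat.floor_le hD0.le
  have hH : 1 ≤ H := le_trans (Real.one_le_rpow (one_le_mul_of_one_le_of_one_le hq1 hX) hη.le) hH2
  have hH0 : 0 < H := by linarith
  have hC : 0 < 1 + C₁ + C₂ := by positivity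
  set P : Finset (ℕ × ℕ) := Finset.Icc 1 ⌊N⌋₊ ×ˢ Finset.Icc 1 ⌊D⌋₊ with hP
  have hcard : (P.card : ℝ) ≤ N * D := by
    rw [hP, Finset.card_product, Nat.card_Icc, Nat.card_Icc, Nat.add_sub_cancel, Nat.add_sub_cancel]
    push_cast
    exact mul_le_mul hNf' hDf' (Nat.cast_nonneg _) hN0.le
  have hS1 : ∑ p ∈ P, (1 + L / (p.1 * (p.2 / Nat.gcd p.2 q : ℕ))) ≤ (1 + C₁ + C₂) * H * (N * D + L) := by
    have h3 : ∑ p ∈ P, L / (p.1 * (p.2 / Nat.gcd p.2 q : ℕ)) ≤ L * (C₁ * H) := by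
      have h4 : ∑ p ∈ P, L / (p.1 * (p.2 / Nat.gcd p.2 q : ℕ)) =
          L * ∑ n ∈ Finset.Icc 1 ⌊N⌋₊, ∑ d ∈ Finset.Icc 1 ⌊D⌋₊, (1 : ℝ) / (n * (d / Nat.gcd d q : ℕ)) := by
        rw [hP, Finset.sum_product, Finset.mul_sum]
        refine Finset.sum_congr rfl fun n _ => ?_
        rw [Finset.mul_sum]
        refine Finset.sum_congr rfl fun d _ => ?_
        rw [mul_one_div]
      rw [h4]
      refine mul_le_mul_of_nonneg_left ((h1 _ _ q hNf hDf hq).trans (mul_le_mul_of_nonneg_left ?_ hC₁.le)) (by linarith)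
      refine le_trans (Real.rpow_le_rpow (by positivity) ?_ hη.le) hH1
      exact mul_le_mul_of_nonneg_right (mul_le_mul hNf' hDf' (Nat.cast_nonneg _) hN0.le) hq0.le
    calc ∑ p ∈ P, (1 + L / (p.1 * (p.2 / Nat.gcd p.2 q : ℕ)))
        = P.card + ∑ p ∈ P, L / (p.1 * (p.2 / Nat.gcd p.2 q : ℕ)) := by
          rw [Finset.sum_add_distrib, Finset.sum_const, nsmul_eq_mul, mul_one]
      _ ≤ N * D + L * (C₁ * H) := add_le_add hcard h3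
      _ ≤ (1 + C₁ + C₂) * H * (N * D + L) := by
          have ha : 0 ≤ (H - 1) * (N * D) := mul_nonneg (by linarith) (by positivity)
          have hb : 0 ≤ (C₁ + C₂) * H * (N * D) := by positivity
          have hc : 0 ≤ (1 + C₂) * H * L := by positivity
          nlinarith
  have hS2 : ∑ p ∈ P, (1 + KX (p.1 * (p.2 / Nat.gcd p.2 q)) X) ≤ (1 + C₁ + C₂) * H * (N * D + √X) := by
    have h3 : ∑ p ∈ P, KX (p.1 * (p.2 / Nat.gcd p.2 q)) X ≤ C₂ * H * √X := by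
      rw [hP, Finset.sum_product]
      refine (h2 X hX _ _ q hq).trans ?_
      have h4 : C₂ * (q : ℝ) ^ η * X ^ (1 / 2 + η) = C₂ * (q * X) ^ η * √X := by
        rw [Real.mul_rpow hq0.le hX0.le, Real.rpow_add hX0, Real.sqrt_eq_rpow]
        ring
      rw [h4]
      exact mul_le_mul_of_nonneg_right (mul_le_mul_of_nonneg_left hH2 hC₂.le) (Real.sqrt_nonneg _)
    calc ∑ p ∈ P, (1 + KX (p.1 * (p.2 / Nat.gcd p.2 q)) X)
        = P.card + ∑ p ∈ P, KX (p.1 * (p.2 / Nat.gcd p.2 q)) X := by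
          rw [Finset.sum_add_distrib, Finset.sum_const, nsmul_eq_mul, mul_one]
      _ ≤ N * D + C₂ * H * √X := add_le_add hcard h3
      _ ≤ (1 + C₁ + C₂) * H * (N * D + √X) := by
          have ha : 0 ≤ (H - 1) * (N * D) := mul_nonneg (by linarith) (by positivity)
          have hb : 0 ≤ (C₁ + C₂) * H * (N * D) := by positivity
          have hc : 0 ≤ (1 + C₁) * H * √X := by positivity
          nlinarith
  have hpos : ∀ p : ℕ × ℕ, 0 ≤ 1 + L / (p.1 * (p.2 / Nat.gcd p.2 q : ℕ)) := fun p => by positivity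
  have hpos2 : ∀ p : ℕ × ℕ, 0 ≤ 1 + KX (p.1 * (p.2 / Nat.gcd p.2 q)) X := fun p => by
    have := KX_nonneg (p.1 * (p.2 / Nat.gcd p.2 q)) X
    linarith
  calc ∑ p ∈ Q, √(1 + L / (p.1 * (p.2 / Nat.gcd p.2 q : ℕ))) * √(1 + KX (p.1 * (p.2 / Nat.gcd p.2 q)) (Xf p))
      ≤ ∑ p ∈ Q, √(1 + L / (p.1 * (p.2 / Nat.gcd p.2 q : ℕ))) * √(1 + KX (p.1 * (p.2 / Nat.gcd p.2 q)) X) := by
        refine Finset.sum_le_sum fun p hp => mul_le_mul_of_nonneg_left (Real.sqrt_le_sqrt ?_) (Real.sqrt_nonneg _)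
        have := KX_mono (p.1 * (p.2 / Nat.gcd p.2 q)) (Xf p) X (hXf p hp)
        linarith
    _ ≤ ∑ p ∈ P, √(1 + L / (p.1 * (p.2 / Nat.gcd p.2 q : ℕ))) * √(1 + KX (p.1 * (p.2 / Nat.gcd p.2 q)) X) :=
        Finset.sum_le_sum_of_subset_of_nonneg hQ (fun p _ _ => by positivity)
    _ ≤ √(∑ p ∈ P, (1 + L / (p.1 * (p.2 / Nat.gcd p.2 q : ℕ)))) * √(∑ p ∈ P, (1 + KX (p.1 * (p.2 / Nat.gcd p.2 q)) X)) :=
        Real.sum_sqrt_mul_sqrt_le P hpos hpos2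
    _ ≤ √((1 + C₁ + C₂) * H * (N * D + L)) * √((1 + C₁ + C₂) * H * (N * D + √X)) :=
        mul_le_mul (Real.sqrt_le_sqrt hS1) (Real.sqrt_le_sqrt hS2) (Real.sqrt_nonneg _) (Real.sqrt_nonneg _)
    _ = (1 + C₁ + C₂) * H * (√(N * D + L) * √(N * D + √X)) := by
        have hCH : 0 ≤ (1 + C₁ + C₂) * H := by positivity
        rw [Real.sqrt_mul hCH, Real.sqrt_mul hCH]
        calc √((1 + C₁ + C₂) * H) * √(N * D + L) * (√((1 + C₁ + C₂) * H) * √(N * D + √X))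
            = (√((1 + C₁ + C₂) * H) * √((1 + C₁ + C₂) * H)) * (√(N * D + L) * √(N * D + √X)) := by ring
          _ = _ := by rw [Real.mul_self_sqrt hCH]

end Pool.Agent.LibSM56C
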