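import Pool.Agent.LibSM56C.S_E1
import Pool.Agent.LibSM56C.S_E2

/-! # SM56 part (C), S_E3: fixed `q` and one block, summed over `(n, d)` (helper51) -/

set_option autoImplicit false

namespace Pool.Agent.LibSM56C

open MeasureTheory Set Filter Topology Complex

private theorem exp_four : Real.exp 4 ≤ 55 := by
  have h : Real.exp 4 = Real.exp 1 ^ 4 := by
    rw [← Real.exp_nat_mul]
    norm_num
  rw [h]
  calc Real.exp 1 ^ 4 ≤ 2.7182818286 ^ 4 := pow_le_pow_left₀ (Real.exp_pos 1).le Real.exp_one_lt_d9.le 4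
    _ ≤ 55 := by norm_num

theorem exp_2j (j : ℕ) : Real.exp (2 * ((j : ℝ) + 1)) = Real.exp 4 * Real.exp ((j : ℝ) - 1) ^ 2 := by
  rw [← Real.exp_nat_mul, ← Real.exp_add]
  congr 1
  push_cast
  ring

theorem exp_2j' (j : ℕ) : Real.exp (2 * ((j : ℝ) + 1)) = (Real.exp 1 * Real.exp (j : ℝ)) ^ 2 := by
  rw [← Real.exp_add, ← Real.exp_nat_mul]
  congr 1
  push_cast
  ring

/-- `Λ ≤ T⁴`. -/
theorem Lam_le (T κ B : ℝ) (n j : ℕ) (hT : 10 ^ 4 ≤ T) (hκ1 : κ ≤ 1 / 2) (hB : B ≤ 1) (hn : (n : ℝ) ≤ T)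
    (hj : Real.exp ((j : ℝ) - 1) ≤ T ^ B) : T ^ (κ - 1) * n * Real.exp (2 * ((j : ℝ) + 1)) ≤ T ^ 4 := by
  have hT1 : 1 ≤ T := by linarith
  have hT0 : 0 < T := by linarith
  have h1 : T ^ (κ - 1) ≤ 1 := Real.rpow_le_one_of_one_le_of_nonpos hT1 (by linarith)
  have h2 : Real.exp ((j : ℝ) - 1) ≤ T := by
    refine hj.trans ?_
    calc T ^ B ≤ T ^ (1 : ℝ) := Real.rpow_le_rpow_of_exponent_le hT1 hB
      _ = T := Real.rpow_one T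
  have h3 : Real.exp ((j : ℝ) - 1) ^ 2 ≤ T ^ 2 := pow_le_pow_left₀ (Real.exp_pos _).le h2 2
  have h4 : 0 < T ^ (κ - 1) := Real.rpow_pos_of_pos hT0 _
  have h5 := exp_four
  have h6 : Real.exp 4 ≤ T := by linarith
  rw [exp_2j]
  calc T ^ (κ - 1) * n * (Real.exp 4 * Real.exp ((j : ℝ) - 1) ^ 2) ≤ 1 * T * (T * T ^ 2) := by
        refine mul_le_mul (mul_le_mul h1 hn (Nat.cast_nonneg _) (by norm_num)) ?_ (by positivity) (by positivity)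
        exact mul_le_mul h6 h3 (by positivity) (by positivity)
    _ = T ^ 4 := by ring

/-- `q² L ≤ Λ` implies `L ≤ R²`. -/
theorem L_le_R (T κ L : ℝ) (n q j : ℕ) (hT : 10 ^ 4 ≤ T) (hκ1 : κ ≤ 1 / 2) (hq : 1 ≤ q)
    (h : (q : ℝ) ^ 2 * L ≤ T ^ (κ - 1) * n * Real.exp (2 * ((j : ℝ) + 1))) :
    L ≤ (Real.exp ((j : ℝ) - 1) * √(n : ℝ) / q) ^ 2 := by
  have hT1 : 1 ≤ T := by linarith
  have hT0 : 0 < T := by linarith
  have hq0 : (0 : ℝ) < q := by exact_mod_cast hq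
  have h1 : T ^ (κ - 1) * Real.exp 4 ≤ 1 := by
    have h2 : T ^ (κ - 1) ≤ T ^ (-(1 / 2) : ℝ) := Real.rpow_le_rpow_of_exponent_le hT1 (by linarith)
    have h3 : T ^ (-(1 / 2) : ℝ) ≤ 1 / 100 := by
      rw [Real.rpow_neg hT0.le, ← Real.sqrt_eq_rpow, ← one_div]
      refine one_div_le_one_div_of_le (by norm_num) (Real.le_sqrt_of_sq_le ?_)
      linarith
    have h4 := exp_four
    calc T ^ (κ - 1) * Real.exp 4 ≤ (1 / 100) * 55 :=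
          mul_le_mul (h2.trans h3) h4 (Real.exp_pos _).le (by norm_num)
      _ ≤ 1 := by norm_num
  have hn0 : (0 : ℝ) ≤ n := Nat.cast_nonneg n
  rw [div_pow, mul_pow, Real.sq_sqrt hn0, le_div_iff₀ (by positivity)]
  rw [exp_2j] at h
  calc L * (q : ℝ) ^ 2 = (q : ℝ) ^ 2 * L := mul_comm _ _
    _ ≤ T ^ (κ - 1) * n * (Real.exp 4 * Real.exp ((j : ℝ) - 1) ^ 2) := h
    _ = (T ^ (κ - 1) * Real.exp 4) * (Real.exp ((j : ℝ) - 1) ^ 2 * n) := by ring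
    _ ≤ 1 * (Real.exp ((j : ℝ) - 1) ^ 2 * n) := mul_le_mul_of_nonneg_right h1 (by positivity)
    _ = _ := one_mul _

theorem block_sum (b : ℝ → ℝ) (hb : ContDiff ℝ ((⊤ : ℕ∞) : WithTop ℕ∞) b) (hb' : HasCompactSupport b) (η : ℝ)
    (hη : 0 < η) : ∃ C : ℝ, 0 < C ∧ ∀ T κ y₀ z z' δ A : ℝ, 10 ^ 4 ≤ T → 0 < κ → κ ≤ 1 / 2 → 0 < δ → 0 < y₀ → 0 < z →
      (y₀ + z) / 2 ≤ 1 / 4 - δ / 2 → z + z' + y₀ / 2 - 1 / 2 ≤ 1 / 4 - δ / 2 → z + z' + 2 * κ ≤ 1 → y₀ + κ ≤ 1 →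
      z + κ ≤ 1 → 0 ≤ A →
      ∀ rr : ℕ → ℕ → ℝ, (∀ q k : ℕ, 1 ≤ q → 1 ≤ k → |rr q k| ≤ A * ((q : ℝ) * k) ^ η) →
      ∀ Q : Finset (ℕ × ℕ), (∀ p ∈ Q, 1 ≤ p.1 ∧ 1 ≤ p.2 ∧ T ^ (y₀ - κ) ≤ p.1 ∧ (p.1 : ℝ) ≤ T ^ (y₀ + κ) ∧
        (p.2 : ℝ) ≤ T ^ (z + κ)) →
      ∀ (j : ℕ), Real.exp ((j : ℝ) - 1) ≤ T ^ (z + z' + 2 * κ) → ∀ (σ : ℤ) (y : ℝ), (σ = 1 ∨ σ = -1) →
      ∀ (q i : ℕ), 1 ≤ q →
      ∑ p ∈ Q.filter (fun p => q ≤ Nat.sqrt (Lam κ T p.1 j) ∧ Nat.Coprime q p.1),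
        (q : ℝ) * ‖∑ k ∈ (Finset.Icc 1 (Lam κ T p.1 j / q ^ 2)).filter (fun k => Nat.log 2 k = i),
          (((rr q k : ℝ) : ℂ) * ((q ^ 2 * k : ℕ) : ℂ) ^ (((3 / 4 : ℝ) : ℂ) + y * I - 1)) *
            innS b T p.1 p.2 q j ((3 / 4 : ℝ) + y * I) σ k‖ ≤
        C * A * (1 + |y|) ^ 2 * (1 / q) * T ^ (1 / 4 - δ / 2 + 5 * κ + 12 * η) := by
  obtain ⟨C₁, hC₁, h1⟩ := one_block b hb hb'
  obtain ⟨C₂, hC₂, h2⟩ := nd_sum η hη
  refine ⟨C₁ * C₂ * 24, by positivity, ?_⟩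
  intro T κ y₀ z z' δ A hT hκ hκ1 hδ hy₀ hz hA hB hz1 hy1 hz2 hA0 rr hrr Q hQ j hj σ y hσ q i hq
  have hT1 : 1 ≤ T := by linarith
  have hT0 : 0 < T := by linarith
  have hq0 : (0 : ℝ) < q := by exact_mod_cast hq
  have hq1 : (1 : ℝ) ≤ q := by exact_mod_cast hq
  have hL0 : (0 : ℝ) < (2 : ℝ) ^ i := by positivity
  have hL1 : (1 : ℝ) ≤ (2 : ℝ) ^ i := one_le_pow₀ (by norm_num)
  -- the relevant pairs
  set P := (Q.filter (fun p => q ≤ Nat.sqrt (Lam κ T p.1 j) ∧ Nat.Coprime q p.1)).filter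
    (fun p => ((Finset.Icc 1 (Lam κ T p.1 j / q ^ 2)).filter (fun k => Nat.log 2 k = i)).Nonempty) with hP
  have hsum : ∑ p ∈ Q.filter (fun p => q ≤ Nat.sqrt (Lam κ T p.1 j) ∧ Nat.Coprime q p.1),
        (q : ℝ) * ‖∑ k ∈ (Finset.Icc 1 (Lam κ T p.1 j / q ^ 2)).filter (fun k => Nat.log 2 k = i),
          (((rr q k : ℝ) : ℂ) * ((q ^ 2 * k : ℕ) : ℂ) ^ (((3 / 4 : ℝ) : ℂ) + y * I - 1)) *
            innS b T p.1 p.2 q j ((3 / 4 : ℝ) + y * I) σ k‖ =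
      ∑ p ∈ P, (q : ℝ) * ‖∑ k ∈ (Finset.Icc 1 (Lam κ T p.1 j / q ^ 2)).filter (fun k => Nat.log 2 k = i),
          (((rr q k : ℝ) : ℂ) * ((q ^ 2 * k : ℕ) : ℂ) ^ (((3 / 4 : ℝ) : ℂ) + y * I - 1)) *
            innS b T p.1 p.2 q j ((3 / 4 : ℝ) + y * I) σ k‖ := by
    symm
    refine Finset.sum_filter_of_ne fun p _ hne => ?_
    by_contra hcon
    rw [Finset.not_nonempty_iff_eq_empty] at hcon
    rw [hcon, Finset.sum_empty, norm_zero, mul_zero] at hne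
    exact hne rfl
  rw [hsum]
  rcases P.eq_empty_or_nonempty with hPe | ⟨p₀, hp₀⟩
  · rw [hPe, Finset.sum_empty]
    positivity
  -- facts for every pair
  have hfact : ∀ p ∈ P, p ∈ Q ∧ Nat.Coprime q p.1 ∧
      (q : ℝ) ^ 2 * (2 : ℝ) ^ i ≤ T ^ (κ - 1) * p.1 * Real.exp (2 * ((j : ℝ) + 1)) ∧ (q : ℝ) ≤ T ^ 4 ∧
      (Lam κ T p.1 j : ℝ) ≤ T ^ 4 := by
    intro p hp
    rw [hP, Finset.mem_filter, Finset.mem_filter] at hp
    obtain ⟨⟨hpQ, hqs, hqc⟩, k, hk⟩ := hp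
    rw [Finset.mem_filter, Finset.mem_Icc] at hk
    obtain ⟨⟨hk1, hk2⟩, hk3⟩ := hk
    obtain ⟨hp1, hp2, hp3, hp4, hp5⟩ := hQ p hpQ
    have hpT : (p.1 : ℝ) ≤ T := by
      refine hp4.trans ?_
      calc T ^ (y₀ + κ) ≤ T ^ (1 : ℝ) := Real.rpow_le_rpow_of_exponent_le hT1 hy1
        _ = T := Real.rpow_one T
    have hx0 : 0 ≤ T ^ (κ - 1) * p.1 * Real.exp (2 * ((j : ℝ) + 1)) := by positivity
    have hLam : (Lam κ T p.1 j : ℝ) ≤ T ^ (κ - 1) * p.1 * Real.exp (2 * ((j : ℝ) + 1)) := Nat.floor_le hx0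
    have hLam4 : (Lam κ T p.1 j : ℝ) ≤ T ^ 4 := hLam.trans (Lam_le T κ _ p.1 j hT hκ1 hz1 hpT hj)
    refine ⟨hpQ, hqc, ?_, ?_, hLam4⟩
    · have h3 : q ^ 2 * k ≤ Lam κ T p.1 j := by
        rw [mul_comm]
        exact (Nat.le_div_iff_mul_le (by positivity)).mp hk2
      have h4 : 2 ^ i ≤ k := by
        rw [← hk3]
        exact Nat.pow_log_le_self 2 (by omega)
      have h5 : q ^ 2 * 2 ^ i ≤ Lam κ T p.1 j := (Nat.mul_le_mul_left _ h4).trans h3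
      have h6 : ((q ^ 2 * 2 ^ i : ℕ) : ℝ) ≤ (Lam κ T p.1 j : ℝ) := by exact_mod_cast h5
      push_cast at h6
      exact h6.trans hLam
    · have h3 : q ≤ Lam κ T p.1 j := hqs.trans (Nat.sqrt_le_self _)
      have h4 : (q : ℝ) ≤ (Lam κ T p.1 j : ℝ) := by exact_mod_cast h3
      exact h4.trans hLam4
  -- notation
  set E : ℝ := Real.exp (j : ℝ) with hEdef
  have hE0 : 0 < E := Real.exp_pos _
  have hEj : Real.exp ((j : ℝ) - 1) = Real.exp (-1) * E := by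
    rw [hEdef, ← Real.exp_add]
    congr 1
    ring
  have hE' : E ≤ Real.exp 1 * T ^ (z + z' + 2 * κ) := by
    have : E = Real.exp 1 * Real.exp ((j : ℝ) - 1) := by
      rw [hEdef, ← Real.exp_add]
      congr 1
      ring
    rw [this]
    exact mul_le_mul_of_nonneg_left hj (Real.exp_pos 1).le
  set ℓ : ℝ := q * √((2 : ℝ) ^ i) with hℓdef
  have hsq1 : 1 ≤ √((2 : ℝ) ^ i) := Real.one_le_sqrt.mpr hL1
  have hℓ1 : 1 ≤ ℓ := one_le_mul_of_one_le_of_one_le hq1 hsq1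
  have hℓ0 : 0 < ℓ := by linarith
  have hℓ2 : ℓ ^ 2 = (q : ℝ) ^ 2 * (2 : ℝ) ^ i := by
    rw [hℓdef, mul_pow, Real.sq_sqrt hL0.le]
  have hb1 : 0 < T ^ ((y₀ - κ) / 2) := Real.rpow_pos_of_pos hT0 _
  have hb2 : 0 < T ^ ((y₀ + κ) / 2) := Real.rpow_pos_of_pos hT0 _
  have hsqN : √(T ^ (y₀ + κ)) = T ^ ((y₀ + κ) / 2) := by
    rw [Real.sqrt_eq_rpow, ← Real.rpow_mul hT0.le]
    congr 1
    ring
  have hsqN' : √(T ^ (y₀ - κ)) = T ^ ((y₀ - κ) / 2) := by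
    rw [Real.sqrt_eq_rpow, ← Real.rpow_mul hT0.le]
    congr 1
    ring
  have hℓ' : ℓ ≤ Real.exp 1 * T ^ ((κ - 1) / 2) * (E * T ^ ((y₀ + κ) / 2)) := by
    obtain ⟨hpQ, _, h3, _, _⟩ := hfact p₀ hp₀
    obtain ⟨_, _, _, hp4, _⟩ := hQ p₀ hpQ
    have hc : 0 < T ^ ((κ - 1) / 2) := Real.rpow_pos_of_pos hT0 _
    refine le_of_sq_le_sq ?_ (by positivity)
    have h4 : (T ^ ((κ - 1) / 2)) ^ 2 = T ^ (κ - 1) := by
      rw [← Real.rpow_natCast, ← Real.rpow_mul hT0.le]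
      congr 1
      push_cast
      ring
    have h5 : (T ^ ((y₀ + κ) / 2)) ^ 2 = T ^ (y₀ + κ) := by
      rw [← Real.rpow_natCast, ← Real.rpow_mul hT0.le]
      congr 1
      push_cast
      ring
    rw [hℓ2, mul_pow, mul_pow, mul_pow, h4, h5]
    refine h3.trans ?_
    rw [exp_2j']
    calc T ^ (κ - 1) * p₀.1 * (Real.exp 1 * Real.exp (j : ℝ)) ^ 2
        ≤ T ^ (κ - 1) * T ^ (y₀ + κ) * (Real.exp 1 * Real.exp (j : ℝ)) ^ 2 := by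
          refine mul_le_mul_of_nonneg_right (mul_le_mul_of_nonneg_left hp4 ?_) (by positivity)
          exact (Real.rpow_pos_of_pos hT0 _).le
      _ = _ := by ring
  -- the parameter X
  obtain ⟨Y, hYdef⟩ : ∃ Y : ℝ, Y = 8 * Real.exp (-1) * (E * T ^ ((y₀ + κ) / 2)) / ℓ := ⟨_, rfl⟩
  have hem0 : 0 < Real.exp (-1) := Real.exp_pos _
  have hY0 : 0 < Y := by
    rw [hYdef]
    positivity
  have hY1 : 1 ≤ Y := by
    rw [hYdef, le_div_iff₀ hℓ0, one_mul]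
    refine hℓ'.trans ?_
    have hc : T ^ ((κ - 1) / 2) ≤ 1 := Real.rpow_le_one_of_one_le_of_nonpos hT1 (by linarith)
    have hd : Real.exp 1 ≤ 8 * Real.exp (-1) := by
      rw [Real.exp_neg, ← div_eq_mul_inv, le_div_iff₀ (Real.exp_pos 1)]
      have := Real.exp_one_lt_d9.le
      calc Real.exp 1 * Real.exp 1 ≤ 2.7182818286 * 2.7182818286 :=
            mul_le_mul this this (Real.exp_pos 1).le (by norm_num)
        _ ≤ 8 := by norm_num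
    calc Real.exp 1 * T ^ ((κ - 1) / 2) * (E * T ^ ((y₀ + κ) / 2))
        ≤ Real.exp 1 * 1 * (E * T ^ ((y₀ + κ) / 2)) :=
          mul_le_mul_of_nonneg_right (mul_le_mul_of_nonneg_left hc (Real.exp_pos 1).le) (by positivity)
      _ ≤ 8 * Real.exp (-1) * (E * T ^ ((y₀ + κ) / 2)) := by
          rw [mul_one]
          exact mul_le_mul_of_nonneg_right hd (by positivity)
  have hYX : √(Y ^ 2) = Y := Real.sqrt_sq hY0.le
  have hX4 : Y ^ 2 ≤ T ^ 4 := by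
    have h3 : Y ≤ 8 * T ^ (z + z' + 2 * κ) * T ^ ((y₀ + κ) / 2) := by
      rw [hYdef]
      refine (div_le_self (by positivity) hℓ1).trans ?_
      calc 8 * Real.exp (-1) * (E * T ^ ((y₀ + κ) / 2))
          ≤ 8 * Real.exp (-1) * ((Real.exp 1 * T ^ (z + z' + 2 * κ)) * T ^ ((y₀ + κ) / 2)) :=
            mul_le_mul_of_nonneg_left (mul_le_mul_of_nonneg_right hE' hb2.le) (by positivity)
        _ = (Real.exp (-1) * Real.exp 1) * (8 * T ^ (z + z' + 2 * κ) * T ^ ((y₀ + κ) / 2)) := by ring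
        _ = _ := by
            rw [← Real.exp_add]
            simp
    have h4 : T ^ (z + z' + 2 * κ) ≤ T := by
      calc T ^ (z + z' + 2 * κ) ≤ T ^ (1 : ℝ) := Real.rpow_le_rpow_of_exponent_le hT1 hz1
        _ = T := Real.rpow_one T
    have h5 : (T ^ ((y₀ + κ) / 2)) ^ 2 ≤ T := by
      rw [← Real.rpow_natCast, ← Real.rpow_mul hT0.le]
      calc T ^ ((y₀ + κ) / 2 * ((2 : ℕ) : ℝ)) ≤ T ^ (1 : ℝ) := by
            refine Real.rpow_le_rpow_of_exponent_le hT1 ?_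
            push_cast
            linarith
        _ = T := Real.rpow_one T
    have h6 : 0 < T ^ (z + z' + 2 * κ) := Real.rpow_pos_of_pos hT0 _
    calc Y ^ 2 ≤ (8 * T ^ (z + z' + 2 * κ) * T ^ ((y₀ + κ) / 2)) ^ 2 := pow_le_pow_left₀ hY0.le h3 2
      _ = 64 * (T ^ (z + z' + 2 * κ)) ^ 2 * (T ^ ((y₀ + κ) / 2)) ^ 2 := by ring
      _ ≤ 64 * T ^ 2 * T := by
          refine mul_le_mul (mul_le_mul_of_nonneg_left (pow_le_pow_left₀ h6.le h4 2) (by norm_num)) h5 (by positivity)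
            (by positivity)
      _ ≤ T ^ 4 := by nlinarith [pow_pos hT0 3]
  have hN1 : 1 ≤ T ^ (y₀ + κ) := Real.one_le_rpow hT1 (by linarith)
  have hD1 : 1 ≤ T ^ (z + κ) := Real.one_le_rpow hT1 (by linarith)
  have hNT : T ^ (y₀ + κ) ≤ T := by
    calc T ^ (y₀ + κ) ≤ T ^ (1 : ℝ) := Real.rpow_le_rpow_of_exponent_le hT1 hy1
      _ = T := Real.rpow_one T
  have hDT : T ^ (z + κ) ≤ T := by
    calc T ^ (z + κ) ≤ T ^ (1 : ℝ) := Real.rpow_le_rpow_of_exponent_le hT1 hz2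
      _ = T := Real.rpow_one T
  obtain ⟨_, _, _, hq4, _⟩ := hfact p₀ hp₀
  have hT8 : (T ^ 8) ^ η = T ^ (8 * η) := by
    rw [← Real.rpow_natCast, ← Real.rpow_mul hT0.le]
    congr 1
  have hH1 : (T ^ (y₀ + κ) * T ^ (z + κ) * q) ^ η ≤ T ^ (8 * η) := by
    rw [← hT8]
    refine Real.rpow_le_rpow (by positivity) ?_ hη.le
    calc T ^ (y₀ + κ) * T ^ (z + κ) * q ≤ T * T * T ^ 4 :=
          mul_le_mul (mul_le_mul hNT hDT (by positivity) hT0.le) hq4 hq0.le (by positivity)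
      _ = T ^ 6 := by ring
      _ ≤ T ^ 8 := pow_le_pow_right₀ hT1 (by norm_num)
  have hH2 : ((q : ℝ) * Y ^ 2) ^ η ≤ T ^ (8 * η) := by
    rw [← hT8]
    refine Real.rpow_le_rpow (by positivity) ?_ hη.le
    calc (q : ℝ) * Y ^ 2 ≤ T ^ 4 * T ^ 4 := mul_le_mul hq4 hX4 (by positivity) (by positivity)
      _ = T ^ 8 := by ring
  have hPsub : P ⊆ Finset.Icc 1 ⌊T ^ (y₀ + κ)⌋₊ ×ˢ Finset.Icc 1 ⌊T ^ (z + κ)⌋₊ := by
    intro p hp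
    obtain ⟨hpQ, _⟩ := hfact p hp
    obtain ⟨hp1, hp2, hp3, hp4, hp5⟩ := hQ p hpQ
    rw [Finset.mem_product, Finset.mem_Icc, Finset.mem_Icc]
    exact ⟨⟨hp1, Nat.le_floor hp4⟩, hp2, Nat.le_floor hp5⟩
  have hXf : ∀ p ∈ P, 64 * (Real.exp ((j : ℝ) - 1) * √(p.1 : ℝ) / q) ^ 2 / (2 : ℝ) ^ i ≤ Y ^ 2 := by
    intro p hp
    obtain ⟨hpQ, _⟩ := hfact p hp
    obtain ⟨hp1, hp2, hp3, hp4, hp5⟩ := hQ p hpQ
    have h3 : √(p.1 : ℝ) ≤ T ^ ((y₀ + κ) / 2) := by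
      rw [← hsqN]
      exact Real.sqrt_le_sqrt hp4
    have h4 : 64 * (Real.exp ((j : ℝ) - 1) * √(p.1 : ℝ) / q) ^ 2 / (2 : ℝ) ^ i =
        (8 * Real.exp (-1) * (E * √(p.1 : ℝ)) / ℓ) ^ 2 := by
      have h41 : (8 * Real.exp (-1) * (E * √(p.1 : ℝ)) / ℓ) ^ 2 =
          (8 * Real.exp (-1) * (E * √(p.1 : ℝ))) ^ 2 / ((q : ℝ) ^ 2 * (2 : ℝ) ^ i) := by
        rw [div_pow, hℓ2]
      rw [h41, hEj]
      field_simp
      ring
    rw [h4, hYdef]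
    refine pow_le_pow_left₀ (by positivity) ?_ 2
    refine div_le_div_of_nonneg_right ?_ hℓ0.le
    exact mul_le_mul_of_nonneg_left (mul_le_mul_of_nonneg_left h3 hE0.le) (by positivity)
  have hnd := h2 (T ^ (y₀ + κ)) (T ^ (z + κ)) (Y ^ 2) ((2 : ℝ) ^ i) (T ^ (8 * η)) hN1 hD1 (one_le_pow₀ hY1) hL1 q hq
    hH1 hH2 P (fun p => 64 * (Real.exp ((j : ℝ) - 1) * √(p.1 : ℝ) / q) ^ 2 / (2 : ℝ) ^ i) hPsub hXf
  rw [hYX, ← Real.rpow_add hT0, show y₀ + κ + (z + κ) = y₀ + z + 2 * κ by ring] at hnd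
  -- each term
  have hG0 : 0 ≤ A * T ^ (4 * η) := by positivity
  have hterm : ∀ p ∈ P, (q : ℝ) * ‖∑ k ∈ (Finset.Icc 1 (Lam κ T p.1 j / q ^ 2)).filter (fun k => Nat.log 2 k = i),
          (((rr q k : ℝ) : ℂ) * ((q ^ 2 * k : ℕ) : ℂ) ^ (((3 / 4 : ℝ) : ℂ) + y * I - 1)) *
            innS b T p.1 p.2 q j ((3 / 4 : ℝ) + y * I) σ k‖ ≤
      (C₁ * (A * T ^ (4 * η)) * (1 + |y|) ^ 2 * (1 / q) * √(ℓ / (E * T ^ ((y₀ - κ) / 2)))) *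
        (√(1 + (2 : ℝ) ^ i / (p.1 * (p.2 / Nat.gcd p.2 q : ℕ))) *
            √(1 + KX (p.1 * (p.2 / Nat.gcd p.2 q)) (64 * (Real.exp ((j : ℝ) - 1) * √(p.1 : ℝ) / q) ^ 2 / (2 : ℝ) ^ i))) := by
    intro p hp
    obtain ⟨hpQ, hqc, h3, _, hLam4⟩ := hfact p hp
    obtain ⟨hp1, hp2, hp3, hp4, hp5⟩ := hQ p hpQ
    have h4 := h1 T (by linarith) p.1 p.2 q j hp1 hp2 hq hqc y σ hσ i
      (L_le_R T κ _ p.1 q j hT hκ1 hq h3) (rr q) (A * T ^ (4 * η)) hG0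
      ((Finset.Icc 1 (Lam κ T p.1 j / q ^ 2)).filter (fun k => Nat.log 2 k = i)) (by
        intro k hk
        rw [Finset.mem_filter, Finset.mem_Icc] at hk
        obtain ⟨⟨hk1, hk2⟩, hk3⟩ := hk
        rw [← hk3]
        exact ⟨Nat.pow_log_le_self 2 (by omega), Nat.lt_pow_succ_log_self (by norm_num) k⟩) (by
        intro k hk
        rw [Finset.mem_filter, Finset.mem_Icc] at hk
        obtain ⟨⟨hk1, hk2⟩, hk3⟩ := hk
        refine (hrr q k hq hk1).trans (mul_le_mul_of_nonneg_left ?_ hA0)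
        have h5 : q ^ 2 * k ≤ Lam κ T p.1 j := by
          rw [mul_comm]
          exact (Nat.le_div_iff_mul_le (by positivity)).mp hk2
        have h6 : q * k ≤ q ^ 2 * k := by
          refine Nat.mul_le_mul_right _ ?_
          nlinarith
        have h7 : ((q * k : ℕ) : ℝ) ≤ (Lam κ T p.1 j : ℝ) := by exact_mod_cast h6.trans h5
        push_cast at h7
        have h8 : (T ^ 4) ^ η = T ^ (4 * η) := by
          rw [← Real.rpow_natCast, ← Real.rpow_mul hT0.le]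
          congr 1
        rw [← h8]
        exact Real.rpow_le_rpow (by positivity) (h7.trans hLam4) hη.le)
    refine h4.trans (mul_le_mul_of_nonneg_right (mul_le_mul_of_nonneg_left (Real.sqrt_le_sqrt ?_) (by positivity))
      (by positivity))
    refine div_le_div_of_nonneg_left hℓ0.le (by positivity) ?_
    refine mul_le_mul_of_nonneg_left ?_ hE0.le
    rw [← hsqN']
    exact Real.sqrt_le_sqrt hp3
  have hfour := four_terms T κ y₀ z z' δ E ℓ hT1 hκ hδ hA hB hE0 hE' hℓ0 hℓ'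
  rw [← hYdef] at hfour
  have hLℓ : √(T ^ (y₀ + z + 2 * κ) + (2 : ℝ) ^ i) ≤ √(T ^ (y₀ + z + 2 * κ) + ℓ ^ 2) := by
    refine Real.sqrt_le_sqrt (add_le_add le_rfl ?_)
    rw [hℓ2]
    exact le_mul_of_one_le_left hL0.le (one_le_pow₀ hq1)
  calc ∑ p ∈ P, (q : ℝ) * ‖∑ k ∈ (Finset.Icc 1 (Lam κ T p.1 j / q ^ 2)).filter (fun k => Nat.log 2 k = i),
          (((rr q k : ℝ) : ℂ) * ((q ^ 2 * k : ℕ) : ℂ) ^ (((3 / 4 : ℝ) : ℂ) + y * I - 1)) *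
            innS b T p.1 p.2 q j ((3 / 4 : ℝ) + y * I) σ k‖
      ≤ ∑ p ∈ P, (C₁ * (A * T ^ (4 * η)) * (1 + |y|) ^ 2 * (1 / q) * √(ℓ / (E * T ^ ((y₀ - κ) / 2)))) *
        (√(1 + (2 : ℝ) ^ i / (p.1 * (p.2 / Nat.gcd p.2 q : ℕ))) *
            √(1 + KX (p.1 * (p.2 / Nat.gcd p.2 q)) (64 * (Real.exp ((j : ℝ) - 1) * √(p.1 : ℝ) / q) ^ 2 / (2 : ℝ) ^ i))) :=
        Finset.sum_le_sum hterm
    _ = (C₁ * (A * T ^ (4 * η)) * (1 + |y|) ^ 2 * (1 / q) * √(ℓ / (E * T ^ ((y₀ - κ) / 2)))) *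
        ∑ p ∈ P, (√(1 + (2 : ℝ) ^ i / (p.1 * (p.2 / Nat.gcd p.2 q : ℕ))) *
            √(1 + KX (p.1 * (p.2 / Nat.gcd p.2 q)) (64 * (Real.exp ((j : ℝ) - 1) * √(p.1 : ℝ) / q) ^ 2 / (2 : ℝ) ^ i))) := by
        rw [Finset.mul_sum]
    _ ≤ (C₁ * (A * T ^ (4 * η)) * (1 + |y|) ^ 2 * (1 / q) * √(ℓ / (E * T ^ ((y₀ - κ) / 2)))) *
        (C₂ * T ^ (8 * η) * (√(T ^ (y₀ + z + 2 * κ) + ℓ ^ 2) * √(T ^ (y₀ + z + 2 * κ) + Y))) := by
        refine mul_le_mul_of_nonneg_left (hnd.trans ?_) (by positivity)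
        refine mul_le_mul_of_nonneg_left (mul_le_mul_of_nonneg_right hLℓ (Real.sqrt_nonneg _)) (by positivity)
    _ = (C₁ * C₂ * A * (1 + |y|) ^ 2 * (1 / q) * (T ^ (4 * η) * T ^ (8 * η))) *
        (√(ℓ / (E * T ^ ((y₀ - κ) / 2))) * (√(T ^ (y₀ + z + 2 * κ) + ℓ ^ 2) * √(T ^ (y₀ + z + 2 * κ) + Y))) := by ring
    _ ≤ (C₁ * C₂ * A * (1 + |y|) ^ 2 * (1 / q) * (T ^ (4 * η) * T ^ (8 * η))) * (24 * T ^ (1 / 4 - δ / 2 + 5 * κ)) :=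
        mul_le_mul_of_nonneg_left hfour (by positivity)
    _ = C₁ * C₂ * 24 * A * (1 + |y|) ^ 2 * (1 / q) * (T ^ (1 / 4 - δ / 2 + 5 * κ) * (T ^ (4 * η) * T ^ (8 * η))) := by ring
    _ = _ := by
        rw [← Real.rpow_add hT0, ← Real.rpow_add hT0]
        congr 2
        ring

end Pool.Agent.LibSM56C
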