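import Pool.Agent.LibSM56C.S_A
import Pool.Agent.LibSM56C.S_E3

/-! # SM56 part (C), S_E: the core estimate (helper51) -/

set_option autoImplicit false

namespace Pool.Agent.LibSM56C

open MeasureTheory Set Filter Topology Complex
open scoped ENNReal ComplexConjugate

/-- Blocks beyond the support of the weights vanish. -/
theorem innS_zero (b : ℝ → ℝ) (T κ z z' : ℝ) (n d q j : ℕ) (s : ℂ) (σ : ℤ) (k : ℕ) (hT : 1 < T)
    (hb : ∀ t, κ ≤ |t - z'| → b t = 0) (hn : 1 ≤ n)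
    (hd : Real.log d / Real.log T ≤ z + κ) (hj : T ^ (z + z' + 2 * κ) ≤ Real.exp ((j : ℝ) - 1)) :
    innS b T n d q j s σ k = 0 := by
  have hlT : 0 < Real.log T := Real.log_pos hT
  unfold innS
  refine Finset.sum_eq_zero fun m hm => ?_
  rw [Finset.mem_filter, Finset.mem_Icc] at hm
  obtain ⟨⟨hm1, _⟩, _⟩ := hm
  have hn0 : (0 : ℝ) < n := by exact_mod_cast hn
  have hm0 : (0 : ℝ) < m := by exact_mod_cast hm1
  have hw : wt b T n d q j s (Real.log (√(n : ℝ) * m)) = 0 := by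
    unfold wt
    have hlog : Real.log (√(n : ℝ) * m) = Real.log n / 2 + Real.log m := by
      rw [Real.log_mul (Real.sqrt_pos.mpr hn0).ne' hm0.ne', Real.log_sqrt hn0.le]
    have h1 : Real.log (√(n : ℝ) * m) - Real.log n / 2 + Real.log q = Real.log m + Real.log q := by
      rw [hlog]
      ring
    rw [h1]
    rcases le_or_gt 1 |Real.log m + Real.log q - j| with hc | hc
    · rw [psi0_supp _ hc, mul_zero, Complex.ofReal_zero, zero_mul]
    · have h2 : (j : ℝ) - 1 < Real.log m + Real.log q := by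
        rw [abs_lt] at hc
        linarith [hc.1]
      have h3 : (z + z' + 2 * κ) * Real.log T ≤ (j : ℝ) - 1 := by
        have h4 := Real.log_le_log (Real.rpow_pos_of_pos (by linarith) _) hj
        rw [Real.log_exp, Real.log_rpow (by linarith)] at h4
        exact h4
      have h5 : Real.log d ≤ (z + κ) * Real.log T := by
        rwa [div_le_iff₀ hlT] at hd
      have h6 : z' + κ ≤ (Real.log m + Real.log q - Real.log d) / Real.log T := by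
        rw [le_div_iff₀ hlT]
        nlinarith
      have h7 : κ ≤ |(Real.log m + Real.log q - Real.log d) / Real.log T - z'| := by
        refine le_trans ?_ (le_abs_self _)
        linarith
      rw [hb _ h7, zero_mul, Complex.ofReal_zero, zero_mul]
  rw [hw, mul_zero]

private theorem log_count (T η : ℝ) (hT : 1 ≤ T) (hη : 0 < η) :
    1 + 6 * Real.log T ≤ (1 + 6 / η) * T ^ η := by
  have h1 : 1 ≤ T ^ η := Real.one_le_rpow hT hη.le
  have h2 := Real.log_le_rpow_div (by linarith : (0 : ℝ) ≤ T) hη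
  calc 1 + 6 * Real.log T ≤ T ^ η + 6 * (T ^ η / η) := by linarith
    _ = _ := by ring

private theorem I_le (T η : ℝ) (hT : 1 ≤ T) (hη : 0 < η) :
    ((Nat.log 2 ⌊T ^ 4⌋₊ + 1 : ℕ) : ℝ) ≤ (1 + 6 / η) * T ^ η := by
  refine le_trans ?_ (log_count T η hT hη)
  have hT4 : 1 ≤ T ^ 4 := one_le_pow₀ hT
  have hf : 1 ≤ ⌊T ^ 4⌋₊ := Nat.floor_pos.mpr hT4
  have h1 : 2 ^ Nat.log 2 ⌊T ^ 4⌋₊ ≤ ⌊T ^ 4⌋₊ := Nat.pow_log_le_self 2 (by omega)
  have h2 : ((2 ^ Nat.log 2 ⌊T ^ 4⌋₊ : ℕ) : ℝ) ≤ T ^ 4 :=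
    le_trans (by exact_mod_cast h1) (Nat.floor_le (by positivity))
  have h3 := Real.log_le_log (by positivity) h2
  push_cast at h3
  rw [Real.log_pow, Real.log_pow] at h3
  have h4 : 0.69 ≤ Real.log 2 := by
    have := Real.log_two_gt_d9
    linarith
  have h5 : 0 ≤ Real.log T := Real.log_nonneg hT
  push_cast at h3 ⊢
  have h6 : (Nat.log 2 ⌊T ^ 4⌋₊ : ℝ) * 0.69 ≤ 4 * Real.log T :=
    le_trans (mul_le_mul_of_nonneg_left h4 (Nat.cast_nonneg _)) h3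
  linarith

private theorem harm_T (T η : ℝ) (hT : 1 ≤ T) (hη : 0 < η) :
    ∑ q ∈ Finset.Icc 1 ⌊T ^ 4⌋₊, (1 : ℝ) / q ≤ (1 + 6 / η) * T ^ η := by
  refine le_trans ?_ (log_count T η hT hη)
  have hT4 : 1 ≤ T ^ 4 := one_le_pow₀ hT
  have hf : 1 ≤ ⌊T ^ 4⌋₊ := Nat.floor_pos.mpr hT4
  have h1 : ((harmonic ⌊T ^ 4⌋₊ : ℚ) : ℝ) = ∑ n ∈ Finset.Icc 1 ⌊T ^ 4⌋₊, (1 : ℝ) / n := by
    rw [harmonic_eq_sum_Icc]
    push_cast
    exact Finset.sum_congr rfl fun n _ => (one_div _).symm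
  rw [← h1]
  refine (harmonic_le_one_add_log _).trans ?_
  have h2 : Real.log (⌊T ^ 4⌋₊ : ℝ) ≤ Real.log (T ^ 4) :=
    Real.log_le_log (by exact_mod_cast hf) (Nat.floor_le (by positivity))
  rw [Real.log_pow] at h2
  have h5 : 0 ≤ Real.log T := Real.log_nonneg hT
  push_cast at h2
  linarith

/-- The core estimate of part (C). -/
theorem S_core (z z' y₀ : ℝ) (hz : 0 < z) (hzz : z ≤ z') (hy : 0 < y₀) (h1 : z + y₀ < 1 / 2) (h2 : 2 * (z + z') + y₀ < 3 / 2)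
    (h3 : z + z' + y₀ < 1) :
    ∃ κ₀ σ₁ : ℝ, 0 < κ₀ ∧ 0 < σ₁ ∧ ∀ κ : ℝ, 0 < κ → κ ≤ κ₀ → ∀ a b c : ℝ → ℝ, ContDiff ℝ ((⊤ : ℕ∞) : WithTop ℕ∞) a →
      ContDiff ℝ ((⊤ : ℕ∞) : WithTop ℕ∞) b → ContDiff ℝ ((⊤ : ℕ∞) : WithTop ℕ∞) c →
      (∀ t, κ ≤ |t - z| → a t = 0) → (∀ t, κ ≤ |t - z'| → b t = 0) → (∀ t, κ ≤ |t - y₀| → c t = 0) →
      ∀ Cr : ℝ → ℝ, ∃ C T₀ : ℝ, ∀ T : ℝ, T₀ ≤ T → ∀ rr : ℕ → ℕ → ℝ,
        (∀ η : ℝ, 0 < η → ∀ q k : ℕ, 1 ≤ q → 1 ≤ k → |rr q k| ≤ Cr η * ((q : ℝ) * k) ^ η) →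
        ∀ (j : ℕ) (σ : ℤ) (y : ℝ), (σ = 1 ∨ σ = -1) →
          ‖TT1 a b c rr κ T j σ ((3 / 4 : ℝ) + y * I)‖ ≤ C * (1 + |y|) ^ 2 * T ^ (1 / 4 - σ₁) := by
  obtain ⟨δ, hδ0, hδ1, hδ2⟩ : ∃ δ : ℝ, 0 < δ ∧ δ ≤ 1 / 2 - z - y₀ ∧ δ ≤ 3 / 2 - 2 * (z + z') - y₀ :=
    ⟨min (1 / 2 - z - y₀) (3 / 2 - 2 * (z + z') - y₀), lt_min (by linarith) (by linarith), min_le_left _ _, min_le_right _ _⟩
  refine ⟨δ / 100, δ / 4, by positivity, by positivity, ?_⟩
  intro κ hκ hκ' a b c ha hb hc ha' hb' hc' Cr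
  have hbc : HasCompactSupport b := by
    refine HasCompactSupport.intro (isCompact_closedBall z' κ) fun t ht => hb' t ?_
    rw [Metric.mem_closedBall, Real.dist_eq, not_le] at ht
    exact ht.le
  have hac : HasCompactSupport a := by
    refine HasCompactSupport.intro (isCompact_closedBall z κ) fun t ht => ha' t ?_
    rw [Metric.mem_closedBall, Real.dist_eq, not_le] at ht
    exact ht.le
  have hcc : HasCompactSupport c := by
    refine HasCompactSupport.intro (isCompact_closedBall y₀ κ) fun t ht => hc' t ?_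
    rw [Metric.mem_closedBall, Real.dist_eq, not_le] at ht
    exact ht.le
  obtain ⟨Ca, hCa⟩ := hac.exists_bound_of_continuous ha.continuous
  obtain ⟨Cc, hCc⟩ := hcc.exists_bound_of_continuous hc.continuous
  have hCa0 : 0 ≤ Ca := (norm_nonneg _).trans (hCa 0)
  have hCc0 : 0 ≤ Cc := (norm_nonneg _).trans (hCc 0)
  have hη : 0 < δ / 400 := by positivity
  obtain ⟨C₁, hC₁, hblock⟩ := block_sum b hb hbc (δ / 400) hη
  obtain ⟨η, hηdef⟩ : ∃ η : ℝ, η = δ / 400 := ⟨_, rfl⟩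
  rw [← hηdef] at hη hblock
  refine ⟨Ca * Cc * (C₁ * |Cr η| * ((1 + 6 / η) * (1 + 6 / η))), 10 ^ 4, ?_⟩
  intro T hT rr hrr j σ y hσ
  have hT1 : 1 ≤ T := by linarith
  have hT1' : 1 < T := by linarith
  have hT0 : 0 < T := by linarith
  have hlT : 0 < Real.log T := Real.log_pos hT1'
  have hrhs : 0 ≤ Ca * Cc * (C₁ * |Cr η| * ((1 + 6 / η) * (1 + 6 / η))) * (1 + |y|) ^ 2 * T ^ (1 / 4 - δ / 4) := by
    positivity
  -- coefficients
  obtain ⟨coef, hcoef⟩ : ∃ coef : ℕ × ℕ → ℝ, coef = fun p => (Nat.totient p.2 : ℝ) / p.2 * a (Real.log p.2 / Real.log T) *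
    c (Real.log p.1 / Real.log T) := ⟨_, rfl⟩
  have hcoef0 : ∀ p : ℕ × ℕ, coef p ≠ 0 → |Real.log p.2 / Real.log T - z| < κ ∧ |Real.log p.1 / Real.log T - y₀| < κ := by
    intro p hp
    rw [hcoef] at hp
    constructor
    · by_contra hcon
      rw [not_lt] at hcon
      exact hp (by simp only [ha' _ hcon, mul_zero, zero_mul])
    · by_contra hcon
      rw [not_lt] at hcon
      exact hp (by simp only [hc' _ hcon, mul_zero])
  have hcoefle : ∀ p : ℕ × ℕ, |coef p| ≤ Ca * Cc := by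
    intro p
    have ht : |(Nat.totient p.2 : ℝ) / p.2| ≤ 1 := by
      rw [abs_of_nonneg (by positivity)]
      exact div_le_one_of_le₀ (by exact_mod_cast Nat.totient_le p.2) (Nat.cast_nonneg _)
    have h4 := hCa (Real.log p.2 / Real.log T)
    have h5 := hCc (Real.log p.1 / Real.log T)
    rw [Real.norm_eq_abs] at h4 h5
    rw [hcoef, abs_mul, abs_mul]
    calc |(Nat.totient p.2 : ℝ) / p.2| * |a (Real.log p.2 / Real.log T)| * |c (Real.log p.1 / Real.log T)|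
        ≤ 1 * Ca * Cc := mul_le_mul (mul_le_mul ht h4 (abs_nonneg _) (by norm_num)) h5 (abs_nonneg _) (by positivity)
      _ = Ca * Cc := by ring
  obtain ⟨s, hs⟩ : ∃ s : ℂ, s = ((3 / 4 : ℝ) : ℂ) + y * I := ⟨_, rfl⟩
  rw [← hs]
  set PT : Finset (ℕ × ℕ) := Finset.Icc 1 ⌊T⌋₊ ×ˢ Finset.Icc 1 ⌊T⌋₊ with hPT
  -- first bound
  have hTT1 : TT1 a b c rr κ T j σ s = ∑ p ∈ PT, (coef p : ℂ) *
      ∑ q ∈ (Finset.Icc 1 (Nat.sqrt (Lam κ T p.1 j))).filter (fun q => Nat.Coprime q p.1),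
        (q : ℂ) * kS b rr T p.1 p.2 q j (Lam κ T p.1 j / q ^ 2) s σ := by
    unfold TT1
    rw [hPT, Finset.sum_product, hcoef]
  rcases le_or_gt (T ^ (z + z' + 2 * κ)) (Real.exp ((j : ℝ) - 1)) with hj | hj
  · -- the block is beyond the support
    have h0 : TT1 a b c rr κ T j σ s = 0 := by
      rw [hTT1]
      refine Finset.sum_eq_zero fun p hp => ?_
      by_cases hp0 : coef p = 0
      · rw [hp0, Complex.ofReal_zero, zero_mul]
      · rw [hPT, Finset.mem_product, Finset.mem_Icc, Finset.mem_Icc] at hp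
        have h4 := (hcoef0 p hp0).1
        rw [abs_lt] at h4
        have h5 : Real.log p.2 / Real.log T ≤ z + κ := by linarith [h4.2]
        have h6 : ∑ q ∈ (Finset.Icc 1 (Nat.sqrt (Lam κ T p.1 j))).filter (fun q => Nat.Coprime q p.1),
            (q : ℂ) * kS b rr T p.1 p.2 q j (Lam κ T p.1 j / q ^ 2) s σ = 0 := by
          refine Finset.sum_eq_zero fun q hq => ?_
          rw [Finset.mem_filter, Finset.mem_Icc] at hq
          have h7 : kS b rr T p.1 p.2 q j (Lam κ T p.1 j / q ^ 2) s σ = 0 := by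
            unfold kS
            refine Finset.sum_eq_zero fun k _ => ?_
            rw [innS_zero b T κ z z' p.1 p.2 q j s σ k hT1' hb' hp.1.1 h5 hj, mul_zero]
          rw [h7, mul_zero]
        rw [h6, mul_zero]
    rw [h0, norm_zero]
    exact hrhs
  -- the main case
  set Q : Finset (ℕ × ℕ) := PT.filter (fun p => coef p ≠ 0) with hQ
  have hQf : ∀ p ∈ Q, 1 ≤ p.1 ∧ 1 ≤ p.2 ∧ T ^ (y₀ - κ) ≤ p.1 ∧ (p.1 : ℝ) ≤ T ^ (y₀ + κ) ∧ (p.2 : ℝ) ≤ T ^ (z + κ) := by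
    intro p hp
    rw [hQ, Finset.mem_filter, hPT, Finset.mem_product, Finset.mem_Icc, Finset.mem_Icc] at hp
    obtain ⟨⟨⟨hp1, _⟩, hp2, _⟩, hp3⟩ := hp
    obtain ⟨h4, h5⟩ := hcoef0 p hp3
    rw [abs_lt] at h4 h5
    have hp10 : (0 : ℝ) < p.1 := by exact_mod_cast hp1
    have hp20 : (0 : ℝ) < p.2 := by exact_mod_cast hp2
    have h6 : Real.log p.1 ≤ (y₀ + κ) * Real.log T := by
      rw [← div_le_iff₀ hlT]
      linarith [h5.2]
    have h7 : (y₀ - κ) * Real.log T ≤ Real.log p.1 := by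
      rw [← le_div_iff₀ hlT]
      linarith [h5.1]
    have h8 : Real.log p.2 ≤ (z + κ) * Real.log T := by
      rw [← div_le_iff₀ hlT]
      linarith [h4.2]
    refine ⟨hp1, hp2, ?_, ?_, ?_⟩
    · rw [← Real.log_le_log_iff (Real.rpow_pos_of_pos hT0 _) hp10, Real.log_rpow hT0]
      exact h7
    · rw [← Real.log_le_log_iff hp10 (Real.rpow_pos_of_pos hT0 _), Real.log_rpow hT0]
      exact h6
    · rw [← Real.log_le_log_iff hp20 (Real.rpow_pos_of_pos hT0 _), Real.log_rpow hT0]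
      exact h8
  clear_value Q
  -- the functions
  obtain ⟨g, hg⟩ : ∃ g : ℕ × ℕ → ℕ → ℕ → ℝ, g = fun (p : ℕ × ℕ) (q i : ℕ) =>
    (q : ℝ) * ‖∑ k ∈ (Finset.Icc 1 (Lam κ T p.1 j / q ^ 2)).filter (fun k => Nat.log 2 k = i),
          (((rr q k : ℝ) : ℂ) * ((q ^ 2 * k : ℕ) : ℂ) ^ (s - 1)) * innS b T p.1 p.2 q j s σ k‖ := ⟨_, rfl⟩
  have hLam4 : ∀ p ∈ Q, Lam κ T p.1 j ≤ ⌊T ^ 4⌋₊ := by
    intro p hp
    obtain ⟨_, _, _, hp4, _⟩ := hQf p hp
    have hpT : (p.1 : ℝ) ≤ T := by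
      refine hp4.trans ?_
      calc T ^ (y₀ + κ) ≤ T ^ (1 : ℝ) := Real.rpow_le_rpow_of_exponent_le hT1 (by linarith)
        _ = T := Real.rpow_one T
    exact Nat.floor_le_floor (Lam_le T κ _ p.1 j hT (by linarith) (by linarith : z + z' + 2 * κ ≤ 1) hpT hj.le)
  have hkS : ∀ p ∈ Q, ∀ q : ℕ, 1 ≤ q → ‖(q : ℂ) * kS b rr T p.1 p.2 q j (Lam κ T p.1 j / q ^ 2) s σ‖ ≤
      ∑ i ∈ Finset.range (Nat.log 2 ⌊T ^ 4⌋₊ + 1), g p q i := by
    intro p hp q hq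
    have hmaps : ∀ k ∈ Finset.Icc 1 (Lam κ T p.1 j / q ^ 2), Nat.log 2 k ∈ Finset.range (Nat.log 2 ⌊T ^ 4⌋₊ + 1) := by
      intro k hk
      rw [Finset.mem_Icc] at hk
      rw [Finset.mem_range, Nat.lt_succ_iff]
      exact Nat.log_mono_right (hk.2.trans ((Nat.div_le_self _ _).trans (hLam4 p hp)))
    unfold kS
    rw [norm_mul, Complex.norm_natCast, ← Finset.sum_fiberwise_of_maps_to hmaps]
    calc (q : ℝ) * ‖∑ i ∈ Finset.range (Nat.log 2 ⌊T ^ 4⌋₊ + 1),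
          ∑ k ∈ (Finset.Icc 1 (Lam κ T p.1 j / q ^ 2)).filter (fun k => Nat.log 2 k = i),
            ((rr q k : ℝ) : ℂ) * ((q ^ 2 * k : ℕ) : ℂ) ^ (s - 1) * innS b T p.1 p.2 q j s σ k‖
        ≤ (q : ℝ) * ∑ i ∈ Finset.range (Nat.log 2 ⌊T ^ 4⌋₊ + 1),
          ‖∑ k ∈ (Finset.Icc 1 (Lam κ T p.1 j / q ^ 2)).filter (fun k => Nat.log 2 k = i),
            ((rr q k : ℝ) : ℂ) * ((q ^ 2 * k : ℕ) : ℂ) ^ (s - 1) * innS b T p.1 p.2 q j s σ k‖ :=
          mul_le_mul_of_nonneg_left (norm_sum_le _ _) (Nat.cast_nonneg _)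
      _ = ∑ i ∈ Finset.range (Nat.log 2 ⌊T ^ 4⌋₊ + 1), g p q i := by
          rw [Finset.mul_sum, hg]
  have hg0 : ∀ p q i, 0 ≤ g p q i := by
    intro p q i
    rw [hg]
    positivity
  have hA0 : 0 ≤ |Cr η| := abs_nonneg _
  have hrr' : ∀ q k : ℕ, 1 ≤ q → 1 ≤ k → |rr q k| ≤ |Cr η| * ((q : ℝ) * k) ^ η := by
    intro q k hq hk
    exact (hrr η hη q k hq hk).trans (mul_le_mul_of_nonneg_right (le_abs_self _) (by positivity))
  have hfix : ∀ q i : ℕ, 1 ≤ q →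
      ∑ p ∈ Q.filter (fun p => q ≤ Nat.sqrt (Lam κ T p.1 j) ∧ Nat.Coprime q p.1), g p q i ≤
        C₁ * |Cr η| * (1 + |y|) ^ 2 * (1 / q) * T ^ (1 / 4 - δ / 2 + 5 * κ + 12 * η) := by
    intro q i hq
    have h4 := hblock T κ y₀ z z' δ |Cr η| hT hκ (by linarith) hδ0 hy hz (by linarith) (by linarith) (by linarith)
      (by linarith) (by linarith) hA0 rr hrr' Q hQf j hj.le σ y hσ q i hq
    rw [hg, hs]
    exact h4
  -- the sum
  calc ‖TT1 a b c rr κ T j σ s‖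
      = ‖∑ p ∈ Q, (coef p : ℂ) *
      ∑ q ∈ (Finset.Icc 1 (Nat.sqrt (Lam κ T p.1 j))).filter (fun q => Nat.Coprime q p.1),
        (q : ℂ) * kS b rr T p.1 p.2 q j (Lam κ T p.1 j / q ^ 2) s σ‖ := by
        rw [hTT1, hQ]
        congr 1
        symm
        refine Finset.sum_filter_of_ne fun p _ hne hcon => hne ?_
        rw [hcon, Complex.ofReal_zero, zero_mul]
    _ ≤ ∑ p ∈ Q, (Ca * Cc) *
      ∑ q ∈ (Finset.Icc 1 (Nat.sqrt (Lam κ T p.1 j))).filter (fun q => Nat.Coprime q p.1),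
        ∑ i ∈ Finset.range (Nat.log 2 ⌊T ^ 4⌋₊ + 1), g p q i := by
        refine (norm_sum_le _ _).trans (Finset.sum_le_sum fun p hp => ?_)
        rw [norm_mul, Complex.norm_real, Real.norm_eq_abs]
        refine mul_le_mul (hcoefle p) ?_ (norm_nonneg _) (by positivity)
        refine (norm_sum_le _ _).trans (Finset.sum_le_sum fun q hq => ?_)
        rw [Finset.mem_filter, Finset.mem_Icc] at hq
        exact hkS p hp q hq.1.1
    _ = (Ca * Cc) * ∑ p ∈ Q,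
      ∑ q ∈ (Finset.Icc 1 (Nat.sqrt (Lam κ T p.1 j))).filter (fun q => Nat.Coprime q p.1),
        ∑ i ∈ Finset.range (Nat.log 2 ⌊T ^ 4⌋₊ + 1), g p q i := by
        rw [Finset.mul_sum]
    _ = (Ca * Cc) * ∑ q ∈ Finset.Icc 1 ⌊T ^ 4⌋₊,
      ∑ p ∈ Q.filter (fun p => q ≤ Nat.sqrt (Lam κ T p.1 j) ∧ Nat.Coprime q p.1),
        ∑ i ∈ Finset.range (Nat.log 2 ⌊T ^ 4⌋₊ + 1), g p q i := by
        congr 1
        refine Finset.sum_comm' fun p q => ?_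
        rw [Finset.mem_filter, Finset.mem_Icc, Finset.mem_filter, Finset.mem_Icc]
        constructor
        · rintro ⟨hp, ⟨hq1, hq2⟩, hq3⟩
          exact ⟨⟨hp, hq2, hq3⟩, hq1, hq2.trans ((Nat.sqrt_le_self _).trans (hLam4 p hp))⟩
        · rintro ⟨⟨hp, hq2, hq3⟩, hq1, _⟩
          exact ⟨hp, ⟨hq1, hq2⟩, hq3⟩
    _ = (Ca * Cc) * ∑ q ∈ Finset.Icc 1 ⌊T ^ 4⌋₊, ∑ i ∈ Finset.range (Nat.log 2 ⌊T ^ 4⌋₊ + 1),
      ∑ p ∈ Q.filter (fun p => q ≤ Nat.sqrt (Lam κ T p.1 j) ∧ Nat.Coprime q p.1), g p q i := by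
        congr 1
        exact Finset.sum_congr rfl fun q _ => Finset.sum_comm
    _ ≤ (Ca * Cc) * ∑ q ∈ Finset.Icc 1 ⌊T ^ 4⌋₊, ∑ i ∈ Finset.range (Nat.log 2 ⌊T ^ 4⌋₊ + 1),
        C₁ * |Cr η| * (1 + |y|) ^ 2 * (1 / q) * T ^ (1 / 4 - δ / 2 + 5 * κ + 12 * η) := by
        refine mul_le_mul_of_nonneg_left (Finset.sum_le_sum fun q hq => Finset.sum_le_sum fun i _ => ?_) (by positivity)
        rw [Finset.mem_Icc] at hq
        exact hfix q i hq.1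
    _ = (Ca * Cc) * ((C₁ * |Cr η| * (1 + |y|) ^ 2 * T ^ (1 / 4 - δ / 2 + 5 * κ + 12 * η)) *
        (((Nat.log 2 ⌊T ^ 4⌋₊ + 1 : ℕ) : ℝ) * ∑ q ∈ Finset.Icc 1 ⌊T ^ 4⌋₊, (1 : ℝ) / q)) := by
        congr 1
        rw [Finset.mul_sum, Finset.mul_sum]
        refine Finset.sum_congr rfl fun q _ => ?_
        rw [Finset.sum_const, Finset.card_range, nsmul_eq_mul]
        ring
    _ ≤ (Ca * Cc) * ((C₁ * |Cr η| * (1 + |y|) ^ 2 * T ^ (1 / 4 - δ / 2 + 5 * κ + 12 * η)) *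
        (((1 + 6 / η) * T ^ η) * ((1 + 6 / η) * T ^ η))) := by
        refine mul_le_mul_of_nonneg_left (mul_le_mul_of_nonneg_left ?_ (by positivity)) (by positivity)
        exact mul_le_mul (I_le T η hT1 hη) (harm_T T η hT1 hη) (Finset.sum_nonneg fun _ _ => by positivity) (by positivity)
    _ = Ca * Cc * (C₁ * |Cr η| * ((1 + 6 / η) * (1 + 6 / η))) * (1 + |y|) ^ 2 *
        (T ^ (1 / 4 - δ / 2 + 5 * κ + 12 * η) * (T ^ η * T ^ η)) := by ring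
    _ ≤ Ca * Cc * (C₁ * |Cr η| * ((1 + 6 / η) * (1 + 6 / η))) * (1 + |y|) ^ 2 * T ^ (1 / 4 - δ / 4) := by
        refine mul_le_mul_of_nonneg_left ?_ (by positivity)
        rw [← Real.rpow_add hT0, ← Real.rpow_add hT0]
        refine Real.rpow_le_rpow_of_exponent_le hT1 ?_
        rw [hηdef]
        linarith

end Pool.Agent.LibSM56C
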