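import Pool.Agent.LibSM56C.S_Defs
import Pool.Agent.LibSM56.W_02
import Pool.Agent.LibSM56A.A_B
import Pool.Agent.LibSM56A.A_D

/-! # SM56 part (C), section (S): the long part of the dual sums is negligible -/

set_option autoImplicit false

namespace Pool.Agent.LibSM56C

open MeasureTheory Set Filter Topology Complex
open scoped ENNReal ComplexConjugate
open Pool.Agent.LibSM47 Pool.Agent.LibSM56 Pool.Agent.LibSM56A

/-- The long dual sum without `NeZero`. -/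
noncomputable def DSg (m n : ℕ) (b : B3) (Λ : ℕ) (s : ℂ) : ℂ :=
  if h : m = 0 then 0 else @DSgt m ⟨h⟩ (n : ZMod m) b Λ s

theorem DSg_eq (m : ℕ) [NeZero m] (n : ℕ) (b : B3) (Λ : ℕ) (s : ℂ) : DSg m n b Λ s = DSgt m (n : ZMod m) b Λ s := by
  unfold DSg
  rw [dif_neg (NeZero.ne m)]

private theorem SL_psi_abs (t : ℝ) : |psi0 t| ≤ 1 := by
  unfold psi0
  have h1 := Real.smoothTransition.nonneg (t + 1)
  have h2 := Real.smoothTransition.le_one (t + 1)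
  have h3 := Real.smoothTransition.nonneg t
  have h4 := Real.smoothTransition.le_one t
  rw [abs_le]
  constructor <;> linarith

private theorem SL_psi_supp (t : ℝ) (h : psi0 t ≠ 0) : t < 1 := by
  by_contra h1
  push Not at h1
  apply h
  unfold psi0
  rw [Real.smoothTransition.one_of_one_le (by linarith), Real.smoothTransition.one_of_one_le h1, sub_self]

/-- Crude bound of the long dual sum. -/
private theorem SL_DSg (k : ℕ) (hk : 1 ≤ k) (m n : ℕ) (b : B3) (Λ : ℕ) (y : ℝ) :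
    ‖DSg m n b Λ (1 - line (-(k : ℝ) - 1 / 2) y)‖ ≤
      8 * (m : ℝ) ^ 3 * ((Λ : ℝ) + 1) ^ (-((k : ℝ) - 1 / 2)) * ∑' a : SD.Tr, (SD.pr a : ℝ) ^ (-(2 : ℝ)) := by
  have hk' : (1 : ℝ) ≤ k := by exact_mod_cast hk
  have hS := SD.summable_pr (σ := 2) (by norm_num)
  have hS0 : 0 ≤ ∑' a : SD.Tr, (SD.pr a : ℝ) ^ (-(2 : ℝ)) := tsum_nonneg fun a => by positivity
  unfold DSg
  split_ifs with h
  · rw [norm_zero]
    positivity
  · haveI : NeZero m := ⟨h⟩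
    unfold DSgt
    have hsum := (hS.mul_left (8 * (m : ℝ) ^ 3 * ((Λ : ℝ) + 1) ^ (-((k : ℝ) - 1 / 2)))).hasSum
    rw [tsum_mul_left] at hsum
    refine tsum_of_norm_bounded hsum fun a => ?_
    split_ifs with h1
    · rw [norm_zero]
      positivity
    · push Not at h1
      have hp : ((Λ : ℝ) + 1) ≤ (SD.pr a : ℝ) := by exact_mod_cast h1
      have hp0 : (0 : ℝ) < (SD.pr a : ℝ) := by exact_mod_cast SD.pr_pos a
      have hL0 : (0 : ℝ) < (Λ : ℝ) + 1 := by positivity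
      rw [norm_mul, SD.norm_pr_cpow]
      have hre : (-(1 - line (-(k : ℝ) - 1 / 2) y)).re = -((k : ℝ) - 1 / 2) + -2 := by
        unfold line
        simp
        ring
      rw [hre, Real.rpow_add hp0]
      have h2 : (SD.pr a : ℝ) ^ (-((k : ℝ) - 1 / 2)) ≤ ((Λ : ℝ) + 1) ^ (-((k : ℝ) - 1 / 2)) :=
        Real.rpow_le_rpow_of_nonpos hL0 hp (by linarith)
      have h3 := FT_Ph_norm m (n : ZMod m) (SD.sl m b a)
      have h4 : 0 ≤ (SD.pr a : ℝ) ^ (-(2 : ℝ)) := by positivity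
      calc ‖FT m (SD.Ph m (n : ZMod m)) (SD.sl m b a)‖ *
            ((SD.pr a : ℝ) ^ (-((k : ℝ) - 1 / 2)) * (SD.pr a : ℝ) ^ (-(2 : ℝ)))
          ≤ (8 * (m : ℝ) ^ 3) * (((Λ : ℝ) + 1) ^ (-((k : ℝ) - 1 / 2)) * (SD.pr a : ℝ) ^ (-(2 : ℝ))) := by
            refine mul_le_mul h3 (mul_le_mul_of_nonneg_right h2 h4) (by positivity) (by positivity)
        _ = 8 * (m : ℝ) ^ 3 * ((Λ : ℝ) + 1) ^ (-((k : ℝ) - 1 / 2)) * (SD.pr a : ℝ) ^ (-(2 : ℝ)) := by ring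

/-- The long part for one fraction. -/
theorem long_one (κ : ℝ) (hκ : 0 < κ) (hκ1 : κ ≤ 1) (k : ℕ) (hkk : 12 ≤ κ * k) (ε₁ δ : ℝ) (hε1 : 0 < ε₁) (hδ : 0 < δ)
    (hδ1 : (4 * (k : ℝ) + 6) * δ ≤ 1 / 10) :
    ∃ C T₀ : ℝ, 0 < C ∧ ∀ T : ℝ, T₀ ≤ T → ∀ u : ℝ, ε₁ * T ≤ u → u ≤ T → ∀ m n j : ℕ, 1 ≤ m → 1 ≤ n →
      (m : ℝ) ≤ T → (n : ℝ) ≤ T → Real.log m ≤ (j : ℝ) + 1 → ∀ b : B3,
      ‖∫ y : ℝ, Om T (T ^ (1 - δ)) u b (line (-(k : ℝ) - 1 / 2) y) *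
          ((n * m ^ 2 : ℕ) : ℂ) ^ (-(line (-(k : ℝ) - 1 / 2) y)) *
          DSg m n b (Lam κ T n j) (1 - line (-(k : ℝ) - 1 / 2) y)‖ ≤ C * T ^ (-(7 : ℝ)) := by
  have hk12 : (12 : ℝ) ≤ k := by
    have : κ * k ≤ 1 * k := mul_le_mul_of_nonneg_right hκ1 (Nat.cast_nonneg k)
    linarith
  have hk1 : 1 ≤ k := by
    have : (1 : ℝ) ≤ k := by linarith
    exact_mod_cast this
  have hδ2 : δ ≤ 1 / 10 := by
    have : 1 * δ ≤ (4 * (k : ℝ) + 6) * δ := mul_le_mul_of_nonneg_right (by linarith) hδ.le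
    linarith
  obtain ⟨C, T₁, hC, hOm⟩ := Om_left k 0 ε₁ δ hε1 hδ hδ2
  obtain ⟨S, hSdef⟩ : ∃ S : ℝ, S = ∑' a : SD.Tr, (SD.pr a : ℝ) ^ (-(2 : ℝ)) := ⟨_, rfl⟩
  have hS0 : 0 ≤ S := by
    rw [hSdef]
    exact tsum_nonneg fun a => by positivity
  refine ⟨8 * C * S + 1, max T₁ 2, by positivity, fun T hT u hu1 hu2 m n j hm1 hn1 hmT hnT hlog b => ?_⟩
  have hT1 : T₁ ≤ T := (le_max_left _ _).trans hT
  have hT2 : 2 ≤ T := (le_max_right _ _).trans hT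
  have hT0 : 0 < T := by linarith
  have hTge1 : 1 ≤ T := by linarith
  suffices hmain : ‖∫ y : ℝ, Om T (T ^ (1 - δ)) u b (line (-(k : ℝ) - 1 / 2) y) *
          ((n * m ^ 2 : ℕ) : ℂ) ^ (-(line (-(k : ℝ) - 1 / 2) y)) *
          DSg m n b (Lam κ T n j) (1 - line (-(k : ℝ) - 1 / 2) y)‖ ≤
        8 * C * S * T ^ ((6 : ℝ) + (1 / 10 - 2 - (κ * k - κ / 2))) by
    refine hmain.trans ?_
    have h1 : T ^ ((6 : ℝ) + (1 / 10 - 2 - (κ * k - κ / 2))) ≤ T ^ (-(7 : ℝ)) :=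
      Real.rpow_le_rpow_of_exponent_le hTge1 (by linarith)
    have h2 : 0 ≤ T ^ (-(7 : ℝ)) := by positivity
    calc 8 * C * S * T ^ ((6 : ℝ) + (1 / 10 - 2 - (κ * k - κ / 2))) ≤ 8 * C * S * T ^ (-(7 : ℝ)) :=
          mul_le_mul_of_nonneg_left h1 (by positivity)
      _ ≤ (8 * C * S + 1) * T ^ (-(7 : ℝ)) := mul_le_mul_of_nonneg_right (by linarith) h2
  have hm : (1 : ℝ) ≤ m := by exact_mod_cast hm1
  have hn : (1 : ℝ) ≤ n := by exact_mod_cast hn1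
  have hXpos : 0 < n * m ^ 2 := Nat.mul_pos hn1 (pow_pos hm1 2)
  have hX : (0 : ℝ) < (n : ℝ) * (m : ℝ) ^ 2 := by positivity
  obtain ⟨hOi, hOb⟩ := hOm T hT1 u hu1 hu2 b
  simp only [pow_zero, one_mul] at hOi hOb
  have hme : (m : ℝ) ≤ Real.exp ((j : ℝ) + 1) := by
    calc (m : ℝ) = Real.exp (Real.log m) := (Real.exp_log (by linarith)).symm
      _ ≤ _ := Real.exp_le_exp.2 hlog
  have hLam : T ^ (κ - 1) * ((n : ℝ) * (m : ℝ) ^ 2) ≤ (Lam κ T n j : ℝ) + 1 := by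
    have h1 : T ^ (κ - 1) * n * Real.exp (2 * ((j : ℝ) + 1)) < (Lam κ T n j : ℝ) + 1 := by
      unfold Lam
      exact Nat.lt_floor_add_one _
    have h2 : (m : ℝ) ^ 2 ≤ Real.exp (2 * ((j : ℝ) + 1)) := by
      calc (m : ℝ) ^ 2 ≤ Real.exp ((j : ℝ) + 1) ^ 2 := pow_le_pow_left₀ (by linarith) hme 2
        _ = Real.exp (2 * ((j : ℝ) + 1)) := by
          rw [← Real.exp_nat_mul]
          norm_num
    have h3 : 0 ≤ T ^ (κ - 1) * (n : ℝ) := by positivity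
    calc T ^ (κ - 1) * ((n : ℝ) * (m : ℝ) ^ 2) = T ^ (κ - 1) * (n : ℝ) * (m : ℝ) ^ 2 := by ring
      _ ≤ T ^ (κ - 1) * (n : ℝ) * Real.exp (2 * ((j : ℝ) + 1)) := mul_le_mul_of_nonneg_left h2 h3
      _ ≤ _ := h1.le
  have hLp : ((Lam κ T n j : ℝ) + 1) ^ (-((k : ℝ) - 1 / 2)) ≤
      T ^ ((1 - κ) * ((k : ℝ) - 1 / 2)) * ((n : ℝ) * (m : ℝ) ^ 2) ^ (-((k : ℝ) - 1 / 2)) := by
    calc ((Lam κ T n j : ℝ) + 1) ^ (-((k : ℝ) - 1 / 2))
        ≤ (T ^ (κ - 1) * ((n : ℝ) * (m : ℝ) ^ 2)) ^ (-((k : ℝ) - 1 / 2)) :=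
          Real.rpow_le_rpow_of_nonpos (by positivity) hLam (by linarith)
      _ = _ := by
          rw [Real.mul_rpow (by positivity) (by positivity), ← Real.rpow_mul hT0.le]
          congr 2
          ring
  have hbd : ∀ y : ℝ, ‖Om T (T ^ (1 - δ)) u b (line (-(k : ℝ) - 1 / 2) y) *
        ((n * m ^ 2 : ℕ) : ℂ) ^ (-(line (-(k : ℝ) - 1 / 2) y)) *
        DSg m n b (Lam κ T n j) (1 - line (-(k : ℝ) - 1 / 2) y)‖ ≤
      ‖Om T (T ^ (1 - δ)) u b (line (-(k : ℝ) - 1 / 2) y)‖ *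
        (8 * S * T ^ ((6 : ℝ) + (1 - κ) * ((k : ℝ) - 1 / 2))) := by
    intro y
    rw [norm_mul, norm_mul, mul_assoc]
    refine mul_le_mul_of_nonneg_left ?_ (norm_nonneg _)
    rw [Complex.norm_natCast_cpow_of_pos hXpos]
    have hre : (-(line (-(k : ℝ) - 1 / 2) y)).re = (k : ℝ) + 1 / 2 := by
      unfold line
      simp
      ring
    rw [hre]
    have h1 := SL_DSg k hk1 m n b (Lam κ T n j) y
    rw [← hSdef] at h1
    have h2 : ((n * m ^ 2 : ℕ) : ℝ) = (n : ℝ) * (m : ℝ) ^ 2 := by push_cast; ring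
    rw [h2]
    have h3 : ((n : ℝ) * (m : ℝ) ^ 2) ^ ((k : ℝ) + 1 / 2) * ((n : ℝ) * (m : ℝ) ^ 2) ^ (-((k : ℝ) - 1 / 2)) =
        (n : ℝ) * (m : ℝ) ^ 2 := by
      rw [← Real.rpow_add hX]
      rw [show (k : ℝ) + 1 / 2 + -((k : ℝ) - 1 / 2) = 1 by ring, Real.rpow_one]
    have h4 : (m : ℝ) ^ 3 ≤ T ^ 3 := pow_le_pow_left₀ (by linarith) hmT 3
    have h5 : (n : ℝ) * (m : ℝ) ^ 2 ≤ T ^ 3 := by
      calc (n : ℝ) * (m : ℝ) ^ 2 ≤ T * T ^ 2 :=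
            mul_le_mul hnT (pow_le_pow_left₀ (by linarith) hmT 2) (by positivity) hT0.le
        _ = T ^ 3 := by ring
    calc ((n : ℝ) * (m : ℝ) ^ 2) ^ ((k : ℝ) + 1 / 2) *
          ‖DSg m n b (Lam κ T n j) (1 - line (-(k : ℝ) - 1 / 2) y)‖
        ≤ ((n : ℝ) * (m : ℝ) ^ 2) ^ ((k : ℝ) + 1 / 2) *
            (8 * (m : ℝ) ^ 3 * (T ^ ((1 - κ) * ((k : ℝ) - 1 / 2)) *
              ((n : ℝ) * (m : ℝ) ^ 2) ^ (-((k : ℝ) - 1 / 2))) * S) := by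
          refine mul_le_mul_of_nonneg_left (h1.trans ?_) (by positivity)
          refine mul_le_mul_of_nonneg_right ?_ hS0
          exact mul_le_mul_of_nonneg_left hLp (by positivity)
      _ = 8 * S * (m : ℝ) ^ 3 * T ^ ((1 - κ) * ((k : ℝ) - 1 / 2)) *
            (((n : ℝ) * (m : ℝ) ^ 2) ^ ((k : ℝ) + 1 / 2) *
              ((n : ℝ) * (m : ℝ) ^ 2) ^ (-((k : ℝ) - 1 / 2))) := by ring
      _ = 8 * S * (m : ℝ) ^ 3 * T ^ ((1 - κ) * ((k : ℝ) - 1 / 2)) * ((n : ℝ) * (m : ℝ) ^ 2) := by rw [h3]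
      _ ≤ 8 * S * T ^ 3 * T ^ ((1 - κ) * ((k : ℝ) - 1 / 2)) * T ^ 3 := by
          refine mul_le_mul ?_ h5 (by positivity) (by positivity)
          refine mul_le_mul_of_nonneg_right ?_ (by positivity)
          exact mul_le_mul_of_nonneg_left h4 (by positivity)
      _ = 8 * S * T ^ ((6 : ℝ) + (1 - κ) * ((k : ℝ) - 1 / 2)) := by
          rw [Real.rpow_add hT0, show (6 : ℝ) = ((6 : ℕ) : ℝ) by norm_num, Real.rpow_natCast]
          ring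
  calc _ ≤ ∫ y : ℝ, ‖Om T (T ^ (1 - δ)) u b (line (-(k : ℝ) - 1 / 2) y)‖ *
        (8 * S * T ^ ((6 : ℝ) + (1 - κ) * ((k : ℝ) - 1 / 2))) :=
        norm_integral_le_of_norm_le (hOi.mul_const _) (Filter.Eventually.of_forall hbd)
    _ = (∫ y : ℝ, ‖Om T (T ^ (1 - δ)) u b (line (-(k : ℝ) - 1 / 2) y)‖) *
        (8 * S * T ^ ((6 : ℝ) + (1 - κ) * ((k : ℝ) - 1 / 2))) := integral_mul_const _ _
    _ ≤ (C * T ^ ((((0 : ℕ) : ℝ) + 4 * k + 6) * δ - k - 3 / 2)) *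
        (8 * S * T ^ ((6 : ℝ) + (1 - κ) * ((k : ℝ) - 1 / 2))) :=
        mul_le_mul_of_nonneg_right hOb (by positivity)
    _ ≤ (C * T ^ ((1 : ℝ) / 10 - k - 3 / 2)) *
        (8 * S * T ^ ((6 : ℝ) + (1 - κ) * ((k : ℝ) - 1 / 2))) := by
        refine mul_le_mul_of_nonneg_right ?_ (by positivity)
        refine mul_le_mul_of_nonneg_left ?_ hC.le
        refine Real.rpow_le_rpow_of_exponent_le hTge1 ?_
        push_cast
        linarith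
    _ = 8 * C * S * (T ^ ((1 : ℝ) / 10 - k - 3 / 2) * T ^ ((6 : ℝ) + (1 - κ) * ((k : ℝ) - 1 / 2))) := by ring
    _ = _ := by
        rw [← Real.rpow_add hT0]
        congr 2
        ring

/-- The long part. -/
theorem long_part (P : ℝ × ℝ × ℝ → ℝ) (ε : ℝ) (hP : AdmP ε P) (κ : ℝ) (hκ : 0 < κ) (hκ1 : κ ≤ 1) (k : ℕ)
    (hk : 12 / κ ≤ k) (ε₁ δ : ℝ) (hε1 : 0 < ε₁) (hδ : 0 < δ) (hδ1 : (4 * (k : ℝ) + 6) * δ ≤ 1 / 10) :
    ∃ T₀ : ℝ, ∀ T : ℝ, T₀ ≤ T → ∀ u : ℝ, ε₁ * T ≤ u → u ≤ T → ∀ j : ℕ,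
      ‖∑ q ∈ idx T, (cP P T q : ℂ) * ((psi0 (Real.log q.1 - j) * √((q.2 : ℝ) / q.1) : ℝ) : ℂ) * ∑ b : B3,
        ∫ y : ℝ, Om T (T ^ (1 - δ)) u b (line (-(k : ℝ) - 1 / 2) y) *
          ((q.2 * q.1 ^ 2 : ℕ) : ℂ) ^ (-(line (-(k : ℝ) - 1 / 2) y)) *
          DSg q.1 q.2 b (Lam κ T q.2 j) (1 - line (-(k : ℝ) - 1 / 2) y)‖ ≤ T ^ (-(1 : ℝ)) := by
  have hkk : (12 : ℝ) ≤ κ * k := by
    rw [div_le_iff₀ hκ] at hk
    linarith
  have hk12 : (12 : ℝ) ≤ k := by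
    have : κ * k ≤ 1 * k := mul_le_mul_of_nonneg_right hκ1 (Nat.cast_nonneg k)
    linarith
  have hk1 : 1 ≤ k := by
    have : (1 : ℝ) ≤ k := by linarith
    exact_mod_cast this
  have hδ2 : δ ≤ 1 / 10 := by
    have : 1 * δ ≤ (4 * (k : ℝ) + 6) * δ := mul_le_mul_of_nonneg_right (by linarith) hδ.le
    linarith
  obtain ⟨C, T₁, hC, hOne⟩ := long_one κ hκ hκ1 k hkk ε₁ δ hε1 hδ hδ1
  obtain ⟨M, hM, hcP⟩ := cP_bound P ε hP
  refine ⟨max (max T₁ 2) (8 * M * C), fun T hT u hu1 hu2 j => ?_⟩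
  have hT1 : T₁ ≤ T := ((le_max_left _ _).trans (le_max_left _ _)).trans hT
  have hT2 : 2 ≤ T := ((le_max_right _ _).trans (le_max_left _ _)).trans hT
  have hTC : 8 * M * C ≤ T := (le_max_right _ _).trans hT
  have hT0 : 0 < T := by linarith
  have hTge1 : 1 ≤ T := by linarith
  -- the integral for one `b`
  have hint : ∀ q ∈ idx T, psi0 (Real.log q.1 - j) ≠ 0 → ∀ b : B3,
      ‖∫ y : ℝ, Om T (T ^ (1 - δ)) u b (line (-(k : ℝ) - 1 / 2) y) *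
          ((q.2 * q.1 ^ 2 : ℕ) : ℂ) ^ (-(line (-(k : ℝ) - 1 / 2) y)) *
          DSg q.1 q.2 b (Lam κ T q.2 j) (1 - line (-(k : ℝ) - 1 / 2) y)‖ ≤ C * T ^ (-(7 : ℝ)) := by
    intro q hq hpsi b
    simp only [idx, Finset.mem_filter, Finset.mem_product, Finset.mem_Icc] at hq
    obtain ⟨⟨⟨hm1, hm2⟩, hn1, hn2⟩, _⟩ := hq
    exact hOne T hT1 u hu1 hu2 q.1 q.2 j hm1 hn1 ((Nat.le_floor_iff hT0.le).mp hm2)
      ((Nat.le_floor_iff hT0.le).mp hn2) (by linarith [SL_psi_supp _ hpsi]) b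
  -- one fraction
  have hone : ∀ q ∈ idx T, ‖(cP P T q : ℂ) * ((psi0 (Real.log q.1 - j) * √((q.2 : ℝ) / q.1) : ℝ) : ℂ) * ∑ b : B3,
        ∫ y : ℝ, Om T (T ^ (1 - δ)) u b (line (-(k : ℝ) - 1 / 2) y) *
          ((q.2 * q.1 ^ 2 : ℕ) : ℂ) ^ (-(line (-(k : ℝ) - 1 / 2) y)) *
          DSg q.1 q.2 b (Lam κ T q.2 j) (1 - line (-(k : ℝ) - 1 / 2) y)‖ ≤
      8 * M * C * T ^ (-(5 : ℝ)) := by
    intro q hq
    by_cases hpsi : psi0 (Real.log q.1 - j) = 0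
    · rw [hpsi]
      simp only [zero_mul, Complex.ofReal_zero, mul_zero, norm_zero]
      positivity
    have hq' := hq
    simp only [idx, Finset.mem_filter, Finset.mem_product, Finset.mem_Icc] at hq'
    obtain ⟨⟨⟨hm1, hm2⟩, hn1, hn2⟩, _⟩ := hq'
    have hm : (1 : ℝ) ≤ q.1 := by exact_mod_cast hm1
    have hn : (1 : ℝ) ≤ q.2 := by exact_mod_cast hn1
    have hmT : (q.1 : ℝ) ≤ T := (Nat.le_floor_iff hT0.le).mp hm2
    have hnT : (q.2 : ℝ) ≤ T := (Nat.le_floor_iff hT0.le).mp hn2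
    have h1 : |cP P T q| ≤ M * T := by
      refine ((hcP T hT2 q hq).1).trans ?_
      have h2 : hh q.1 ≤ T := by
        have h3 : hh q.1 ≤ (q.1 : ℝ) := by
          unfold hh
          calc ∑ d ∈ q.1.divisors, (Nat.totient d : ℝ) / d ≤ ∑ d ∈ q.1.divisors, (1 : ℝ) := by
                refine Finset.sum_le_sum fun d hd => ?_
                have hd0 : 0 < d := Nat.pos_of_mem_divisors hd
                have hd1 : (0 : ℝ) < d := by exact_mod_cast hd0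
                rw [div_le_one hd1]
                exact_mod_cast Nat.totient_le d
            _ = (q.1.divisors.card : ℝ) := by simp
            _ ≤ (q.1 : ℝ) := by exact_mod_cast Nat.card_divisors_le_self q.1
        exact h3.trans hmT
      have h4 : ((q.1 : ℝ) * q.2) ^ (-(1 / 2) : ℝ) ≤ 1 := by
        refine Real.rpow_le_one_of_one_le_of_nonpos ?_ (by norm_num)
        nlinarith
      have h5 : 0 ≤ ((q.1 : ℝ) * q.2) ^ (-(1 / 2) : ℝ) := by positivity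
      calc M * hh q.1 * ((q.1 : ℝ) * q.2) ^ (-(1 / 2) : ℝ) ≤ (M * T) * 1 := by
            refine mul_le_mul ?_ h4 h5 (by positivity)
            exact mul_le_mul_of_nonneg_left h2 hM.le
        _ = M * T := mul_one _
    have h2 : |psi0 (Real.log q.1 - j) * √((q.2 : ℝ) / q.1)| ≤ T := by
      rw [abs_mul, abs_of_nonneg (Real.sqrt_nonneg _)]
      have h3 : √((q.2 : ℝ) / q.1) ≤ T := by
        rw [Real.sqrt_le_left hT0.le]
        calc (q.2 : ℝ) / q.1 ≤ q.2 := div_le_self (by linarith) hm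
          _ ≤ T := hnT
          _ ≤ T ^ 2 := by nlinarith
      calc |psi0 (Real.log q.1 - j)| * √((q.2 : ℝ) / q.1) ≤ 1 * T :=
            mul_le_mul (SL_psi_abs _) h3 (Real.sqrt_nonneg _) zero_le_one
        _ = T := one_mul T
    have h3 : ‖∑ b : B3, ∫ y : ℝ, Om T (T ^ (1 - δ)) u b (line (-(k : ℝ) - 1 / 2) y) *
          ((q.2 * q.1 ^ 2 : ℕ) : ℂ) ^ (-(line (-(k : ℝ) - 1 / 2) y)) *
          DSg q.1 q.2 b (Lam κ T q.2 j) (1 - line (-(k : ℝ) - 1 / 2) y)‖ ≤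
        8 * (C * T ^ (-(7 : ℝ))) := by
      refine (norm_sum_le_of_le _ fun b _ => hint q hq hpsi b).trans ?_
      rw [Finset.sum_const, nsmul_eq_mul]
      have : ((Finset.univ : Finset B3).card : ℝ) = 8 := by
        simp [B3]
      rw [this]
    rw [norm_mul, norm_mul, Complex.norm_real, Complex.norm_real, Real.norm_eq_abs, Real.norm_eq_abs]
    calc _ ≤ (M * T * T) * (8 * (C * T ^ (-(7 : ℝ)))) := by
          refine mul_le_mul (mul_le_mul h1 h2 (abs_nonneg _) (by positivity)) h3 (norm_nonneg _) (by positivity)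
      _ = 8 * M * C * (T ^ 2 * T ^ (-(7 : ℝ))) := by ring
      _ = _ := by
          rw [← Real.rpow_natCast T 2, ← Real.rpow_add hT0]
          congr 2
          norm_num
  have hcard : ((idx T).card : ℝ) ≤ T ^ 2 := by
    have h1 : (idx T).card ≤ ⌊T⌋₊ * ⌊T⌋₊ := by
      unfold idx
      refine (Finset.card_filter_le _ _).trans ?_
      rw [Finset.card_product]
      simp
    have h2 : (⌊T⌋₊ : ℝ) ≤ T := Nat.floor_le hT0.le
    calc ((idx T).card : ℝ) ≤ (⌊T⌋₊ : ℝ) * ⌊T⌋₊ := by exact_mod_cast h1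
      _ ≤ T * T := mul_le_mul h2 h2 (Nat.cast_nonneg _) hT0.le
      _ = T ^ 2 := by ring
  refine (norm_sum_le_of_le _ hone).trans ?_
  rw [Finset.sum_const, nsmul_eq_mul]
  calc ((idx T).card : ℝ) * (8 * M * C * T ^ (-(5 : ℝ)))
      ≤ T ^ 2 * (T * T ^ (-(5 : ℝ))) := by
        refine mul_le_mul hcard ?_ (by positivity) (by positivity)
        exact mul_le_mul_of_nonneg_right hTC (by positivity)
    _ = T ^ ((3 : ℝ) + -(5 : ℝ)) := by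
        rw [Real.rpow_add hT0 3, show (3 : ℝ) = ((3 : ℕ) : ℝ) by norm_num, Real.rpow_natCast]
        ring
    _ ≤ T ^ (-(1 : ℝ)) := by
        refine Real.rpow_le_rpow_of_exponent_le hTge1 ?_
        norm_num

end Pool.Agent.LibSM56C
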