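import Pool.Agent.LibSM56C.S_Face2
import Pool.Agent.LibSM56C.S_A
import Pool.Agent.LibSM56A.A_D
import Pool.Agent.LibSM47.M_B1

/-! # SM56 part (C): `sgB_or`, `rrK_le`, `main_eq` -/

set_option autoImplicit false

namespace Pool.Agent.LibSM56C

open MeasureTheory Set Filter Topology Complex
open scoped ENNReal ComplexConjugate
open Pool.Agent.LibSM47 Pool.Agent.LibSM56 Pool.Agent.LibSM56A

theorem sgB_or (b : B3) : sgB b = 1 ∨ sgB b = -1 := by
  obtain ⟨b1, b2, b3⟩ := b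
  unfold sgB SD.sg
  cases b1 <;> cases b2 <;> cases b3 <;> simp

theorem mm_pr_pos (a : SD.Tr) : 1 ≤ SD.pr a := by
  unfold SD.pr
  have h1 := a.1.pos
  have h2 := a.2.1.pos
  have h3 := a.2.2.pos
  have := Nat.mul_pos (Nat.mul_pos h1 h2) h3
  omega

/-- the number of triples with given product -/
theorem mm_card (N : ℕ) (hN : 1 ≤ N) : ((trLe N).filter (fun a => SD.pr a = N)).card ≤ N.divisors.card * N.divisors.card := by
  classical
  rw [← Finset.card_product]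
  refine Finset.card_le_card_of_injOn (fun a => ((a.1 : ℕ), (a.2.1 : ℕ))) ?_ ?_
  · intro a ha
    have ha' := (Finset.mem_filter.mp ha).2
    simp only [Finset.coe_product, mem_prod, Finset.mem_coe, Nat.mem_divisors]
    unfold SD.pr at ha'
    refine ⟨⟨?_, by omega⟩, ⟨?_, by omega⟩⟩
    · exact ⟨(a.2.1 : ℕ) * a.2.2, by rw [← ha', mul_assoc]⟩
    · exact ⟨(a.1 : ℕ) * a.2.2, by rw [← ha']; ring⟩
  · intro a ha b hb h
    have ha' := (Finset.mem_filter.mp ha).2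
    have hb' := (Finset.mem_filter.mp hb).2
    simp only [Prod.mk.injEq] at h
    obtain ⟨h1, h2⟩ := h
    have e1 : a.1 = b.1 := PNat.coe_injective h1
    have e2 : a.2.1 = b.2.1 := PNat.coe_injective h2
    have e3 : a.2.2 = b.2.2 := by
      apply PNat.coe_injective
      unfold SD.pr at ha' hb'
      rw [← hb', h1, h2] at ha'
      have : 0 < (b.1 : ℕ) * (b.2.1 : ℕ) := Nat.mul_pos b.1.pos b.2.1.pos
      exact Nat.eq_of_mul_eq_mul_left this ha'
    exact Prod.ext e1 (Prod.ext e2 e3)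

theorem rrK_le (η : ℝ) (hη : 0 < η) : ∃ C : ℝ, 0 < C ∧ ∀ q k : ℕ, 1 ≤ q → 1 ≤ k → |rrK q k| ≤ C * ((q : ℝ) * k) ^ η := by
  obtain ⟨C1, hC1, h1⟩ := card_div_le (η / 5) (by positivity)
  refine ⟨C1 * C1 * C1, by positivity, fun q k hq hk => ?_⟩
  have hq0 : (1 : ℝ) ≤ q := by exact_mod_cast hq
  have hk0 : (1 : ℝ) ≤ k := by exact_mod_cast hk
  set N := q ^ 2 * k with hN
  have hN1 : 1 ≤ N := Nat.mul_pos (pow_pos (by omega) 2) (by omega)
  have h2 : |rrK q k| ≤ ((trLe N).filter (fun a => SD.pr a = N)).card * (q.divisors.card : ℝ) := by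
    unfold rrK
    refine (Finset.abs_sum_le_sum_abs _ _).trans ?_
    rw [← nsmul_eq_mul]
    refine Finset.sum_le_card_nsmul _ _ _ fun a _ => ?_
    rw [Nat.abs_cast]
    exact_mod_cast LibSM56K.rho_le q a
  have h3 : (((trLe N).filter (fun a => SD.pr a = N)).card : ℝ) ≤ (N.divisors.card : ℝ) * N.divisors.card := by
    exact_mod_cast mm_card N hN1
  have hd := h1 N hN1
  have hdq := h1 q hq
  have hNr : (N : ℝ) ^ (η / 5) ≤ ((q : ℝ) * k) ^ (2 * (η / 5)) := by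
    rw [Real.rpow_mul (by positivity)]
    refine Real.rpow_le_rpow (by positivity) ?_ (by positivity)
    rw [hN, Real.rpow_two]
    push_cast
    rw [mul_pow]
    have : (k : ℝ) ≤ (k : ℝ) ^ 2 := by nlinarith
    exact mul_le_mul_of_nonneg_left this (by positivity)
  have hqr : (q : ℝ) ^ (η / 5) ≤ ((q : ℝ) * k) ^ (η / 5) :=
    Real.rpow_le_rpow (by positivity) (le_mul_of_one_le_right (by positivity) hk0) (by positivity)
  have hX : 0 < (q : ℝ) * k := by positivity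
  calc |rrK q k| ≤ ((trLe N).filter (fun a => SD.pr a = N)).card * (q.divisors.card : ℝ) := h2
    _ ≤ ((N.divisors.card : ℝ) * N.divisors.card) * (q.divisors.card : ℝ) := by gcongr
    _ ≤ ((C1 * (N : ℝ) ^ (η / 5)) * (C1 * (N : ℝ) ^ (η / 5))) * (C1 * (q : ℝ) ^ (η / 5)) := by gcongr
    _ ≤ ((C1 * ((q : ℝ) * k) ^ (2 * (η / 5))) * (C1 * ((q : ℝ) * k) ^ (2 * (η / 5)))) * (C1 * ((q : ℝ) * k) ^ (η / 5)) := by
        gcongr
    _ = C1 * C1 * C1 * (((q : ℝ) * k) ^ (2 * (η / 5)) * ((q : ℝ) * k) ^ (2 * (η / 5)) * ((q : ℝ) * k) ^ (η / 5)) := by ring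
    _ = C1 * C1 * C1 * ((q : ℝ) * k) ^ η := by
        rw [← Real.rpow_add hX, ← Real.rpow_add hX]
        congr 2
        ring

/-- regrouping of the triples by `k = pr a / q²` -/
theorem mm_regroup (q : ℕ) (hq : 1 ≤ q) (Λ : ℕ) (G : ℕ → ℂ) (s : ℂ) :
    ∑ a ∈ trLe Λ, (LibSM56K.rho q a : ℂ) * G (SD.pr a / q ^ 2) * (SD.pr a : ℂ) ^ (-(1 - s)) =
      ∑ k ∈ Finset.Icc 1 (Λ / q ^ 2), (rrK q k : ℂ) * ((q ^ 2 * k : ℕ) : ℂ) ^ (s - 1) * G k := by
  classical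
  have hq2 : 0 < q ^ 2 := pow_pos (by omega) 2
  have e1 : ∀ a ∈ trLe Λ, (LibSM56K.rho q a : ℂ) * G (SD.pr a / q ^ 2) * (SD.pr a : ℂ) ^ (-(1 - s)) =
      ∑ k ∈ Finset.Icc 1 (Λ / q ^ 2), if SD.pr a = q ^ 2 * k then
        (LibSM56K.rho q a : ℂ) * ((q ^ 2 * k : ℕ) : ℂ) ^ (s - 1) * G k else 0 := by
    intro a ha
    rw [mem_trLe] at ha
    by_cases hr : LibSM56K.rho q a = 0
    · rw [hr]
      simp
    · obtain ⟨k, hk⟩ := LibSM56K.rho_sq q a hr
      have hk1 : 1 ≤ k := by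
        by_contra h
        have : k = 0 := by omega
        rw [this, mul_zero] at hk
        have := mm_pr_pos a
        omega
      have hkm : k ∈ Finset.Icc 1 (Λ / q ^ 2) := by
        rw [Finset.mem_Icc, Nat.le_div_iff_mul_le hq2]
        exact ⟨hk1, by rw [mul_comm, ← hk]; exact ha⟩
      rw [Finset.sum_eq_single_of_mem k hkm]
      · rw [if_pos hk, hk, Nat.mul_div_cancel_left k hq2, show -(1 - s) = s - 1 by ring]
        ring
      · intro k' _ hne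
        rw [if_neg]
        intro h
        rw [hk] at h
        exact hne (Nat.eq_of_mul_eq_mul_left hq2 h).symm
  rw [Finset.sum_congr rfl e1, Finset.sum_comm]
  refine Finset.sum_congr rfl fun k hk => ?_
  rw [Finset.mem_Icc, Nat.le_div_iff_mul_le hq2] at hk
  rw [← Finset.sum_filter]
  have hset : (trLe Λ).filter (fun a => SD.pr a = q ^ 2 * k) = (trLe (q ^ 2 * k)).filter (fun a => SD.pr a = q ^ 2 * k) := by
    ext a
    rw [Finset.mem_filter, Finset.mem_filter, mem_trLe, mem_trLe]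
    constructor
    · rintro ⟨_, h⟩
      exact ⟨h.le, h⟩
    · rintro ⟨_, h⟩
      exact ⟨by rw [h, mul_comm]; exact hk.2, h⟩
  rw [hset]
  unfold rrK
  push_cast
  rw [Finset.sum_mul, Finset.sum_mul]

/-- the sum over `k` -/
noncomputable def mmH (Λ n m q : ℕ) (σ : ℤ) (s : ℂ) : ℂ :=
  ∑ k ∈ Finset.Icc 1 (Λ / q ^ 2), (rrK q k : ℂ) * ((q ^ 2 * k : ℕ) : ℂ) ^ (s - 1) *
    Sk (m / q) 1 (((σ * k : ℤ) : ZMod (m / q)) * ((n : ZMod (m / q))⁻¹))

/-- the weight -/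
noncomputable def mmW (a b c : ℝ → ℝ) (T : ℝ) (n m d : ℕ) : ℝ :=
  (Nat.totient d : ℝ) / d * a (Real.log d / Real.log T) * c (Real.log n / Real.log T) *
    b ((Real.log m - Real.log d) / Real.log T)

/-- one term -/
noncomputable def mmV (a b c : ℝ → ℝ) (T : ℝ) (Λ j : ℕ) (σ : ℤ) (s : ℂ) (n m d q : ℕ) : ℂ :=
  ((mmW a b c T n m d * psi0 (Real.log m - j) : ℝ) : ℂ) * ((n * m ^ 2 : ℕ) : ℂ) ^ (-s) * ((q : ℂ) * mmH Λ n m q σ s)

theorem mm_cpow (N : ℕ) (hN : 1 ≤ N) (s : ℂ) : ((N : ℕ) : ℂ) ^ (-s) = cexp (-s * (Real.log N : ℝ)) := by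
  rw [Complex.cpow_def_of_ne_zero (by exact_mod_cast (by omega : N ≠ 0)), ← Complex.natCast_log]
  congr 1
  ring

theorem mm_wt (b : ℝ → ℝ) (T : ℝ) (n d q j m' : ℕ) (hn : 1 ≤ n) (hq : 1 ≤ q) (hm : 1 ≤ m') (s : ℂ) :
    wt b T n d q j s (Real.log (√(n : ℝ) * m')) =
      ((b ((Real.log ((q * m' : ℕ) : ℝ) - Real.log d) / Real.log T) * psi0 (Real.log ((q * m' : ℕ) : ℝ) - j) : ℝ) : ℂ) *
        ((n * (q * m') ^ 2 : ℕ) : ℂ) ^ (-s) := by
  have hn0 : (0 : ℝ) < n := by exact_mod_cast hn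
  have hq0 : (0 : ℝ) < q := by exact_mod_cast hq
  have hm0 : (0 : ℝ) < m' := by exact_mod_cast hm
  have e1 : Real.log (√(n : ℝ) * m') = Real.log n / 2 + Real.log m' := by
    rw [Real.log_mul (Real.sqrt_pos.mpr hn0).ne' hm0.ne', Real.log_sqrt hn0.le]
  have e2 : Real.log ((q * m' : ℕ) : ℝ) = Real.log q + Real.log m' := by
    push_cast
    rw [Real.log_mul hq0.ne' hm0.ne']
  have e3 : Real.log ((n * (q * m') ^ 2 : ℕ) : ℝ) = Real.log n + 2 * (Real.log q + Real.log m') := by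
    push_cast
    rw [Real.log_mul hn0.ne' (by positivity), Real.log_pow, Real.log_mul hq0.ne' hm0.ne']
    push_cast
    ring
  unfold wt
  rw [mm_cpow _ (Nat.mul_pos hn (pow_pos (Nat.mul_pos hq hm) 2)), e3, e1, e2]
  congr 1
  · congr 2
    · congr 1
      ring
    · congr 1
      ring
  · congr 1
    push_cast
    ring

/-- the term of `(m, n)` -/
theorem mm_term (a b c : ℝ → ℝ) (T : ℝ) (m n Λ j : ℕ) (bb : B3) (s : ℂ) (hm : 1 ≤ m) (hn : 1 ≤ n) (hc : Nat.Coprime m n)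
    (hΛ : ∀ d ∈ m.divisors, mmW a b c T n m d * psi0 (Real.log m - j) ≠ 0 → Λ < m) :
    (cP (bx a b c) T (m, n) : ℂ) * ((psi0 (Real.log m - j) * √((n : ℝ) / m) : ℝ) : ℂ) *
        (((n * m ^ 2 : ℕ) : ℂ) ^ (-s) * DSn m n bb Λ (1 - s)) =
      ∑ d ∈ m.divisors, ∑ q ∈ m.divisors, mmV a b c T Λ j (sgB bb) s n m d q := by
  have hm0 : (0 : ℝ) < m := by exact_mod_cast hm
  have hn0 : (0 : ℝ) < n := by exact_mod_cast hn
  -- the coefficient
  have hcP : cP (bx a b c) T (m, n) * (psi0 (Real.log m - j) * √((n : ℝ) / m)) =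
      (∑ d ∈ m.divisors, mmW a b c T n m d * psi0 (Real.log m - j)) / m := by
    unfold cP
    simp only
    have h1 : ∑ x ∈ m.divisorsAntidiagonal, (Nat.totient x.1 : ℝ) / x.1 *
        bx a b c (Real.log x.1 / Real.log T, Real.log x.2 / Real.log T, Real.log n / Real.log T) =
        ∑ d ∈ m.divisors, mmW a b c T n m d := by
      rw [Nat.sum_divisorsAntidiagonal (fun i k => (Nat.totient i : ℝ) / i *
        bx a b c (Real.log i / Real.log T, Real.log k / Real.log T, Real.log n / Real.log T))]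
      refine Finset.sum_congr rfl fun d hd => ?_
      have hdm := Nat.dvd_of_mem_divisors hd
      have hd0 : (0 : ℝ) < d := by exact_mod_cast Nat.pos_of_mem_divisors hd
      have : Real.log ((m / d : ℕ) : ℝ) = Real.log m - Real.log d := by
        rw [Nat.cast_div hdm hd0.ne', Real.log_div hm0.ne' hd0.ne']
      unfold bx mmW
      simp only
      rw [this]
      ring
    rw [h1, ← Finset.sum_mul]
    have h2 : ((m : ℝ) * n) ^ (-(1 / 2) : ℝ) * √((n : ℝ) / m) = 1 / m := by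
      rw [Real.sqrt_eq_rpow, Real.mul_rpow hm0.le hn0.le, Real.div_rpow hn0.le hm0.le]
      have e1 : (n : ℝ) ^ (-(1 / 2) : ℝ) * (n : ℝ) ^ (1 / 2 : ℝ) = 1 := by
        rw [← Real.rpow_add hn0]; norm_num
      have e2 : (m : ℝ) ^ (-(1 / 2) : ℝ) / (m : ℝ) ^ (1 / 2 : ℝ) = 1 / m := by
        rw [← Real.rpow_sub hm0, show (-(1 / 2) - 1 / 2 : ℝ) = -1 by norm_num, Real.rpow_neg_one, one_div]
      calc (m : ℝ) ^ (-(1 / 2) : ℝ) * (n : ℝ) ^ (-(1 / 2) : ℝ) * ((n : ℝ) ^ (1 / 2 : ℝ) / (m : ℝ) ^ (1 / 2 : ℝ)) =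
          ((n : ℝ) ^ (-(1 / 2) : ℝ) * (n : ℝ) ^ (1 / 2 : ℝ)) * ((m : ℝ) ^ (-(1 / 2) : ℝ) / (m : ℝ) ^ (1 / 2 : ℝ)) := by ring
        _ = 1 / m := by rw [e1, e2, one_mul]
    calc ((m : ℝ) * n) ^ (-(1 / 2) : ℝ) * (∑ d ∈ m.divisors, mmW a b c T n m d) *
        (psi0 (Real.log m - j) * √((n : ℝ) / m)) =
        (((m : ℝ) * n) ^ (-(1 / 2) : ℝ) * √((n : ℝ) / m)) *
          ((∑ d ∈ m.divisors, mmW a b c T n m d) * psi0 (Real.log m - j)) := by ring
      _ = _ := by rw [h2]; ring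
  have hcP' : (cP (bx a b c) T (m, n) : ℂ) * ((psi0 (Real.log m - j) * √((n : ℝ) / m) : ℝ) : ℂ) =
      (∑ d ∈ m.divisors, ((mmW a b c T n m d * psi0 (Real.log m - j) : ℝ) : ℂ)) / m := by
    rw [← Complex.ofReal_mul, hcP]
    push_cast
    rfl
  by_cases hall : ∀ d ∈ m.divisors, mmW a b c T n m d * psi0 (Real.log m - j) = 0
  · rw [hcP']
    have z : ∑ d ∈ m.divisors, ((mmW a b c T n m d * psi0 (Real.log m - j) : ℝ) : ℂ) = 0 :=
      Finset.sum_eq_zero fun d hd => by rw [hall d hd, Complex.ofReal_zero]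
    rw [z, zero_div, zero_mul]
    symm
    refine Finset.sum_eq_zero fun d hd => Finset.sum_eq_zero fun q _ => ?_
    unfold mmV
    rw [hall d hd, Complex.ofReal_zero, zero_mul, zero_mul]
  · push Not at hall
    obtain ⟨d0, hd0, hne⟩ := hall
    have hlt : Λ < m := hΛ d0 hd0 hne
    have hmne : m ≠ 0 := by omega
    have : NeZero m := ⟨hmne⟩
    -- the dual sum
    have hDS : DSn m n bb Λ (1 - s) = (m : ℂ) * ∑ q ∈ m.divisors, (q : ℂ) * mmH Λ n m q (sgB bb) s := by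
      unfold DSn
      rw [dif_neg hmne]
      unfold DSle
      have h1 : ∀ t ∈ trLe Λ, FT m (SD.Ph m (n : ZMod m)) (SD.sl m bb t) * (SD.pr t : ℂ) ^ (-(1 - s)) =
          ∑ q ∈ m.divisors, (m : ℂ) * ((q : ℂ) * ((LibSM56K.rho q t : ℂ) *
            Sk (m / q) 1 (((sgB bb * ((SD.pr t / q ^ 2 : ℕ) : ℤ) : ℤ) : ZMod (m / q)) * ((n : ZMod (m / q))⁻¹)) *
            (SD.pr t : ℂ) ^ (-(1 - s)))) := by
        intro t ht
        rw [mem_trLe] at ht
        have hp1 := t.1.pos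
        have hp2 := t.2.1.pos
        have hp3 := t.2.2.pos
        have hprlt : (t.1 : ℕ) * (t.2.1 : ℕ) * (t.2.2 : ℕ) < m := lt_of_le_of_lt ht hlt
        have a1 : ¬ m ∣ (t.1 : ℕ) := fun h => by
          have := Nat.le_of_dvd hp1 h
          have : (t.1 : ℕ) ≤ (t.1 : ℕ) * (t.2.1 : ℕ) * (t.2.2 : ℕ) := by
            rw [mul_assoc]; exact Nat.le_mul_of_pos_right _ (Nat.mul_pos hp2 hp3)
          omega
        have a2 : ¬ m ∣ (t.2.1 : ℕ) := fun h => by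
          have := Nat.le_of_dvd hp2 h
          have : (t.2.1 : ℕ) ≤ (t.1 : ℕ) * (t.2.1 : ℕ) * (t.2.2 : ℕ) := by
            rw [mul_comm (t.1 : ℕ), mul_assoc]; exact Nat.le_mul_of_pos_right _ (Nat.mul_pos hp1 hp3)
          omega
        have a3 : ¬ m ∣ (t.2.2 : ℕ) := fun h => by
          have := Nat.le_of_dvd hp3 h
          have : (t.2.2 : ℕ) ≤ (t.1 : ℕ) * (t.2.1 : ℕ) * (t.2.2 : ℕ) :=
            Nat.le_mul_of_pos_left _ (Nat.mul_pos hp1 hp2)
          omega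
        rw [LibSM56K.FT_Ph_sl m n hc.symm bb t a1 a2 a3, Finset.mul_sum, Finset.sum_mul]
        refine Finset.sum_congr rfl fun q _ => ?_
        have e : (-(((SD.sg bb.1 * SD.sg bb.2.1 * SD.sg bb.2.2 : ℤ)) : ZMod (m / q)) *
            ((SD.pr t / q ^ 2 : ℕ) : ZMod (m / q)) * (n : ZMod (m / q))⁻¹) =
            ((sgB bb * ((SD.pr t / q ^ 2 : ℕ) : ℤ) : ℤ) : ZMod (m / q)) * ((n : ZMod (m / q))⁻¹) := by
          generalize SD.pr t / q ^ 2 = K
          unfold sgB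
          push_cast
          ring
        rw [e]
        show (m : ℂ) * ((q : ℂ) * (LibSM56K.rho q t : ℂ) * Sk (m / q) 1 _) * _ = _
        ring
      rw [Finset.sum_congr rfl h1, Finset.sum_comm, Finset.mul_sum]
      refine Finset.sum_congr rfl fun q hq => ?_
      rw [← Finset.mul_sum, ← Finset.mul_sum]
      congr 2
      unfold mmH
      exact mm_regroup q (Nat.pos_of_mem_divisors hq) Λ
        (fun k => Sk (m / q) 1 (((sgB bb * (k : ℤ) : ℤ) : ZMod (m / q)) * ((n : ZMod (m / q))⁻¹))) s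
    rw [hcP', hDS]
    have hmC : (m : ℂ) ≠ 0 := by exact_mod_cast hmne
    have h2 : ∀ A X B : ℂ, A / m * (X * ((m : ℂ) * B)) = A * (X * B) := by
      intro A X B
      field_simp
    rw [h2, Finset.sum_mul]
    refine Finset.sum_congr rfl fun d _ => ?_
    rw [← mul_assoc, Finset.mul_sum]
    refine Finset.sum_congr rfl fun q _ => ?_
    unfold mmV
    ring

/-- reordering for a fixed `n` -/
theorem mm_reorder (a b c : ℝ → ℝ) (T : ℝ) (Λ j n : ℕ) (σ : ℤ) (s : ℂ)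
    (hm : ∀ m d : ℕ, 1 ≤ m → 1 ≤ d → mmW a b c T n m d ≠ 0 → m ≤ ⌊T⌋₊) :
    ∑ m ∈ (Finset.Icc 1 ⌊T⌋₊).filter (fun m => Nat.Coprime m n), ∑ d ∈ m.divisors, ∑ q ∈ m.divisors,
        mmV a b c T Λ j σ s n m d q =
      ∑ d ∈ Finset.Icc 1 ⌊T⌋₊, ∑ q ∈ (Finset.Icc 1 (Nat.sqrt Λ)).filter (fun q => Nat.Coprime q n),
        ∑ m' ∈ (Finset.Icc 1 ⌊Real.exp (j + 1)⌋₊).filter (fun m' => d / Nat.gcd d q ∣ m' ∧ Nat.Coprime m' n),
          mmV a b c T Λ j σ s n (q * m') d q := by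
  have hL : ∀ m ∈ (Finset.Icc 1 ⌊T⌋₊).filter (fun m => Nat.Coprime m n), ∑ d ∈ m.divisors, ∑ q ∈ m.divisors,
        mmV a b c T Λ j σ s n m d q = ∑ p ∈ m.divisors ×ˢ m.divisors, mmV a b c T Λ j σ s n m p.1 p.2 := by
    intro m _
    rw [Finset.sum_product]
  rw [Finset.sum_congr rfl hL, Finset.sum_sigma']
  rw [← Finset.sum_product' (Finset.Icc 1 ⌊T⌋₊) ((Finset.Icc 1 (Nat.sqrt Λ)).filter (fun q => Nat.Coprime q n))
    (fun d q => ∑ m' ∈ (Finset.Icc 1 ⌊Real.exp (j + 1)⌋₊).filter (fun m' => d / Nat.gcd d q ∣ m' ∧ Nat.Coprime m' n),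
          mmV a b c T Λ j σ s n (q * m') d q), Finset.sum_sigma']
  have hdvd : ∀ d q m' : ℕ, 1 ≤ d → (d / Nat.gcd d q ∣ m' ↔ d ∣ q * m') := by
    intro d q m' hd
    have hg : 0 < Nat.gcd d q := Nat.gcd_pos_of_pos_left _ (by omega)
    obtain ⟨g, d', q', hg', hcop, rfl, rfl⟩ := Nat.exists_coprime' (m := d) (n := q) hg
    have hgcd : Nat.gcd (d' * g) (q' * g) = g := by
      rw [Nat.gcd_mul_right, hcop.gcd_eq_one, one_mul]
    rw [hgcd, Nat.mul_div_cancel _ hg', mul_comm d' g, mul_comm q' g, mul_assoc, Nat.mul_dvd_mul_iff_left hg']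
    exact ⟨fun h => Dvd.dvd.mul_left h q', fun h => hcop.dvd_of_dvd_mul_left h⟩
  have hVW : ∀ m d q : ℕ, mmV a b c T Λ j σ s n m d q ≠ 0 → mmW a b c T n m d ≠ 0 ∧ |Real.log m - j| < 1 ∧
      1 ≤ Λ / q ^ 2 := by
    intro m d q h
    unfold mmV at h
    refine ⟨fun h' => h ?_, ?_, ?_⟩
    · rw [h']; simp
    · by_contra h'
      push Not at h'
      apply h
      rw [psi0_supp _ h']
      simp
    · by_contra h'
      apply h
      unfold mmH
      rw [Finset.Icc_eq_empty (by omega)]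
      simp
  refine Finset.sum_bij_ne_zero (fun x _ _ => ⟨(x.2.1, x.2.2), x.1 / x.2.2⟩) ?_ ?_ ?_ ?_
  · rintro ⟨m, d, q⟩ hx hne
    simp only [Finset.mem_sigma, Finset.mem_filter, Finset.mem_Icc, Finset.mem_product, Nat.mem_divisors] at hx hne ⊢
    obtain ⟨⟨⟨hm1, hm2⟩, hmn⟩, ⟨hd, _⟩, ⟨hq, _⟩⟩ := hx
    obtain ⟨h1, h2, h3⟩ := hVW m d q hne
    have hq0 : 0 < q := Nat.pos_of_dvd_of_pos hq (by omega)
    have hd0 : 0 < d := Nat.pos_of_dvd_of_pos hd (by omega)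
    have hmq : q * (m / q) = m := Nat.mul_div_cancel' hq
    have hmq1 : 1 ≤ m / q := Nat.div_pos (Nat.le_of_dvd (by omega) hq) hq0
    refine ⟨⟨⟨hd0, (Nat.le_of_dvd (by omega) hd).trans hm2⟩, ⟨hq0, ?_⟩, Nat.Coprime.coprime_dvd_left hq hmn⟩, ⟨hmq1, ?_⟩,
      ?_, Nat.Coprime.coprime_dvd_left (Nat.div_dvd_of_dvd hq) hmn⟩
    · rw [Nat.le_sqrt']
      have := (Nat.le_div_iff_mul_le (pow_pos hq0 2)).mp h3
      omega
    · refine (Nat.div_le_self m q).trans (Nat.le_floor ?_)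
      have hm0 : (0 : ℝ) < m := by exact_mod_cast (by omega : 0 < m)
      have := (abs_lt.mp h2).2
      rw [← Real.log_le_iff_le_exp hm0]
      linarith
    · rw [hdvd d q (m / q) hd0, hmq]
      exact hd
  · rintro ⟨m, d, q⟩ hx _ ⟨m1, d1, q1⟩ hx1 _ h
    simp only [Finset.mem_sigma, Finset.mem_filter, Finset.mem_Icc, Finset.mem_product, Nat.mem_divisors] at hx hx1
    simp only [Sigma.mk.injEq, Prod.mk.injEq, heq_eq_eq] at h
    obtain ⟨⟨rfl, rfl⟩, h⟩ := h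
    have e1 : q * (m / q) = m := Nat.mul_div_cancel' hx.2.2.1
    have e2 : q * (m1 / q) = m1 := Nat.mul_div_cancel' hx1.2.2.1
    have : m = m1 := by rw [← e1, ← e2, h]
    rw [this]
  · rintro ⟨⟨d, q⟩, m'⟩ hy hne
    simp only [Finset.mem_sigma, Finset.mem_filter, Finset.mem_Icc, Finset.mem_product] at hy hne
    obtain ⟨⟨⟨hd1, hd2⟩, ⟨hq1, hq2⟩, hqn⟩, ⟨hm1, hm2⟩, hdm, hmn⟩ := hy
    obtain ⟨h1, h2, h3⟩ := hVW _ _ _ hne
    have hqm : 1 ≤ q * m' := Nat.mul_pos hq1 hm1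
    have hdiv : q * m' / q = m' := Nat.mul_div_cancel_left m' (by omega)
    refine ⟨⟨q * m', (d, q)⟩, ?_, ?_, ?_⟩
    · simp only [Finset.mem_sigma, Finset.mem_filter, Finset.mem_Icc, Finset.mem_product, Nat.mem_divisors]
      refine ⟨⟨⟨hqm, hm _ d hqm hd1 h1⟩, Nat.Coprime.mul_left hqn hmn⟩, ⟨(hdvd d q m' hd1).mp hdm, by omega⟩,
        ⟨Dvd.intro _ rfl, by omega⟩⟩
    · exact hne
    · simp only [hdiv]
  · rintro ⟨m, d, q⟩ hx _
    simp only [Finset.mem_sigma, Finset.mem_filter, Finset.mem_Icc, Finset.mem_product, Nat.mem_divisors] at hx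
    have e1 : q * (m / q) = m := Nat.mul_div_cancel' hx.2.2.1
    simp only [e1]

/-- `TT1` as a sum of `mmV` -/
theorem mm_TT1 (a b c : ℝ → ℝ) (κ T : ℝ) (j : ℕ) (σ : ℤ) (s : ℂ) :
    TT1 a b c rrK κ T j σ s = ∑ n ∈ Finset.Icc 1 ⌊T⌋₊, ∑ d ∈ Finset.Icc 1 ⌊T⌋₊,
      ∑ q ∈ (Finset.Icc 1 (Nat.sqrt (Lam κ T n j))).filter (fun q => Nat.Coprime q n),
        ∑ m' ∈ (Finset.Icc 1 ⌊Real.exp (j + 1)⌋₊).filter (fun m' => d / Nat.gcd d q ∣ m' ∧ Nat.Coprime m' n),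
          mmV a b c T (Lam κ T n j) j σ s n (q * m') d q := by
  unfold TT1
  refine Finset.sum_congr rfl fun n hn => Finset.sum_congr rfl fun d _ => ?_
  rw [Finset.mem_Icc] at hn
  rw [Finset.mul_sum]
  refine Finset.sum_congr rfl fun q hq => ?_
  rw [Finset.mem_filter, Finset.mem_Icc] at hq
  unfold kS innS
  have h1 : ∀ k ∈ Finset.Icc 1 (Lam κ T n j / q ^ 2), (rrK q k : ℂ) * ((q ^ 2 * k : ℕ) : ℂ) ^ (s - 1) *
      ∑ m ∈ (Finset.Icc 1 ⌊Real.exp (j + 1)⌋₊).filter (fun m => d / Nat.gcd d q ∣ m ∧ Nat.Coprime m n),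
        Sk m 1 (((σ * k : ℤ) : ZMod m) * ((n : ZMod m)⁻¹)) * wt b T n d q j s (Real.log (√(n : ℝ) * m)) =
      ∑ m ∈ (Finset.Icc 1 ⌊Real.exp (j + 1)⌋₊).filter (fun m => d / Nat.gcd d q ∣ m ∧ Nat.Coprime m n),
        wt b T n d q j s (Real.log (√(n : ℝ) * m)) * ((rrK q k : ℂ) * ((q ^ 2 * k : ℕ) : ℂ) ^ (s - 1) *
          Sk m 1 (((σ * k : ℤ) : ZMod m) * ((n : ZMod m)⁻¹))) := by
    intro k _
    rw [Finset.mul_sum]
    refine Finset.sum_congr rfl fun m _ => ?_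
    ring
  rw [Finset.sum_congr rfl h1, Finset.sum_comm, Finset.mul_sum, Finset.mul_sum]
  refine Finset.sum_congr rfl fun m hm => ?_
  rw [Finset.mem_filter, Finset.mem_Icc] at hm
  rw [← Finset.mul_sum, mm_wt b T n d q j m hn.1 hq.1.1 hm.1.1 s]
  unfold mmV mmH mmW
  have hqm : q * m / q = m := Nat.mul_div_cancel_left m (by omega)
  rw [hqm]
  push_cast
  ring

/-- the sum over `idx T` -/
theorem mm_idx (T : ℝ) (f : ℕ × ℕ → ℂ) :
    ∑ q ∈ idx T, f q = ∑ n ∈ Finset.Icc 1 ⌊T⌋₊, ∑ m ∈ (Finset.Icc 1 ⌊T⌋₊).filter (fun m => Nat.Coprime m n), f (m, n) := by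
  unfold idx
  rw [Finset.sum_filter, Finset.sum_product_right]
  refine Finset.sum_congr rfl fun n _ => ?_
  rw [Finset.sum_filter]

/-- `|TT1|` is the short part of the dual sums on the block `m ~ e^j`. -/
theorem main_eq (x : ℝ × ℝ × ℝ) (hx : x ∈ Base) : ∃ κ₀ : ℝ, 0 < κ₀ ∧ ∀ κ : ℝ, 0 < κ → κ ≤ κ₀ → ∀ a b c : ℝ → ℝ,
    (∀ t, κ ≤ |t - x.1| → a t = 0) → (∀ t, κ ≤ |t - x.2.1| → b t = 0) → (∀ t, κ ≤ |t - x.2.2| → c t = 0) →
    ∃ T₀ : ℝ, ∀ T : ℝ, T₀ ≤ T → ∀ (j : ℕ) (bb : B3) (s : ℂ),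
      ∑ q ∈ idx T, (cP (bx a b c) T q : ℂ) * ((psi0 (Real.log q.1 - j) * √((q.2 : ℝ) / q.1) : ℝ) : ℂ) *
        (((q.2 * q.1 ^ 2 : ℕ) : ℂ) ^ (-s) * DSn q.1 q.2 bb (Lam κ T q.2 j) (1 - s)) =
      TT1 a b c rrK κ T j (sgB bb) s := by
  obtain ⟨hx1, hx2, hx3, hx4, hx5⟩ := hx
  set δ := 1 - (x.1 + x.2.1 + x.2.2) with hδ
  have hδ0 : 0 < δ := by rw [hδ]; linarith
  refine ⟨δ / 8, by positivity, fun κ hκ hκδ a b c ha hb hc => ⟨Real.exp (16 / δ), fun T hT j bb s => ?_⟩⟩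
  have hexp1 : 1 < Real.exp (16 / δ) := Real.one_lt_exp_iff.mpr (by positivity)
  have hT1 : 1 < T := lt_of_lt_of_le hexp1 hT
  have hT0 : 0 < T := by linarith
  have hL : 0 < Real.log T := Real.log_pos hT1
  have hLδ : 16 ≤ δ * Real.log T := by
    have : 16 / δ ≤ Real.log T := by rw [Real.le_log_iff_exp_le hT0]; exact hT
    rw [div_le_iff₀ hδ0] at this
    linarith
  -- the support of the weight
  have hW : ∀ n m d : ℕ, mmW a b c T n m d ≠ 0 →
      Real.log m < (x.1 + x.2.1 + 2 * κ) * Real.log T ∧ Real.log n < (x.2.2 + κ) * Real.log T := by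
    intro n m d h
    unfold mmW at h
    have e1 : a (Real.log d / Real.log T) ≠ 0 := fun h' => h (by rw [h']; ring)
    have e2 : b ((Real.log m - Real.log d) / Real.log T) ≠ 0 := fun h' => h (by rw [h']; ring)
    have e3 : c (Real.log n / Real.log T) ≠ 0 := fun h' => h (by rw [h']; ring)
    have f1 : |Real.log d / Real.log T - x.1| < κ := by
      by_contra h'; push Not at h'; exact e1 (ha _ h')
    have f2 : |(Real.log m - Real.log d) / Real.log T - x.2.1| < κ := by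
      by_contra h'; push Not at h'; exact e2 (hb _ h')
    have f3 : |Real.log n / Real.log T - x.2.2| < κ := by
      by_contra h'; push Not at h'; exact e3 (hc _ h')
    have g1 := (abs_lt.mp f1).2
    have g2 := (abs_lt.mp f2).2
    have g3 := (abs_lt.mp f3).2
    have k1 : Real.log d / Real.log T < x.1 + κ := by linarith
    have k2 : (Real.log m - Real.log d) / Real.log T < x.2.1 + κ := by linarith
    have k3 : Real.log n / Real.log T < x.2.2 + κ := by linarith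
    rw [div_lt_iff₀ hL] at k1 k2 k3
    exact ⟨by nlinarith, k3⟩
  rw [mm_idx, mm_TT1]
  refine Finset.sum_congr rfl fun n hn => ?_
  rw [Finset.mem_Icc] at hn
  have hn0 : (0 : ℝ) < n := by exact_mod_cast hn.1
  rw [← mm_reorder a b c T (Lam κ T n j) j n (sgB bb) s]
  · refine Finset.sum_congr rfl fun m hm => ?_
    rw [Finset.mem_filter, Finset.mem_Icc] at hm
    refine mm_term a b c T m n (Lam κ T n j) j bb s hm.1.1 hn.1 hm.2 ?_
    intro d _ hne
    have hm0 : (0 : ℝ) < m := by exact_mod_cast hm.1.1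
    have hw : mmW a b c T n m d ≠ 0 := left_ne_zero_of_mul hne
    have hp : psi0 (Real.log m - j) ≠ 0 := right_ne_zero_of_mul hne
    obtain ⟨l1, l2⟩ := hW n m d hw
    have hj : |Real.log m - j| < 1 := by
      by_contra h'
      push Not at h'
      exact hp (psi0_supp _ h')
    have hj1 := (abs_lt.mp hj).1
    have hlt : T ^ (κ - 1) * n * Real.exp (2 * (j + 1)) < m := by
      rw [← Real.log_lt_log_iff (by positivity) hm0, Real.log_mul (by positivity) (by positivity),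
        Real.log_mul (by positivity) hn0.ne', Real.log_rpow hT0, Real.log_exp]
      have : (j : ℝ) < Real.log m + 1 := by linarith
      nlinarith
    unfold Lam
    have h2 : ((⌊T ^ (κ - 1) * n * Real.exp (2 * (j + 1))⌋₊ : ℕ) : ℝ) < m :=
      lt_of_le_of_lt (Nat.floor_le (by positivity)) hlt
    exact_mod_cast h2
  · intro m d hm1 hd1 hw
    obtain ⟨l1, l2⟩ := hW n m d hw
    have hm0 : (0 : ℝ) < m := by exact_mod_cast hm1
    refine Nat.le_floor ?_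
    rw [← Real.log_le_log_iff hm0 hT0]
    nlinarith

end Pool.Agent.LibSM56C
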