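import Pool.Agent.LibSM56C.S_Face2
import Pool.Agent.LibSM56C.S_A
import Pool.Agent.LibSM56C.S_E
import Pool.Agent.LibSM56C.S_M
import Pool.Agent.LibSM56C.S_Long
import Pool.Agent.LibSM56A.A_X4
import Pool.Agent.LibSM56A.A_E5
import Pool.Agent.LibSM56A.A_B2
import Pool.Agent.LibSM56A.A_D
import Pool.Agent.LibSM56A.A_F
import Pool.Agent.LibSM47.M_B1

/-! # SM56 part (C): `good_C` (helper29): assembly of the short and the long part. -/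

set_option autoImplicit false

namespace Pool.Agent.LibSM56C

open MeasureTheory Set Filter Topology Complex
open Pool.Agent.LibSM47 Pool.Agent.LibSM56 Pool.Agent.LibSM56A

private theorem gc_line_cont (c : ℝ) : Continuous (fun y : ℝ => line c y) := by
  unfold line
  fun_prop

private theorem gc_line_re (c y : ℝ) : (line c y).re = c := by
  unfold line
  simp

/-- Exchange of a finite sum and a vertical integral, with a quadratic weight. -/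
private theorem gc_int_sum {ι : Type*} (f : ℝ → ℂ) (hf : Continuous f) (hI : Integrable fun y : ℝ => (1 + |y|) ^ 2 * ‖f y‖)
    (S : Finset ι) (γ : ι → ℂ) (D : ι → ℝ → ℂ) (hD : ∀ n ∈ S, Continuous (D n)) (hb : ∀ n ∈ S, ∃ C : ℝ, ∀ y, ‖D n y‖ ≤ C)
    (K : ℝ) (hK : ∀ y, ‖∑ n ∈ S, γ n * D n y‖ ≤ K * (1 + |y|) ^ 2) :
    ‖∑ n ∈ S, γ n * ∫ y : ℝ, f y * D n y‖ ≤ K * ∫ y : ℝ, (1 + |y|) ^ 2 * ‖f y‖ := by
  have hfN : Integrable fun y : ℝ => ‖f y‖ := by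
    refine Integrable.mono' hI hf.norm.aestronglyMeasurable (Filter.Eventually.of_forall fun y => ?_)
    rw [norm_norm]
    have h1 : (1 : ℝ) ≤ (1 + |y|) ^ 2 := one_le_pow₀ (by linarith [abs_nonneg y])
    calc ‖f y‖ = 1 * ‖f y‖ := (one_mul _).symm
      _ ≤ (1 + |y|) ^ 2 * ‖f y‖ := mul_le_mul_of_nonneg_right h1 (norm_nonneg _)
  have hfI : Integrable f := (integrable_norm_iff hf.aestronglyMeasurable).1 hfN
  have h1 : ∀ n ∈ S, Integrable (fun y => f y * D n y) := by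
    intro n hn
    obtain ⟨C, hC⟩ := hb n hn
    exact hfI.mul_bdd (c := C) (hD n hn).aestronglyMeasurable (Filter.Eventually.of_forall hC)
  have h2 : ∑ n ∈ S, γ n * ∫ y : ℝ, f y * D n y = ∫ y : ℝ, f y * ∑ n ∈ S, γ n * D n y := by
    have h3 : ∀ n ∈ S, γ n * ∫ y : ℝ, f y * D n y = ∫ y : ℝ, γ n * (f y * D n y) := fun n _ => (integral_const_mul _ _).symm
    rw [Finset.sum_congr rfl h3, ← integral_finsetSum _ fun n hn => (h1 n hn).const_mul _]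
    refine integral_congr_ae (Filter.Eventually.of_forall fun y => ?_)
    dsimp only
    rw [Finset.mul_sum]
    refine Finset.sum_congr rfl fun n _ => ?_
    ring
  rw [h2, ← integral_const_mul]
  refine norm_integral_le_of_norm_le (hI.const_mul K) (Filter.Eventually.of_forall fun y => ?_)
  rw [norm_mul]
  calc ‖f y‖ * ‖∑ n ∈ S, γ n * D n y‖ ≤ ‖f y‖ * (K * (1 + |y|) ^ 2) :=
        mul_le_mul_of_nonneg_left (hK y) (norm_nonneg _)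
    _ = K * ((1 + |y|) ^ 2 * ‖f y‖) := by ring

private theorem gc_DSn_cont (m n : ℕ) (hm : m ≠ 0) (b : B3) (Λ : ℕ) (c : ℝ) :
    Continuous (fun y : ℝ => DSn m n b Λ (1 - line c y)) := by
  unfold DSn
  simp only [dif_neg hm]
  unfold DSle
  refine continuous_finsetSum _ fun a _ => ?_
  refine continuous_const.mul ?_
  refine Continuous.const_cpow ?_ (Or.inl ?_)
  · exact (continuous_const.sub (gc_line_cont c)).neg
  · have := (SD.pr_pos a).ne'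
    exact_mod_cast this

private theorem gc_DSn_bdd (m n : ℕ) (hm : m ≠ 0) (b : B3) (Λ : ℕ) (c : ℝ) :
    ∃ C : ℝ, ∀ y : ℝ, ‖DSn m n b Λ (1 - line c y)‖ ≤ C := by
  unfold DSn
  simp only [dif_neg hm]
  unfold DSle
  refine ⟨∑ a ∈ trLe Λ, ‖@FT m ⟨hm⟩ (@SD.Ph m ⟨hm⟩ (n : ZMod m)) (SD.sl m b a)‖ * (SD.pr a : ℝ) ^ (-(1 - c)), fun y => ?_⟩
  refine (norm_sum_le _ _).trans (Finset.sum_le_sum fun a _ => ?_)
  rw [norm_mul]
  refine mul_le_mul_of_nonneg_left (le_of_eq ?_) (norm_nonneg _)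
  have h : (SD.pr a : ℂ) = ((SD.pr a : ℝ) : ℂ) := by push_cast; rfl
  rw [h, Complex.norm_cpow_eq_rpow_re_of_pos (by exact_mod_cast SD.pr_pos a), Complex.neg_re, Complex.sub_re, gc_line_re,
    Complex.one_re]

private theorem gc_X_cont (m n : ℕ) (hm : 1 ≤ m) (hn : 1 ≤ n) (c : ℝ) :
    Continuous (fun y : ℝ => ((n * m ^ 2 : ℕ) : ℂ) ^ (-(line c y))) := by
  refine Continuous.const_cpow (gc_line_cont c).neg (Or.inl ?_)
  have : n * m ^ 2 ≠ 0 := by positivity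
  exact_mod_cast this

private theorem gc_X_norm (m n : ℕ) (hm : 1 ≤ m) (hn : 1 ≤ n) (c y : ℝ) :
    ‖((n * m ^ 2 : ℕ) : ℂ) ^ (-(line c y))‖ = ((n : ℝ) * (m : ℝ) ^ 2) ^ (-c) := by
  have h : ((n * m ^ 2 : ℕ) : ℂ) = (((n : ℝ) * (m : ℝ) ^ 2 : ℝ) : ℂ) := by push_cast; ring
  have hm0 : (0 : ℝ) < m := by exact_mod_cast hm
  have hn0 : (0 : ℝ) < n := by exact_mod_cast hn
  rw [h, Complex.norm_cpow_eq_rpow_re_of_pos (by positivity), Complex.neg_re, gc_line_re]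

/-- The coefficients are bounded. -/
private theorem gc_cP (P : ℝ × ℝ × ℝ → ℝ) (ε : ℝ) (hε : 0 < ε) (hP : AdmP ε P) : ∃ M : ℝ, 0 < M ∧ ∀ T : ℝ, 2 ≤ T → ∀ q ∈ idx T,
    |cP P T q| ≤ M := by
  obtain ⟨M, hM, h⟩ := Pool.Agent.LibSM56A.cP_bound P ε hε hP
  obtain ⟨D, hD, hd⟩ := card_div_le (1 / 2) (by norm_num)
  refine ⟨M * D, by positivity, fun T hT q hq => ?_⟩
  have hq1 : 1 ≤ q.1 ∧ 1 ≤ q.2 := by
    unfold idx at hq
    rw [Finset.mem_filter, Finset.mem_product, Finset.mem_Icc, Finset.mem_Icc] at hq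
    exact ⟨hq.1.1.1, hq.1.2.1⟩
  have hm1 : (1 : ℝ) ≤ q.1 := by exact_mod_cast hq1.1
  have hn1 : (1 : ℝ) ≤ q.2 := by exact_mod_cast hq1.2
  have h1 := (h T hT q hq).1
  have h2 : hh q.1 ≤ D * (q.1 : ℝ) ^ (1 / 2 : ℝ) := (hh_le_card q.1).trans (hd q.1 hq1.1)
  have h3 : ((q.1 : ℝ) * q.2) ^ (-(1 / 2) : ℝ) ≤ (q.1 : ℝ) ^ (-(1 / 2) : ℝ) := by
    rw [Real.mul_rpow (by linarith) (by linarith)]
    have : (q.2 : ℝ) ^ (-(1 / 2) : ℝ) ≤ 1 := Real.rpow_le_one_of_one_le_of_nonpos hn1 (by norm_num)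
    calc (q.1 : ℝ) ^ (-(1 / 2) : ℝ) * (q.2 : ℝ) ^ (-(1 / 2) : ℝ) ≤ (q.1 : ℝ) ^ (-(1 / 2) : ℝ) * 1 := by gcongr
      _ = _ := mul_one _
  have hh0 : 0 ≤ hh q.1 := by
    unfold hh
    exact Finset.sum_nonneg fun d _ => by positivity
  calc |cP P T q| ≤ M * hh q.1 * ((q.1 : ℝ) * q.2) ^ (-(1 / 2) : ℝ) := h1
    _ ≤ M * (D * (q.1 : ℝ) ^ (1 / 2 : ℝ)) * (q.1 : ℝ) ^ (-(1 / 2) : ℝ) := by gcongr
    _ = M * D * ((q.1 : ℝ) ^ (1 / 2 : ℝ) * (q.1 : ℝ) ^ (-(1 / 2) : ℝ)) := by ring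
    _ = M * D := by
      rw [← Real.rpow_add (by linarith)]
      norm_num

private theorem gc_card (T : ℝ) (hT : 0 ≤ T) : ((idx T).card : ℝ) ≤ T ^ 2 := by
  have h1 : (idx T).card ≤ ⌊T⌋₊ * ⌊T⌋₊ := by
    unfold idx
    refine (Finset.card_filter_le _ _).trans ?_
    rw [Finset.card_product, Nat.card_Icc, Nat.add_sub_cancel]
  have h2 : (⌊T⌋₊ : ℝ) ≤ T := Nat.floor_le hT
  calc ((idx T).card : ℝ) ≤ ((⌊T⌋₊ * ⌊T⌋₊ : ℕ) : ℝ) := by exact_mod_cast h1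
    _ = (⌊T⌋₊ : ℝ) * ⌊T⌋₊ := by push_cast; ring
    _ ≤ T * T := by gcongr
    _ = T ^ 2 := by ring

/-- One fraction on the block `m ~ e^j`: only the short part matters. -/
private theorem gc_frac (κ : ℝ) (hκ : 0 < κ) (hκ1 : κ ≤ 1) (k : ℕ) (hk : 12 / κ ≤ k) (ε₁ δ : ℝ) (hε1 : 0 < ε₁) (hδ : 0 < δ)
    (hδ1 : (4 * (k : ℝ) + 6) * δ ≤ 1 / 10) :
    ∃ C T₀ : ℝ, 0 < C ∧ ∀ T : ℝ, T₀ ≤ T → ∀ u : ℝ, ε₁ * T ≤ u → u ≤ T → ∀ m n : ℕ, 1 ≤ m → 1 ≤ n → Nat.Coprime m n →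
      (m : ℝ) ≤ T → (n : ℝ) ≤ T → ∀ j : ℕ, |Real.log m - j| < 1 →
      ‖VV T (T ^ (1 - δ)) u m n - ((√((n : ℝ) / m) : ℝ) : ℂ) * ∑ b : B3,
        ∫ y : ℝ, Om T (T ^ (1 - δ)) u b (line (3 / 4) y) * (((n * m ^ 2 : ℕ) : ℂ) ^ (-(line (3 / 4) y)) *
          DSn m n b (Lam κ T n j) (1 - line (3 / 4) y))‖ ≤ C * T ^ (-(2 : ℝ)) := by
  have hk12 : (12 : ℝ) ≤ k := by
    refine le_trans ?_ hk
    rw [le_div_iff₀ hκ]
    linarith
  have hδ10 : δ ≤ 1 / 10 := by nlinarith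
  obtain ⟨T1, hV⟩ := voronoi_c k (3 / 4) ε₁ δ (by norm_num) (by norm_num) hε1 hδ hδ10
  have hkk : 12 ≤ κ * k := by
    rw [div_le_iff₀ hκ] at hk
    linarith
  obtain ⟨C, T2, hC, hL⟩ := long_one κ hκ hκ1 k hkk ε₁ δ hε1 hδ hδ1
  refine ⟨1 + 8 * C, max (Real.exp 4) (max T1 T2), by positivity, ?_⟩
  intro T hT u hu1 hu2 m n hm hn hmn hmT hnT j hj
  have hTe : Real.exp 4 ≤ T := (le_max_left _ _).trans hT
  have hT1 : T1 ≤ T := ((le_max_left _ _).trans (le_max_right _ _)).trans hT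
  have hT2 : T2 ≤ T := ((le_max_right _ _).trans (le_max_right _ _)).trans hT
  have hT1' : 1 ≤ T := (Real.one_le_exp (by norm_num)).trans hTe
  have hT0 : 0 < T := by linarith
  have hm0 : (0 : ℝ) < m := by exact_mod_cast hm
  have hn0 : (0 : ℝ) < n := by exact_mod_cast hn
  have hm1 : (1 : ℝ) ≤ m := by exact_mod_cast hm
  have hmne : m ≠ 0 := by omega
  have : NeZero m := ⟨hmne⟩
  have hj1 := abs_lt.1 hj
  obtain ⟨Λ, hΛ⟩ : ∃ Λ : ℕ, Λ = Lam κ T n j := ⟨_, rfl⟩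
  have hΛ' : Λ = ⌊T ^ (κ - 1) * n * Real.exp (2 * (j + 1))⌋₊ := hΛ
  have hΛT : (Λ : ℝ) ≤ T ^ 4 := by
    rw [hΛ']
    refine (Nat.floor_le (by positivity)).trans ?_
    have h1 : T ^ (κ - 1) ≤ 1 := Real.rpow_le_one_of_one_le_of_nonpos hT1' (by linarith)
    have h2 : Real.exp (2 * ((j : ℝ) + 1)) ≤ (m : ℝ) ^ 2 * Real.exp 4 := by
      have h3 : (m : ℝ) ^ 2 * Real.exp 4 = Real.exp (2 * Real.log m + 4) := by
        rw [Real.exp_add, mul_comm 2 (Real.log m), Real.exp_mul, Real.exp_log hm0]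
        norm_cast
      rw [h3]
      refine Real.exp_le_exp.2 ?_
      linarith
    calc T ^ (κ - 1) * n * Real.exp (2 * (j + 1)) ≤ 1 * T * ((m : ℝ) ^ 2 * Real.exp 4) := by gcongr
      _ ≤ 1 * T * (T ^ 2 * T) := by gcongr
      _ = T ^ 4 := by ring
  have h1 := hV T hT1 u hu1 hu2 m n hn hmn.symm hmT hnT Λ hΛT
  have h2 : ∀ b : B3, ‖∫ y : ℝ, Om T (T ^ (1 - δ)) u b (line (-(k : ℝ) - 1 / 2) y) *
      ((n * m ^ 2 : ℕ) : ℂ) ^ (-(line (-(k : ℝ) - 1 / 2) y)) * DSgt m (n : ZMod m) b Λ (1 - line (-(k : ℝ) - 1 / 2) y)‖ ≤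
      C * T ^ (-(5 : ℝ)) := by
    intro b
    have h3 := hL T hT2 u hu1 hu2 m n j hm hn hmT hnT (by linarith) b
    simp only [DSg_eq] at h3
    rw [← hΛ] at h3
    refine h3.trans ?_
    have : T ^ (-(7 : ℝ)) ≤ T ^ (-(5 : ℝ)) := Real.rpow_le_rpow_of_exponent_le hT1' (by norm_num)
    gcongr
  have h3 : ∀ b : B3, (∫ y : ℝ, Om T (T ^ (1 - δ)) u b (line (3 / 4) y) * (((n * m ^ 2 : ℕ) : ℂ) ^ (-(line (3 / 4) y)) *
      DSn m n b (Lam κ T n j) (1 - line (3 / 4) y))) = ∫ y : ℝ, Om T (T ^ (1 - δ)) u b (line (3 / 4) y) *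
        ((n * m ^ 2 : ℕ) : ℂ) ^ (-(line (3 / 4) y)) * DSle m (n : ZMod m) b Λ (1 - line (3 / 4) y) := by
    intro b
    rw [← hΛ]
    unfold DSn
    simp only [dif_neg hmne, ← mul_assoc]
  rw [Finset.sum_congr rfl fun b _ => h3 b]
  rw [Finset.sum_add_distrib, mul_add] at h1
  obtain ⟨A, hA⟩ : ∃ A : ℂ, A = ((√((n : ℝ) / m) : ℝ) : ℂ) * ∑ b : B3, ∫ y : ℝ, Om T (T ^ (1 - δ)) u b (line (3 / 4) y) *
        ((n * m ^ 2 : ℕ) : ℂ) ^ (-(line (3 / 4) y)) * DSle m (n : ZMod m) b Λ (1 - line (3 / 4) y) := ⟨_, rfl⟩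
  obtain ⟨B, hB⟩ : ∃ B : ℂ, B = ((√((n : ℝ) / m) : ℝ) : ℂ) * ∑ b : B3, ∫ y : ℝ, Om T (T ^ (1 - δ)) u b (line (-(k : ℝ) - 1 / 2) y) *
      ((n * m ^ 2 : ℕ) : ℂ) ^ (-(line (-(k : ℝ) - 1 / 2) y)) * DSgt m (n : ZMod m) b Λ (1 - line (-(k : ℝ) - 1 / 2) y) := ⟨_, rfl⟩
  rw [← hA, ← hB] at h1
  rw [← hA]
  have hsq : √((n : ℝ) / m) ≤ T := by
    rw [Real.sqrt_le_left hT0.le]
    calc (n : ℝ) / m ≤ n := div_le_self hn0.le hm1
      _ ≤ T := hnT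
      _ = T ^ 1 := (pow_one T).symm
      _ ≤ T ^ 2 := pow_le_pow_right₀ hT1' (by norm_num)
  have hBn : ‖B‖ ≤ 8 * C * T ^ (-(2 : ℝ)) := by
    rw [hB, norm_mul, Complex.norm_real, Real.norm_of_nonneg (Real.sqrt_nonneg _)]
    have h4 : ‖∑ b : B3, ∫ y : ℝ, Om T (T ^ (1 - δ)) u b (line (-(k : ℝ) - 1 / 2) y) *
      ((n * m ^ 2 : ℕ) : ℂ) ^ (-(line (-(k : ℝ) - 1 / 2) y)) * DSgt m (n : ZMod m) b Λ (1 - line (-(k : ℝ) - 1 / 2) y)‖ ≤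
        8 * (C * T ^ (-(5 : ℝ))) := by
      refine (norm_sum_le _ _).trans ((Finset.sum_le_sum fun b _ => h2 b).trans ?_)
      rw [Finset.sum_const, Finset.card_univ]
      simp [Fintype.card_prod]
    calc √((n : ℝ) / m) * _ ≤ T * (8 * (C * T ^ (-(5 : ℝ)))) := mul_le_mul hsq h4 (norm_nonneg _) hT0.le
      _ = 8 * C * (T ^ (1 : ℝ) * T ^ (-(5 : ℝ))) := by rw [Real.rpow_one]; ring
      _ = 8 * C * T ^ (-(4 : ℝ)) := by rw [← Real.rpow_add hT0]; norm_num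
      _ ≤ 8 * C * T ^ (-(2 : ℝ)) := by
        have : T ^ (-(4 : ℝ)) ≤ T ^ (-(2 : ℝ)) := Real.rpow_le_rpow_of_exponent_le hT1' (by norm_num)
        gcongr
  calc ‖VV T (T ^ (1 - δ)) u m n - A‖ = ‖(VV T (T ^ (1 - δ)) u m n - (A + B)) + B‖ := by congr 1; ring
    _ ≤ T ^ (-(2 : ℝ)) + 8 * C * T ^ (-(2 : ℝ)) := (norm_add_le _ _).trans (add_le_add h1 hBn)
    _ = (1 + 8 * C) * T ^ (-(2 : ℝ)) := by ring

/-- The short part on the block `m ~ e^j` for one sign vector. -/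
private theorem gc_short (P : ℝ × ℝ × ℝ → ℝ) (κ T u δ : ℝ) (hT : 4 ≤ T) (j : ℕ) (b : B3) (K : ℝ)
    (hI : Integrable (fun y : ℝ => (1 + |y|) ^ 2 * ‖Om T (T ^ (1 - δ)) u b (line (3 / 4) y)‖))
    (hK : ∀ y : ℝ, ‖∑ q ∈ idx T, (cP P T q : ℂ) * ((psi0 (Real.log q.1 - j) * √((q.2 : ℝ) / q.1) : ℝ) : ℂ) *
        (((q.2 * q.1 ^ 2 : ℕ) : ℂ) ^ (-(line (3 / 4) y)) * DSn q.1 q.2 b (Lam κ T q.2 j) (1 - line (3 / 4) y))‖ ≤ K * (1 + |y|) ^ 2) :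
    ‖∑ q ∈ idx T, (cP P T q : ℂ) * ((psi0 (Real.log q.1 - j) * √((q.2 : ℝ) / q.1) : ℝ) : ℂ) *
      ∫ y : ℝ, Om T (T ^ (1 - δ)) u b (line (3 / 4) y) * (((q.2 * q.1 ^ 2 : ℕ) : ℂ) ^ (-(line (3 / 4) y)) *
        DSn q.1 q.2 b (Lam κ T q.2 j) (1 - line (3 / 4) y))‖ ≤
      K * ∫ y : ℝ, (1 + |y|) ^ 2 * ‖Om T (T ^ (1 - δ)) u b (line (3 / 4) y)‖ := by
  have hOc : Continuous (fun y : ℝ => Om T (T ^ (1 - δ)) u b (line (3 / 4) y)) := by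
    unfold Om
    exact (gG_mid_cont b (by norm_num) (by norm_num)).mul (WW_cont T (T ^ (1 - δ)) u (3 / 4) hT)
  have hq : ∀ q ∈ idx T, 1 ≤ q.1 ∧ 1 ≤ q.2 := by
    intro q hq
    unfold idx at hq
    rw [Finset.mem_filter, Finset.mem_product, Finset.mem_Icc, Finset.mem_Icc] at hq
    exact ⟨hq.1.1.1, hq.1.2.1⟩
  refine gc_int_sum _ hOc hI (idx T) _ (fun q y => ((q.2 * q.1 ^ 2 : ℕ) : ℂ) ^ (-(line (3 / 4) y)) *
        DSn q.1 q.2 b (Lam κ T q.2 j) (1 - line (3 / 4) y)) (fun q hqT => ?_) (fun q hqT => ?_) K hK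
  · obtain ⟨h1, h2⟩ := hq q hqT
    exact (gc_X_cont q.1 q.2 h1 h2 _).mul (gc_DSn_cont q.1 q.2 (by omega) b _ _)
  · obtain ⟨h1, h2⟩ := hq q hqT
    obtain ⟨C, hC⟩ := gc_DSn_bdd q.1 q.2 (by omega) b (Lam κ T q.2 j) (3 / 4)
    refine ⟨((q.2 : ℝ) * (q.1 : ℝ) ^ 2) ^ (-(3 / 4) : ℝ) * C, fun y => ?_⟩
    rw [norm_mul, gc_X_norm q.1 q.2 h1 h2]
    exact mul_le_mul_of_nonneg_left (hC y) (by positivity)

/-- Part (C): same statement as `good_C` of `S_Face2`. -/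
theorem good_C_proof (x : ℝ × ℝ × ℝ) (hx : x ∈ Base) (h0 : x.1 ≤ x.2.1) (h1 : 2 * (x.1 + x.2.1) + x.2.2 < 3 / 2)
    (h2 : x.1 < 1 / 2 - x.2.2) : GoodAt x := by
  have hxB := hx
  obtain ⟨hz, hz', hy, hs1, hs2⟩ := hxB
  obtain ⟨κ₁, σ₁, hκ₁, hσ₁, hcore⟩ := S_core x.1 x.2.1 x.2.2 hz h0 hy (by linarith) h1 hs1
  obtain ⟨κ₂, hκ₂, hmain⟩ := main_eq x hx
  obtain ⟨κ₃, hκ₃, ε, hε, hε', hadm⟩ := bx_adm x hx
  obtain ⟨κ, hκd⟩ : ∃ κ : ℝ, κ = min (min κ₁ κ₂) (min κ₃ 1) := ⟨_, rfl⟩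
  have hκ : 0 < κ := by rw [hκd]; exact lt_min (lt_min hκ₁ hκ₂) (lt_min hκ₃ one_pos)
  have hk1 : κ ≤ κ₁ := by rw [hκd]; exact (min_le_left _ _).trans (min_le_left _ _)
  have hk2 : κ ≤ κ₂ := by rw [hκd]; exact (min_le_left _ _).trans (min_le_right _ _)
  have hk3 : κ ≤ κ₃ := by rw [hκd]; exact (min_le_right _ _).trans (min_le_left _ _)
  have hk4 : κ ≤ 1 := by rw [hκd]; exact (min_le_right _ _).trans (min_le_right _ _)
  refine goodAt_of_VVOK x hx ⟨κ, hκ, ?_⟩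
  intro a b c ha hb hc hsa hsb hsc
  obtain ⟨hP, -⟩ := hadm κ hκ hk3 a b c ha.continuous hb.continuous hc.continuous hsa hsb hsc
  obtain ⟨T0m, hM⟩ := hmain κ hκ hk2 a b c hsa hsb hsc
  choose! Cr hCr using fun (η : ℝ) (hη : 0 < η) => rrK_le η hη
  obtain ⟨Cc, T0c, hS⟩ := hcore κ hκ hk1 a b c ha hb hc hsa hsb hsc Cr
  obtain ⟨M, hM0, hcP⟩ := gc_cP (bx a b c) ε hε hP
  obtain ⟨k, hk⟩ := exists_nat_ge (12 / κ)
  intro ε₁ hε1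
  obtain ⟨δ₀, hδ₀d⟩ : ∃ δ₀ : ℝ, δ₀ = min (1 / (10 * (4 * (k : ℝ) + 6))) (σ₁ / 12) := ⟨_, rfl⟩
  have hk0 : (0 : ℝ) ≤ k := Nat.cast_nonneg k
  have hδ₀ : 0 < δ₀ := by
    rw [hδ₀d]
    exact lt_min (by positivity) (by positivity)
  refine ⟨δ₀, hδ₀, ?_⟩
  intro δ hδ hδ1
  have hd1 : (4 * (k : ℝ) + 6) * δ ≤ 1 / 10 := by
    have h3 : δ ≤ 1 / (10 * (4 * (k : ℝ) + 6)) := by
      rw [hδ₀d] at hδ1
      exact hδ1.trans (min_le_left _ _)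
    rw [le_div_iff₀ (by positivity)] at h3
    linarith
  have hd2 : 12 * δ ≤ σ₁ := by
    have h3 : δ ≤ σ₁ / 12 := by
      rw [hδ₀d] at hδ1
      exact hδ1.trans (min_le_right _ _)
    linarith
  have hd3 : δ ≤ 1 / 10 := by nlinarith
  obtain ⟨Cf, Tf, hCf, hfrac⟩ := gc_frac κ hκ hk4 k hk ε₁ δ hε1 hδ hd1
  obtain ⟨Co, To, hCo, hOm⟩ := Om_mid 2 (3 / 4) ε₁ δ (by norm_num) (by norm_num) hε1 hδ hd3
  refine ⟨M * Cf + 24 * (|Cc| * Co), max (max (max T0m T0c) (max Tf To)) 4, ?_⟩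
  intro T hT u hu1 hu2
  have hTm : T0m ≤ T := (((le_max_left _ _).trans (le_max_left _ _)).trans (le_max_left _ _)).trans hT
  have hTc : T0c ≤ T := (((le_max_right _ _).trans (le_max_left _ _)).trans (le_max_left _ _)).trans hT
  have hTf : Tf ≤ T := (((le_max_left _ _).trans (le_max_right _ _)).trans (le_max_left _ _)).trans hT
  have hTo : To ≤ T := (((le_max_right _ _).trans (le_max_right _ _)).trans (le_max_left _ _)).trans hT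
  have hT4 : 4 ≤ T := (le_max_right _ _).trans hT
  have hT0 : 0 < T := by linarith
  have hT1' : 1 ≤ T := by linarith
  have hL1 : 1 ≤ Real.log T := by
    rw [Real.le_log_iff_exp_le hT0]
    exact Real.exp_one_lt_three.le.trans (by linarith)
  obtain ⟨J, hJ⟩ : ∃ J : ℕ, J = ⌈Real.log T⌉₊ := ⟨_, rfl⟩
  have hJ1 : Real.log T ≤ J := by rw [hJ]; exact Nat.le_ceil _
  have hJ2 : (J : ℝ) ≤ Real.log T + 1 := by rw [hJ]; exact (Nat.ceil_lt_add_one (by linarith)).le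
  obtain ⟨P, hPd⟩ : ∃ P : ℝ × ℝ × ℝ → ℝ, P = bx a b c := ⟨_, rfl⟩
  rw [← hPd] at hP hcP hM ⊢
  -- the short parts
  obtain ⟨Sh, hSh⟩ : ∃ Sh : ℕ → B3 → ℕ × ℕ → ℂ, Sh = fun j bb q => ∫ y : ℝ, Om T (T ^ (1 - δ)) u bb (line (3 / 4) y) *
    (((q.2 * q.1 ^ 2 : ℕ) : ℂ) ^ (-(line (3 / 4) y)) * DSn q.1 q.2 bb (Lam κ T q.2 j) (1 - line (3 / 4) y)) := ⟨_, rfl⟩
  have hq : ∀ q ∈ idx T, 1 ≤ q.1 ∧ 1 ≤ q.2 ∧ Nat.Coprime q.1 q.2 ∧ (q.1 : ℝ) ≤ T ∧ (q.2 : ℝ) ≤ T := by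
    intro q hq
    unfold idx at hq
    rw [Finset.mem_filter, Finset.mem_product, Finset.mem_Icc, Finset.mem_Icc] at hq
    refine ⟨hq.1.1.1, hq.1.2.1, hq.2, ?_, ?_⟩
    · exact (Nat.le_floor_iff hT0.le).1 hq.1.1.2
    · exact (Nat.le_floor_iff hT0.le).1 hq.1.2.2
  have hpart : ∀ q ∈ idx T, ∑ j ∈ Finset.range (J + 1), psi0 (Real.log q.1 - j) = 1 := by
    intro q hqT
    obtain ⟨h3, -, -, h4, -⟩ := hq q hqT
    have h5 : (1 : ℝ) ≤ q.1 := by exact_mod_cast h3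
    exact psi0_sum J _ (Real.log_nonneg h5) ((Real.log_le_log (by linarith) h4).trans hJ1)
  have hdec : ∑ q ∈ idx T, (cP P T q : ℂ) * VV T (T ^ (1 - δ)) u q.1 q.2 =
      ∑ q ∈ idx T, ∑ j ∈ Finset.range (J + 1), (cP P T q : ℂ) * (psi0 (Real.log q.1 - j) : ℂ) *
        (VV T (T ^ (1 - δ)) u q.1 q.2 - ((√((q.2 : ℝ) / q.1) : ℝ) : ℂ) * ∑ bb : B3, Sh j bb q) +
      ∑ j ∈ Finset.range (J + 1), ∑ bb : B3, ∑ q ∈ idx T,
        (cP P T q : ℂ) * ((psi0 (Real.log q.1 - j) * √((q.2 : ℝ) / q.1) : ℝ) : ℂ) * Sh j bb q := by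
    have e1 : ∑ j ∈ Finset.range (J + 1), ∑ bb : B3, ∑ q ∈ idx T,
        (cP P T q : ℂ) * ((psi0 (Real.log q.1 - j) * √((q.2 : ℝ) / q.1) : ℝ) : ℂ) * Sh j bb q =
        ∑ q ∈ idx T, ∑ j ∈ Finset.range (J + 1), (cP P T q : ℂ) * (psi0 (Real.log q.1 - j) : ℂ) *
          (((√((q.2 : ℝ) / q.1) : ℝ) : ℂ) * ∑ bb : B3, Sh j bb q) := by
      rw [Finset.sum_comm (s := idx T)]
      refine Finset.sum_congr rfl fun j _ => ?_
      rw [Finset.sum_comm (t := idx T)]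
      refine Finset.sum_congr rfl fun q _ => ?_
      rw [Finset.mul_sum, Finset.mul_sum]
      refine Finset.sum_congr rfl fun bb _ => ?_
      push_cast
      ring
    rw [e1, ← Finset.sum_add_distrib]
    refine Finset.sum_congr rfl fun q hqT => ?_
    rw [← Finset.sum_add_distrib]
    have e2 : ∀ j ∈ Finset.range (J + 1), (cP P T q : ℂ) * (psi0 (Real.log q.1 - j) : ℂ) *
        (VV T (T ^ (1 - δ)) u q.1 q.2 - ((√((q.2 : ℝ) / q.1) : ℝ) : ℂ) * ∑ bb : B3, Sh j bb q) +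
        (cP P T q : ℂ) * (psi0 (Real.log q.1 - j) : ℂ) * (((√((q.2 : ℝ) / q.1) : ℝ) : ℂ) * ∑ bb : B3, Sh j bb q) =
        (psi0 (Real.log q.1 - j) : ℂ) * ((cP P T q : ℂ) * VV T (T ^ (1 - δ)) u q.1 q.2) := fun j _ => by ring
    rw [Finset.sum_congr rfl e2, ← Finset.sum_mul]
    have e3 : ∑ j ∈ Finset.range (J + 1), (psi0 (Real.log q.1 - j) : ℂ) = 1 := by
      rw [← Complex.ofReal_sum, hpart q hqT, Complex.ofReal_one]
    rw [e3, one_mul]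
  have hb1 : ‖∑ q ∈ idx T, ∑ j ∈ Finset.range (J + 1), (cP P T q : ℂ) * (psi0 (Real.log q.1 - j) : ℂ) *
        (VV T (T ^ (1 - δ)) u q.1 q.2 - ((√((q.2 : ℝ) / q.1) : ℝ) : ℂ) * ∑ bb : B3, Sh j bb q)‖ ≤ M * Cf := by
    have h3 : ∀ q ∈ idx T, ‖∑ j ∈ Finset.range (J + 1), (cP P T q : ℂ) * (psi0 (Real.log q.1 - j) : ℂ) *
        (VV T (T ^ (1 - δ)) u q.1 q.2 - ((√((q.2 : ℝ) / q.1) : ℝ) : ℂ) * ∑ bb : B3, Sh j bb q)‖ ≤
        M * (Cf * T ^ (-(2 : ℝ))) := by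
      intro q hqT
      obtain ⟨g1, g2, g3, g4, g5⟩ := hq q hqT
      have h4 : ∀ j ∈ Finset.range (J + 1), ‖(cP P T q : ℂ) * (psi0 (Real.log q.1 - j) : ℂ) *
        (VV T (T ^ (1 - δ)) u q.1 q.2 - ((√((q.2 : ℝ) / q.1) : ℝ) : ℂ) * ∑ bb : B3, Sh j bb q)‖ ≤
          psi0 (Real.log q.1 - j) * (M * (Cf * T ^ (-(2 : ℝ)))) := by
        intro j _
        by_cases hj : |Real.log q.1 - j| < 1
        · have h5 := hfrac T hTf u hu1 hu2 q.1 q.2 g1 g2 g3 g4 g5 j hj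
          have h6 : ‖VV T (T ^ (1 - δ)) u q.1 q.2 - ((√((q.2 : ℝ) / q.1) : ℝ) : ℂ) * ∑ bb : B3, Sh j bb q‖ ≤
              Cf * T ^ (-(2 : ℝ)) := by
            rw [hSh]
            exact h5
          rw [norm_mul, norm_mul, Complex.norm_real, Complex.norm_real, Real.norm_of_nonneg (psi0_nonneg _), Real.norm_eq_abs]
          have h7 := hcP T (by linarith) q hqT
          have h8 := psi0_nonneg (Real.log q.1 - j)
          calc |cP P T q| * psi0 (Real.log q.1 - j) * ‖VV T (T ^ (1 - δ)) u q.1 q.2 -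
                ((√((q.2 : ℝ) / q.1) : ℝ) : ℂ) * ∑ bb : B3, Sh j bb q‖ ≤ M * psi0 (Real.log q.1 - j) * (Cf * T ^ (-(2 : ℝ))) := by
                gcongr
            _ = _ := by ring
        · rw [psi0_supp _ (not_lt.1 hj)]
          simp
      refine (norm_sum_le _ _).trans ((Finset.sum_le_sum h4).trans ?_)
      rw [← Finset.sum_mul, hpart q hqT, one_mul]
    refine (norm_sum_le _ _).trans ((Finset.sum_le_sum h3).trans ?_)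
    rw [Finset.sum_const, nsmul_eq_mul]
    have h9 : T ^ 2 * T ^ (-(2 : ℝ)) = 1 := by
      rw [← Real.rpow_natCast, ← Real.rpow_add hT0]
      norm_num
    calc ((idx T).card : ℝ) * (M * (Cf * T ^ (-(2 : ℝ)))) ≤ T ^ 2 * (M * (Cf * T ^ (-(2 : ℝ)))) := by
          have := gc_card T hT0.le
          gcongr
      _ = M * Cf * (T ^ 2 * T ^ (-(2 : ℝ))) := by ring
      _ = M * Cf := by rw [h9, mul_one]
  have hb2 : ∀ j ∈ Finset.range (J + 1), ∀ bb : B3, ‖∑ q ∈ idx T,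
        (cP P T q : ℂ) * ((psi0 (Real.log q.1 - j) * √((q.2 : ℝ) / q.1) : ℝ) : ℂ) * Sh j bb q‖ ≤ |Cc| * Co := by
    intro j _ bb
    obtain ⟨hI, hI2⟩ := hOm T hTo u hu1 hu2 bb
    have h3 : ∀ y : ℝ, ‖∑ q ∈ idx T, (cP P T q : ℂ) * ((psi0 (Real.log q.1 - j) * √((q.2 : ℝ) / q.1) : ℝ) : ℂ) *
        (((q.2 * q.1 ^ 2 : ℕ) : ℂ) ^ (-(line (3 / 4) y)) * DSn q.1 q.2 bb (Lam κ T q.2 j) (1 - line (3 / 4) y))‖ ≤
        |Cc| * T ^ (1 / 4 - σ₁) * (1 + |y|) ^ 2 := by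
      intro y
      rw [hM T hTm j bb (line (3 / 4) y)]
      refine (hS T hTc rrK (fun η hη q k hq hk => (hCr η hη).2 q k hq hk) j (sgB bb) y (sgB_or bb)).trans ?_
      have h4 : Cc ≤ |Cc| := le_abs_self _
      calc Cc * (1 + |y|) ^ 2 * T ^ (1 / 4 - σ₁) ≤ |Cc| * (1 + |y|) ^ 2 * T ^ (1 / 4 - σ₁) := by gcongr
        _ = _ := by ring
    have h5 := gc_short P κ T u δ hT4 j bb (|Cc| * T ^ (1 / 4 - σ₁)) hI h3
    rw [hSh]
    refine h5.trans ?_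
    calc |Cc| * T ^ (1 / 4 - σ₁) * ∫ y : ℝ, (1 + |y|) ^ 2 * ‖Om T (T ^ (1 - δ)) u bb (line (3 / 4) y)‖
        ≤ |Cc| * T ^ (1 / 4 - σ₁) * (Co * T ^ ((((2 : ℕ) : ℝ) + 10) * δ + 3 / 4 - 1)) := by gcongr
      _ = |Cc| * Co * (T ^ (1 / 4 - σ₁) * T ^ ((((2 : ℕ) : ℝ) + 10) * δ + 3 / 4 - 1)) := by ring
      _ ≤ |Cc| * Co * 1 := by
        have h6 : T ^ (1 / 4 - σ₁) * T ^ ((((2 : ℕ) : ℝ) + 10) * δ + 3 / 4 - 1) ≤ 1 := by
          rw [← Real.rpow_add hT0]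
          refine Real.rpow_le_one_of_one_le_of_nonpos hT1' ?_
          push_cast
          linarith
        gcongr
      _ = _ := mul_one _
  have hfin : ‖∑ q ∈ idx T, (cP P T q : ℂ) * VV T (T ^ (1 - δ)) u q.1 q.2‖ ≤ M * Cf + 8 * (Real.log T + 2) * (|Cc| * Co) := by
    rw [hdec]
    refine (norm_add_le _ _).trans (add_le_add hb1 ?_)
    have h3 : ∀ j ∈ Finset.range (J + 1), ‖∑ bb : B3, ∑ q ∈ idx T,
        (cP P T q : ℂ) * ((psi0 (Real.log q.1 - j) * √((q.2 : ℝ) / q.1) : ℝ) : ℂ) * Sh j bb q‖ ≤ 8 * (|Cc| * Co) := by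
      intro j hj
      refine (norm_sum_le _ _).trans ((Finset.sum_le_sum fun bb _ => hb2 j hj bb).trans ?_)
      rw [Finset.sum_const, Finset.card_univ]
      simp [Fintype.card_prod]
    refine (norm_sum_le _ _).trans ((Finset.sum_le_sum h3).trans ?_)
    rw [Finset.sum_const, Finset.card_range, nsmul_eq_mul]
    have h4 : 0 ≤ |Cc| * Co := by positivity
    push_cast
    nlinarith
  have hre : ∑ q ∈ idx T, cP P T q * (VV T (T ^ (1 - δ)) u q.1 q.2).re =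
      (∑ q ∈ idx T, (cP P T q : ℂ) * VV T (T ^ (1 - δ)) u q.1 q.2).re := by
    rw [Complex.re_sum]
    refine Finset.sum_congr rfl fun q _ => ?_
    rw [Complex.re_ofReal_mul]
  rw [hre]
  refine (Complex.abs_re_le_norm _).trans (hfin.trans ?_)
  have h4 : 0 ≤ |Cc| * Co := by positivity
  have h5 : Real.log T ≤ (Real.log T) ^ 6 := by
    calc Real.log T = (Real.log T) ^ 1 := (pow_one _).symm
      _ ≤ (Real.log T) ^ 6 := pow_le_pow_right₀ hL1 (by norm_num)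
  have h6 : 1 ≤ (Real.log T) ^ 6 := one_le_pow₀ hL1
  have h7 : 0 ≤ M * Cf := by positivity
  nlinarith

end Pool.Agent.LibSM56C
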