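import Pool.Agent.LibSM56C.K_Defs

/-! # SM56 part (C), DIAG: closed sublemmas (helper73) -/

set_option autoImplicit false

namespace Pool.Agent.LibSM56C

open MeasureTheory Set Filter Topology Complex
open scoped ENNReal ComplexConjugate

private theorem meas_KK' (R θ : ℝ) : MeasurableSet (KK R θ) := by
  unfold KK
  apply MeasurableSet.inter
  · exact measurableSet_le measurable_const measurable_fst
  apply MeasurableSet.inter
  · exact measurableSet_le measurable_fst measurable_const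
  · exact measurableSet_le (measurable_snd.abs) (measurable_const.mul measurable_fst)

/-- the volume of the region -/
theorem vol_KK (R θ : ℝ) (hR : 0 < R) (hθ : 0 < θ) :
    volume (KK R θ) = ENNReal.ofReal (63 * θ * R ^ 2) := by
  rw [Measure.volume_eq_prod, Measure.prod_apply (meas_KK' R θ)]
  have e : ∀ u : ℝ, volume (Prod.mk u ⁻¹' KK R θ) =
      (Icc R (8 * R)).indicator (fun u => ENNReal.ofReal (2 * θ * u)) u := by
    intro u
    by_cases h : u ∈ Icc R (8 * R)
    · rw [indicator_of_mem h]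
      have : Prod.mk u ⁻¹' KK R θ = Icc (-(θ * u)) (θ * u) := by
        ext v
        simp only [KK, mem_preimage, mem_setOf_eq, mem_Icc]
        constructor
        · rintro ⟨_, _, h3⟩
          exact abs_le.1 h3
        · intro h3
          exact ⟨h.1, h.2, abs_le.2 h3⟩
      rw [this, Real.volume_Icc]
      congr 1
      ring
    · rw [indicator_of_notMem h]
      have : Prod.mk u ⁻¹' KK R θ = ∅ := by
        ext v
        simp only [KK, mem_preimage, mem_setOf_eq, mem_empty_iff_false, iff_false]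
        rintro ⟨h1, h2, _⟩
        exact h ⟨h1, h2⟩
      rw [this, measure_empty]
  simp_rw [e]
  rw [lintegral_indicator measurableSet_Icc,
    ← ofReal_integral_eq_lintegral_ofReal]
  · congr 1
    rw [integral_Icc_eq_integral_Ioc, ← intervalIntegral.integral_of_le (by linarith),
      intervalIntegral.integral_const_mul, integral_id]
    ring
  · exact (Continuous.integrableOn_Icc (by fun_prop))
  · rw [EventuallyLE, ae_restrict_iff' measurableSet_Icc]
    refine Eventually.of_forall fun u hu => ?_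
    have : 0 ≤ u := hR.le.trans hu.1
    show (0 : ℝ) ≤ 2 * θ * u
    positivity

/-- the integral `K_c` -/
noncomputable def KC (c : ℝ) (ψ : ℝ × ℝ → ℂ) : ℂ :=
  ∫ ξ : ℝ, ∫ v : ℝ × ℝ, cexp (2 * Real.pi * I * (-(ξ + 1 / ξ) / c : ℝ)) *
    (conj (ψ v) * ψ (ξ * v.1, ξ * v.2 - c / v.1))

private theorem e_norm (x : ℝ) : ‖cexp (2 * Real.pi * I * x)‖ = 1 := by
  rw [show (2 * Real.pi * I * x : ℂ) = ((2 * Real.pi * x : ℝ) : ℂ) * I by push_cast; ring]
  exact Complex.norm_exp_ofReal_mul_I _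

theorem KK_pair {R θ : ℝ} (hR : 0 < R) (hθ : 0 < θ) {ξ c : ℝ} {v : ℝ × ℝ} (h1 : v ∈ KK R θ)
    (h2 : (ξ * v.1, ξ * v.2 - c / v.1) ∈ KK R θ) :
    ξ ∈ Icc (1 / 8 : ℝ) 8 ∧ |c| ≤ 128 * θ * R ^ 2 := by
  obtain ⟨a1, a2, a3⟩ := h1
  obtain ⟨b1, b2, b3⟩ := h2
  simp only at b1 b2 b3
  have hv : 0 < v.1 := hR.trans_le a1
  have hξ : 0 < ξ := by
    by_contra h
    push Not at h
    nlinarith
  refine ⟨⟨?_, ?_⟩, ?_⟩
  · by_contra h
    push Not at h
    nlinarith
  · by_contra h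
    push Not at h
    nlinarith
  · have h3 : |c / v.1| ≤ 2 * θ * (ξ * v.1) := by
      have h4 : c / v.1 = ξ * v.2 - (ξ * v.2 - c / v.1) := by ring
      rw [h4]
      calc |ξ * v.2 - (ξ * v.2 - c / v.1)| ≤ |ξ * v.2| + |ξ * v.2 - c / v.1| := abs_sub _ _
        _ ≤ ξ * (θ * v.1) + θ * (ξ * v.1) := by
            rw [abs_mul, abs_of_pos hξ]
            exact add_le_add (mul_le_mul_of_nonneg_left a3 hξ.le) b3
        _ = 2 * θ * (ξ * v.1) := by ring
    rw [abs_div, abs_of_pos hv, div_le_iff₀ hv] at h3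
    calc |c| ≤ 2 * θ * (ξ * v.1) * v.1 := h3
      _ ≤ 2 * θ * (8 * R) * (8 * R) := by
          have : 0 ≤ ξ * v.1 := by positivity
          gcongr
      _ = 128 * θ * R ^ 2 := by ring

theorem KC_zero (R θ B : ℝ) (hR : 0 < R) (hθ : 0 < θ) (ψ : ℝ × ℝ → ℂ)
    (hψ : ∀ v, v ∉ KK R θ → ψ v = 0) (c : ℝ) (hc : 128 * θ * R ^ 2 < |c|) : KC c ψ = 0 := by
  unfold KC
  have : ∀ ξ : ℝ, ∀ v : ℝ × ℝ, cexp (2 * Real.pi * I * (-(ξ + 1 / ξ) / c : ℝ)) *
    (conj (ψ v) * ψ (ξ * v.1, ξ * v.2 - c / v.1)) = 0 := by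
    intro ξ v
    by_cases h1 : v ∈ KK R θ
    · by_cases h2 : (ξ * v.1, ξ * v.2 - c / v.1) ∈ KK R θ
      · exact absurd (KK_pair hR hθ h1 h2).2 (not_le.2 hc)
      · rw [hψ _ h2, mul_zero, mul_zero]
    · rw [hψ _ h1, map_zero, zero_mul, mul_zero]
  simp only [this, integral_zero]

theorem KC_le (R θ B : ℝ) (hR : 0 < R) (hθ : 0 < θ) (hB : 0 ≤ B) (ψ : ℝ × ℝ → ℂ)
    (hb : ∀ v, ‖ψ v‖ ≤ B * (KK R θ).indicator 1 v) (c : ℝ) :
    ‖KC c ψ‖ ≤ B ^ 2 * (8 * (63 * θ * R ^ 2)) := by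
  have hvol : (volume.real (KK R θ)) = 63 * θ * R ^ 2 := by
    rw [Measure.real, vol_KK R θ hR hθ, ENNReal.toReal_ofReal (by positivity)]
  have hψ : ∀ v, v ∉ KK R θ → ψ v = 0 := by
    intro v hv
    have := hb v
    rw [indicator_of_notMem hv, mul_zero] at this
    exact norm_eq_zero.1 (le_antisymm this (norm_nonneg _))
  have hψB : ∀ v, ‖ψ v‖ ≤ B := by
    intro v
    refine (hb v).trans ?_
    by_cases hv : v ∈ KK R θ
    · rw [indicator_of_mem hv]; simp
    · rw [indicator_of_notMem hv]; simpa using hB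
  -- inner bound
  have h1 : ∀ ξ : ℝ, ‖∫ v : ℝ × ℝ, cexp (2 * Real.pi * I * (-(ξ + 1 / ξ) / c : ℝ)) *
      (conj (ψ v) * ψ (ξ * v.1, ξ * v.2 - c / v.1))‖ ≤
      (Icc (1 / 8 : ℝ) 8).indicator (fun _ => B ^ 2 * (63 * θ * R ^ 2)) ξ := by
    intro ξ
    by_cases hξ : ξ ∈ Icc (1 / 8 : ℝ) 8
    · rw [indicator_of_mem hξ]
      have h2 : ∀ v : ℝ × ℝ, ‖cexp (2 * Real.pi * I * (-(ξ + 1 / ξ) / c : ℝ)) *
          (conj (ψ v) * ψ (ξ * v.1, ξ * v.2 - c / v.1))‖ ≤ (KK R θ).indicator (fun _ => B ^ 2) v := by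
        intro v
        rw [norm_mul, e_norm, one_mul, norm_mul, RCLike.norm_conj]
        by_cases hv : v ∈ KK R θ
        · rw [indicator_of_mem hv, sq]
          exact mul_le_mul (hψB _) (hψB _) (norm_nonneg _) hB
        · rw [indicator_of_notMem hv, hψ v hv]
          simp
      refine (norm_integral_le_of_norm_le ?_ (Eventually.of_forall h2)).trans ?_
      · rw [integrable_indicator_iff (meas_KK' R θ)]
        refine integrableOn_const ?_ enorm_ne_top
        rw [vol_KK R θ hR hθ]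
        exact ENNReal.ofReal_ne_top
      · rw [integral_indicator (meas_KK' R θ), setIntegral_const, hvol, smul_eq_mul]
        exact le_of_eq (by ring)
    · rw [indicator_of_notMem hξ]
      have : ∀ v : ℝ × ℝ, cexp (2 * Real.pi * I * (-(ξ + 1 / ξ) / c : ℝ)) *
          (conj (ψ v) * ψ (ξ * v.1, ξ * v.2 - c / v.1)) = 0 := by
        intro v
        by_cases h1 : v ∈ KK R θ
        · by_cases h2 : (ξ * v.1, ξ * v.2 - c / v.1) ∈ KK R θ
          · exact absurd (KK_pair hR hθ h1 h2).1 hξ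
          · rw [hψ _ h2, mul_zero, mul_zero]
        · rw [hψ _ h1, map_zero, zero_mul, mul_zero]
      simp only [this, integral_zero, norm_zero, le_refl]
  unfold KC
  refine (norm_integral_le_of_norm_le ?_ (Eventually.of_forall h1)).trans ?_
  · rw [integrable_indicator_iff measurableSet_Icc]
    exact integrableOn_const measure_Icc_lt_top.ne enorm_ne_top
  · rw [integral_indicator measurableSet_Icc, setIntegral_const, smul_eq_mul]
    have : volume.real (Icc (1 / 8 : ℝ) 8) ≤ 8 := by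
      rw [Real.volume_real_Icc_of_le (by norm_num)]
      norm_num
    calc volume.real (Icc (1 / 8 : ℝ) 8) * (B ^ 2 * (63 * θ * R ^ 2)) ≤
        8 * (B ^ 2 * (63 * θ * R ^ 2)) := by gcongr
      _ = _ := by ring

/-- the integral over the whole line -/
theorem line_int (R θ B : ℝ) (hR : 0 < R) (hθ : 0 < θ) (ψ : ℝ × ℝ → ℂ)
    (hψ : ∀ v, v ∉ KK R θ → ψ v = 0) (M : SL2R) (hc : M.1 1 0 ≠ 0) :
    ∫ x : ℝ, ∫ v : ℝ × ℝ, conj (tw ψ (x, v)) * tw ψ (act M (x, v)) =
      cexp (2 * Real.pi * I * ((M.1 0 0 + M.1 1 1) / M.1 1 0 : ℝ)) * ((1 / |M.1 1 0| : ℝ) : ℂ) *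
        KC (M.1 1 0) ψ := by
  set a := M.1 0 0
  set b := M.1 0 1
  set c := M.1 1 0
  set d := M.1 1 1
  have hdet : a * d - b * c = 1 := by
    have := M.2
    rw [Matrix.det_fin_two] at this
    exact this
  have h1 : ∀ x : ℝ, ∀ v : ℝ × ℝ, conj (tw ψ (x, v)) * tw ψ (act M (x, v)) =
      cexp (2 * Real.pi * I * ((a + d) / c : ℝ)) *
        (cexp (2 * Real.pi * I * (-((c * x + d) + 1 / (c * x + d)) / c : ℝ)) *
        (conj (ψ v) * ψ ((c * x + d) * v.1, (c * x + d) * v.2 - c / v.1))) := by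
    intro x v
    by_cases hξ : c * x + d = 0
    · have h0 : ψ ((c * x + d) * v.1, (c * x + d) * v.2 - c / v.1) = 0 := by
        apply hψ
        rintro ⟨h, _, _⟩
        simp only [hξ, zero_mul] at h
        linarith
      have h0' : tw ψ (act M (x, v)) = 0 := by
        unfold tw act
        simp only
        rw [show ψ ((M.1 1 0 * x + M.1 1 1) * v.1, (M.1 1 0 * x + M.1 1 1) * v.2 - M.1 1 0 / v.1) = 0
          from h0, mul_zero]
      rw [h0', h0]
      simp
    · have hx : (a * x + b) / (c * x + d) = a / c - 1 / (c * (c * x + d)) := by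
        have hξ' : c * x + d ≠ 0 := hξ
        rw [eq_sub_iff_add_eq, div_add_div _ _ hξ' (mul_ne_zero hc hξ'), div_eq_div_iff
          (mul_ne_zero hξ' (mul_ne_zero hc hξ')) hc]
        linear_combination (-(c * x + d)) * hdet * c
      have e1 : tw ψ (act M (x, v)) = cexp (2 * Real.pi * I * ((a / c - 1 / (c * (c * x + d)) : ℝ))) *
          ψ ((c * x + d) * v.1, (c * x + d) * v.2 - c / v.1) := by
        rw [← hx]
        rfl
      have e2 : conj (tw ψ (x, v)) = cexp (2 * Real.pi * I * ((-x : ℝ))) * conj (ψ v) := by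
        unfold tw
        simp only [map_mul, ← Complex.exp_conj, Complex.conj_I, Complex.conj_ofReal, map_ofNat]
        congr 2
        push_cast
        ring
      rw [e1, e2]
      have e3 : cexp (2 * Real.pi * I * ((-x : ℝ))) *
          cexp (2 * Real.pi * I * ((a / c - 1 / (c * (c * x + d)) : ℝ))) =
          cexp (2 * Real.pi * I * ((a + d) / c : ℝ)) *
          cexp (2 * Real.pi * I * (-((c * x + d) + 1 / (c * x + d)) / c : ℝ)) := by
        rw [← Complex.exp_add, ← Complex.exp_add, ← mul_add, ← mul_add, ← ofReal_add, ← ofReal_add]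
        have : (-x + (a / c - 1 / (c * (c * x + d))) : ℝ) =
            (a + d) / c + -((c * x + d) + 1 / (c * x + d)) / c := by
          have hξ' : c * x + d ≠ 0 := hξ
          rw [← sub_eq_zero]
          have e4 : (-x + (a / c - 1 / (c * (c * x + d))) : ℝ) -
              ((a + d) / c + -((c * x + d) + 1 / (c * x + d)) / c) =
              -x + a / c - (a + d) / c + (c * x + d) / c := by
            have : 1 / (c * (c * x + d)) = 1 / (c * x + d) / c := by
              rw [div_div, mul_comm]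
            rw [this]
            ring
          rw [e4]
          field_simp
          ring
        rw [this]
      linear_combination (conj (ψ v) * ψ ((c * x + d) * v.1, (c * x + d) * v.2 - c / v.1)) * e3
  simp_rw [h1]
  have h2 : ∀ x : ℝ, ∫ v : ℝ × ℝ, cexp (2 * Real.pi * I * ((a + d) / c : ℝ)) *
        (cexp (2 * Real.pi * I * (-((c * x + d) + 1 / (c * x + d)) / c : ℝ)) *
        (conj (ψ v) * ψ ((c * x + d) * v.1, (c * x + d) * v.2 - c / v.1))) =
      cexp (2 * Real.pi * I * ((a + d) / c : ℝ)) * (fun ξ : ℝ => ∫ v : ℝ × ℝ,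
        cexp (2 * Real.pi * I * (-(ξ + 1 / ξ) / c : ℝ)) *
        (conj (ψ v) * ψ (ξ * v.1, ξ * v.2 - c / v.1))) (c * x + d) := by
    intro x
    rw [← integral_const_mul]
  simp_rw [h2]
  rw [integral_const_mul]
  have h3 := Measure.integral_comp_mul_left (fun y : ℝ => (fun ξ : ℝ => ∫ v : ℝ × ℝ,
        cexp (2 * Real.pi * I * (-(ξ + 1 / ξ) / c : ℝ)) *
        (conj (ψ v) * ψ (ξ * v.1, ξ * v.2 - c / v.1))) (y + d)) c
  rw [h3, integral_add_right_eq_self (fun ξ : ℝ => ∫ v : ℝ × ℝ,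
        cexp (2 * Real.pi * I * (-(ξ + 1 / ξ) / c : ℝ)) *
        (conj (ψ v) * ψ (ξ * v.1, ξ * v.2 - c / v.1)))]
  rw [Complex.real_smul, abs_inv, one_div, mul_assoc (cexp _) _ (KC c ψ)]
  rfl

/-- the matrices `σ (a, (a e - 1)/c; c, e)`, `a = ia 1 c e` -/
noncomputable def MC (σ : ℤ) (c : ℕ) (e : ℤ) : SL2R :=
  if h : c ≠ 0 ∧ (σ = 1 ∨ σ = -1) then
    ⟨!![(σ : ℝ) * ia 1 c e, σ * (((ia 1 c e : ℝ) * e - 1) / c); σ * c, σ * e], by
      have hc : (c : ℝ) ≠ 0 := by exact_mod_cast h.1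
      rw [Matrix.det_fin_two_of]
      rcases h.2 with h2 | h2 <;> (rw [h2]; push_cast; field_simp; ring)⟩
  else 1

theorem MC_ent (σ : ℤ) (hσ : σ = 1 ∨ σ = -1) (c : ℕ) (hc : c ≠ 0) (e : ℤ) :
    (MC σ c e).1 0 0 = σ * ia 1 c e ∧ (MC σ c e).1 0 1 = σ * (((ia 1 c e : ℝ) * e - 1) / c) ∧
      (MC σ c e).1 1 0 = σ * c ∧ (MC σ c e).1 1 1 = σ * e := by
  unfold MC
  rw [dif_pos ⟨hc, hσ⟩]
  simp

end Pool.Agent.LibSM56C
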