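import Pool.Agent.LibSM56C.G_5

/-! # SM56 part (C), DIAG, P2: unfolding of the translations -/

set_option autoImplicit false

namespace Pool.Agent.LibSM56C

open MeasureTheory Set Filter Topology Complex
open scoped ENNReal ComplexConjugate

/-- (ii) the kernel vanishes for large `c` -/
theorem d74_zero (R θ c ξ : ℝ) (hR : 0 < R) (hθ : 0 < θ) (v : ℝ × ℝ) (h : v ∈ KK R θ)
    (h' : (ξ * v.1, ξ * v.2 - c / v.1) ∈ KK R θ) : |c| ≤ 1024 * θ * R ^ 2 ∧ 1 / 8 ≤ ξ ∧ ξ ≤ 8 := by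
  obtain ⟨a1, a2, a3⟩ := h
  obtain ⟨b1, b2, b3⟩ := h'
  simp only at b1 b2 b3
  have hv : 0 < v.1 := hR.trans_le a1
  have hξ : 0 < ξ := by
    by_contra hn
    push Not at hn
    nlinarith
  have h8 : ξ ≤ 8 := by
    by_contra hn
    push Not at hn
    nlinarith
  have h18 : 1 / 8 ≤ ξ := by
    by_contra hn
    push Not at hn
    nlinarith
  refine ⟨?_, h18, h8⟩
  have e1 : |c| = |c / v.1| * v.1 := by
    rw [abs_div, abs_of_pos hv]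
    field_simp
  have e2 : |c / v.1| ≤ θ * (ξ * v.1) + ξ * (θ * v.1) := by
    have : c / v.1 = ξ * v.2 - (ξ * v.2 - c / v.1) := by ring
    rw [this]
    refine (abs_sub _ _).trans ?_
    rw [abs_mul, abs_of_pos hξ]
    have := mul_le_mul_of_nonneg_left a3 hξ.le
    linarith
  have e3 : ξ * v.1 ≤ 8 * R := b2
  rw [e1]
  calc |c / v.1| * v.1 ≤ (θ * (ξ * v.1) + ξ * (θ * v.1)) * v.1 := by gcongr
    _ = 2 * θ * ((ξ * v.1) * v.1) := by ring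
    _ ≤ 2 * θ * ((8 * R) * (8 * R)) := by gcongr
    _ ≤ 1024 * θ * R ^ 2 := by nlinarith [mul_pos hθ (pow_pos hR 2)]


/-- `tw ψ` is 1-periodic in `x` -/
theorem d74_per (ψ : ℝ × ℝ → ℂ) (g : ℝ × ℝ × ℝ) (l : ℤ) : tw ψ (g.1 + l, g.2) = tw ψ g := by
  unfold tw
  simp only
  congr 1
  rw [Complex.exp_eq_exp_iff_exists_int]
  refine ⟨l, ?_⟩
  push_cast
  ring

/-- the product at `g` -/
noncomputable def d74_Ph (ψ : ℝ × ℝ → ℂ) (M : SL2R) (g : ℝ × ℝ × ℝ) : ℂ := conj (tw ψ g) * tw ψ (act M g)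

theorem d74_Ph_meas (ψ : ℝ × ℝ → ℂ) (hψ : Measurable ψ) (M : SL2R) : Measurable (d74_Ph ψ M) := by
  unfold d74_Ph
  exact (continuous_conj.measurable.comp (meas_tw hψ)).mul ((meas_tw hψ).comp (measurable_act M))

theorem d74_tw_norm (ψ : ℝ × ℝ → ℂ) (g : ℝ × ℝ × ℝ) : ‖tw ψ g‖ = ‖ψ g.2‖ := by
  unfold tw
  rw [norm_mul, show (2 * Real.pi * I * g.1 : ℂ) = ((2 * Real.pi * g.1 : ℝ) : ℂ) * I by push_cast; ring,
    Complex.norm_exp_ofReal_mul_I, one_mul]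

theorem d74_Ph_bound (R θ B : ℝ) (hR : 0 < R) (hθ : 0 < θ) (hB : 0 ≤ B) (ψ : ℝ × ℝ → ℂ)
    (hb : ∀ v, ‖ψ v‖ ≤ B * (KK R θ).indicator 1 v) (M : SL2R) (g : ℝ × ℝ × ℝ) :
    ‖d74_Ph ψ M g‖ ≤ B ^ 2 ∧ (d74_Ph ψ M g ≠ 0 → g.2 ∈ KK R θ ∧ M.1 1 0 * g.1 + M.1 1 1 ∈ Icc (1 / 8 : ℝ) 8) := by
  have hb1 : ∀ v, ‖ψ v‖ ≤ B := by
    intro v
    refine (hb v).trans ?_
    by_cases h : v ∈ KK R θ
    · rw [indicator_of_mem h, Pi.one_apply, mul_one]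
    · rw [indicator_of_notMem h, mul_zero]
      exact hB
  have hb2 : ∀ v, ψ v ≠ 0 → v ∈ KK R θ := by
    intro v hv
    by_contra h
    have := hb v
    rw [indicator_of_notMem h, mul_zero] at this
    exact hv (norm_le_zero_iff.mp this)
  have hn : ‖d74_Ph ψ M g‖ = ‖ψ g.2‖ * ‖ψ (act M g).2‖ := by
    unfold d74_Ph
    rw [norm_mul, RCLike.norm_conj, d74_tw_norm, d74_tw_norm]
  constructor
  · rw [hn, sq]
    exact mul_le_mul (hb1 _) (hb1 _) (norm_nonneg _) hB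
  · intro hne
    have hne' : ‖ψ g.2‖ * ‖ψ (act M g).2‖ ≠ 0 := by
      rw [← hn]
      exact norm_ne_zero_iff.mpr hne
    have h1 : g.2 ∈ KK R θ := hb2 _ (norm_ne_zero_iff.mp (left_ne_zero_of_mul hne'))
    have h2 : (act M g).2 ∈ KK R θ := hb2 _ (norm_ne_zero_iff.mp (right_ne_zero_of_mul hne'))
    refine ⟨h1, ?_⟩
    have := d74_zero R θ (M.1 1 0) (M.1 1 0 * g.1 + M.1 1 1) hR hθ g.2 h1 h2
    exact this.2

theorem d74_KK_bdd (R θ : ℝ) (hθ : 0 < θ) : KK R θ ⊆ Icc R (8 * R) ×ˢ Icc (-(θ * (8 * R))) (θ * (8 * R)) := by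
  rintro v ⟨h1, h2, h3⟩
  have h4 := abs_le.mp (h3.trans (mul_le_mul_of_nonneg_left h2 hθ.le))
  exact ⟨⟨h1, h2⟩, h4⟩

theorem d74_Ph_int (R θ B : ℝ) (hR : 0 < R) (hθ : 0 < θ) (hB : 0 ≤ B) (ψ : ℝ × ℝ → ℂ) (hψ : Measurable ψ)
    (hb : ∀ v, ‖ψ v‖ ≤ B * (KK R θ).indicator 1 v) (M : SL2R) (hc : M.1 1 0 ≠ 0) :
    Integrable (d74_Ph ψ M) := by
  set S : Set (ℝ × ℝ × ℝ) := Icc (-((8 + |M.1 1 1|) / |M.1 1 0|)) ((8 + |M.1 1 1|) / |M.1 1 0|) ×ˢ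
    (Icc R (8 * R) ×ˢ Icc (-(θ * (8 * R))) (θ * (8 * R))) with hS
  have hc' : 0 < |M.1 1 0| := abs_pos.mpr hc
  have hsupp : Function.support (d74_Ph ψ M) ⊆ S := by
    intro g hg
    obtain ⟨h1, h2⟩ := (d74_Ph_bound R θ B hR hθ hB ψ hb M g).2 hg
    refine ⟨?_, d74_KK_bdd R θ hθ h1⟩
    rw [mem_Icc, ← abs_le, le_div_iff₀ hc', ← abs_mul, mul_comm]
    have : M.1 1 0 * g.1 = (M.1 1 0 * g.1 + M.1 1 1) - M.1 1 1 := by ring
    rw [this]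
    refine (abs_sub _ _).trans ?_
    have h3 : |M.1 1 0 * g.1 + M.1 1 1| ≤ 8 := by
      rw [abs_of_nonneg (by linarith [h2.1])]
      exact h2.2
    linarith
  rw [← integrableOn_iff_integrable_of_support_subset hsupp]
  have hcomp : IsCompact S := isCompact_Icc.prod (isCompact_Icc.prod isCompact_Icc)
  refine Measure.integrableOn_of_bounded hcomp.measure_lt_top.ne (d74_Ph_meas ψ hψ M).aestronglyMeasurable (M := B ^ 2) ?_
  exact ae_of_all _ fun g => (d74_Ph_bound R θ B hR hθ hB ψ hb M g).1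

/-- the strips -/
def d74_Sl (l : ℤ) : Set (ℝ × ℝ × ℝ) := {g | (l : ℝ) ≤ g.1 ∧ g.1 < l + 1}

theorem d74_Sl_meas (l : ℤ) : MeasurableSet (d74_Sl l) := by
  unfold d74_Sl
  exact (measurableSet_le measurable_const measurable_fst).inter (measurableSet_lt measurable_fst measurable_const)

theorem d74_Sl_disj : Pairwise (Function.onFun Disjoint d74_Sl) := by
  intro i j hij
  rw [Function.onFun, Set.disjoint_left]
  rintro g ⟨h1, h2⟩ ⟨h3, h4⟩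
  apply hij
  have a : (i : ℝ) < j + 1 := by linarith
  have b : (j : ℝ) < i + 1 := by linarith
  have a' : i < j + 1 := by exact_mod_cast a
  have b' : j < i + 1 := by exact_mod_cast b
  omega

theorem d74_Sl_cover : ⋃ l, d74_Sl l = univ := by
  refine eq_univ_of_forall fun g => mem_iUnion.mpr ⟨⌊g.1⌋, ?_⟩
  exact ⟨Int.floor_le _, Int.lt_floor_add_one _⟩

theorem d74_tr_mp (l : ℤ) : MeasurePreserving (fun g : ℝ × ℝ × ℝ => g + ((l : ℝ), ((0 : ℝ), (0 : ℝ)))) volume volume := by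
  have h := (measurePreserving_add_right (volume : Measure ℝ) (l : ℝ)).prod
    (MeasurePreserving.id (volume : Measure (ℝ × ℝ)))
  have e : (fun g : ℝ × ℝ × ℝ => g + ((l : ℝ), ((0 : ℝ), (0 : ℝ)))) = Prod.map (fun x => x + (l : ℝ)) id := by
    funext g
    ext <;> simp
  rw [e]
  exact h

theorem d74_tr_pre (l : ℤ) : (fun g : ℝ × ℝ × ℝ => g + ((l : ℝ), ((0 : ℝ), (0 : ℝ)))) ⁻¹' (d74_Sl l) = Str := by
  ext g
  unfold d74_Sl Str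
  simp only [mem_preimage, mem_ofPred_eq, Prod.fst_add]
  constructor
  · rintro ⟨h1, h2⟩
    exact ⟨by linarith, by linarith⟩
  · rintro ⟨h1, h2⟩
    exact ⟨by linarith, by linarith⟩

theorem d74_tr_eq (l : ℤ) (g : ℝ × ℝ × ℝ) : g + ((l : ℝ), ((0 : ℝ), (0 : ℝ))) = (g.1 + l, g.2) := by
  ext <;> simp

theorem unf_line (R θ B : ℝ) (hR : 0 < R) (hθ : 0 < θ) (hB : 0 ≤ B) (ψ : ℝ × ℝ → ℂ) (hψ : Measurable ψ)
    (hb : ∀ v, ‖ψ v‖ ≤ B * (KK R θ).indicator 1 v) (M : SL2R) (hc : M.1 1 0 ≠ 0) :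
    IntegrableOn (fun g : ℝ × ℝ × ℝ => conj (tw ψ g) * ∑' l : ℤ, tw ψ (act M (g.1 + l, g.2))) Str ∧
    ∫ g in Str, conj (tw ψ g) * ∑' l : ℤ, tw ψ (act M (g.1 + l, g.2)) =
      ∫ x : ℝ, ∫ v : ℝ × ℝ, conj (tw ψ (x, v)) * tw ψ (act M (x, v)) := by
  have hI := d74_Ph_int R θ B hR hθ hB ψ hψ hb M hc
  have hF : ∀ g : ℝ × ℝ × ℝ, conj (tw ψ g) * ∑' l : ℤ, tw ψ (act M (g.1 + l, g.2)) =
      ∑' l : ℤ, d74_Ph ψ M (g + ((l : ℝ), ((0 : ℝ), (0 : ℝ)))) := by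
    intro g
    rw [← tsum_mul_left]
    refine tsum_congr fun l => ?_
    rw [d74_tr_eq]
    unfold d74_Ph
    rw [d74_per]
  have hm : ∀ l : ℤ, Measurable fun g : ℝ × ℝ × ℝ => d74_Ph ψ M (g + ((l : ℝ), ((0 : ℝ), (0 : ℝ)))) := fun l =>
    (d74_Ph_meas ψ hψ M).comp (d74_tr_mp l).measurable
  have hl : ∀ l : ℤ, ∫⁻ g in Str, ‖d74_Ph ψ M (g + ((l : ℝ), ((0 : ℝ), (0 : ℝ))))‖ₑ =
      ∫⁻ g in d74_Sl l, ‖d74_Ph ψ M g‖ₑ := by
    intro l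
    rw [← d74_tr_pre l]
    exact (d74_tr_mp l).setLIntegral_comp_preimage (d74_Sl_meas l) (d74_Ph_meas ψ hψ M).enorm
  have hi : ∀ l : ℤ, ∫ g in Str, d74_Ph ψ M (g + ((l : ℝ), ((0 : ℝ), (0 : ℝ)))) = ∫ g in d74_Sl l, d74_Ph ψ M g := by
    intro l
    rw [← d74_tr_pre l]
    exact (d74_tr_mp l).setIntegral_preimage_emb (MeasurableEquiv.addRight _).measurableEmbedding _ _
  have hsum : ∑' l : ℤ, ∫⁻ g in Str, ‖d74_Ph ψ M (g + ((l : ℝ), ((0 : ℝ), (0 : ℝ))))‖ₑ = ∫⁻ g, ‖d74_Ph ψ M g‖ₑ := by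
    simp_rw [hl]
    rw [← lintegral_iUnion (fun l => d74_Sl_meas l) d74_Sl_disj, d74_Sl_cover, setLIntegral_univ]
  have hfin : ∫⁻ g, ‖d74_Ph ψ M g‖ₑ ≠ ∞ := hI.2.ne
  simp_rw [hF]
  constructor
  · refine ⟨(Measurable.tsum hm).aestronglyMeasurable, ?_⟩
    refine lt_of_le_of_lt ?_ (lt_top_iff_ne_top.mpr hfin)
    rw [← hsum, ← lintegral_tsum fun l => (hm l).enorm.aemeasurable]
    exact lintegral_mono fun g => enorm_tsum_le_tsum_enorm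
  · rw [integral_tsum (fun l => (hm l).aestronglyMeasurable) (by rw [hsum]; exact hfin)]
    simp_rw [hi]
    rw [← integral_iUnion (fun l => d74_Sl_meas l) d74_Sl_disj (by rw [d74_Sl_cover]; exact hI.integrableOn),
      d74_Sl_cover, setIntegral_univ]
    exact integral_prod _ hI

end Pool.Agent.LibSM56C
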