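import Pool.Agent.LibSM56C.K_Defs

/-! # SM56 part (C), section K
K_07 (SHORT/MEDIUM): the bump. PLAN. `h(t) = max 0 (1 - (t/θ)²)`: for `|t| < θ` a polynomial, for `|t| > θ` zero,
at `|t| = θ` squeeze (or: `h^(k+1)`, k ≥ 1, is `g ∘ (1 - (t/θ)²)` with `g y = (max 0 y)^(k+1)`, and `g` has
derivative `(k+1) (max 0 y)^k` everywhere, at 0 by `|g y| ≤ |y|^(k+1)`). Bounds: on the support `|t| ≤ θ`, `0 ≤ h ≤ 1`.
Integral: `∫ bu0 = 32 θ/35`, `cos (2 π N t) ≥ cos (π/4) ≥ 0.7` on the support if `|N| θ ≤ 1/8`. -/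

set_option autoImplicit false

namespace Pool.Agent.LibSM56C

open MeasureTheory Set Filter Topology Complex
open scoped ENNReal ComplexConjugate

theorem bu_maxpow (k : ℕ) (hk : 1 ≤ k) (y : ℝ) :
    HasDerivAt (fun y : ℝ => (max 0 y) ^ (k + 1)) (((k : ℝ) + 1) * (max 0 y) ^ k) y := by
  rcases lt_trichotomy y 0 with h | h | h
  · have h1 : max 0 y = 0 := max_eq_left h.le
    rw [h1, zero_pow (by omega), mul_zero]
    have h2 : (fun y : ℝ => (max 0 y) ^ (k + 1)) =ᶠ[𝓝 y] fun _ => (0 : ℝ) := by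
      filter_upwards [gt_mem_nhds h] with z hz
      have : max 0 z = 0 := max_eq_left (le_of_lt hz)
      rw [this, zero_pow (by omega)]
    exact (hasDerivAt_const y (0 : ℝ)).congr_of_eventuallyEq h2
  · subst h
    rw [max_self, zero_pow (by omega), mul_zero, hasDerivAt_iff_isLittleO]
    simp only [max_self, smul_eq_mul, mul_zero, sub_zero]
    rw [zero_pow (by omega)]
    simp only [sub_zero]
    refine (Asymptotics.IsBigO.of_bound 1 (Filter.Eventually.of_forall fun z => ?_)).trans_isLittleO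
      (Asymptotics.isLittleO_pow_id (n := k + 1) (by omega))
    rw [one_mul, norm_pow, norm_pow]
    refine pow_le_pow_left₀ (norm_nonneg _) ?_ _
    rw [Real.norm_eq_abs, Real.norm_eq_abs, abs_of_nonneg (le_max_left 0 z)]
    exact max_le (abs_nonneg z) (le_abs_self z)
  · have h1 : max 0 y = y := max_eq_right h.le
    rw [h1]
    have h2 : (fun y : ℝ => (max 0 y) ^ (k + 1)) =ᶠ[𝓝 y] fun z => z ^ (k + 1) := by
      filter_upwards [lt_mem_nhds h] with z hz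
      have : max 0 z = z := max_eq_right (le_of_lt hz)
      rw [this]
    have h3 : HasDerivAt (fun z : ℝ => z ^ (k + 1)) (((k : ℝ) + 1) * y ^ k) y := by
      have := hasDerivAt_pow (k + 1) y
      simpa using this
    exact h3.congr_of_eventuallyEq h2

theorem bu_inner (θ : ℝ) (hθ : 0 < θ) (t : ℝ) :
    HasDerivAt (fun t : ℝ => 1 - (t / θ) ^ 2) (-(2 * t / θ ^ 2)) t := by
  have h1 : HasDerivAt (fun t : ℝ => t / θ) (1 / θ) t := (hasDerivAt_id t).div_const θ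
  have h2 := (h1.pow 2).const_sub 1
  have h3 : HasDerivAt (fun t : ℝ => 1 - (t / θ) ^ 2) (-(((2 : ℕ) : ℝ) * (t / θ) ^ (2 - 1) * (1 / θ))) t := h2
  convert h3 using 1
  have : θ ≠ 0 := hθ.ne'
  push_cast
  field_simp

theorem bu0_deriv (θ : ℝ) (hθ : 0 < θ) (t : ℝ) : HasDerivAt (bu0 θ) (bu1 θ t) t := by
  have h1 := (bu_maxpow 2 (by norm_num) (1 - (t / θ) ^ 2)).comp t (bu_inner θ hθ t)
  have h2 : HasDerivAt (bu0 θ) ((((2 : ℕ) : ℝ) + 1) * (max 0 (1 - (t / θ) ^ 2)) ^ 2 * (-(2 * t / θ ^ 2))) t := h1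
  convert h2 using 1
  unfold bu1
  push_cast
  ring

theorem bu1_deriv (θ : ℝ) (hθ : 0 < θ) (t : ℝ) : HasDerivAt (bu1 θ) (bu2 θ t) t := by
  have h1 := (bu_maxpow 1 (by norm_num) (1 - (t / θ) ^ 2)).comp t (bu_inner θ hθ t)
  have h2 : HasDerivAt (fun t : ℝ => (max 0 (1 - (t / θ) ^ 2)) ^ 2)
    ((((1 : ℕ) : ℝ) + 1) * (max 0 (1 - (t / θ) ^ 2)) ^ 1 * (-(2 * t / θ ^ 2))) t := h1
  have h3 : HasDerivAt (fun t : ℝ => -(6 * t / θ ^ 2)) (-(6 / θ ^ 2)) t := by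
    have h4 : HasDerivAt (fun t : ℝ => -(6 * t / θ ^ 2)) (-(6 * 1 / θ ^ 2)) t :=
      (((hasDerivAt_id t).const_mul 6).div_const _).neg
    simpa using h4
  have h5 := h3.mul h2
  have h6 : HasDerivAt (bu1 θ) (-(6 / θ ^ 2) * (max 0 (1 - (t / θ) ^ 2)) ^ 2 + -(6 * t / θ ^ 2) *
    ((((1 : ℕ) : ℝ) + 1) * (max 0 (1 - (t / θ) ^ 2)) ^ 1 * (-(2 * t / θ ^ 2)))) t := h5
  convert h6 using 1
  unfold bu2
  have : θ ≠ 0 := hθ.ne'
  push_cast
  field_simp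
  ring

theorem bu2_cont (θ : ℝ) (hθ : 0 < θ) : Continuous (bu2 θ) := by
  unfold bu2
  fun_prop

theorem bu_supp (θ t : ℝ) (hθ : 0 < θ) (ht : θ < |t|) : bu0 θ t = 0 ∧ bu1 θ t = 0 ∧ bu2 θ t = 0 := by
  have h1 : max 0 (1 - (t / θ) ^ 2) = 0 := by
    apply max_eq_left
    rw [div_pow, sub_nonpos, le_div_iff₀ (by positivity), one_mul, ← sq_abs t]
    exact pow_le_pow_left₀ hθ.le ht.le 2
  unfold bu0 bu1 bu2
  rw [h1]
  simp

theorem bu_bound (θ t : ℝ) (hθ : 0 < θ) :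
    0 ≤ bu0 θ t ∧ bu0 θ t ≤ 1 ∧ |bu1 θ t| ≤ 6 / θ ∧ |bu2 θ t| ≤ 30 / θ ^ 2 := by
  have hh0 : 0 ≤ max 0 (1 - (t / θ) ^ 2) := le_max_left _ _
  have hh1 : max 0 (1 - (t / θ) ^ 2) ≤ 1 := max_le zero_le_one (by nlinarith [sq_nonneg (t / θ)])
  by_cases ht : θ < |t|
  · obtain ⟨h0, h1, h2⟩ := bu_supp θ t hθ ht
    rw [h0, h1, h2]
    refine ⟨le_refl 0, zero_le_one, ?_, ?_⟩ <;> rw [abs_zero] <;> positivity
  · rw [not_lt] at ht
    set h := max 0 (1 - (t / θ) ^ 2) with hdef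
    have e0 : bu0 θ t = h ^ 3 := rfl
    have e1 : bu1 θ t = -(6 * t / θ ^ 2) * h ^ 2 := rfl
    have e2 : bu2 θ t = -(6 / θ ^ 2) * h ^ 2 + 24 * t ^ 2 / θ ^ 4 * h := rfl
    have ht2 : t ^ 2 ≤ θ ^ 2 := by
      rw [← sq_abs t]
      exact pow_le_pow_left₀ (abs_nonneg t) ht 2
    have hsq0 : 0 ≤ h ^ 2 := sq_nonneg h
    have hsq1 : h ^ 2 ≤ 1 := pow_le_one₀ hh0 hh1
    refine ⟨?_, ?_, ?_, ?_⟩
    · rw [e0]; positivity
    · rw [e0]; exact pow_le_one₀ hh0 hh1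
    · rw [e1, abs_mul, abs_neg, abs_div, abs_mul, abs_of_nonneg hsq0, abs_of_pos (by norm_num : (0 : ℝ) < 6),
        abs_of_pos (by positivity : (0 : ℝ) < θ ^ 2)]
      calc 6 * |t| / θ ^ 2 * h ^ 2 ≤ 6 * θ / θ ^ 2 * 1 := by gcongr
        _ = 6 / θ := by field_simp
    · rw [e2]
      have a1 : |(-(6 / θ ^ 2) * h ^ 2)| ≤ 6 / θ ^ 2 := by
        rw [abs_mul, abs_neg, abs_of_nonneg hsq0, abs_of_pos (by positivity : (0 : ℝ) < 6 / θ ^ 2)]
        calc 6 / θ ^ 2 * h ^ 2 ≤ 6 / θ ^ 2 * 1 := by gcongr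
          _ = 6 / θ ^ 2 := mul_one _
      have a2 : |24 * t ^ 2 / θ ^ 4 * h| ≤ 24 / θ ^ 2 := by
        rw [abs_of_nonneg (by positivity)]
        calc 24 * t ^ 2 / θ ^ 4 * h ≤ 24 * θ ^ 2 / θ ^ 4 * 1 := by gcongr
          _ = 24 / θ ^ 2 := by field_simp
      calc |(-(6 / θ ^ 2) * h ^ 2 + 24 * t ^ 2 / θ ^ 4 * h)| ≤ _ := abs_add_le _ _
        _ ≤ 6 / θ ^ 2 + 24 / θ ^ 2 := add_le_add a1 a2
        _ = 30 / θ ^ 2 := by ring

theorem bu0_cont (θ : ℝ) : Continuous (bu0 θ) := by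
  unfold bu0
  fun_prop

theorem bu_int (θ : ℝ) (hθ : 0 < θ) : ∫ y in (-θ)..θ, bu0 θ y = 32 * θ / 35 := by
  have h1 : ∫ y in (-θ)..θ, bu0 θ y = ∫ y in (-θ)..θ, (1 - (y / θ) ^ 2) ^ 3 := by
    apply intervalIntegral.integral_congr
    intro y hy
    rw [uIcc_of_le (by linarith)] at hy
    have h2 : y ^ 2 ≤ θ ^ 2 := by nlinarith [hy.1, hy.2]
    have h3 : 0 ≤ 1 - (y / θ) ^ 2 := by
      rw [div_pow, sub_nonneg, div_le_one (by positivity)]
      exact h2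
    show (max 0 (1 - (y / θ) ^ 2)) ^ 3 = _
    rw [max_eq_right h3]
  rw [h1]
  have h4 : ∀ y ∈ uIcc (-θ) θ, HasDerivAt
      (fun y : ℝ => y - y ^ 3 / θ ^ 2 + 3 / 5 * y ^ 5 / θ ^ 4 - y ^ 7 / (7 * θ ^ 6)) ((1 - (y / θ) ^ 2) ^ 3) y := by
    intro y _
    have d3 : HasDerivAt (fun y : ℝ => y ^ 3 / θ ^ 2) (3 * y ^ 2 / θ ^ 2) y := by
      have := (hasDerivAt_pow 3 y).div_const (θ ^ 2)
      simpa using this
    have d5 : HasDerivAt (fun y : ℝ => 3 / 5 * y ^ 5 / θ ^ 4) (3 / 5 * (5 * y ^ 4) / θ ^ 4) y := by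
      have := ((hasDerivAt_pow 5 y).const_mul (3 / 5 : ℝ)).div_const (θ ^ 4)
      simpa using this
    have d7 : HasDerivAt (fun y : ℝ => y ^ 7 / (7 * θ ^ 6)) (7 * y ^ 6 / (7 * θ ^ 6)) y := by
      have := (hasDerivAt_pow 7 y).div_const (7 * θ ^ 6)
      simpa using this
    have h5 := (((hasDerivAt_id y).sub d3).add d5).sub d7
    have h6 : HasDerivAt (fun y : ℝ => y - y ^ 3 / θ ^ 2 + 3 / 5 * y ^ 5 / θ ^ 4 - y ^ 7 / (7 * θ ^ 6))
      (1 - 3 * y ^ 2 / θ ^ 2 + 3 / 5 * (5 * y ^ 4) / θ ^ 4 - 7 * y ^ 6 / (7 * θ ^ 6)) y := h5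
    convert h6 using 1
    have : θ ≠ 0 := hθ.ne'
    field_simp
    ring
  rw [intervalIntegral.integral_eq_sub_of_hasDerivAt h4 (Continuous.intervalIntegrable (by fun_prop) _ _)]
  have : θ ≠ 0 := hθ.ne'
  field_simp
  ring

theorem bu_hat (θ : ℝ) (hθ : 0 < θ) (hθ1 : θ ≤ 1) (N : ℤ) (hN : |(N : ℝ)| * θ ≤ 1 / 8) :
    θ / 2 ≤ ‖∫ y in (-2:ℝ)..1, (bu0 θ y : ℂ) * ee (-(N * y))‖ := by
  have hc0 : Continuous fun y : ℝ => (bu0 θ y : ℂ) * ee (-(N * y)) := by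
    have h1 := bu0_cont θ
    unfold ee
    fun_prop
  have hre : (∫ y in (-2:ℝ)..1, (bu0 θ y : ℂ) * ee (-(N * y))).re =
      ∫ y in (-2:ℝ)..1, bu0 θ y * Real.cos (2 * Real.pi * (N * y)) := by
    have h2 : (∫ y in (-2:ℝ)..1, (bu0 θ y : ℂ) * ee (-(N * y))).re =
        ∫ y in (-2:ℝ)..1, ((bu0 θ y : ℂ) * ee (-(N * y))).re := by
      have h3 := Complex.reCLM.intervalIntegral_comp_comm (hc0.intervalIntegrable (μ := volume) (-2) 1)
      simpa using h3.symm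
    rw [h2]
    apply intervalIntegral.integral_congr
    intro y _
    show ((bu0 θ y : ℂ) * ee (-(N * y))).re = _
    rw [Complex.re_ofReal_mul]
    congr 1
    unfold ee
    have h5 : (2 * (Real.pi : ℂ) * I * ((-(N * y) : ℝ) : ℂ)) = ((-(2 * Real.pi * (N * y)) : ℝ) : ℂ) * I := by
      push_cast
      ring
    rw [h5, Complex.exp_ofReal_mul_I_re, Real.cos_neg]
  have hpt : ∀ y : ℝ, 7 / 10 * bu0 θ y ≤ bu0 θ y * Real.cos (2 * Real.pi * (N * y)) := by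
    intro y
    by_cases hy : θ < |y|
    · rw [(bu_supp θ y hθ hy).1]
      simp
    · rw [not_lt] at hy
      have hb := (bu_bound θ y hθ).1
      have h1 : |2 * Real.pi * (N * y)| ≤ Real.pi / 4 := by
        rw [abs_mul, abs_of_pos (by positivity : (0 : ℝ) < 2 * Real.pi), abs_mul]
        have h2 : |(N : ℝ)| * |y| ≤ 1 / 8 :=
          (mul_le_mul_of_nonneg_left hy (abs_nonneg _)).trans hN
        calc 2 * Real.pi * (|(N : ℝ)| * |y|) ≤ 2 * Real.pi * (1 / 8) := by gcongr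
          _ = Real.pi / 4 := by ring
      have h3 : 7 / 10 ≤ Real.cos (2 * Real.pi * (N * y)) := by
        rw [← Real.cos_abs]
        have h4 : Real.cos (Real.pi / 4) ≤ Real.cos |2 * Real.pi * (N * y)| :=
          Real.cos_le_cos_of_nonneg_of_le_pi (abs_nonneg _) (by linarith [Real.pi_pos]) h1
        have h5 : (7 / 10 : ℝ) ≤ Real.cos (Real.pi / 4) := by
          rw [Real.cos_pi_div_four]
          have h6 : (7 / 5 : ℝ) ≤ √2 := by
            rw [show (7 / 5 : ℝ) = √((7 / 5) ^ 2) by rw [Real.sqrt_sq (by norm_num)]]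
            exact Real.sqrt_le_sqrt (by norm_num)
          linarith
        exact h5.trans h4
      nlinarith
  have hcr : Continuous fun y : ℝ => bu0 θ y * Real.cos (2 * Real.pi * (N * y)) := by
    have h1 := bu0_cont θ
    fun_prop
  have hci : Continuous fun y : ℝ => 7 / 10 * bu0 θ y := by
    have h1 := bu0_cont θ
    fun_prop
  have hmono : ∫ y in (-2:ℝ)..1, 7 / 10 * bu0 θ y ≤
      ∫ y in (-2:ℝ)..1, bu0 θ y * Real.cos (2 * Real.pi * (N * y)) :=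
    intervalIntegral.integral_mono_on (by norm_num) (hci.intervalIntegrable _ _) (hcr.intervalIntegrable _ _)
      fun y _ => hpt y
  have hint : 32 * θ / 35 ≤ ∫ y in (-2:ℝ)..1, bu0 θ y := by
    rw [← bu_int θ hθ]
    apply intervalIntegral.integral_mono_interval (by linarith) (by linarith) hθ1
    · exact Filter.Eventually.of_forall fun y => (bu_bound θ y hθ).1
    · exact (bu0_cont θ).intervalIntegrable _ _
  rw [intervalIntegral.integral_const_mul] at hmono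
  calc θ / 2 ≤ (∫ y in (-2:ℝ)..1, (bu0 θ y : ℂ) * ee (-(N * y))).re := by
        rw [hre]; linarith
    _ ≤ ‖∫ y in (-2:ℝ)..1, (bu0 θ y : ℂ) * ee (-(N * y))‖ := Complex.re_le_norm _

end Pool.Agent.LibSM56C
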