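import Pool.Agent.LibSM56C.K_Defs
import Pool.Agent.LibSM56C.K_07

/-! # SM56 part (C), section K
K_10 (MEDIUM): the Fourier coefficients of `GG` at `s = r = 0`. -/

set_option autoImplicit false

namespace Pool.Agent.LibSM56C

open MeasureTheory Set Filter Topology Complex
open scoped ENNReal ComplexConjugate

theorem g4_ee_add (x y : ℝ) : ee (x + y) = ee x * ee y := by
  unfold ee
  rw [← Complex.exp_add]
  congr 1
  push_cast
  ring

theorem g4_ee_int (k : ℤ) : ee k = 1 := by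
  unfold ee
  have := Complex.exp_int_mul_two_pi_mul_I k
  rw [← this]
  congr 1
  push_cast
  ring

theorem g4_ee_char (m : ℕ) [NeZero m] (z : ℤ) : ee ((z : ℝ) / m) = ZMod.stdAddChar (z : ZMod m) := by
  rw [ZMod.stdAddChar_coe]
  unfold ee
  congr 1
  push_cast
  ring

theorem g4_ee_cont : Continuous ee := by
  unfold ee
  fun_prop

theorem g4_Tm (n m : ℕ) (hn : 1 ≤ n) (hm : 1 ≤ m) (e : ℤ) (x ρ θ : ℝ) (f : ℝ → ℂ) :
    Tm n m e (ps00 θ f) x (ρ * 0) 0 =
      ee (ia n m e / m) * (f (Real.log (√(n : ℝ) * m)) * (bu0 θ (x + e / m) : ℂ)) := by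
  have hn' : (0 : ℝ) < √(n : ℝ) := Real.sqrt_pos.mpr (by exact_mod_cast hn)
  have hm' : (0 : ℝ) < m := by exact_mod_cast hm
  have hp : 0 < √(n : ℝ) * m := mul_pos hn' hm'
  unfold Tm xx vv ps00 bb pw qw B0
  simp only [mul_zero, zero_mul, add_zero, zero_div, sub_zero, Real.exp_zero, mul_one, neg_zero, pow_zero, one_mul,
    div_one]
  rw [if_pos hp]
  congr 3
  congr 1
  field_simp

/-- the decomposition `e = e₀ + k m` -/
theorem g4_EE (m : ℕ) (g : ℤ → ℂ) :
    ∑ e ∈ EE m, g e = ∑ e ∈ (Finset.Ico (0 : ℤ) m).filter (fun e => IsCoprime e (m : ℤ)),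
      (g (e + (-2 * m : ℤ)) + g (e + (-m : ℤ)) + g e) := by
  unfold EE
  rw [Finset.sum_filter, Finset.sum_filter]
  have h1 : Finset.Ico (-2 * (m : ℤ)) m = Finset.Ico (-2 * (m : ℤ)) (-m) ∪ Finset.Ico (-m : ℤ) m :=
    (Finset.Ico_union_Ico_eq_Ico (by omega) (by omega)).symm
  have h2 : Finset.Ico (-m : ℤ) m = Finset.Ico (-m : ℤ) 0 ∪ Finset.Ico (0 : ℤ) m :=
    (Finset.Ico_union_Ico_eq_Ico (by omega) (by omega)).symm
  have d1 : Disjoint (Finset.Ico (-2 * (m : ℤ)) (-m)) (Finset.Ico (-m : ℤ) m) := by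
    rw [Finset.disjoint_left]
    intro a ha hb
    rw [Finset.mem_Ico] at ha hb
    omega
  have d2 : Disjoint (Finset.Ico (-m : ℤ) 0) (Finset.Ico (0 : ℤ) m) := by
    rw [Finset.disjoint_left]
    intro a ha hb
    rw [Finset.mem_Ico] at ha hb
    omega
  rw [h1, Finset.sum_union d1, h2, Finset.sum_union d2]
  have t1 := Finset.sum_Ico_add' (fun e : ℤ => if IsCoprime e (m : ℤ) then g e else 0) 0 m (-2 * m)
  have t2 := Finset.sum_Ico_add' (fun e : ℤ => if IsCoprime e (m : ℤ) then g e else 0) 0 m (-m)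
  rw [show (0 : ℤ) + -2 * m = -2 * m by ring, show (m : ℤ) + -2 * m = -m by ring] at t1
  rw [show (0 : ℤ) + -m = -m by ring, show (m : ℤ) + -m = 0 by ring] at t2
  rw [← t1, ← t2, ← Finset.sum_add_distrib, ← Finset.sum_add_distrib]
  refine Finset.sum_congr rfl fun e _ => ?_
  have c1 : IsCoprime (e + -2 * (m : ℤ)) m ↔ IsCoprime e (m : ℤ) := IsCoprime.add_mul_right_left_iff
  have c2 : IsCoprime (e + -(m : ℤ)) m ↔ IsCoprime e (m : ℤ) := by
    have := @IsCoprime.add_mul_right_left_iff ℤ _ e (m : ℤ) (-1)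
    rwa [show e + -1 * (m : ℤ) = e + -m by ring] at this
  by_cases h : IsCoprime e (m : ℤ)
  · rw [if_pos (c1.mpr h), if_pos (c2.mpr h), if_pos h, if_pos h]
    ring
  · rw [if_neg (fun h' => h (c1.mp h')), if_neg (fun h' => h (c2.mp h')), if_neg h, if_neg h]
    ring

/-- the integrals over `x` -/
theorem g4_int (θ : ℝ) (hθ : 0 < θ) (hθ1 : θ ≤ 1 / 16) (N : ℤ) (m : ℕ) (hm : 1 ≤ m) (e : ℤ) (h0 : 0 ≤ e)
    (h1 : e < m) :
    (∫ x in (0:ℝ)..1, (bu0 θ (x + ((e + (-2 * m : ℤ) : ℤ) : ℝ) / m) : ℂ) * ee (-(N * x))) +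
      (∫ x in (0:ℝ)..1, (bu0 θ (x + ((e + (-m : ℤ) : ℤ) : ℝ) / m) : ℂ) * ee (-(N * x))) +
      (∫ x in (0:ℝ)..1, (bu0 θ (x + (e : ℝ) / m) : ℂ) * ee (-(N * x))) =
    ee (N * (e / m)) * ∫ y in (-2:ℝ)..1, (bu0 θ y : ℂ) * ee (-(N * y)) := by
  have hm' : (0 : ℝ) < m := by exact_mod_cast hm
  set a : ℝ := (e : ℝ) / m with ha
  have ha0 : 0 ≤ a := div_nonneg (by exact_mod_cast h0) hm'.le
  have ha1 : a ≤ 1 := by
    rw [ha, div_le_one hm']
    exact_mod_cast h1.le
  have e1 : ((e + (-2 * m : ℤ) : ℤ) : ℝ) / m = a + ((-2 : ℤ) : ℝ) := by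
    rw [ha]; push_cast; field_simp
  have e2 : ((e + (-m : ℤ) : ℤ) : ℝ) / m = a + ((-1 : ℤ) : ℝ) := by
    rw [ha]; push_cast; field_simp
  set F : ℝ → ℂ := fun y => (bu0 θ y : ℂ) * ee (-(N * y)) with hF
  have hFc : Continuous F := by
    rw [hF]
    exact (Complex.continuous_ofReal.comp (bu0_cont θ)).mul (g4_ee_cont.comp (by fun_prop))
  have hi : ∀ u v : ℝ, IntervalIntegrable F volume u v := fun u v => hFc.intervalIntegrable u v
  have key : ∀ k : ℤ, ∫ x in (0:ℝ)..1, (bu0 θ (x + (a + (k : ℝ))) : ℂ) * ee (-(N * x)) =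
      ee (N * a) * ∫ y in (a + k)..(a + k + 1), F y := by
    intro k
    have t := intervalIntegral.integral_comp_add_right F (a := (0 : ℝ)) (b := 1) (a + k)
    rw [show (0 : ℝ) + (a + k) = a + k by ring, show (1 : ℝ) + (a + k) = a + k + 1 by ring] at t
    rw [← t, ← intervalIntegral.integral_const_mul]
    refine intervalIntegral.integral_congr fun x _ => ?_
    simp only [hF]
    have : ee (-(N * x)) = ee (N * a) * ee (-(N * (x + (a + k)))) := by
      rw [← g4_ee_add, show (N : ℝ) * a + -(N * (x + (a + k))) = -(N * x) + ((-(N * k) : ℤ) : ℝ) by push_cast; ring,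
        g4_ee_add, g4_ee_int, mul_one]
    rw [this]
    ring
  have e3 : (∫ x in (0:ℝ)..1, (bu0 θ (x + a) : ℂ) * ee (-(N * x))) = ee (N * a) * ∫ y in a..(a + 1), F y := by
    have := key 0
    simpa using this
  rw [e1, e2, key (-2), key (-1), e3, ← mul_add, ← mul_add]
  congr 1
  push_cast
  rw [show a + -2 + 1 = a + -1 by ring, show a + -1 + 1 = a by ring,
    intervalIntegral.integral_add_adjacent_intervals (hi _ _) (hi _ _),
    intervalIntegral.integral_add_adjacent_intervals (hi _ _) (hi _ _)]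
  have z1 : ∫ y in (-2:ℝ)..(a + -2), F y = 0 := by
    rw [intervalIntegral.integral_congr (g := fun _ => (0 : ℂ)), intervalIntegral.integral_zero]
    intro y hy
    rw [uIcc_of_le (by linarith)] at hy
    have : bu0 θ y = 0 := (bu_supp θ y hθ (by
      rw [abs_of_nonpos (by linarith [hy.2])]
      linarith [hy.2])).1
    simp [hF, this]
  have z2 : ∫ y in (1:ℝ)..(a + 1), F y = 0 := by
    rw [intervalIntegral.integral_congr (g := fun _ => (0 : ℂ)), intervalIntegral.integral_zero]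
    intro y hy
    rw [uIcc_of_le (by linarith)] at hy
    have : bu0 θ y = 0 := (bu_supp θ y hθ (by
      rw [abs_of_nonneg (by linarith [hy.1])]
      linarith [hy.1])).1
    simp [hF, this]
  have s1 := intervalIntegral.integral_add_adjacent_intervals (hi (-2) (a + -2)) (hi (a + -2) (a + 1))
  have s2 := intervalIntegral.integral_add_adjacent_intervals (hi (-2) 1) (hi 1 (a + 1))
  rw [z1, zero_add] at s1
  rw [z2, add_zero] at s2
  rw [s1, s2]

/-- the sum over `e₀` is the Kloosterman sum -/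
theorem g4_Kl (n m : ℕ) (hm : 1 ≤ m) (hnm : Nat.Coprime m n) (N : ℤ) :
    ∑ e ∈ (Finset.Ico (0 : ℤ) m).filter (fun e => IsCoprime e (m : ℤ)), ee (ia n m e / m) * ee (N * (e / m)) =
      Sk m (N : ZMod m) ((n : ZMod m)⁻¹) := by
  have hm0 : m ≠ 0 := by omega
  have : NeZero m := ⟨hm0⟩
  unfold Sk
  rw [dif_neg hm0]
  unfold Kl
  symm
  refine Finset.sum_bij (fun (u : (ZMod m)ˣ) _ => (((u : ZMod m).val : ℕ) : ℤ)) ?_ ?_ ?_ ?_
  · intro u _
    rw [Finset.mem_filter, Finset.mem_Ico]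
    refine ⟨⟨by positivity, by exact_mod_cast ZMod.val_lt _⟩, ?_⟩
    exact Nat.isCoprime_iff_coprime.mpr (ZMod.val_coe_unit_coprime u)
  · intro u _ v _ h
    apply Units.ext
    apply ZMod.val_injective m
    exact_mod_cast h
  · intro e he
    rw [Finset.mem_filter, Finset.mem_Ico] at he
    obtain ⟨⟨h0, h1⟩, h2⟩ := he
    obtain ⟨k, rfl⟩ := Int.eq_ofNat_of_zero_le h0
    have hk : Nat.Coprime k m := Nat.isCoprime_iff_coprime.mp h2
    refine ⟨ZMod.unitOfCoprime k hk, Finset.mem_univ _, ?_⟩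
    rw [ZMod.coe_unitOfCoprime, ZMod.val_natCast, Nat.mod_eq_of_lt (by exact_mod_cast h1)]
  · intro u _
    have hun : IsUnit ((n : ℕ) : ZMod m) := (ZMod.isUnit_iff_coprime n m).mpr hnm.symm
    have h1 : ((((n : ℤ) * (((u : ZMod m).val : ℕ) : ℤ) : ℤ) : ZMod m)) = (n : ZMod m) * (u : ZMod m) := by
      push_cast
      rw [ZMod.natCast_zmod_val]
    have hinv : ((n : ZMod m) * (u : ZMod m))⁻¹ = (n : ZMod m)⁻¹ * ((u⁻¹ : (ZMod m)ˣ) : ZMod m) := by
      obtain ⟨w, hw⟩ := hun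
      rw [← hw, ← Units.val_mul, ZMod.inv_coe_unit, ZMod.inv_coe_unit, mul_inv, Units.val_mul]
    have h2 : ee (ia n m (((u : ZMod m).val : ℕ) : ℤ) / m) =
        ZMod.stdAddChar ((n : ZMod m)⁻¹ * ((u⁻¹ : (ZMod m)ˣ) : ZMod m)) := by
      have := g4_ee_char m (ia n m (((u : ZMod m).val : ℕ) : ℤ) : ℤ)
      rw [show (((ia n m (((u : ZMod m).val : ℕ) : ℤ) : ℤ)) : ℝ) = (ia n m (((u : ZMod m).val : ℕ) : ℤ) : ℝ) by
        push_cast; rfl] at this
      rw [this]
      congr 1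
      unfold ia
      rw [h1, hinv]
      push_cast
      rw [ZMod.natCast_zmod_val]
    have h3 : ee (N * ((((u : ZMod m).val : ℕ) : ℤ) / m)) = ZMod.stdAddChar ((N : ZMod m) * (u : ZMod m)) := by
      have := g4_ee_char m (N * (((u : ZMod m).val : ℕ) : ℤ))
      rw [show (N : ℝ) * (((((u : ZMod m).val : ℕ) : ℤ) : ℝ) / m) =
        ((N * (((u : ZMod m).val : ℕ) : ℤ) : ℤ) : ℝ) / m by push_cast; ring, this]
      congr 1
      push_cast
      rw [ZMod.natCast_zmod_val]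
    rw [h2, h3, AddChar.map_add_eq_mul, mul_comm]

theorem GG_four (n d : ℕ) (hn : 1 ≤ n) (hd : 1 ≤ d) (R ρ θ : ℝ) (hR : 0 < R) (hθ : 0 < θ) (hθ1 : θ ≤ 1 / 16)
    (f : ℝ → ℂ) (h0 : ∀ t, t ∉ Icc (Real.log R) (Real.log (8 * R)) → f t = 0) (N : ℤ) :
    ∫ x in (0:ℝ)..1, GG n d R ρ (ps00 θ f) x 0 0 * ee (-(N * x)) =
      (∫ y in (-2:ℝ)..1, (bu0 θ y : ℂ) * ee (-(N * y))) *
        ∑ m ∈ MM n d (8 * R), Sk m (N : ZMod m) ((n : ZMod m)⁻¹) * f (Real.log (√(n : ℝ) * m)) := by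
  have hmem : ∀ m ∈ MM n d (12 * R), 1 ≤ m ∧ Nat.Coprime m n := by
    intro m hm
    unfold MM at hm
    rw [Finset.mem_filter, Finset.mem_Icc] at hm
    exact ⟨hm.1.1, hm.2.2⟩
  -- one term
  have hterm : ∀ m ∈ MM n d (12 * R), ∀ e : ℤ, ∀ x : ℝ,
      Tm n m e (ps00 θ f) x (ρ * 0) 0 * ee (-(N * x)) =
        (ee (ia n m e / m) * f (Real.log (√(n : ℝ) * m))) * ((bu0 θ (x + e / m) : ℂ) * ee (-(N * x))) := by
    intro m hm e x
    rw [g4_Tm n m hn (hmem m hm).1]
    ring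
  have hc : ∀ (m : ℕ) (e : ℤ), Continuous fun x : ℝ => (bu0 θ (x + e / m) : ℂ) * ee (-(N * x)) := by
    intro m e
    exact (Complex.continuous_ofReal.comp ((bu0_cont θ).comp (by fun_prop))).mul (g4_ee_cont.comp (by fun_prop))
  have h1 : ∫ x in (0:ℝ)..1, GG n d R ρ (ps00 θ f) x 0 0 * ee (-(N * x)) =
      ∑ m ∈ MM n d (12 * R), ∑ e ∈ EE m, (ee (ia n m e / m) * f (Real.log (√(n : ℝ) * m))) *
        ∫ x in (0:ℝ)..1, (bu0 θ (x + e / m) : ℂ) * ee (-(N * x)) := by
    have : ∀ x : ℝ, GG n d R ρ (ps00 θ f) x 0 0 * ee (-(N * x)) =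
        ∑ m ∈ MM n d (12 * R), ∑ e ∈ EE m, (ee (ia n m e / m) * f (Real.log (√(n : ℝ) * m))) *
          ((bu0 θ (x + e / m) : ℂ) * ee (-(N * x))) := by
      intro x
      unfold GG
      rw [Finset.sum_mul]
      refine Finset.sum_congr rfl fun m hm => ?_
      rw [Finset.sum_mul]
      exact Finset.sum_congr rfl fun e _ => hterm m hm e x
    simp_rw [this]
    rw [intervalIntegral.integral_finsetSum]
    · refine Finset.sum_congr rfl fun m _ => ?_
      rw [intervalIntegral.integral_finsetSum]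
      · exact Finset.sum_congr rfl fun e _ => intervalIntegral.integral_const_mul _ _
      · intro e _
        exact ((hc m e).const_mul _ : Continuous _).intervalIntegrable _ _
    · intro m _
      exact (continuous_finsetSum _ fun e _ => (hc m e).const_mul _).intervalIntegrable _ _
  -- the sum over e
  have h2 : ∀ m ∈ MM n d (12 * R), ∑ e ∈ EE m, (ee (ia n m e / m) * f (Real.log (√(n : ℝ) * m))) *
        ∫ x in (0:ℝ)..1, (bu0 θ (x + e / m) : ℂ) * ee (-(N * x)) =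
      (∫ y in (-2:ℝ)..1, (bu0 θ y : ℂ) * ee (-(N * y))) *
        (Sk m (N : ZMod m) ((n : ZMod m)⁻¹) * f (Real.log (√(n : ℝ) * m))) := by
    intro m hm
    obtain ⟨hm1, hmn⟩ := hmem m hm
    rw [g4_EE, ← g4_Kl n m hm1 hmn N, Finset.sum_mul, Finset.mul_sum]
    refine Finset.sum_congr rfl fun e he => ?_
    rw [Finset.mem_filter, Finset.mem_Ico] at he
    have i1 : ia n m (e + (-2 * m : ℤ)) = ia n m e := by
      unfold ia
      congr 2
      push_cast
      simp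
    have i2 : ia n m (e + (-m : ℤ)) = ia n m e := by
      unfold ia
      congr 2
      push_cast
      simp
    rw [i1, i2, ← mul_add, ← mul_add, g4_int θ hθ hθ1 N m hm1 e he.1.1 he.1.2]
    ring
  rw [h1, Finset.sum_congr rfl h2, ← Finset.mul_sum]
  congr 1
  -- from 12 R to 8 R
  symm
  refine Finset.sum_subset ?_ ?_
  · intro m hm
    unfold MM at hm ⊢
    rw [Finset.mem_filter, Finset.mem_Icc] at hm ⊢
    refine ⟨⟨hm.1.1, hm.1.2.trans (Nat.floor_le_floor (by linarith))⟩, hm.2⟩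
  · intro m hm hm'
    obtain ⟨hm1, _⟩ := hmem m hm
    have hlt : 8 * R < m := by
      by_contra hle
      push Not at hle
      apply hm'
      unfold MM at hm ⊢
      rw [Finset.mem_filter, Finset.mem_Icc] at hm ⊢
      exact ⟨⟨hm.1.1, Nat.le_floor hle⟩, hm.2⟩
    have hs : 1 ≤ √(n : ℝ) := by
      rw [Real.one_le_sqrt]
      exact_mod_cast hn
    have : f (Real.log (√(n : ℝ) * m)) = 0 := by
      apply h0
      intro hI
      have h8 : 0 < 8 * R := by linarith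
      have hm' : (0 : ℝ) < m := by exact_mod_cast hm1
      have : Real.log (8 * R) < Real.log (√(n : ℝ) * m) := Real.log_lt_log h8 (by nlinarith)
      linarith [hI.2]
    rw [this, mul_zero]

end Pool.Agent.LibSM56C
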