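import Pool.Agent.LibSM56C.D_grp
import Pool.Agent.LibSM56C.D_74
import Pool.Agent.LibSM56C.K_10

/-! # SM56 part (C), DIAG: assembly (helper73) -/

set_option autoImplicit false

namespace Pool.Agent.LibSM56C

open MeasureTheory Set Filter Topology Complex
open scoped ENNReal ComplexConjugate

private theorem meas_KKd (R θ : ℝ) : MeasurableSet (KK R θ) := by
  unfold KK
  apply MeasurableSet.inter
  · exact measurableSet_le measurable_const measurable_fst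
  apply MeasurableSet.inter
  · exact measurableSet_le measurable_fst measurable_const
  · exact measurableSet_le (measurable_snd.abs) (measurable_const.mul measurable_fst)

private theorem meas_Strd : MeasurableSet Str := by
  unfold Str
  exact (measurableSet_le measurable_const measurable_fst).inter
    (measurableSet_lt measurable_fst measurable_const)

/-- the diagonal term -/
theorem diag0 (R θ B : ℝ) (hR : 0 < R) (hθ : 0 < θ) (hB : 0 ≤ B) (ψ : ℝ × ℝ → ℂ) (hψ : Measurable ψ)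
    (hb : ∀ v, ‖ψ v‖ ≤ B * (KK R θ).indicator 1 v) :
    IntegrableOn (fun g : ℝ × ℝ × ℝ => conj (tw ψ g) * tw ψ g) Str ∧
    ‖∫ g in Str, conj (tw ψ g) * tw ψ g‖ ≤ B ^ 2 * (63 * θ * R ^ 2) := by
  set D : Set (ℝ × ℝ × ℝ) := Ico (0 : ℝ) 1 ×ˢ KK R θ with hD
  have hDm : MeasurableSet D := measurableSet_Ico.prod (meas_KKd R θ)
  have hDv : volume D = ENNReal.ofReal (63 * θ * R ^ 2) := by
    rw [hD, Measure.volume_eq_prod, Measure.prod_prod, Real.volume_Ico, vol_KK R θ hR hθ]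
    simp
  have hm : Measurable (fun g : ℝ × ℝ × ℝ => conj (tw ψ g) * tw ψ g) := by
    have h1 : Measurable (fun g : ℝ × ℝ × ℝ => tw ψ g) := by
      unfold tw
      exact (by fun_prop : Measurable fun g : ℝ × ℝ × ℝ => cexp (2 * Real.pi * I * g.1)).mul
        (hψ.comp measurable_snd)
    exact (Complex.continuous_conj.measurable.comp h1).mul h1
  have hnorm : ∀ g : ℝ × ℝ × ℝ, ‖tw ψ g‖ = ‖ψ g.2‖ := by
    intro g
    unfold tw
    rw [norm_mul, show (2 * Real.pi * I * g.1 : ℂ) = ((2 * Real.pi * g.1 : ℝ) : ℂ) * I by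
      push_cast; ring, Complex.norm_exp_ofReal_mul_I, one_mul]
  have hle : ∀ g ∈ Str, ‖conj (tw ψ g) * tw ψ g‖ ≤ D.indicator (fun _ => B ^ 2) g := by
    intro g hg
    rw [norm_mul, RCLike.norm_conj, hnorm]
    have h1 := hb g.2
    by_cases h2 : g.2 ∈ KK R θ
    · rw [indicator_of_mem (show g ∈ D from ⟨⟨hg.1, hg.2⟩, h2⟩), sq]
      rw [indicator_of_mem h2] at h1
      simp only [Pi.one_apply, mul_one] at h1
      exact mul_le_mul h1 h1 (norm_nonneg _) hB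
    · rw [indicator_of_notMem h2, mul_zero] at h1
      have h3 : ‖ψ g.2‖ = 0 := le_antisymm h1 (norm_nonneg _)
      rw [h3, mul_zero]
      exact indicator_nonneg (fun _ _ => sq_nonneg B) g
  have hi : Integrable (D.indicator (fun _ : ℝ × ℝ × ℝ => B ^ 2)) := by
    rw [integrable_indicator_iff hDm]
    refine integrableOn_const ?_ enorm_ne_top
    rw [hDv]
    exact ENNReal.ofReal_ne_top
  have hle' : ∀ᵐ g ∂(volume.restrict Str), ‖conj (tw ψ g) * tw ψ g‖ ≤ D.indicator (fun _ => B ^ 2) g := by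
    rw [ae_restrict_iff' meas_Strd]
    exact Eventually.of_forall hle
  refine ⟨Integrable.mono' hi.integrableOn hm.aestronglyMeasurable hle', ?_⟩
  refine (norm_integral_le_of_norm_le hi.integrableOn hle').trans ?_
  calc ∫ g in Str, D.indicator (fun _ => B ^ 2) g ≤ ∫ g, D.indicator (fun _ => B ^ 2) g :=
        setIntegral_le_integral hi (Eventually.of_forall fun g => indicator_nonneg (fun _ _ => sq_nonneg B) g)
    _ = B ^ 2 * (63 * θ * R ^ 2) := by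
        rw [integral_indicator hDm, setIntegral_const, Measure.real, hDv, smul_eq_mul,
          ENNReal.toReal_ofReal (by positivity)]
        ring

/-- the sum over `e` for one modulus and one sign -/
theorem diag1 (σ : ℤ) (hσ : σ = 1 ∨ σ = -1) (c : ℕ) (hc : 1 ≤ c) (R θ B : ℝ) (hR : 0 < R) (hθ : 0 < θ)
    (hB : 0 ≤ B) (ψ : ℝ × ℝ → ℂ) (hψ : Measurable ψ)
    (hb : ∀ v, ‖ψ v‖ ≤ B * (KK R θ).indicator 1 v) :
    ‖∑ e ∈ (Finset.Ico (0 : ℤ) c).filter (fun e => IsCoprime e (c : ℤ)),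
      ∫ g in Str, conj (tw ψ g) * ∑' l : ℤ, tw ψ (act (MC σ c e) (g.1 + l, g.2))‖ ≤
    ‖Sk c 1 1‖ / c * (B ^ 2 * (8 * (63 * θ * R ^ 2))) := by
  have hc0 : c ≠ 0 := by omega
  have hcR : (0 : ℝ) < c := by exact_mod_cast hc
  have hσ1 : ((σ : ℝ)) ≠ 0 ∧ |(σ : ℝ)| = 1 := by
    rcases hσ with h | h <;> (rw [h]; norm_num)
  have h0 : ∀ v, v ∉ KK R θ → ψ v = 0 := by
    intro v hv
    have := hb v
    rw [indicator_of_notMem hv, mul_zero] at this
    exact norm_eq_zero.1 (le_antisymm this (norm_nonneg _))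
  have h1 : ∀ e : ℤ, ∫ g in Str, conj (tw ψ g) * ∑' l : ℤ, tw ψ (act (MC σ c e) (g.1 + l, g.2)) =
      ee (ia 1 c e / c) * ee ((1 : ℤ) * (e / c)) * (((1 / c : ℝ) : ℂ) * KC (σ * c) ψ) := by
    intro e
    obtain ⟨m0, _, m2, m3⟩ := MC_ent σ hσ c hc0 e
    have hne : (MC σ c e).1 1 0 ≠ 0 := by
      rw [m2]
      exact mul_ne_zero hσ1.1 hcR.ne'
    rw [(unf_line R θ B hR hθ hB ψ hψ hb (MC σ c e) hne).2, line_int R θ B hR hθ ψ h0 (MC σ c e) hne,
      m0, m2, m3, ← g4_ee_add, abs_mul, hσ1.2, one_mul, abs_of_pos hcR, mul_assoc]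
    congr 1
    unfold ee
    congr 3
    have := hσ1.1
    push_cast
    field_simp
  have h2 : ∑ e ∈ (Finset.Ico (0 : ℤ) c).filter (fun e => IsCoprime e (c : ℤ)),
      ∫ g in Str, conj (tw ψ g) * ∑' l : ℤ, tw ψ (act (MC σ c e) (g.1 + l, g.2)) =
      Sk c 1 1 * (((1 / c : ℝ) : ℂ) * KC (σ * c) ψ) := by
    rw [Finset.sum_congr rfl (fun e _ => h1 e), ← Finset.sum_mul,
      g4_Kl 1 c hc (by simp) 1]
    simp
  rw [h2, norm_mul, norm_mul]
  have h3 := KC_le R θ B hR hθ hB ψ hb (σ * c)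
  have h4 : ‖((1 / c : ℝ) : ℂ)‖ = 1 / c := by
    rw [Complex.norm_real, Real.norm_of_nonneg (by positivity)]
  rw [h4]
  calc ‖Sk c 1 1‖ * (1 / c * ‖KC (σ * c) ψ‖) = ‖Sk c 1 1‖ / c * ‖KC (σ * c) ψ‖ := by ring
    _ ≤ _ := by gcongr

theorem diag_proof (q : ℕ) (hq : 1 ≤ q) (R θ B : ℝ) (hR : 0 < R) (hθ : 0 < θ) (hB : 0 ≤ B) (ψ : ℝ × ℝ → ℂ)
    (hψ : Measurable ψ) (hb : ∀ v, ‖ψ v‖ ≤ B * (KK R θ).indicator 1 v) :
    DD q ψ ≤ B ^ 2 * (63 * θ * R ^ 2) * (1 + 16 * KX q (1024 * θ * R ^ 2)) := by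
  have h0 : ∀ v, v ∉ KK R θ → ψ v = 0 := by
    intro v hv
    have := hb v
    rw [indicator_of_notMem hv, mul_zero] at this
    exact norm_eq_zero.1 (le_antisymm this (norm_nonneg _))
  set Cs := (Finset.Icc 1 ⌊1024 * θ * R ^ 2⌋₊).filter (fun c => q ∣ c) with hCs
  set F : ℤ → ℕ → ℤ → ℝ × ℝ × ℝ → ℂ := fun σ c e g =>
    conj (tw ψ g) * ∑' l : ℤ, tw ψ (act (MC σ c e) (g.1 + l, g.2)) with hF
  have hne : ∀ σ : ℤ, (σ = 1 ∨ σ = -1) → ∀ c ∈ Cs, ∀ e : ℤ, (MC σ c e).1 1 0 ≠ 0 := by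
    intro σ hσ c hc e
    have hc1 : 1 ≤ c := (Finset.mem_Icc.1 (Finset.mem_filter.1 hc).1).1
    rw [(MC_ent σ hσ c (by omega) e).2.2.1]
    refine mul_ne_zero ?_ ?_
    · rcases hσ with h | h <;> (rw [h]; norm_num)
    · exact_mod_cast (by omega : c ≠ 0)
  have hFi : ∀ σ : ℤ, (σ = 1 ∨ σ = -1) → ∀ c ∈ Cs, ∀ e : ℤ, Integrable (F σ c e) (volume.restrict Str) :=
    fun σ hσ c hc e => (unf_line R θ B hR hθ hB ψ hψ hb (MC σ c e) (hne σ hσ c hc e)).1
  obtain ⟨d1, d2⟩ := diag0 R θ B hR hθ hB ψ hψ hb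
  have key : ∫ g in Str, conj (tw ψ g) * TT (Gam q) (tw ψ) g =
      (∫ g in Str, conj (tw ψ g) * tw ψ g) + ∑ c ∈ Cs,
        ((∑ e ∈ (Finset.Ico (0 : ℤ) c).filter (fun e => IsCoprime e (c : ℤ)), ∫ g in Str, F 1 c e g) +
        ∑ e ∈ (Finset.Ico (0 : ℤ) c).filter (fun e => IsCoprime e (c : ℤ)), ∫ g in Str, F (-1) c e g) := by
    have k1 : ∀ g ∈ Str, conj (tw ψ g) * TT (Gam q) (tw ψ) g = conj (tw ψ g) * tw ψ g + ∑ c ∈ Cs,
        ∑ e ∈ (Finset.Ico (0 : ℤ) c).filter (fun e => IsCoprime e (c : ℤ)), (F 1 c e g + F (-1) c e g) := by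
      intro g hg
      by_cases hv : g.2 ∈ KK R θ
      · rw [group q hq R θ hR hθ ψ h0 g hg hv, mul_add, Finset.mul_sum]
        congr 1
        refine Finset.sum_congr rfl fun c _ => ?_
        rw [Finset.mul_sum]
        refine Finset.sum_congr rfl fun e _ => ?_
        rw [mul_add]
      · have h1 : tw ψ g = 0 := by
          unfold tw
          rw [h0 _ hv, mul_zero]
        simp only [hF, h1, map_zero, zero_mul, add_zero, Finset.sum_const_zero]
    have i1 : ∀ c ∈ Cs, ∀ e : ℤ, Integrable (fun g => F 1 c e g + F (-1) c e g) (volume.restrict Str) :=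
      fun c hc e => (hFi 1 (Or.inl rfl) c hc e).add (hFi (-1) (Or.inr rfl) c hc e)
    have i2 : ∀ c ∈ Cs, Integrable (fun g => ∑ e ∈ (Finset.Ico (0 : ℤ) c).filter
        (fun e => IsCoprime e (c : ℤ)), (F 1 c e g + F (-1) c e g)) (volume.restrict Str) :=
      fun c hc => integrable_finset_sum _ fun e _ => i1 c hc e
    have i3 : Integrable (fun g => ∑ c ∈ Cs, ∑ e ∈ (Finset.Ico (0 : ℤ) c).filter
        (fun e => IsCoprime e (c : ℤ)), (F 1 c e g + F (-1) c e g)) (volume.restrict Str) :=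
      integrable_finset_sum _ fun c hc => i2 c hc
    rw [setIntegral_congr_fun meas_Strd k1, integral_add d1 i3, integral_finset_sum _ i2]
    congr 1
    refine Finset.sum_congr rfl fun c hc => ?_
    rw [integral_finset_sum _ (fun e _ => i1 c hc e), ← Finset.sum_add_distrib]
    refine Finset.sum_congr rfl fun e _ => ?_
    exact integral_add (hFi 1 (Or.inl rfl) c hc e) (hFi (-1) (Or.inr rfl) c hc e)
  unfold DD
  rw [key, Complex.add_re]
  have e1 : (∫ g in Str, conj (tw ψ g) * tw ψ g).re ≤ B ^ 2 * (63 * θ * R ^ 2) :=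
    (Complex.re_le_norm _).trans d2
  have e2 : (∑ c ∈ Cs,
        ((∑ e ∈ (Finset.Ico (0 : ℤ) c).filter (fun e => IsCoprime e (c : ℤ)), ∫ g in Str, F 1 c e g) +
        ∑ e ∈ (Finset.Ico (0 : ℤ) c).filter (fun e => IsCoprime e (c : ℤ)), ∫ g in Str, F (-1) c e g)).re ≤
      ∑ c ∈ Cs, (‖Sk c 1 1‖ / c) * (2 * (B ^ 2 * (8 * (63 * θ * R ^ 2)))) := by
    refine (Complex.re_le_norm _).trans ((norm_sum_le _ _).trans (Finset.sum_le_sum fun c hc => ?_))
    have hc1 : 1 ≤ c := (Finset.mem_Icc.1 (Finset.mem_filter.1 hc).1).1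
    have a1 := diag1 1 (Or.inl rfl) c hc1 R θ B hR hθ hB ψ hψ hb
    have a2 := diag1 (-1) (Or.inr rfl) c hc1 R θ B hR hθ hB ψ hψ hb
    refine (norm_add_le _ _).trans ?_
    calc _ ≤ ‖Sk c 1 1‖ / c * (B ^ 2 * (8 * (63 * θ * R ^ 2))) +
          ‖Sk c 1 1‖ / c * (B ^ 2 * (8 * (63 * θ * R ^ 2))) := add_le_add a1 a2
      _ = _ := by ring
  rw [← Finset.sum_mul] at e2
  have e3 : ∑ c ∈ Cs, ‖Sk c 1 1‖ / (c : ℝ) = KX q (1024 * θ * R ^ 2) := rfl
  rw [e3] at e2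
  calc _ ≤ B ^ 2 * (63 * θ * R ^ 2) + KX q (1024 * θ * R ^ 2) * (2 * (B ^ 2 * (8 * (63 * θ * R ^ 2)))) :=
        add_le_add e1 e2
    _ = _ := by ring

end Pool.Agent.LibSM56C
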