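import Pool.Agent.LibSM56C.D73

/-! # SM56 part (C), DIAG: grouping of the series (helper73) -/

set_option autoImplicit false

namespace Pool.Agent.LibSM56C

open MeasureTheory Set Filter Topology Complex
open scoped ENNReal ComplexConjugate

/-- existence of the matrices -/
private theorem grp_ex (q c : ℕ) (hc : 1 ≤ c) (hqc : q ∣ c) (e : ℤ) (he : IsCoprime e (c : ℤ)) (σ : ℤ)
    (hσ : σ = 1 ∨ σ = -1) (l k : ℤ) :
    ∃ M : SL2R, M ∈ Gam q ∧ M.1 1 0 = σ * c ∧ M.1 1 1 = σ * (e + c * l) ∧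
      ∀ x v1 v2 : ℝ, (c : ℝ) * (x + l) + e ≠ 0 → act M (x, v1, v2) =
        ((act (MC σ c e) (x + l, v1, v2)).1 + k, (act (MC σ c e) (x + l, v1, v2)).2) := by
  have : NeZero c := ⟨by omega⟩
  have hcR : (c : ℝ) ≠ 0 := by exact_mod_cast (by omega : c ≠ 0)
  have hu : IsUnit ((((1 : ℕ) : ℤ) * e : ℤ) : ZMod c) := by
    rw [ZMod.coe_int_isUnit_iff_isCoprime]
    simpa using he.symm
  have h2 := ZMod.mul_inv_of_unit _ hu
  have h3 : ((ia 1 c e : ℕ) : ZMod c) = ((((1 : ℕ) : ℤ) * e : ℤ) : ZMod c)⁻¹ := by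
    unfold ia
    exact ZMod.natCast_zmod_val _
  have h4 : (((e * (ia 1 c e : ℤ) - 1 : ℤ)) : ZMod c) = 0 := by
    rw [← h3] at h2
    push_cast at h2 ⊢
    rw [one_mul] at h2
    rw [h2, sub_self]
  obtain ⟨b, hb⟩ := (ZMod.intCast_zmod_eq_zero_iff_dvd _ _).1 h4
  have hbR : (e : ℝ) * (ia 1 c e : ℝ) - 1 = c * b := by exact_mod_cast hb
  have hσ2 : σ * σ = 1 := by rcases hσ with h | h <;> (rw [h]; norm_num)
  have hσR : (σ : ℝ) * σ = 1 := by exact_mod_cast hσ2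
  have hσ0 : (σ : ℝ) ≠ 0 := by
    intro h
    rw [h, zero_mul] at hσR
    exact zero_ne_one hσR
  set a : ℤ := (ia 1 c e : ℤ) with ha
  have haR : ((ia 1 c e : ℕ) : ℝ) = (a : ℝ) := by rw [ha]; simp
  have hdetZ : (σ * (a + k * c)) * (σ * (e + c * l)) - (σ * (b + a * l + k * (e + c * l))) * (σ * c) = 1 := by
    linear_combination ((a + k * c) * (e + c * l) - (b + a * l + k * (e + c * l)) * c) * hσ2 + hb
  have hdet : (!![((σ * (a + k * c) : ℤ) : ℝ), ((σ * (b + a * l + k * (e + c * l)) : ℤ) : ℝ);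
      ((σ * c : ℤ) : ℝ), ((σ * (e + c * l) : ℤ) : ℝ)] : Matrix (Fin 2) (Fin 2) ℝ).det = 1 := by
    rw [Matrix.det_fin_two_of]
    exact_mod_cast hdetZ
  obtain ⟨m0, m1, m2, m3⟩ := MC_ent σ hσ c (by omega) e
  refine ⟨⟨_, hdet⟩, ⟨_, _, _, _, hdetZ, ?_, rfl, rfl, rfl, rfl⟩, ?_, ?_, ?_⟩
  · exact Dvd.dvd.mul_left (by exact_mod_cast hqc) _
  · show ((σ * c : ℤ) : ℝ) = σ * c
    push_cast
    ring
  · show ((σ * (e + c * l) : ℤ) : ℝ) = σ * (e + c * l)
    push_cast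
    ring
  · intro x v1 v2 hx
    unfold act
    rw [m0, m1, m2, m3, haR]
    show ((((σ * (a + k * c) : ℤ) : ℝ) * x + ((σ * (b + a * l + k * (e + c * l)) : ℤ) : ℝ)) /
      (((σ * c : ℤ) : ℝ) * x + ((σ * (e + c * l) : ℤ) : ℝ)),
      (((σ * c : ℤ) : ℝ) * x + ((σ * (e + c * l) : ℤ) : ℝ)) * v1,
      (((σ * c : ℤ) : ℝ) * x + ((σ * (e + c * l) : ℤ) : ℝ)) * v2 - ((σ * c : ℤ) : ℝ) / v1) = _
    have hb1 : ((a : ℝ) * e - 1) / c = b := by
      rw [div_eq_iff hcR]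
      rw [haR] at hbR
      linarith
    rw [hb1]
    have e1 : (((σ * c : ℤ) : ℝ) * x + ((σ * (e + c * l) : ℤ) : ℝ)) = σ * (c * (x + l) + e) := by
      push_cast
      ring
    rw [e1]
    have e2 : (σ : ℝ) * c * (x + l) + σ * e = σ * (c * (x + l) + e) := by ring
    simp only
    rw [e2]
    ext
    · simp only
      rw [div_add' _ _ _ (mul_ne_zero hσ0 hx)]
      congr 1
      push_cast
      ring
    · rfl
    · simp only
      push_cast
      rfl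

/-- the matrix is determined by the bottom row and the range of the first coordinate -/
private theorem grp_uniq (q : ℕ) (M M' : SL2R) (hM : M ∈ Gam q) (hM' : M' ∈ Gam q) (g : ℝ × ℝ × ℝ)
    (h10 : M.1 1 0 = M'.1 1 0) (h11 : M.1 1 1 = M'.1 1 1) (hD : M.1 1 0 * g.1 + M.1 1 1 ≠ 0)
    (h1 : (act M g).1 ∈ Ico (0 : ℝ) 1) (h2 : (act M' g).1 ∈ Ico (0 : ℝ) 1) : M = M' := by
  obtain ⟨a, b, m, e, q1, q2, q3, q4, q5, q6⟩ := hM
  obtain ⟨a', b', m', e', r1, r2, r3, r4, r5, r6⟩ := hM'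
  have hm : m' = m := by
    rw [q5, r5] at h10
    exact_mod_cast h10.symm
  have he : e' = e := by
    rw [q6, r6] at h11
    exact_mod_cast h11.symm
  subst hm he
  -- a - a' = k m, b - b' = k e with k = (a - a') (-b) + ...
  set k : ℤ := (a - a') * (-b) + (b - b') * a with hk
  have hka : a - a' = k * m' := by
    have e1 : (a - a') * e' = (b - b') * m' := by linear_combination q1 - r1
    rw [hk]
    linear_combination (-(a - a')) * q1 + a * e1
  have hkb : b - b' = k * e' := by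
    have e1 : (a - a') * e' = (b - b') * m' := by linear_combination q1 - r1
    rw [hk]
    linear_combination (-(b - b')) * q1 + b * e1
  have hka' : (a : ℝ) - a' = k * m' := by exact_mod_cast hka
  have hkb' : (b : ℝ) - b' = k * e' := by exact_mod_cast hkb
  have hdiff : (act M g).1 - (act M' g).1 = k := by
    unfold act
    simp only
    rw [← h10, ← h11, ← sub_div, div_eq_iff hD, q3, q4, r3, r4, q5, q6]
    linear_combination g.1 * hka' + hkb'
  have hk0 : k = 0 := by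
    have h3 : (k : ℝ) < 1 := by rw [← hdiff]; linarith [h1.2, h2.1]
    have h4 : (-1 : ℝ) < k := by rw [← hdiff]; linarith [h1.1, h2.2]
    have h5 : k < 1 := by exact_mod_cast h3
    have h6 : -1 < k := by exact_mod_cast h4
    omega
  rw [hk0, zero_mul] at hka hkb
  have ha : a = a' := by linarith
  have hbb : b = b' := by linarith
  subst ha hbb
  apply Matrix.SpecialLinearGroup.ext
  intro i j
  fin_cases i <;> fin_cases j
  · exact q3.trans r3.symm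
  · exact q4.trans r4.symm
  · exact h10
  · exact h11

/-- the second part of the point -/
private theorem grp_act2 (σ : ℤ) (hσ : σ = 1 ∨ σ = -1) (c : ℕ) (hc : 1 ≤ c) (e : ℤ) (x v1 v2 : ℝ) (l : ℤ) :
    (act (MC σ c e) (x + l, v1, v2)).2 = ((σ * (c * (x + l) + e)) * v1, (σ * (c * (x + l) + e)) * v2 - σ * c / v1) := by
  obtain ⟨m0, m1, m2, m3⟩ := MC_ent σ hσ c (by omega) e
  unfold act
  rw [m2, m3]
  simp only
  ext <;> (simp only; ring)

/-- the support of the terms -/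
private theorem grp_supp {R θ : ℝ} (hR : 0 < R) (hθ : 0 < θ) {σ : ℤ} (hσ : σ = 1 ∨ σ = -1) {c : ℕ} (hc : 1 ≤ c)
    {e : ℤ} (he0 : 0 ≤ e) (hec : e < c) {x : ℝ} (hx0 : 0 ≤ x) (hx1 : x < 1) {v : ℝ × ℝ} (hv : v ∈ KK R θ) {l : ℤ}
    (h : (act (MC σ c e) (x + l, v)).2 ∈ KK R θ) :
    (c : ℝ) * (x + l) + e ≠ 0 ∧ (c : ℝ) ≤ 1024 * θ * R ^ 2 ∧ l ∈ Finset.Icc (-10 : ℤ) 10 := by
  have h1 := grp_act2 σ hσ c hc e x v.1 v.2 l
  rw [show ((x + l, v.1, v.2) : ℝ × ℝ × ℝ) = (x + l, v) from rfl] at h1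
  rw [h1] at h
  obtain ⟨k1, k2⟩ := KK_pair hR hθ hv h
  have hcR : (1 : ℝ) ≤ c := by exact_mod_cast hc
  have heR : (0 : ℝ) ≤ e := by exact_mod_cast he0
  have heR' : (e : ℝ) < c := by exact_mod_cast hec
  have hσ1 : |(σ : ℝ)| = 1 := by
    rcases hσ with h | h <;> (rw [h]; norm_num)
  have hRR : 0 < θ * R ^ 2 := by positivity
  refine ⟨?_, ?_, ?_⟩
  · intro h0
    rw [h0, mul_zero] at k1
    have := k1.1
    norm_num at this
  · rw [abs_mul, hσ1, one_mul, abs_of_nonneg (by linarith)] at k2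
    nlinarith
  · rw [Finset.mem_Icc]
    have hle : |(c : ℝ) * (x + l) + e| ≤ 8 := by
      have : |(c : ℝ) * (x + l) + e| = |(σ : ℝ) * (c * (x + l) + e)| := by rw [abs_mul, hσ1, one_mul]
      rw [this, abs_of_pos (by linarith [k1.1])]
      exact k1.2
    obtain ⟨j1, j2⟩ := abs_le.1 hle
    constructor
    · by_contra hl
      have hl' : l ≤ -11 := by omega
      have hlR : (l : ℝ) ≤ -11 := by exact_mod_cast hl'
      have : (c : ℝ) * (x + l) ≤ c * (-10) := mul_le_mul_of_nonneg_left (by linarith) (by linarith)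
      nlinarith
    · by_contra hl
      have hl' : 11 ≤ l := by omega
      have hlR : (11 : ℝ) ≤ l := by exact_mod_cast hl'
      have : (c : ℝ) * 11 ≤ c * (x + l) := mul_le_mul_of_nonneg_left (by linarith) (by linarith)
      nlinarith

/-- the parameters are determined by the bottom row -/
private theorem grp_inj {σ σ' : ℤ} (hσ : σ = 1 ∨ σ = -1) (hσ' : σ' = 1 ∨ σ' = -1) {c c' : ℕ} (hc : 1 ≤ c)
    (hc' : 1 ≤ c') {e e' l l' : ℤ} (h1 : 0 ≤ e) (h2 : e < c) (h1' : 0 ≤ e') (h2' : e' < c')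
    (e10 : (σ : ℝ) * c = σ' * c') (e11 : (σ : ℝ) * (e + c * l) = σ' * (e' + c' * l')) :
    σ = σ' ∧ c = c' ∧ e = e' ∧ l = l' := by
  have f10 : σ * (c : ℤ) = σ' * (c' : ℤ) := by exact_mod_cast e10
  have f11 : σ * (e + (c : ℤ) * l) = σ' * (e' + (c' : ℤ) * l') := by exact_mod_cast e11
  have hs : σ = σ' := by
    rcases hσ with h | h <;> rcases hσ' with h' | h' <;> subst h h' <;> first | rfl | omega
  subst hs
  have hs0 : σ ≠ 0 := by rcases hσ with h | h <;> (rw [h]; norm_num)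
  have hcc : (c : ℤ) = c' := mul_left_cancel₀ hs0 f10
  have hcc' : c = c' := by exact_mod_cast hcc
  subst hcc'
  have hee : e + (c : ℤ) * l = e' + (c : ℤ) * l' := mul_left_cancel₀ hs0 f11
  have hl : l = l' := by
    by_contra hne
    have hcz : (1 : ℤ) ≤ c := by exact_mod_cast hc
    rcases lt_or_gt_of_ne hne with h | h
    · have : (c : ℤ) * (l + 1) ≤ c * l' := mul_le_mul_of_nonneg_left (by omega) (by omega)
      nlinarith
    · have : (c : ℤ) * (l' + 1) ≤ c * l := mul_le_mul_of_nonneg_left (by omega) (by omega)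
      nlinarith
  subst hl
  exact ⟨rfl, rfl, by linarith, rfl⟩

theorem group (q : ℕ) (hq : 1 ≤ q) (R θ : ℝ) (hR : 0 < R) (hθ : 0 < θ) (ψ : ℝ × ℝ → ℂ)
    (h0 : ∀ v, v ∉ KK R θ → ψ v = 0) (g : ℝ × ℝ × ℝ) (hg : g ∈ Str) (hv : g.2 ∈ KK R θ) :
    TT (Gam q) (tw ψ) g = tw ψ g + ∑ c ∈ (Finset.Icc 1 ⌊1024 * θ * R ^ 2⌋₊).filter (fun c => q ∣ c),
      ∑ e ∈ (Finset.Ico (0 : ℤ) c).filter (fun e => IsCoprime e (c : ℤ)),
        ((∑' l : ℤ, tw ψ (act (MC 1 c e) (g.1 + l, g.2))) +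
          ∑' l : ℤ, tw ψ (act (MC (-1) c e) (g.1 + l, g.2))) := by
  obtain ⟨x, v⟩ := g
  obtain ⟨hx0, hx1⟩ := hg
  simp only at hx0 hx1 hv ⊢
  have htw : ∀ p : ℝ × ℝ × ℝ, p.2 ∉ KK R θ → tw ψ p = 0 := by
    intro p hp
    unfold tw
    rw [h0 _ hp, mul_zero]
  set Sg : Finset (Σ _ : ℕ, ℤ × ℤ × ℤ) := ((Finset.Icc 1 ⌊1024 * θ * R ^ 2⌋₊).filter (fun c => q ∣ c)).sigma
    (fun c => ((Finset.Ico (0 : ℤ) c).filter (fun e => IsCoprime e (c : ℤ))) ×ˢ
      (({1, -1} : Finset ℤ) ×ˢ Finset.Icc (-10 : ℤ) 10)) with hSg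
  set F : (Σ _ : ℕ, ℤ × ℤ × ℤ) → ℂ := fun p => tw ψ (act (MC p.2.2.1 p.1 p.2.1) (x + p.2.2.2, v)) with hF
  have hmem : ∀ p : (Σ _ : ℕ, ℤ × ℤ × ℤ), p ∈ Sg ↔ (1 ≤ p.1 ∧ p.1 ≤ ⌊1024 * θ * R ^ 2⌋₊ ∧ q ∣ p.1) ∧
      (0 ≤ p.2.1 ∧ p.2.1 < p.1 ∧ IsCoprime p.2.1 (p.1 : ℤ)) ∧ (p.2.2.1 = 1 ∨ p.2.2.1 = -1) ∧
      p.2.2.2 ∈ Finset.Icc (-10 : ℤ) 10 := by
    intro p
    rw [hSg, Finset.mem_sigma, Finset.mem_product, Finset.mem_product, Finset.mem_filter, Finset.mem_filter,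
      Finset.mem_Icc, Finset.mem_Ico, Finset.mem_insert, Finset.mem_singleton]
    tauto
  -- the right hand side as a finite sum
  have hR1 : ∑ c ∈ (Finset.Icc 1 ⌊1024 * θ * R ^ 2⌋₊).filter (fun c => q ∣ c),
      ∑ e ∈ (Finset.Ico (0 : ℤ) c).filter (fun e => IsCoprime e (c : ℤ)),
        ((∑' l : ℤ, tw ψ (act (MC 1 c e) (x + l, v))) +
          ∑' l : ℤ, tw ψ (act (MC (-1) c e) (x + l, v))) = ∑ p ∈ Sg, F p := by
    rw [hSg, Finset.sum_sigma]
    refine Finset.sum_congr rfl fun c hc => ?_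
    rw [Finset.sum_product]
    refine Finset.sum_congr rfl fun e he => ?_
    rw [Finset.sum_product]
    obtain ⟨hc1, _⟩ := Finset.mem_filter.1 hc
    obtain ⟨he1, _⟩ := Finset.mem_filter.1 he
    rw [Finset.mem_Icc] at hc1
    rw [Finset.mem_Ico] at he1
    have hts : ∀ σ : ℤ, (σ = 1 ∨ σ = -1) → ∑' l : ℤ, tw ψ (act (MC σ c e) (x + l, v)) =
        ∑ l ∈ Finset.Icc (-10 : ℤ) 10, F ⟨c, e, σ, l⟩ := by
      intro σ hσ
      refine tsum_eq_sum fun l hl => ?_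
      apply htw
      intro hh
      exact hl (grp_supp hR hθ hσ hc1.1 he1.1 he1.2 hx0 hx1 hv hh).2.2
    rw [hts 1 (Or.inl rfl), hts (-1) (Or.inr rfl), Finset.sum_pair (by norm_num)]
  rw [hR1]
  choose Mx hA hB10 hB11 hact using fun p : Sg =>
    grp_ex q p.1.1 ((hmem p.1).1 p.2).1.1 ((hmem p.1).1 p.2).1.2.2 p.1.2.1 ((hmem p.1).1 p.2).2.1.2.2
      p.1.2.2.1 ((hmem p.1).1 p.2).2.2.1 p.1.2.2.2
      (-⌊(act (MC p.1.2.2.1 p.1.1 p.1.2.1) (x + p.1.2.2.2, v)).1⌋)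
  have hσ2 : ∀ p : Sg, ((p.1.2.2.1 : ℤ) : ℝ) * ((p.1.2.2.1 : ℤ) : ℝ) = 1 := by
    intro p
    rcases ((hmem p.1).1 p.2).2.2.1 with h | h <;> (rw [h]; norm_num)
  have hv2 : ∀ p : Sg, (act (Mx p) (x, v)).2 = (act (MC p.1.2.2.1 p.1.1 p.1.2.1) (x + p.1.2.2.2, v)).2 := by
    intro p
    rw [show ((x + p.1.2.2.2, v) : ℝ × ℝ × ℝ) = (x + p.1.2.2.2, v.1, v.2) from rfl,
      grp_act2 _ ((hmem p.1).1 p.2).2.2.1 _ ((hmem p.1).1 p.2).1.1]
    unfold act
    rw [hB10 p, hB11 p]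
    simp only
    ext <;> (simp only; ring)
  have hval : ∀ p : Sg, (act (Mx p) (x, v)).2 ∈ KK R θ → act (Mx p) (x, v) ∈ Str ∧
      tw ψ (act (Mx p) (x, v)) = F p.1 := by
    intro p hp
    have hp' := hp
    rw [hv2 p] at hp'
    obtain ⟨s1, _, _⟩ := grp_supp hR hθ ((hmem p.1).1 p.2).2.2.1 ((hmem p.1).1 p.2).1.1
      ((hmem p.1).1 p.2).2.1.1 ((hmem p.1).1 p.2).2.1.2.1 hx0 hx1 hv hp'
    have h1 := hact p x v.1 v.2 s1
    rw [show ((x, v.1, v.2) : ℝ × ℝ × ℝ) = (x, v) from rfl,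
      show ((x + p.1.2.2.2, v.1, v.2) : ℝ × ℝ × ℝ) = (x + p.1.2.2.2, v) from rfl] at h1
    have h2 : (act (Mx p) (x, v)).1 = Int.fract ((act (MC p.1.2.2.1 p.1.1 p.1.2.1) (x + p.1.2.2.2, v)).1) := by
      rw [h1]
      unfold Int.fract
      push_cast
      ring
    refine ⟨?_, ?_⟩
    · show 0 ≤ (act (Mx p) (x, v)).1 ∧ (act (Mx p) (x, v)).1 < 1
      rw [h2]
      exact ⟨Int.fract_nonneg _, Int.fract_lt_one _⟩
    · rw [hF]
      simp only
      unfold tw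
      rw [hv2 p, h2]
      congr 1
      generalize (act (MC p.1.2.2.1 p.1.1 p.1.2.1) (x + p.1.2.2.2, v)).1 = y
      have h3 := Complex.exp_periodic.sub_int_mul_eq (x := 2 * Real.pi * I * (y : ℂ)) ⌊y⌋
      rw [← h3]
      congr 1
      unfold Int.fract
      push_cast
      ring
  have hval' : ∀ p : Sg, Str.indicator (tw ψ) (act (Mx p) (x, v)) = F p.1 := by
    intro p
    by_cases hK : (act (Mx p) (x, v)).2 ∈ KK R θ
    · obtain ⟨h1, h2⟩ := hval p hK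
      rw [indicator_of_mem h1, h2]
    · have h1 : F p.1 = 0 := by
        rw [hF]
        simp only
        apply htw
        rw [← hv2 p]
        exact hK
      rw [h1]
      apply indicator_apply_eq_zero.2
      intro _
      exact htw _ hK
  have hone : (1 : SL2R) ∈ Gam q := ⟨1, 0, 0, 1, by ring, dvd_zero _, by simp, by simp, by simp, by simp⟩
  have hact1 : act 1 (x, v) = (x, v) := by
    simp [act]
  set J : Option Sg → Gam q := fun o => o.elim ⟨1, hone⟩ (fun p => ⟨Mx p, hA p⟩) with hJ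
  have hC0 : ∀ p : Sg, (Mx p).1 1 0 ≠ 0 := by
    intro p
    rw [hB10 p]
    have h1 : ((p.1.1 : ℕ) : ℝ) ≠ 0 := by
      have := ((hmem p.1).1 p.2).1.1
      exact_mod_cast (by omega : p.1.1 ≠ 0)
    have h2 : ((p.1.2.2.1 : ℤ) : ℝ) ≠ 0 := by
      intro h
      have := hσ2 p
      rw [h, zero_mul] at this
      exact zero_ne_one this
    exact mul_ne_zero h2 h1
  have hinj : Function.Injective J := by
    rintro (_ | p) (_ | p') h
    · rfl
    · exfalso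
      have h1 : (1 : SL2R) = Mx p' := congrArg Subtype.val h
      apply hC0 p'
      rw [← h1]
      simp
    · exfalso
      have h1 : Mx p = (1 : SL2R) := congrArg Subtype.val h
      apply hC0 p
      rw [h1]
      simp
    · have h1 : Mx p = Mx p' := congrArg Subtype.val h
      have e10 : ((p.1.2.2.1 : ℤ) : ℝ) * ((p.1.1 : ℕ) : ℝ) = ((p'.1.2.2.1 : ℤ) : ℝ) * ((p'.1.1 : ℕ) : ℝ) := by
        rw [← hB10 p, ← hB10 p', h1]
      have e11 : ((p.1.2.2.1 : ℤ) : ℝ) * (((p.1.2.1 : ℤ) : ℝ) + ((p.1.1 : ℕ) : ℝ) * ((p.1.2.2.2 : ℤ) : ℝ)) =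
          ((p'.1.2.2.1 : ℤ) : ℝ) * (((p'.1.2.1 : ℤ) : ℝ) + ((p'.1.1 : ℕ) : ℝ) * ((p'.1.2.2.2 : ℤ) : ℝ)) := by
        rw [← hB11 p, ← hB11 p', h1]
      have m1 := (hmem p.1).1 p.2
      have m2 := (hmem p'.1).1 p'.2
      obtain ⟨i1, i2, i3, i4⟩ := grp_inj m1.2.2.1 m2.2.2.1 m1.1.1 m2.1.1 m1.2.1.1 m1.2.1.2.1 m2.2.1.1
        m2.2.1.2.1 e10 e11
      have : p.1 = p'.1 := Sigma.ext i2 (heq_of_eq (Prod.ext i3 (Prod.ext i1 i4)))
      exact congrArg some (Subtype.ext this)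
  have hsupp : Function.support (fun M : Gam q => Str.indicator (tw ψ) (act M.1 (x, v))) ⊆ Set.range J := by
    intro M hM
    have hM' : Str.indicator (tw ψ) (act M.1 (x, v)) ≠ 0 := hM
    have h1 : act M.1 (x, v) ∈ Str := mem_of_indicator_ne_zero hM'
    rw [indicator_of_mem h1] at hM'
    have h2 : (act M.1 (x, v)).2 ∈ KK R θ := by
      by_contra h
      exact hM' (htw _ h)
    obtain ⟨M, hMG⟩ := M
    simp only at h1 h2 hM'
    have hMG' := hMG
    obtain ⟨a, b, c, d, q1, q2, q3, q4, q5, q6⟩ := hMG'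
    have hv1 : 0 < v.1 := hR.trans_le hv.1
    have hD : 0 < (c : ℝ) * x + d := by
      have h3 := h2.1
      unfold act at h3
      simp only at h3
      rw [q5, q6] at h3
      by_contra h4
      push Not at h4
      nlinarith
    by_cases hc0 : c = 0
    · -- the identity
      refine ⟨none, Subtype.ext ?_⟩
      show (1 : SL2R) = M
      subst hc0
      have hd0 : 0 < d := by
        rw [Int.cast_zero, zero_mul, zero_add] at hD
        exact_mod_cast hD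
      have had : a * d = 1 := by linear_combination q1
      have hd1 : d = 1 := by
        rcases Int.eq_one_or_neg_one_of_mul_eq_one' had with h | h
        · exact h.2
        · omega
      subst hd1
      rw [mul_one] at had
      subst had
      refine grp_uniq q 1 M hone hMG (x, v) ?_ ?_ ?_ ?_ h1
      · rw [q5]; simp
      · rw [q6]; simp
      · simp
      · rw [hact1]
        exact ⟨hx0, hx1⟩
    · -- c ≠ 0
      obtain ⟨σ, hσ, c1, hc1, hcσ⟩ : ∃ σ : ℤ, (σ = 1 ∨ σ = -1) ∧ ∃ c1 : ℕ, 1 ≤ c1 ∧ c = σ * c1 := by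
        rcases lt_or_gt_of_ne hc0 with h | h
        · exact ⟨-1, Or.inr rfl, c.natAbs, by omega, by omega⟩
        · exact ⟨1, Or.inl rfl, c.natAbs, by omega, by omega⟩
      have hσ2 : σ * σ = 1 := by rcases hσ with h | h <;> (rw [h]; norm_num)
      have hc1z : (0 : ℤ) < c1 := by exact_mod_cast hc1
      set e : ℤ := (σ * d) % c1 with he
      set l : ℤ := (σ * d) / c1 with hl
      have hdl : σ * d = e + c1 * l := (Int.emod_add_mul_ediv _ _).symm
      have he0 : 0 ≤ e := Int.emod_nonneg _ hc1z.ne'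
      have hec : e < c1 := Int.emod_lt_of_pos _ hc1z
      have hd' : d = σ * (e + c1 * l) := by
        rw [← hdl]
        linear_combination (-d) * hσ2
      have hcop : IsCoprime e (c1 : ℤ) := by
        refine ⟨σ * a, a * σ * l - b * σ, ?_⟩
        have : a * (σ * (e + c1 * l)) - b * (σ * c1) = 1 := by rw [← hd', ← hcσ]; exact q1
        linear_combination this
      have hqc : q ∣ c1 := by
        have h3 : (q : ℤ) ∣ σ * c1 := by rw [← hcσ]; exact q2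
        have h4 : (q : ℤ) ∣ σ * (σ * c1) := Dvd.dvd.mul_left h3 _
        rw [← mul_assoc, hσ2, one_mul] at h4
        exact_mod_cast h4
      have hcR : (c : ℝ) = σ * c1 := by rw [hcσ]; push_cast; ring
      have hdR : (d : ℝ) = σ * (e + c1 * l) := by rw [hd']; push_cast; ring
      have hMv : (act (MC σ c1 e) (x + l, v)).2 ∈ KK R θ := by
        have h3 := grp_act2 σ hσ c1 hc1 e x v.1 v.2 l
        rw [show ((x + l, v.1, v.2) : ℝ × ℝ × ℝ) = (x + l, v) from rfl] at h3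
        have h4 : (act M (x, v)).2 = (act (MC σ c1 e) (x + l, v)).2 := by
          rw [h3]
          unfold act
          rw [q5, q6, hcR, hdR]
          simp only
          ext <;> (simp only; ring)
        rw [← h4]
        exact h2
      obtain ⟨s1, s2, s3⟩ := grp_supp hR hθ hσ hc1 he0 hec hx0 hx1 hv hMv
      have hp : (⟨c1, e, σ, l⟩ : Σ _ : ℕ, ℤ × ℤ × ℤ) ∈ Sg :=
        (hmem _).2 ⟨⟨hc1, Nat.le_floor s2, hqc⟩, ⟨he0, hec, hcop⟩, hσ, s3⟩
      have hK : (act (Mx ⟨⟨c1, e, σ, l⟩, hp⟩) (x, v)).2 ∈ KK R θ := by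
        rw [hv2]
        exact hMv
      refine ⟨some ⟨⟨c1, e, σ, l⟩, hp⟩, Subtype.ext ?_⟩
      show Mx ⟨⟨c1, e, σ, l⟩, hp⟩ = M
      have h10 : (Mx ⟨⟨c1, e, σ, l⟩, hp⟩).1 1 0 = M.1 1 0 := by rw [hB10 ⟨⟨c1, e, σ, l⟩, hp⟩, q5, hcR]
      have h11 : (Mx ⟨⟨c1, e, σ, l⟩, hp⟩).1 1 1 = M.1 1 1 := by rw [hB11 ⟨⟨c1, e, σ, l⟩, hp⟩, q6, hdR]
      refine grp_uniq q _ _ (hA ⟨⟨c1, e, σ, l⟩, hp⟩) hMG (x, v) h10 h11 ?_ (hval _ hK).1 h1
      rw [h10, h11, q5, q6]
      exact hD.ne'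
  unfold TT
  rw [← Finset.sum_attach, ← hinj.tsum_eq hsupp, tsum_fintype, Fintype.sum_option]
  congr 1
  · show Str.indicator (tw ψ) (act 1 (x, v)) = tw ψ (x, v)
    rw [hact1, indicator_of_mem (show (x, v) ∈ Str from ⟨hx0, hx1⟩)]
  · rw [Finset.univ_eq_attach]
    exact Finset.sum_congr rfl fun p _ => hval' p

end Pool.Agent.LibSM56C
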