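import Mathlib

/-! # SM56 part (C): definitions for LEMMA KL (page notes_MP_91b7ff_SM56.md)

`SL(2,ℝ)` in Bruhat coordinates: `(x, v₁, v₂)`, `v₁ ≠ 0`, is the matrix `(x v₁, x v₂ - 1/v₁; v₁, v₂)`;
Haar measure is Lebesgue measure `dx dv₁ dv₂`. -/

set_option autoImplicit false

namespace Pool.Agent.LibSM56C

open MeasureTheory Set Filter Topology Complex
open scoped ENNReal ComplexConjugate

abbrev SL2R : Type := Matrix.SpecialLinearGroup (Fin 2) ℝ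

/-- Kloosterman sum (same as helper34's). -/
noncomputable def Kl (c : ℕ) [NeZero c] (a b : ZMod c) : ℂ :=
  ∑ x : (ZMod c)ˣ, ZMod.stdAddChar (a * (x : ZMod c) + b * ((x⁻¹ : (ZMod c)ˣ) : ZMod c))

/-- Kloosterman sum without `NeZero`. -/
noncomputable def Sk (c : ℕ) (a b : ZMod c) : ℂ := if h : c = 0 then 0 else @Kl c ⟨h⟩ a b

/-- Left multiplication by `M` in Bruhat coordinates. -/
noncomputable def act (M : SL2R) (g : ℝ × ℝ × ℝ) : ℝ × ℝ × ℝ :=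
  ((M.1 0 0 * g.1 + M.1 0 1) / (M.1 1 0 * g.1 + M.1 1 1), (M.1 1 0 * g.1 + M.1 1 1) * g.2.1,
    (M.1 1 0 * g.1 + M.1 1 1) * g.2.2 - M.1 1 0 / g.2.1)

/-- `Γ₀(q)`. -/
def Gam (q : ℕ) : Set SL2R :=
  {M | ∃ a b c d : ℤ, a * d - b * c = 1 ∧ (q : ℤ) ∣ c ∧ M.1 0 0 = a ∧ M.1 0 1 = b ∧ M.1 1 0 = c ∧ M.1 1 1 = d}

/-- The Atkin-Lehner coset: `(n a, b; n m, n e)/√n` with `n a e - b m = 1`, `d ∣ m`. -/
def AL (n d : ℕ) : Set SL2R :=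
  {M | ∃ a b m e : ℤ, n * a * e - b * m = 1 ∧ (d : ℤ) ∣ m ∧ M.1 0 0 = √(n : ℝ) * a ∧ M.1 0 1 = b / √(n : ℝ) ∧
    M.1 1 0 = √(n : ℝ) * m ∧ M.1 1 1 = √(n : ℝ) * e}

/-- The strip `0 ≤ x < 1`. -/
def Str : Set (ℝ × ℝ × ℝ) := {g | 0 ≤ g.1 ∧ g.1 < 1}

/-- The series over `S`, one matrix for each bottom row (the one with `x(Mg) ∈ [0,1)`). -/
noncomputable def TT (S : Set SL2R) (φ : ℝ × ℝ × ℝ → ℂ) (g : ℝ × ℝ × ℝ) : ℂ :=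
  ∑' M : S, Str.indicator φ (act M.1 g)

/-- `φ(x,v) = e(x) ψ(v)`. -/
noncomputable def tw (ψ : ℝ × ℝ → ℂ) (g : ℝ × ℝ × ℝ) : ℂ := cexp (2 * Real.pi * I * g.1) * ψ g.2

/-- The support region. -/
def KK (R θ : ℝ) : Set (ℝ × ℝ) := {v | R ≤ v.1 ∧ v.1 ≤ 8 * R ∧ |v.2| ≤ θ * v.1}

/-- The box: `v = (τ e^r, e^{-r})`, `0 < τ ≤ ρ`, `0 ≤ r ≤ 1`. -/
def UU (ρ : ℝ) : Set (ℝ × ℝ) := {v | Real.exp (-1) ≤ v.2 ∧ v.2 ≤ 1 ∧ 0 < v.1 ∧ v.1 * v.2 ≤ ρ}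

/-- `⟨φ, T φ⟩` over `N_ℤ \ G`. -/
noncomputable def DD (q : ℕ) (ψ : ℝ × ℝ → ℂ) : ℝ :=
  (∫ g in Str, conj (tw ψ g) * TT (Gam q) (tw ψ) g).re

/-- Kloosterman excess. -/
noncomputable def KX (q : ℕ) (X : ℝ) : ℝ :=
  ∑ c ∈ (Finset.Icc 1 ⌊X⌋₊).filter (fun c => q ∣ c), ‖Sk c 1 1‖ / c

end Pool.Agent.LibSM56C
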