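import Pool.Agent.LibSM56C.K_12

/-! # SM56 part (C): interface of LEMMA KL -/

set_option autoImplicit false

namespace Pool.Agent.LibSM56C

open MeasureTheory Set Filter Topology Complex
open scoped ENNReal ComplexConjugate

/-- GEO (helper99): unfolding, weights, multiplicity. -/
theorem geo (n d : ℕ) (hn : 1 ≤ n) (hd : 1 ≤ d) (hnd : Nat.Coprime n d) (R θ ρ B : ℝ) (hR : 0 < R) (hθ : 0 < θ)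
    (hρ : 0 < ρ) (hB : 0 ≤ B) (ψ : ℝ × ℝ → ℂ) (hψ : Measurable ψ)
    (hb : ∀ v, ‖ψ v‖ ≤ B * (KK R θ).indicator 1 v) :
    ∫⁻ g in Str ∩ {g | g.2 ∈ UU ρ}, ‖TT (AL n d) (tw ψ) g‖ₑ ^ 2 ≤
      ENNReal.ofReal ((1 + 8 * ρ / (n * d)) * DD (n * d) ψ) := by
  exact geo_proof n d hn hd hnd R θ ρ B hR hθ hρ hB ψ hψ hb

/-- DIAG (helper58): the diagonal and the Kloosterman sums. -/
theorem diag (q : ℕ) (hq : 1 ≤ q) (R θ B : ℝ) (hR : 0 < R) (hθ : 0 < θ) (hB : 0 ≤ B) (ψ : ℝ × ℝ → ℂ)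
    (hψ : Measurable ψ) (hb : ∀ v, ‖ψ v‖ ≤ B * (KK R θ).indicator 1 v) :
    DD q ψ ≤ B ^ 2 * (63 * θ * R ^ 2) * (1 + 16 * KX q (1024 * θ * R ^ 2)) := by
  exact diag_proof q hq R θ B hR hθ hB ψ hψ hb

/-- LEMMA KL (helper73). -/
theorem KL : ∃ C : ℝ, 0 < C ∧ ∀ n d : ℕ, 1 ≤ n → 1 ≤ d → Nat.Coprime n d → ∀ R L : ℝ, 0 < R → 1 ≤ L → L ≤ R ^ 2 →
    ∀ f f1 f2 : ℝ → ℂ, (∀ t, HasDerivAt f (f1 t) t) → (∀ t, HasDerivAt f1 (f2 t) t) → Continuous f2 →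
    (∀ t, ‖f t‖ ≤ 1 ∧ ‖f1 t‖ ≤ 1 ∧ ‖f2 t‖ ≤ 1) → (∀ t, t ∉ Icc (Real.log R) (Real.log (8 * R)) → f t = 0) →
    ∑ N ∈ (Finset.Icc (-⌊2 * L⌋) ⌊2 * L⌋).filter (fun N : ℤ => L ≤ |(N : ℝ)|),
      ‖∑ m ∈ (Finset.Icc 1 ⌊8 * R⌋₊).filter (fun m => d ∣ m ∧ Nat.Coprime m n),
        Sk m (N : ZMod m) ((n : ZMod m)⁻¹) * f (Real.log (√(n : ℝ) * m))‖ ^ 2 ≤
    C * (1 + L / (n * d)) * R ^ 2 * (1 + KX (n * d) (64 * R ^ 2 / L)) := by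
  exact KL_main

end Pool.Agent.LibSM56C
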