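import Pool.Agent.LibSM56C.Defs

/-! # SM56 part (C), GEO 0: the action preserves Haar measure -/

set_option autoImplicit false

namespace Pool.Agent.LibSM56C

open MeasureTheory Set Filter Topology Complex
open scoped ENNReal ComplexConjugate

theorem det_eq (M : SL2R) : M.1 0 0 * M.1 1 1 - M.1 0 1 * M.1 1 0 = 1 := by
  have h := M.2
  rw [Matrix.det_fin_two] at h
  exact h

theorem measurable_act (M : SL2R) : Measurable (act M) := by
  unfold act
  fun_prop

/-- The Moebius map preserves the measure with density `|c x + d|^{-2}`. -/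
theorem lint_moeb (M : SL2R) (h : ℝ → ℝ≥0∞) :
    ∫⁻ x, ENNReal.ofReal (((M.1 1 0 * x + M.1 1 1) ^ 2)⁻¹) *
        h ((M.1 0 0 * x + M.1 0 1) / (M.1 1 0 * x + M.1 1 1)) = ∫⁻ x, h x := by
  have hd := det_eq M
  set a := M.1 0 0
  set b := M.1 0 1
  set c := M.1 1 0
  set d := M.1 1 1
  have hs : MeasurableSet {x : ℝ | c * x + d ≠ 0} := by
    have : MeasurableSet {x : ℝ | c * x + d = 0} :=
      measurableSet_eq_fun (by fun_prop) (by fun_prop)
    exact this.compl
  have key := lintegral_image_eq_lintegral_abs_deriv_mul (s := {x : ℝ | c * x + d ≠ 0})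
    (f := fun x => (a * x + b) / (c * x + d)) (f' := fun x => ((c * x + d) ^ 2)⁻¹) hs
    (by
      intro x hx
      have hx' : c * x + d ≠ 0 := hx
      have h1 : HasDerivAt (fun x : ℝ => a * x + b) a x := by
        simpa using ((hasDerivAt_id x).const_mul a).add_const b
      have h2 : HasDerivAt (fun x : ℝ => c * x + d) c x := by
        simpa using ((hasDerivAt_id x).const_mul c).add_const d
      have h3 := h1.div h2 hx'
      refine (h3.congr_deriv ?_).hasDerivWithinAt
      field_simp
      linear_combination hd)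
    (by
      intro x hx y hy hxy
      have hx' : c * x + d ≠ 0 := hx
      have hy' : c * y + d ≠ 0 := hy
      have hxy' : (a * x + b) / (c * x + d) = (a * y + b) / (c * y + d) := hxy
      rw [div_eq_div_iff hx' hy'] at hxy'
      linear_combination hxy' - (x - y) * hd)
    (g := h)
  have himg : ((fun x => (a * x + b) / (c * x + d)) '' {x : ℝ | c * x + d ≠ 0})
      = {y : ℝ | a - c * y ≠ 0} := by
    ext y
    constructor
    · rintro ⟨x, hx, rfl⟩
      have hx' : c * x + d ≠ 0 := hx
      show a - c * ((a * x + b) / (c * x + d)) ≠ 0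
      have : a - c * ((a * x + b) / (c * x + d)) = 1 / (c * x + d) := by
        field_simp
        linear_combination hd
      rw [this]
      exact one_div_ne_zero hx'
    · intro hy
      have hy' : a - c * y ≠ 0 := hy
      have hcd : c * ((d * y - b) / (a - c * y)) + d = 1 / (a - c * y) := by
        field_simp
        linear_combination hd
      refine ⟨(d * y - b) / (a - c * y), ?_, ?_⟩
      · show c * ((d * y - b) / (a - c * y)) + d ≠ 0
        rw [hcd]
        exact one_div_ne_zero hy'
      · show (a * ((d * y - b) / (a - c * y)) + b) / (c * ((d * y - b) / (a - c * y)) + d) = y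
        rw [hcd, div_div_eq_mul_div, div_one]
        have : a * ((d * y - b) / (a - c * y)) + b = y / (a - c * y) := by
          rw [mul_div_assoc', div_add' _ _ _ hy']
          congr 1
          linear_combination y * hd
        rw [this, div_mul_cancel₀ _ hy']
  have hfull : ∀ (c' d' : ℝ), (c' ≠ 0 ∨ d' ≠ 0) →
      (∀ᵐ y : ℝ, c' * y + d' ≠ 0) := by
    intro c' d' h0
    have : {y : ℝ | c' * y + d' = 0} ⊆ {-d' / c'} := by
      intro y hy
      have hy' : c' * y + d' = 0 := hy
      rcases eq_or_ne c' 0 with hc | hc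
      · rw [hc] at hy' h0
        simp at hy' h0
        exact absurd hy' h0
      · show y = -d' / c'
        field_simp
        linarith
    rw [ae_iff]
    simp only [not_not]
    exact measure_mono_null this (by simp)
  rw [himg] at key
  have hae1 : ∀ᵐ y : ℝ, y ∈ {y : ℝ | a - c * y ≠ 0} := by
    refine (hfull (-c) a ?_).mono (fun y hy => by
      show a - c * y ≠ 0
      intro h0
      exact hy (by linarith))
    by_contra hcon
    push Not at hcon
    obtain ⟨h1, h2⟩ := hcon
    have h1' : c = 0 := by linarith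
    rw [h1', h2] at hd
    simp at hd
  have hae2 : ∀ᵐ y : ℝ, y ∈ {y : ℝ | c * y + d ≠ 0} := by
    refine hfull c d ?_
    by_contra hcon
    push Not at hcon
    obtain ⟨h1, h2⟩ := hcon
    rw [h1, h2] at hd
    simp at hd
  rw [Measure.restrict_eq_self_of_ae_mem hae1, Measure.restrict_eq_self_of_ae_mem hae2] at key
  rw [key]
  refine lintegral_congr fun x => ?_
  rw [abs_of_nonneg (by positivity)]

/-- Translation and scaling on the line. -/
theorem lint_aff (j t : ℝ) (hj : j ≠ 0) (h : ℝ → ℝ≥0∞) (hh : Measurable h) :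
    ∫⁻ v, h (j * v - t) = ENNReal.ofReal |j⁻¹| * ∫⁻ v, h v := by
  have h1 : ∫⁻ v, h (j * v - t) = ∫⁻ v, (fun u => h (u - t)) (v * j) := by
    refine lintegral_congr fun v => ?_
    simp only [mul_comm v j]
  have h2 : Measure.map (fun v : ℝ => v * j) volume = ENNReal.ofReal |j⁻¹| • volume :=
    Real.map_volume_mul_right hj
  have h3 : ∫⁻ v, (fun u => h (u - t)) (v * j) = ∫⁻ u, (fun u => h (u - t)) u
      ∂(Measure.map (fun v : ℝ => v * j) volume) := by
    rw [lintegral_map (by fun_prop) (by fun_prop)]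
  rw [h1, h3, h2, lintegral_smul_measure]
  congr 1
  exact lintegral_sub_right_eq_self h t

theorem lint_act (M : SL2R) (f : ℝ × ℝ × ℝ → ℝ≥0∞) (hf : Measurable f) :
    ∫⁻ p, f (act M p) = ∫⁻ p, f p := by
  have hd := det_eq M
  have hae2 : ∀ᵐ x : ℝ, M.1 1 0 * x + M.1 1 1 ≠ 0 := by
    have : {y : ℝ | M.1 1 0 * y + M.1 1 1 = 0} ⊆ {-M.1 1 1 / M.1 1 0} := by
      intro y hy
      have hy' : M.1 1 0 * y + M.1 1 1 = 0 := hy
      rcases eq_or_ne (M.1 1 0) 0 with hc | hc
      · rw [hc] at hy' hd
        have : M.1 1 1 = 0 := by linarith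
        rw [this] at hd
        simp at hd
      · show y = -M.1 1 1 / M.1 1 0
        field_simp
        linarith
    rw [ae_iff]
    simp only [not_not]
    exact measure_mono_null this (by simp)
  have hm : Measurable (fun p => f (act M p)) := hf.comp (measurable_act M)
  rw [Measure.volume_eq_prod, lintegral_prod _ hm.aemeasurable, lintegral_prod _ hf.aemeasurable]
  have h1 : ∀ᵐ x : ℝ, (∫⁻ q : ℝ × ℝ, f (act M (x, q))) =
      ENNReal.ofReal (((M.1 1 0 * x + M.1 1 1) ^ 2)⁻¹) *
        (fun y => ∫⁻ q : ℝ × ℝ, f (y, q)) ((M.1 0 0 * x + M.1 0 1) / (M.1 1 0 * x + M.1 1 1)) := by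
    filter_upwards [hae2] with x hx
    have hm1 : Measurable (fun q : ℝ × ℝ => f (act M (x, q))) := hm.comp (by fun_prop)
    have hm2 : Measurable (fun q : ℝ × ℝ =>
        f ((M.1 0 0 * x + M.1 0 1) / (M.1 1 0 * x + M.1 1 1), q)) := hf.comp (by fun_prop)
    rw [Measure.volume_eq_prod, lintegral_prod _ hm1.aemeasurable]
    show _ = _ * ∫⁻ q : ℝ × ℝ, f ((M.1 0 0 * x + M.1 0 1) / (M.1 1 0 * x + M.1 1 1), q)
    rw [Measure.volume_eq_prod, lintegral_prod _ hm2.aemeasurable]
    set j := M.1 1 0 * x + M.1 1 1 with hj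
    set X := (M.1 0 0 * x + M.1 0 1) / j with hX
    have e1 : ∀ v1 : ℝ, (∫⁻ v2 : ℝ, f (act M (x, v1, v2))) =
        ENNReal.ofReal |j⁻¹| * ∫⁻ v2, f (X, j * v1, v2) := by
      intro v1
      have := lint_aff j (M.1 1 0 / v1) hx (fun v => f (X, j * v1, v)) (by fun_prop)
      rw [← this]
      rfl
    rw [lintegral_congr e1]
    have hm3 : Measurable (fun v1 : ℝ => ∫⁻ v2, f (X, v1, v2)) := by
      have : Measurable (fun q : ℝ × ℝ => f (X, q.1, q.2)) := hf.comp (by fun_prop)
      exact this.lintegral_prod_right'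
    have hm4 : Measurable (fun v1 : ℝ => ∫⁻ v2, f (X, j * v1, v2)) :=
      hm3.comp (by fun_prop : Measurable fun v1 : ℝ => j * v1)
    rw [lintegral_const_mul _ hm4]
    have e2 := lint_aff j 0 hx (fun v1 => ∫⁻ v2, f (X, v1, v2)) hm3
    simp only [sub_zero] at e2
    rw [e2, ← mul_assoc, ← ENNReal.ofReal_mul (abs_nonneg _)]
    congr 2
    rw [← abs_mul, abs_of_nonneg (mul_self_nonneg _), ← inv_pow]
    ring
  rw [lintegral_congr_ae h1]
  exact lint_moeb M (fun y => ∫⁻ q : ℝ × ℝ, f (y, q))

theorem mp_act (M : SL2R) : MeasurePreserving (act M) volume volume := by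
  refine ⟨measurable_act M, ?_⟩
  ext s hs
  have hmi : Measurable (s.indicator (1 : ℝ × ℝ × ℝ → ℝ≥0∞)) :=
    measurable_one.indicator hs
  rw [← lintegral_indicator_one hs, ← lintegral_indicator_one hs,
    lintegral_map hmi (measurable_act M)]
  exact lint_act M _ hmi

end Pool.Agent.LibSM56C
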