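import Pool.Agent.LibSM56C.G_0

/-! # SM56 part (C), GEO 1: good points, the group law, unfolding -/

set_option autoImplicit false

namespace Pool.Agent.LibSM56C

open MeasureTheory Set Filter Topology Complex
open scoped ENNReal ComplexConjugate

/-- Good points: `x` irrational, `v₁ ≠ 0`. -/
def Gd : Set (ℝ × ℝ × ℝ) := {g | Irrational g.1 ∧ g.2.1 ≠ 0}

theorem ae_Gd : ∀ᵐ g : ℝ × ℝ × ℝ, g ∈ Gd := by
  have h1 : ∀ᵐ x : ℝ, Irrational x := by
    have : (range ((↑) : ℚ → ℝ)).Countable := countable_range _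
    have h0 := this.measure_zero (volume : Measure ℝ)
    rw [ae_iff]
    refine measure_mono_null (fun x hx => ?_) h0
    have hx' : ¬ Irrational x := hx
    rw [Irrational, not_not] at hx'
    exact hx'
  have h2 : ∀ᵐ x : ℝ, x ≠ 0 := by
    rw [ae_iff]
    simp only [not_not]
    simp
  have q1 : Measure.QuasiMeasurePreserving (Prod.fst : ℝ × ℝ × ℝ → ℝ) volume volume := by
    rw [Measure.volume_eq_prod]
    exact Measure.quasiMeasurePreserving_fst
  have q2 : Measure.QuasiMeasurePreserving (Prod.snd : ℝ × ℝ × ℝ → ℝ × ℝ) volume volume := by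
    rw [Measure.volume_eq_prod]
    exact Measure.quasiMeasurePreserving_snd
  have q3 : Measure.QuasiMeasurePreserving (Prod.fst : ℝ × ℝ → ℝ) volume volume := by
    rw [Measure.volume_eq_prod]
    exact Measure.quasiMeasurePreserving_fst
  filter_upwards [q1.ae h1, (q3.comp q2).ae h2] with g hg1 hg2
  exact ⟨hg1, hg2⟩

/-- Matrices that map good points to good points. -/
def OK : Set SL2R := {M | ∀ x : ℝ, Irrational x → M.1 1 0 * x + M.1 1 1 ≠ 0 ∧
  Irrational ((M.1 0 0 * x + M.1 0 1) / (M.1 1 0 * x + M.1 1 1))}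

theorem act_Gd {M : SL2R} (hM : M ∈ OK) {g : ℝ × ℝ × ℝ} (hg : g ∈ Gd) : act M g ∈ Gd := by
  obtain ⟨h1, h2⟩ := hM g.1 hg.1
  exact ⟨h2, mul_ne_zero h1 hg.2⟩

theorem act_one (g : ℝ × ℝ × ℝ) : act 1 g = g := by
  simp [act]

theorem mul_00 (M N : SL2R) : (M * N).1 0 0 = M.1 0 0 * N.1 0 0 + M.1 0 1 * N.1 1 0 := by
  simp [Matrix.mul_apply, Fin.sum_univ_two]

theorem mul_01 (M N : SL2R) : (M * N).1 0 1 = M.1 0 0 * N.1 0 1 + M.1 0 1 * N.1 1 1 := by
  simp [Matrix.mul_apply, Fin.sum_univ_two]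

theorem mul_10 (M N : SL2R) : (M * N).1 1 0 = M.1 1 0 * N.1 0 0 + M.1 1 1 * N.1 1 0 := by
  simp [Matrix.mul_apply, Fin.sum_univ_two]

theorem mul_11 (M N : SL2R) : (M * N).1 1 1 = M.1 1 0 * N.1 0 1 + M.1 1 1 * N.1 1 1 := by
  simp [Matrix.mul_apply, Fin.sum_univ_two]

theorem inv_00 (M : SL2R) : (M⁻¹).1 0 0 = M.1 1 1 := by
  rw [Matrix.SpecialLinearGroup.coe_inv, Matrix.adjugate_fin_two]
  rfl

theorem inv_01 (M : SL2R) : (M⁻¹).1 0 1 = - M.1 0 1 := by
  rw [Matrix.SpecialLinearGroup.coe_inv, Matrix.adjugate_fin_two]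
  rfl

theorem inv_10 (M : SL2R) : (M⁻¹).1 1 0 = - M.1 1 0 := by
  rw [Matrix.SpecialLinearGroup.coe_inv, Matrix.adjugate_fin_two]
  rfl

theorem inv_11 (M : SL2R) : (M⁻¹).1 1 1 = M.1 0 0 := by
  rw [Matrix.SpecialLinearGroup.coe_inv, Matrix.adjugate_fin_two]
  rfl

theorem act_mul (M : SL2R) {N : SL2R} (hN : N ∈ OK) {g : ℝ × ℝ × ℝ} (hg : g ∈ Gd) :
    act (M * N) g = act M (act N g) := by
  obtain ⟨h1, h2⟩ := hN g.1 hg.1
  have hv := hg.2
  have hd := det_eq N
  unfold act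
  rw [mul_00, mul_01, mul_10, mul_11]
  set a := M.1 0 0
  set b := M.1 0 1
  set c := M.1 1 0
  set d := M.1 1 1
  set a' := N.1 0 0
  set b' := N.1 0 1
  set c' := N.1 1 0
  set d' := N.1 1 1
  set j := c' * g.1 + d' with hj
  have e1 : c * ((a' * g.1 + b') / j) + d = ((c * a' + d * c') * g.1 + (c * b' + d * d')) / j := by
    rw [mul_div_assoc', div_add' _ _ _ h1]
    congr 1
    rw [hj]
    ring
  have e0 : a * ((a' * g.1 + b') / j) + b = ((a * a' + b * c') * g.1 + (a * b' + b * d')) / j := by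
    rw [mul_div_assoc', div_add' _ _ _ h1]
    congr 1
    rw [hj]
    ring
  simp only
  refine Prod.ext ?_ (Prod.ext ?_ ?_)
  · simp only
    rw [e1, e0, div_div_div_cancel_right₀ h1]
  · simp only
    rw [e1]
    field_simp
  · simp only
    rw [e1]
    field_simp
    rw [hj]
    linear_combination c * g.2.1 * hd * 0 + (-c) * hd

/-- The nonnegative series. -/
noncomputable def TE (S : Set SL2R) (f : ℝ × ℝ × ℝ → ℝ≥0∞) (g : ℝ × ℝ × ℝ) : ℝ≥0∞ :=
  ∑' M : S, Str.indicator f (act M.1 g)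

theorem meas_Str : MeasurableSet Str := by
  unfold Str
  exact (measurableSet_le measurable_const measurable_fst).inter
    (measurableSet_lt measurable_fst measurable_const)

end Pool.Agent.LibSM56C
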