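import Pool.Agent.LibSM56C.G_1

/-! # SM56 part (C), GEO 2: unfolding -/

set_option autoImplicit false

namespace Pool.Agent.LibSM56C

open MeasureTheory Set Filter Topology Complex
open scoped ENNReal ComplexConjugate

theorem ae_inv {M : SL2R} (hM : M ∈ OK) : ∀ᵐ g : ℝ × ℝ × ℝ, act M⁻¹ (act M g) = g := by
  filter_upwards [ae_Gd] with g hg
  rw [← act_mul M⁻¹ hM hg, inv_mul_cancel, act_one]

theorem swapE {M : SL2R} (hM : M ∈ OK) (A B : ℝ × ℝ × ℝ → ℝ≥0∞)
    (hA : AEMeasurable A) (hB : AEMeasurable B) :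
    ∫⁻ g, A g * B (act M g) = ∫⁻ g, A (act M⁻¹ g) * B g := by
  have hG : AEMeasurable (fun h => A (act M⁻¹ h) * B h) :=
    (hA.comp_quasiMeasurePreserving (mp_act M⁻¹).quasiMeasurePreserving).mul hB
  have h1 : ∫⁻ h, A (act M⁻¹ h) * B h ∂(Measure.map (act M) volume)
      = ∫⁻ g, A (act M⁻¹ (act M g)) * B (act M g) :=
    lintegral_map' (by rw [(mp_act M).map_eq]; exact hG) (measurable_act M).aemeasurable
  rw [(mp_act M).map_eq] at h1
  rw [h1]
  refine lintegral_congr_ae ?_
  filter_upwards [ae_inv hM] with g hg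
  simp only [hg]

theorem swapC {M : SL2R} (hM : M ∈ OK) (A B : ℝ × ℝ × ℝ → ℂ)
    (hA : AEStronglyMeasurable A) (hB : AEStronglyMeasurable B) :
    ∫ g, A g * B (act M g) = ∫ g, A (act M⁻¹ g) * B g := by
  have hG : AEStronglyMeasurable (fun h => A (act M⁻¹ h) * B h) :=
    (hA.comp_quasiMeasurePreserving (mp_act M⁻¹).quasiMeasurePreserving).mul hB
  have h1 : ∫ h, A (act M⁻¹ h) * B h ∂(Measure.map (act M) volume)
      = ∫ g, A (act M⁻¹ (act M g)) * B (act M g) :=
    integral_map (measurable_act M).aemeasurable (by rw [(mp_act M).map_eq]; exact hG)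
  rw [(mp_act M).map_eq] at h1
  rw [h1]
  refine integral_congr_ae ?_
  filter_upwards [ae_inv hM] with g hg
  simp only [hg]

/-- Data of an index set. -/
structure Idx (S : Set SL2R) : Prop where
  ctb : S.Countable
  ok : ∀ M ∈ S, M ∈ OK
  inv : ∀ M ∈ S, M⁻¹ ∈ S

/-- Inversion as a bijection of `S`. -/
def Idx.eqv {S : Set SL2R} (h : Idx S) : S ≃ S where
  toFun M := ⟨M.1⁻¹, h.inv M.1 M.2⟩
  invFun M := ⟨M.1⁻¹, h.inv M.1 M.2⟩
  left_inv M := by simp
  right_inv M := by simp

theorem unfE {S : Set SL2R} (h : Idx S) (A B : ℝ × ℝ × ℝ → ℝ≥0∞)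
    (hA : AEMeasurable A) (hB : AEMeasurable B) :
    ∫⁻ g in Str, A g * TE S B g = ∫⁻ g in Str, TE S A g * B g := by
  have : Countable S := h.ctb.to_subtype
  have hA' := hA.indicator meas_Str
  have hB' := hB.indicator meas_Str
  rw [← lintegral_indicator meas_Str, ← lintegral_indicator meas_Str]
  have e1 : ∀ g, Str.indicator (fun g => A g * TE S B g) g =
      ∑' M : S, Str.indicator A g * Str.indicator B (act M.1 g) := by
    intro g
    rw [ENNReal.tsum_mul_left]
    by_cases hg : g ∈ Str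
    · rw [indicator_of_mem hg, indicator_of_mem hg]
      rfl
    · rw [indicator_of_notMem hg, indicator_of_notMem hg, zero_mul]
  have e2 : ∀ g, Str.indicator (fun g => TE S A g * B g) g =
      ∑' M : S, Str.indicator A (act M.1⁻¹ g) * Str.indicator B g := by
    intro g
    rw [ENNReal.tsum_mul_right]
    have : TE S A g = ∑' M : S, Str.indicator A (act M.1⁻¹ g) :=
      (h.eqv.tsum_eq (fun M : S => Str.indicator A (act M.1 g))).symm
    by_cases hg : g ∈ Str
    · rw [indicator_of_mem hg, indicator_of_mem hg, this]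
    · rw [indicator_of_notMem hg, indicator_of_notMem hg, mul_zero]
  simp only [e1, e2]
  rw [lintegral_tsum, lintegral_tsum]
  · refine tsum_congr fun M => ?_
    exact swapE (h.ok M.1 M.2) _ _ hA' hB'
  · intro M
    exact (hA'.comp_quasiMeasurePreserving (mp_act M.1⁻¹).quasiMeasurePreserving).mul hB'
  · intro M
    exact hA'.mul (hB'.comp_quasiMeasurePreserving (mp_act M.1).quasiMeasurePreserving)

theorem ind_enorm (f : ℝ × ℝ × ℝ → ℂ) (g : ℝ × ℝ × ℝ) :
    ‖Str.indicator f g‖ₑ = Str.indicator (fun g => ‖f g‖ₑ) g := by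
  by_cases hg : g ∈ Str
  · rw [indicator_of_mem hg, indicator_of_mem hg]
  · rw [indicator_of_notMem hg, indicator_of_notMem hg, enorm_zero]

theorem unfC {S : Set SL2R} (h : Idx S) (A B : ℝ × ℝ × ℝ → ℂ)
    (hA : AEStronglyMeasurable A) (hB : AEStronglyMeasurable B)
    (hfin : ∫⁻ g in Str, ‖A g‖ₑ * TE S (fun g => ‖B g‖ₑ) g ≠ ∞) :
    ∫ g in Str, A g * TT S B g = ∫ g in Str, TT S A g * B g := by
  have : Countable S := h.ctb.to_subtype
  have hA' := hA.indicator meas_Str
  have hB' := hB.indicator meas_Str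
  rw [← integral_indicator meas_Str, ← integral_indicator meas_Str]
  have e1 : ∀ g, Str.indicator (fun g => A g * TT S B g) g =
      ∑' M : S, Str.indicator A g * Str.indicator B (act M.1 g) := by
    intro g
    rw [tsum_mul_left]
    by_cases hg : g ∈ Str
    · rw [indicator_of_mem hg, indicator_of_mem hg]
      rfl
    · rw [indicator_of_notMem hg, indicator_of_notMem hg, zero_mul]
  have e2 : ∀ g, Str.indicator (fun g => TT S A g * B g) g =
      ∑' M : S, Str.indicator A (act M.1⁻¹ g) * Str.indicator B g := by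
    intro g
    rw [tsum_mul_right]
    have : TT S A g = ∑' M : S, Str.indicator A (act M.1⁻¹ g) :=
      (h.eqv.tsum_eq (fun M : S => Str.indicator A (act M.1 g))).symm
    by_cases hg : g ∈ Str
    · rw [indicator_of_mem hg, indicator_of_mem hg, this]
    · rw [indicator_of_notMem hg, indicator_of_notMem hg, mul_zero]
  have hfin' : ∑' M : S, ∫⁻ g, ‖Str.indicator A g * Str.indicator B (act M.1 g)‖ₑ ≠ ∞ := by
    rw [← lintegral_tsum]
    · rw [← lintegral_indicator meas_Str] at hfin
      refine ne_of_eq_of_ne (lintegral_congr fun g => ?_) hfin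
      simp only [enorm_mul]
      rw [ENNReal.tsum_mul_left, ind_enorm]
      by_cases hg : g ∈ Str
      · rw [indicator_of_mem hg, indicator_of_mem hg]
        unfold TE
        congr 1
        refine tsum_congr fun M => ?_
        rw [ind_enorm]
      · rw [indicator_of_notMem hg, indicator_of_notMem hg, zero_mul]
    · intro M
      exact (hA'.mul
        (hB'.comp_quasiMeasurePreserving (mp_act M.1).quasiMeasurePreserving)).enorm
  have hsw : ∀ M : S, ∫⁻ g, ‖Str.indicator A (act M.1⁻¹ g) * Str.indicator B g‖ₑ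
      = ∫⁻ g, ‖Str.indicator A g * Str.indicator B (act M.1 g)‖ₑ := by
    intro M
    have := swapE (h.ok M.1 M.2) (fun g => ‖Str.indicator A g‖ₑ)
      (fun g => ‖Str.indicator B g‖ₑ) hA'.enorm hB'.enorm
    simp only [enorm_mul]
    exact this.symm
  simp only [e1, e2]
  rw [integral_tsum, integral_tsum]
  · refine tsum_congr fun M => ?_
    exact swapC (h.ok M.1 M.2) _ _ hA' hB'
  · intro M
    exact (hA'.comp_quasiMeasurePreserving (mp_act M.1⁻¹).quasiMeasurePreserving).mul hB'
  · simp only [hsw]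
    exact hfin'
  · intro M
    exact hA'.mul (hB'.comp_quasiMeasurePreserving (mp_act M.1).quasiMeasurePreserving)
  · exact hfin'

/-- Right translation of the index set. -/
theorem TE_act {S S' : Set SL2R} {M : SL2R} (hM : M ∈ OK) (hS : ∀ N, N ∈ S ↔ N * M ∈ S')
    (f : ℝ × ℝ × ℝ → ℝ≥0∞) {g : ℝ × ℝ × ℝ} (hg : g ∈ Gd) : TE S f (act M g) = TE S' f g := by
  unfold TE
  rw [← ((Equiv.mulRight M).subtypeEquiv hS).tsum_eq]
  refine tsum_congr fun N => ?_
  show _ = Str.indicator f (act (N.1 * M) g)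
  rw [act_mul N.1 hM hg]

theorem TT_act {S S' : Set SL2R} {M : SL2R} (hM : M ∈ OK) (hS : ∀ N, N ∈ S ↔ N * M ∈ S')
    (f : ℝ × ℝ × ℝ → ℂ) {g : ℝ × ℝ × ℝ} (hg : g ∈ Gd) : TT S f (act M g) = TT S' f g := by
  unfold TT
  rw [← ((Equiv.mulRight M).subtypeEquiv hS).tsum_eq]
  refine tsum_congr fun N => ?_
  show _ = Str.indicator f (act (N.1 * M) g)
  rw [act_mul N.1 hM hg]

end Pool.Agent.LibSM56C
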