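import Pool.Agent.LibSM56C.G_2

/-! # SM56 part (C), GEO 3: the sets `Gam q` and `AL n d` -/

set_option autoImplicit false

namespace Pool.Agent.LibSM56C

open MeasureTheory Set Filter Topology Complex
open scoped ENNReal ComplexConjugate

theorem irr_mob (a b c d : ℚ) (h : a * d - b * c ≠ 0) (x : ℝ) (hx : Irrational x) :
    (c : ℝ) * x + d ≠ 0 ∧ Irrational (((a : ℝ) * x + b) / ((c : ℝ) * x + d)) := by
  have h1 : (c : ℝ) * x + d ≠ 0 := by
    intro h0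
    rcases eq_or_ne c 0 with hc | hc
    · rw [hc] at h0 h
      simp at h0
      rw [h0] at h
      simp at h
    · apply hx
      refine ⟨-d / c, ?_⟩
      have hc' : (c : ℝ) ≠ 0 := by exact_mod_cast hc
      push_cast
      field_simp
      linarith
  refine ⟨h1, ?_⟩
  rintro ⟨r, hr⟩
  rw [eq_div_iff h1] at hr
  rcases eq_or_ne (a - r * c) 0 with h2 | h2
  · have h2' : (a : ℝ) - r * c = 0 := by exact_mod_cast h2
    have h3 : (r : ℝ) * d - b = 0 := by linear_combination hr + x * h2'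
    have h3' : r * d - b = 0 := by exact_mod_cast h3
    apply h
    linear_combination d * h2 + c * h3'
  · apply hx
    refine ⟨(r * d - b) / (a - r * c), ?_⟩
    have h2' : (a : ℝ) - r * c ≠ 0 := by exact_mod_cast h2
    push_cast
    rw [div_eq_iff h2']
    linear_combination hr

theorem ent_inj : Function.Injective
    (fun M : SL2R => (M.1 0 0, M.1 0 1, M.1 1 0, M.1 1 1)) := by
  intro M N h
  simp only [Prod.mk.injEq] at h
  obtain ⟨h1, h2, h3, h4⟩ := h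
  apply Subtype.ext
  ext i j
  fin_cases i <;> fin_cases j
  · exact h1
  · exact h2
  · exact h3
  · exact h4

theorem Gam_ctb (q : ℕ) : (Gam q).Countable := by
  have h : (range (fun p : ℤ × ℤ × ℤ × ℤ =>
      ((p.1 : ℝ), (p.2.1 : ℝ), (p.2.2.1 : ℝ), (p.2.2.2 : ℝ)))).Countable := countable_range _
  refine (h.preimage_of_injOn ent_inj.injOn).mono ?_
  rintro M ⟨a, b, c, d, -, -, h1, h2, h3, h4⟩
  exact ⟨(a, b, c, d), by simp only [h1, h2, h3, h4]⟩

theorem AL_ctb (n d : ℕ) : (AL n d).Countable := by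
  have h : (range (fun p : ℤ × ℤ × ℤ × ℤ =>
      (√(n : ℝ) * (p.1 : ℝ), (p.2.1 : ℝ) / √(n : ℝ), √(n : ℝ) * (p.2.2.1 : ℝ),
        √(n : ℝ) * (p.2.2.2 : ℝ)))).Countable := countable_range _
  refine (h.preimage_of_injOn ent_inj.injOn).mono ?_
  rintro M ⟨a, b, c, d, -, -, h1, h2, h3, h4⟩
  exact ⟨(a, b, c, d), by simp only [h1, h2, h3, h4]⟩

theorem Gam_ok (q : ℕ) {M : SL2R} (hM : M ∈ Gam q) : M ∈ OK := by
  obtain ⟨a, b, c, d, hdet, -, h1, h2, h3, h4⟩ := hM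
  intro x hx
  rw [h1, h2, h3, h4]
  have := irr_mob a b c d (by
    have : ((a * d - b * c : ℤ) : ℚ) = 1 := by rw [hdet]; simp
    push_cast at this
    rw [this]
    exact one_ne_zero) x hx
  exact_mod_cast this

theorem AL_ok {n : ℕ} (hn : 1 ≤ n) (d : ℕ) {M : SL2R} (hM : M ∈ AL n d) : M ∈ OK := by
  obtain ⟨a, b, m, e, hdet, -, h1, h2, h3, h4⟩ := hM
  intro x hx
  rw [h1, h2, h3, h4]
  have hn0 : (0 : ℝ) < n := by exact_mod_cast hn
  have hs : (0 : ℝ) < √(n : ℝ) := Real.sqrt_pos.mpr hn0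
  have hss : √(n : ℝ) * √(n : ℝ) = n := Real.mul_self_sqrt hn0.le
  have key := irr_mob (n * a) b (n * m) (n * e) (by
    have h5 : ((n * a * e - b * m : ℤ) : ℚ) = 1 := by rw [hdet]; simp
    push_cast at h5
    have h6 : ((n : ℚ) * a * (n * e) - b * (n * m)) = n := by
      linear_combination (n : ℚ) * h5
    rw [h6]
    have : 0 < (n : ℚ) := by exact_mod_cast hn
    exact this.ne') x hx
  push_cast at key
  obtain ⟨k1, k2⟩ := key
  have e1 : (n : ℝ) * m * x + n * e = √(n : ℝ) * (√(n : ℝ) * m * x + √(n : ℝ) * e) := by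
    linear_combination -((m : ℝ) * x + e) * hss
  have e2 : (n : ℝ) * a * x + b = √(n : ℝ) * (√(n : ℝ) * a * x + b / √(n : ℝ)) := by
    have : √(n : ℝ) * (b / √(n : ℝ)) = b := by field_simp
    linear_combination -((a : ℝ) * x) * hss - this
  rw [e1] at k1
  rw [e1, e2, mul_div_mul_left _ _ hs.ne'] at k2
  exact ⟨right_ne_zero_of_mul k1, k2⟩

theorem Gam_inv {q : ℕ} {M : SL2R} (hM : M ∈ Gam q) : M⁻¹ ∈ Gam q := by
  obtain ⟨a, b, c, d, hdet, hq, h1, h2, h3, h4⟩ := hM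
  refine ⟨d, -b, -c, a, by linear_combination hdet, (dvd_neg).mpr hq, ?_, ?_, ?_, ?_⟩
  · rw [inv_00, h4]
  · rw [inv_01, h2]; push_cast; ring
  · rw [inv_10, h3]; push_cast; ring
  · rw [inv_11, h1]

theorem AL_inv {n d : ℕ} {M : SL2R} (hM : M ∈ AL n d) : M⁻¹ ∈ AL n d := by
  obtain ⟨a, b, c, e, hdet, hq, h1, h2, h3, h4⟩ := hM
  refine ⟨e, -b, -c, a, by linear_combination hdet, (dvd_neg).mpr hq, ?_, ?_, ?_, ?_⟩
  · rw [inv_00, h4]
  · rw [inv_01, h2]; push_cast; ring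
  · rw [inv_10, h3]; push_cast; ring
  · rw [inv_11, h1]

theorem Gam_mul {q : ℕ} {M N : SL2R} (hM : M ∈ Gam q) (hN : N ∈ Gam q) : M * N ∈ Gam q := by
  obtain ⟨a, b, c, d, hdet, hq, h1, h2, h3, h4⟩ := hM
  obtain ⟨a', b', c', d', hdet', hq', h1', h2', h3', h4'⟩ := hN
  refine ⟨a * a' + b * c', a * b' + b * d', c * a' + d * c', c * b' + d * d', ?_, ?_, ?_, ?_, ?_,
    ?_⟩
  · linear_combination (a' * d' - b' * c') * hdet + hdet'
  · exact dvd_add (hq.mul_right _) (hq'.mul_left _)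
  · rw [mul_00, h1, h2, h1', h3']; push_cast; ring
  · rw [mul_01, h1, h2, h2', h4']; push_cast; ring
  · rw [mul_10, h3, h4, h1', h3']; push_cast; ring
  · rw [mul_11, h3, h4, h2', h4']; push_cast; ring

theorem AL_mul_AL {n d : ℕ} (hn : 1 ≤ n) {M N : SL2R} (hM : M ∈ AL n d) (hN : N ∈ AL n d) :
    M * N ∈ Gam (n * d) := by
  have hn0 : (0 : ℝ) < n := by exact_mod_cast hn
  have hs : √(n : ℝ) ≠ 0 := (Real.sqrt_pos.mpr hn0).ne'
  have hss : √(n : ℝ) * √(n : ℝ) = n := Real.mul_self_sqrt hn0.le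
  obtain ⟨a, b, c, d, hdet, hq, h1, h2, h3, h4⟩ := hM
  obtain ⟨a', b', c', d', hdet', hq', h1', h2', h3', h4'⟩ := hN
  refine ⟨n * a * a' + b * c', a * b' + b * d', n * (c * a' + d * c'), c * b' + n * d * d', ?_, ?_,
    ?_, ?_, ?_, ?_⟩
  · linear_combination (n * a' * d' - b' * c') * hdet + hdet'
  · push_cast
    exact mul_dvd_mul_left _ (dvd_add (hq.mul_right _) (hq'.mul_left _))
  · rw [mul_00, h1, h2, h1', h3']; push_cast
    have : (b : ℝ) / √(n : ℝ) * (√(n : ℝ) * c') = b * c' := by field_simp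
    linear_combination (a : ℝ) * a' * hss + this
  · rw [mul_01, h1, h2, h2', h4']; push_cast; field_simp
  · rw [mul_10, h3, h4, h1', h3']; push_cast
    linear_combination ((c : ℝ) * a' + d * c') * hss
  · rw [mul_11, h3, h4, h2', h4']; push_cast
    have : √(n : ℝ) * c * ((b' : ℝ) / √(n : ℝ)) = c * b' := by field_simp
    linear_combination (d : ℝ) * d' * hss + this

theorem Gam_mul_AL {n d : ℕ} (hn : 1 ≤ n) {M N : SL2R} (hM : M ∈ Gam (n * d))
    (hN : N ∈ AL n d) : M * N ∈ AL n d := by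
  have hn0 : (0 : ℝ) < n := by exact_mod_cast hn
  have hs : √(n : ℝ) ≠ 0 := (Real.sqrt_pos.mpr hn0).ne'
  have hss : √(n : ℝ) * √(n : ℝ) = n := Real.mul_self_sqrt hn0.le
  obtain ⟨a, b, c, e, hdet, hq, h1, h2, h3, h4⟩ := hM
  obtain ⟨a', b', c', e', hdet', hq', h1', h2', h3', h4'⟩ := hN
  obtain ⟨k, hk⟩ := hq
  push_cast at hk
  refine ⟨a * a' + b * c', a * b' + n * b * e', c * a' + e * c', e * e' + d * k * b', ?_, ?_, ?_,
    ?_, ?_, ?_⟩
  · subst hk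
    linear_combination (a * e - b * (n * d * k)) * hdet' + hdet
  · refine dvd_add ?_ (hq'.mul_left _)
    rw [hk]
    exact ((dvd_mul_left _ _).mul_right _).mul_right _
  · rw [mul_00, h1, h2, h1', h3']; push_cast; ring
  · rw [mul_01, h1, h2, h2', h4']; push_cast
    have : (a * b' + n * b * e' : ℝ) / √(n : ℝ) = a * (b' / √(n : ℝ)) + b * (n / √(n : ℝ)) * e' := by
      ring
    rw [this]
    have h5 : (n : ℝ) / √(n : ℝ) = √(n : ℝ) := by
      rw [div_eq_iff hs, hss]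
    rw [h5]
    ring
  · rw [mul_10, h3, h4, h1', h3']; push_cast; ring
  · rw [mul_11, h3, h4, h2', h4', hk]; push_cast
    have h5 : (n : ℝ) * d * k * (b' / √(n : ℝ)) = √(n : ℝ) * (d * k * b') := by
      rw [mul_div_assoc', div_eq_iff hs]
      linear_combination -(d * k * b' : ℝ) * hss
    linear_combination h5

theorem AL_mul_Gam {n d : ℕ} (hn : 1 ≤ n) {M N : SL2R} (hM : M ∈ AL n d)
    (hN : N ∈ Gam (n * d)) : M * N ∈ AL n d := by
  have := AL_inv (Gam_mul_AL hn (Gam_inv hN) (AL_inv hM))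
  rwa [mul_inv_rev, inv_inv, inv_inv] at this

theorem Gam_idx (q : ℕ) : Idx (Gam q) :=
  ⟨Gam_ctb q, fun _ hM => Gam_ok q hM, fun _ hM => Gam_inv hM⟩

theorem AL_idx {n : ℕ} (hn : 1 ≤ n) (d : ℕ) : Idx (AL n d) :=
  ⟨AL_ctb n d, fun _ hM => AL_ok hn d hM, fun _ hM => AL_inv hM⟩

theorem GmG {q : ℕ} {M : SL2R} (hM : M ∈ Gam q) (N : SL2R) : N ∈ Gam q ↔ N * M ∈ Gam q := by
  refine ⟨fun h => Gam_mul h hM, fun h => ?_⟩
  have := Gam_mul h (Gam_inv hM)
  rwa [mul_inv_cancel_right] at this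

theorem AG {n d : ℕ} (hn : 1 ≤ n) {M : SL2R} (hM : M ∈ Gam (n * d)) (N : SL2R) :
    N ∈ AL n d ↔ N * M ∈ AL n d := by
  refine ⟨fun h => AL_mul_Gam hn h hM, fun h => ?_⟩
  have := AL_mul_Gam hn h (Gam_inv hM)
  rwa [mul_inv_cancel_right] at this

theorem GA {n d : ℕ} (hn : 1 ≤ n) {M : SL2R} (hM : M ∈ AL n d) (N : SL2R) :
    N ∈ Gam (n * d) ↔ N * M ∈ AL n d := by
  refine ⟨fun h => Gam_mul_AL hn h hM, fun h => ?_⟩
  have := AL_mul_AL hn h (AL_inv hM)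
  rwa [mul_inv_cancel_right] at this

theorem AA {n d : ℕ} (hn : 1 ≤ n) {M : SL2R} (hM : M ∈ AL n d) (N : SL2R) :
    N ∈ AL n d ↔ N * M ∈ Gam (n * d) := by
  refine ⟨fun h => AL_mul_AL hn h hM, fun h => ?_⟩
  have := Gam_mul_AL hn h (AL_inv hM)
  rwa [mul_inv_cancel_right] at this

/-- Translation `x ↦ x + k`. -/
def Tr (k : ℤ) : SL2R := ⟨!![1, (k : ℝ); 0, 1], by simp [Matrix.det_fin_two]⟩

theorem Tr_mem (k : ℤ) (q : ℕ) : Tr k ∈ Gam q :=
  ⟨1, k, 0, 1, by ring, dvd_zero _, by simp [Tr], by simp [Tr], by simp [Tr], by simp [Tr]⟩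

theorem act_Tr (k : ℤ) (g : ℝ × ℝ × ℝ) : act (Tr k) g = (g.1 + k, g.2.1, g.2.2) := by
  simp [act, Tr]

theorem one_mem_Gam (q : ℕ) : (1 : SL2R) ∈ Gam q :=
  ⟨1, 0, 0, 1, by ring, dvd_zero _, by simp, by simp, by simp, by simp⟩

/-- Coprime levels: the coset is not empty. -/
theorem AL_ne {n d : ℕ} (hn : 1 ≤ n) (h : Nat.Coprime n d) : ∃ M, M ∈ AL n d := by
  have hn0 : (0 : ℝ) < n := by exact_mod_cast hn
  have hs : √(n : ℝ) ≠ 0 := (Real.sqrt_pos.mpr hn0).ne'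
  have hss : √(n : ℝ) * √(n : ℝ) = n := Real.mul_self_sqrt hn0.le
  have hb := Nat.gcd_eq_gcd_ab n d
  rw [h.gcd_eq_one] at hb
  set u := Nat.gcdA n d
  set v := Nat.gcdB n d
  have hb' : (n : ℝ) * u + d * v = 1 := by exact_mod_cast hb.symm
  refine ⟨⟨!![√(n : ℝ) * u, (-v : ℝ) / √(n : ℝ); √(n : ℝ) * d, √(n : ℝ)], ?_⟩,
    u, -v, d, 1, ?_, dvd_refl _, ?_, ?_, ?_, ?_⟩
  · rw [Matrix.det_fin_two_of]
    have : (-v : ℝ) / √(n : ℝ) * (√(n : ℝ) * d) = -v * d := by field_simp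
    linear_combination (u : ℝ) * hss - this + hb'
  · push_cast at hb
    linear_combination -hb
  · simp
  · simp
  · simp
  · simp

end Pool.Agent.LibSM56C
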