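import Pool.Agent.LibSM56C.G_3

/-! # SM56 part (C), GEO 4: multiplicities -/

set_option autoImplicit false

namespace Pool.Agent.LibSM56C

open MeasureTheory Set Filter Topology Complex
open scoped ENNReal ComplexConjugate

/-- The counting function of a set of bottom rows. -/
noncomputable def ct (V : Set (ℝ × ℝ)) (g : ℝ × ℝ × ℝ) : ℝ≥0∞ := V.indicator 1 g.2

theorem TE_ct_le {S : Set SL2R} {V : Set (ℝ × ℝ)} {g : ℝ × ℝ × ℝ} {N : ℝ≥0∞}
    (h : ∀ F : Finset SL2R, (∀ M ∈ F, M ∈ S ∧ act M g ∈ Str ∧ (act M g).2 ∈ V) →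
      (F.card : ℝ≥0∞) ≤ N) : TE S (ct V) g ≤ N := by
  classical
  unfold TE
  rw [ENNReal.tsum_eq_iSup_sum]
  refine iSup_le fun F => ?_
  have h1 : ∑ M ∈ F, Str.indicator (ct V) (act M.1 g) =
      ((F.filter (fun M => act M.1 g ∈ Str ∧ (act M.1 g).2 ∈ V)).card : ℝ≥0∞) := by
    rw [Finset.card_filter]
    push_cast
    refine Finset.sum_congr rfl fun M _ => ?_
    by_cases h1 : act M.1 g ∈ Str
    · rw [indicator_of_mem h1]
      unfold ct
      by_cases h2 : (act M.1 g).2 ∈ V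
      · rw [indicator_of_mem h2, if_pos ⟨h1, h2⟩]
        rfl
      · rw [indicator_of_notMem h2, if_neg (fun h => h2 h.2)]
    · rw [indicator_of_notMem h1, if_neg (fun h => h1 h.1)]
  rw [h1]
  have h2 := h ((F.filter (fun M => act M.1 g ∈ Str ∧ (act M.1 g).2 ∈ V)).map
    ⟨Subtype.val, Subtype.val_injective⟩) (by
      intro M hM
      rw [Finset.mem_map] at hM
      obtain ⟨M', hM', rfl⟩ := hM
      rw [Finset.mem_filter] at hM'
      exact ⟨M'.2, hM'.2⟩)
  rwa [Finset.card_map] at h2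

/-- A matrix is determined by its bottom row and the strip. -/
theorem row_inj {q : ℕ} {M N : SL2R} (hM : M ∈ OK) (hMN : N * M⁻¹ ∈ Gam q) {g : ℝ × ℝ × ℝ}
    (hg : g ∈ Gd) (h1 : M.1 1 0 = N.1 1 0) (h2 : M.1 1 1 = N.1 1 1) (hs : act M g ∈ Str)
    (hs' : act N g ∈ Str) : N = M := by
  obtain ⟨a, b, c, d, -, -, e1, e2, e3, e4⟩ := hMN
  have dM := det_eq M
  have dN := det_eq N
  have k1 : (N * M⁻¹).1 0 0 = 1 := by
    rw [mul_00, inv_00, inv_10, h1, h2]
    linear_combination dN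
  have k3 : (N * M⁻¹).1 1 0 = 0 := by
    rw [mul_10, inv_00, inv_10, h1, h2]
    ring
  have k4 : (N * M⁻¹).1 1 1 = 1 := by
    rw [mul_11, inv_01, inv_11, ← h1, ← h2]
    linear_combination dM
  have k5 : N * M⁻¹ = Tr b := by
    apply ent_inj
    simp only [k1, k3, k4, e2]
    simp [Tr]
  have k6 : N = Tr b * M := by
    rw [← k5, inv_mul_cancel_right]
  have k7 : act N g = ((act M g).1 + b, (act M g).2.1, (act M g).2.2) := by
    rw [k6, act_mul _ hM hg, act_Tr]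
  rw [k7] at hs'
  have hb : b = 0 := by
    have l1 : 0 ≤ (act M g).1 := hs.1
    have l2 : (act M g).1 < 1 := hs.2
    have l3 : 0 ≤ (act M g).1 + b := hs'.1
    have l4 : (act M g).1 + b < 1 := hs'.2
    have l5 : (-1 : ℝ) < b := by linarith
    have l6 : (b : ℝ) < 1 := by linarith
    have l5' : -1 < b := by exact_mod_cast l5
    have l6' : b < 1 := by exact_mod_cast l6
    omega
  rw [k6, hb]
  have : Tr 0 = 1 := by
    apply ent_inj
    simp [Tr]
  rw [this, one_mul]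

/-- The lattice of bottom rows. -/
structure Lat (S : Set SL2R) (s : ℝ) (q : ℕ) : Prop where
  one_le : 1 ≤ s
  row : ∀ M ∈ S, ∃ c d : ℤ, M.1 1 0 = s * c ∧ M.1 1 1 = s * d
  ok : ∀ M ∈ S, M ∈ OK
  quo : ∀ M ∈ S, ∀ N ∈ S, N * M⁻¹ ∈ Gam q

theorem Gam_lat (q : ℕ) : Lat (Gam q) 1 q := by
  refine ⟨le_refl _, ?_, fun M hM => Gam_ok q hM, fun M hM N hN => Gam_mul hN (Gam_inv hM)⟩
  rintro M ⟨a, b, c, d, -, -, h1, h2, h3, h4⟩
  exact ⟨c, d, by rw [h3, one_mul], by rw [h4, one_mul]⟩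

theorem AL_lat {n : ℕ} (hn : 1 ≤ n) (d : ℕ) : Lat (AL n d) (√(n : ℝ)) (n * d) := by
  refine ⟨?_, ?_, fun M hM => AL_ok hn d hM, fun M hM N hN => AL_mul_AL hn hN (AL_inv hM)⟩
  · rw [Real.one_le_sqrt]
    exact_mod_cast hn
  · rintro M ⟨a, b, c, e, -, -, h1, h2, h3, h4⟩
    exact ⟨c, e, h3, h4⟩

/-- The square. -/
def SQ (C : ℝ) : Set (ℝ × ℝ) := {v | |v.1| ≤ C ∧ |v.2| ≤ C}

theorem fin_rows {S : Set SL2R} {s : ℝ} {q : ℕ} (hS : Lat S s q) {C A : ℝ} (hC : 0 ≤ C)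
    (hA : 0 ≤ A) {g : ℝ × ℝ × ℝ} (hg : g ∈ Gd) (h1 : |g.1| ≤ A) (h2 : |g.2.1| ≤ A)
    (h3 : |g.2.2| ≤ A) (h4 : 1 / |g.2.1| ≤ A) :
    TE S (ct (SQ C)) g ≤ (((2 * ⌈(C * A + (C * A ^ 2 + C) * A ^ 2) + (C * A ^ 2 + C) * A⌉₊ + 1) ^ 2 : ℕ) : ℝ≥0∞) := by
  classical
  set D : ℝ := (C * A + (C * A ^ 2 + C) * A ^ 2) + (C * A ^ 2 + C) * A with hD
  have key : ∀ M ∈ S, (act M g).2 ∈ SQ C → |M.1 1 0| ≤ D ∧ |M.1 1 1| ≤ D := by
    intro M hM hv
    have hv0 : g.2.1 ≠ 0 := hg.2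
    have hv0' : 0 < |g.2.1| := abs_pos.mpr hv0
    obtain ⟨w1, w2⟩ := hv
    have w1' : |(M.1 1 0 * g.1 + M.1 1 1) * g.2.1| ≤ C := w1
    have w2' : |(M.1 1 0 * g.1 + M.1 1 1) * g.2.2 - M.1 1 0 / g.2.1| ≤ C := w2
    set j := M.1 1 0 * g.1 + M.1 1 1 with hj
    have hj1 : |j| ≤ C * A := by
      have : |j| = |j * g.2.1| * (1 / |g.2.1|) := by
        rw [abs_mul]
        field_simp
      rw [this]
      exact mul_le_mul w1' h4 (by positivity) hC
    have hc1 : |M.1 1 0 / g.2.1| ≤ C * A ^ 2 + C := by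
      have e : M.1 1 0 / g.2.1 = j * g.2.2 - (j * g.2.2 - M.1 1 0 / g.2.1) := by ring
      rw [e]
      refine (abs_sub _ _).trans ?_
      have : |j * g.2.2| ≤ C * A ^ 2 := by
        rw [abs_mul, sq, ← mul_assoc]
        exact mul_le_mul hj1 h3 (abs_nonneg _) (by positivity)
      linarith
    have hc2 : |M.1 1 0| ≤ (C * A ^ 2 + C) * A := by
      have e : |M.1 1 0| = |M.1 1 0 / g.2.1| * |g.2.1| := by
        rw [abs_div]
        field_simp
      rw [e]
      exact mul_le_mul hc1 h2 (abs_nonneg _) (by positivity)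
    have hd : |M.1 1 1| ≤ C * A + (C * A ^ 2 + C) * A ^ 2 := by
      have e : M.1 1 1 = j - M.1 1 0 * g.1 := by rw [hj]; ring
      rw [e]
      refine (abs_sub _ _).trans ?_
      have : |M.1 1 0 * g.1| ≤ (C * A ^ 2 + C) * A ^ 2 := by
        have e3 : (C * A ^ 2 + C) * A ^ 2 = (C * A ^ 2 + C) * A * A := by ring
        rw [abs_mul, e3]
        exact mul_le_mul hc2 h1 (abs_nonneg _) (by positivity)
      linarith
    constructor
    · refine hc2.trans ?_
      rw [hD]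
      have : 0 ≤ C * A + (C * A ^ 2 + C) * A ^ 2 := by positivity
      linarith
    · refine hd.trans ?_
      rw [hD]
      have : 0 ≤ (C * A ^ 2 + C) * A := by positivity
      linarith
  refine TE_ct_le fun F hF => ?_
  have hs0 : 0 < s := lt_of_lt_of_le one_pos hS.one_le
  set f : SL2R → ℤ × ℤ := fun M => (round (M.1 1 0 / s), round (M.1 1 1 / s)) with hf
  have hrow : ∀ M ∈ S, M.1 1 0 = s * (f M).1 ∧ M.1 1 1 = s * (f M).2 := by
    intro M hM
    obtain ⟨c, d, e1, e2⟩ := hS.row M hM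
    rw [hf]
    simp only
    rw [e1, e2, mul_div_cancel_left₀ _ hs0.ne', mul_div_cancel_left₀ _ hs0.ne', round_intCast,
      round_intCast]
    exact ⟨rfl, rfl⟩
  have hbd : ∀ c : ℤ, |s * (c : ℝ)| ≤ D → c ∈ Finset.Icc (-(⌈D⌉₊ : ℤ)) (⌈D⌉₊ : ℤ) := by
    intro c hc
    have h5 : |(c : ℝ)| ≤ ⌈D⌉₊ := by
      refine le_trans ?_ (hc.trans (Nat.le_ceil D))
      rw [abs_mul, abs_of_pos hs0]
      nlinarith [abs_nonneg (c : ℝ), hS.one_le]
    rw [abs_le] at h5
    rw [Finset.mem_Icc]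
    constructor
    · exact_mod_cast h5.1
    · exact_mod_cast h5.2
  have hcard := Finset.card_le_card_of_injOn (s := F)
    (t := (Finset.Icc (-(⌈D⌉₊ : ℤ)) (⌈D⌉₊ : ℤ)) ×ˢ (Finset.Icc (-(⌈D⌉₊ : ℤ)) (⌈D⌉₊ : ℤ))) f
    (by
      intro M hM
      have hM' : M ∈ F := hM
      obtain ⟨k1, k2, k3⟩ := hF M hM'
      obtain ⟨l1, l2⟩ := key M k1 k3
      obtain ⟨r1, r2⟩ := hrow M k1
      rw [Finset.coe_product]
      refine ⟨?_, ?_⟩
      · exact Finset.mem_coe.mpr (hbd _ (by rw [← r1]; exact l1))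
      · exact Finset.mem_coe.mpr (hbd _ (by rw [← r2]; exact l2)))
    (by
      intro M hM N hN hMN
      obtain ⟨k1, k2, k3⟩ := hF M hM
      obtain ⟨k1', k2', k3'⟩ := hF N hN
      obtain ⟨r1, r2⟩ := hrow M k1
      obtain ⟨r1', r2'⟩ := hrow N k1'
      exact (row_inj (hS.ok M k1) (hS.quo M k1 N k1') hg (by rw [r1, r1', hMN])
        (by rw [r2, r2', hMN]) k2 k2').symm)
  refine (Nat.cast_le.mpr hcard).trans (le_of_eq ?_)
  congr 1
  rw [Finset.card_product, Int.card_Icc]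
  have : ((⌈D⌉₊ : ℤ) + 1 - -(⌈D⌉₊ : ℤ)).toNat = 2 * ⌈D⌉₊ + 1 := by omega
  rw [this, sq]

/-- The multiplicity of the box. -/
theorem mult_U {q : ℕ} (hq : 1 ≤ q) {ρ : ℝ} (hρ : 0 < ρ) {g : ℝ × ℝ × ℝ} (hg : g ∈ Gd) :
    TE (Gam q) (ct (UU ρ)) g ≤ ENNReal.ofReal (1 + 8 * ρ / q) := by
  classical
  have hq0 : (0 : ℝ) < q := by exact_mod_cast hq
  refine TE_ct_le fun F hF => ?_
  set sl : SL2R → ℝ := fun M => (act M g).2.1 / (act M g).2.2 with hsl
  have he : Real.exp 2 ≤ 8 := by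
    have h1 := Real.exp_one_lt_d9
    have h2 : Real.exp 2 = Real.exp 1 * Real.exp 1 := by
      rw [← Real.exp_add]; norm_num
    rw [h2]
    have h3 := Real.exp_pos 1
    nlinarith
  have hpos : ∀ M ∈ F, 0 < sl M ∧ sl M ≤ 8 * ρ ∧ 0 < (act M g).2.2 ∧ (act M g).2.2 ≤ 1 := by
    intro M hM
    obtain ⟨k1, k2, k3⟩ := hF M hM
    obtain ⟨u1, u2, u3, u4⟩ := k3
    have v2 : 0 < (act M g).2.2 := lt_of_lt_of_le (Real.exp_pos _) u1
    refine ⟨div_pos u3 v2, ?_, v2, u2⟩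
    rw [hsl]
    simp only
    rw [div_le_iff₀ v2]
    have h5 : (act M g).2.1 * (act M g).2.2 * Real.exp 2 ≤ ρ * Real.exp 2 :=
      mul_le_mul_of_nonneg_right u4 (Real.exp_pos _).le
    have h6 : 1 ≤ (act M g).2.2 * (act M g).2.2 * Real.exp 2 := by
      have : Real.exp 2 = (Real.exp (-1))⁻¹ * (Real.exp (-1))⁻¹ := by
        rw [← Real.exp_neg, ← Real.exp_add]; norm_num
      have h7 : 1 ≤ (act M g).2.2 * (Real.exp (-1))⁻¹ := by
        rw [← div_eq_mul_inv, one_le_div (Real.exp_pos _)]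
        exact u1
      rw [this]
      nlinarith
    have h8 : (act M g).2.1 ≤ (act M g).2.1 * ((act M g).2.2 * (act M g).2.2 * Real.exp 2) := by
      nlinarith
    have h9 : ρ * Real.exp 2 ≤ ρ * 8 := mul_le_mul_of_nonneg_left he hρ.le
    have h10 : (act M g).2.2 * ((act M g).2.1 * (act M g).2.2 * Real.exp 2) ≤
        (act M g).2.2 * (ρ * 8) := mul_le_mul_of_nonneg_left (h5.trans h9) v2.le
    nlinarith
  have hsep : ∀ M ∈ F, ∀ N ∈ F, M ≠ N → (q : ℝ) ≤ |sl M - sl N| := by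
    intro M hM N hN hne
    obtain ⟨k1, k2, k3⟩ := hF M hM
    obtain ⟨k1', k2', k3'⟩ := hF N hN
    obtain ⟨-, -, p3, p4⟩ := hpos M hM
    obtain ⟨-, -, p3', p4'⟩ := hpos N hN
    obtain ⟨a, b, c, d, k1d, ⟨t, ht⟩, h1, h2, h3, h4⟩ := id k1
    obtain ⟨a', b', c', d', k1d', ⟨t', ht'⟩, h1', h2', h3', h4'⟩ := id k1'
    have hv0 : g.2.1 ≠ 0 := hg.2
    have hdet : (act M g).2.1 * (act N g).2.2 - (act N g).2.1 * (act M g).2.2
        = ((d' * c - d * c' : ℤ) : ℝ) * 1 := by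
      simp only [act, h3, h4, h3', h4']
      push_cast
      field_simp
      ring
    have hdet2 : (d' * c - d * c' : ℤ) = q * (d' * t - d * t') := by
      rw [ht, ht']; ring
    have hne0 : (d' * c - d * c' : ℤ) ≠ 0 := by
      intro h0
      apply hne
      set u : ℤ := a * d' - b * c' with hu
      have ec : c' = u * c := by
        rw [hu]
        linear_combination (-c') * k1d - a * h0
      have ed : d' = u * d := by
        rw [hu]
        linear_combination (-d') * k1d - b * h0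
      have hu1 : u * (a' * d - b' * c) = 1 := by
        rw [← k1d']
        linear_combination (-a') * ed + b' * ec
      have hv2 : (act N g).2.2 = u * (act M g).2.2 := by
        simp only [act, h3, h4, h3', h4']
        rw [ec, ed]
        push_cast
        ring
      have hupos : 0 < u := by
        have : (0 : ℝ) < u := by
          rw [hv2] at p3'
          exact (pos_iff_pos_of_mul_pos p3').mpr p3
        exact_mod_cast this
      have hu2 : u = 1 := by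
        have : u ∣ 1 := ⟨_, hu1.symm⟩
        exact Int.eq_one_of_dvd_one hupos.le this
      rw [hu2, one_mul] at ec ed
      exact (row_inj (q := q) (Gam_ok q k1) (Gam_mul k1' (Gam_inv k1)) hg
        (by rw [h3, h3', ec]) (by rw [h4, h4', ed]) k2 k2').symm
    have hk : (d' * t - d * t' : ℤ) ≠ 0 := by
      intro h0
      apply hne0
      rw [hdet2, h0, mul_zero]
    have hk1 : (1 : ℝ) ≤ |((d' * t - d * t' : ℤ) : ℝ)| := by
      have := Int.one_le_abs hk
      exact_mod_cast this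
    have e : sl M - sl N = ((act M g).2.1 * (act N g).2.2 - (act N g).2.1 * (act M g).2.2) /
        ((act M g).2.2 * (act N g).2.2) := by
      rw [hsl]
      simp only
      field_simp
    rw [e, hdet, hdet2, mul_one, abs_div, abs_of_pos (mul_pos p3 p3'),
      le_div_iff₀ (mul_pos p3 p3')]
    push_cast
    rw [abs_mul, abs_of_pos hq0]
    push_cast at hk1
    have h6 : (act M g).2.2 * (act N g).2.2 ≤ 1 := by nlinarith
    exact mul_le_mul_of_nonneg_left (h6.trans hk1) hq0.le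
  set f : SL2R → ℤ := fun M => ⌊sl M / q⌋ with hf
  have hcard := Finset.card_le_card_of_injOn (s := F)
    (t := Finset.Icc (0 : ℤ) ⌊8 * ρ / q⌋) f
    (by
      intro M hM
      have hM' : M ∈ F := hM
      obtain ⟨l1, l2, -, -⟩ := hpos M hM'
      rw [Finset.mem_coe, Finset.mem_Icc]
      exact ⟨Int.floor_nonneg.mpr (div_nonneg l1.le hq0.le),
        Int.floor_le_floor (div_le_div_of_nonneg_right l2 hq0.le)⟩)
    (by
      intro M hM N hN hMN
      by_contra hne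
      have h5 := hsep M hM N hN hne
      have h6 : |sl M / q - sl N / q| < 1 := Int.abs_sub_lt_one_of_floor_eq_floor hMN
      rw [← sub_div, abs_div, abs_of_pos hq0, div_lt_one hq0] at h6
      linarith)
  rw [Int.card_Icc] at hcard
  have hfl : 0 ≤ ⌊8 * ρ / q⌋ := Int.floor_nonneg.mpr (by positivity)
  have h7 : (F.card : ℝ) ≤ 1 + 8 * ρ / q := by
    have h8 : (F.card : ℤ) ≤ ⌊8 * ρ / q⌋ + 1 := by omega
    have h9 : (F.card : ℝ) ≤ ⌊8 * ρ / q⌋ + 1 := by exact_mod_cast h8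
    have h10 := Int.floor_le (8 * ρ / q)
    linarith
  rw [← ENNReal.ofReal_natCast]
  exact ENNReal.ofReal_le_ofReal h7

end Pool.Agent.LibSM56C
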