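import Pool.Agent.LibSM56C.G_4

/-! # SM56 part (C), GEO 5: the geometric inequality -/

set_option autoImplicit false

namespace Pool.Agent.LibSM56C

open MeasureTheory Set Filter Topology Complex
open scoped ENNReal ComplexConjugate

theorem meas_KK (R θ : ℝ) : MeasurableSet (KK R θ) := by
  unfold KK
  exact (measurableSet_le measurable_const measurable_fst).inter
    ((measurableSet_le measurable_fst measurable_const).inter
      (measurableSet_le (f := fun v : ℝ × ℝ => |v.2|) (g := fun v => θ * v.1)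
        (by fun_prop) (by fun_prop)))

theorem meas_UU (ρ : ℝ) : MeasurableSet (UU ρ) := by
  unfold UU
  exact (measurableSet_le measurable_const measurable_snd).inter
    ((measurableSet_le measurable_snd measurable_const).inter
      ((measurableSet_lt measurable_const measurable_fst).inter
        (measurableSet_le (f := fun v : ℝ × ℝ => v.1 * v.2) (g := fun _ => ρ)
          (by fun_prop) (by fun_prop))))

theorem meas_SQ (C : ℝ) : MeasurableSet (SQ C) := by
  unfold SQ
  exact (measurableSet_le (f := fun v : ℝ × ℝ => |v.1|) (g := fun _ => C)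
      (by fun_prop) (by fun_prop)).inter
    (measurableSet_le (f := fun v : ℝ × ℝ => |v.2|) (g := fun _ => C)
      (by fun_prop) (by fun_prop))

theorem meas_ct {V : Set (ℝ × ℝ)} (hV : MeasurableSet V) : Measurable (ct V) :=
  (measurable_one.indicator hV).comp measurable_snd

theorem meas_tw {ψ : ℝ × ℝ → ℂ} (hψ : Measurable ψ) : Measurable (tw ψ) := by
  unfold tw
  exact (by fun_prop : Measurable fun g : ℝ × ℝ × ℝ => cexp (2 * Real.pi * I * g.1)).mul
    (hψ.comp measurable_snd)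

theorem meas_TE {S : Set SL2R} (hS : S.Countable) {f : ℝ × ℝ × ℝ → ℝ≥0∞} (hf : Measurable f) :
    Measurable (TE S f) := by
  have : Countable S := hS.to_subtype
  unfold TE
  exact Measurable.tsum fun M => (hf.indicator meas_Str).comp (measurable_act M.1)

theorem TE_fin {S : Set SL2R} {s : ℝ} {q : ℕ} (hS : Lat S s q) {C : ℝ} (hC : 0 ≤ C)
    {g : ℝ × ℝ × ℝ} (hg : g ∈ Gd) : TE S (ct (SQ C)) g < ∞ := by
  set A : ℝ := |g.1| + |g.2.1| + |g.2.2| + 1 / |g.2.1| with hA
  have h1 := abs_nonneg g.1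
  have h2 := abs_nonneg g.2.1
  have h3 := abs_nonneg g.2.2
  have h4 : 0 ≤ 1 / |g.2.1| := by positivity
  refine lt_of_le_of_lt (fin_rows hS hC (A := A) (by positivity) hg (by linarith) (by linarith)
    (by linarith) (by linarith)) (ENNReal.natCast_lt_top _)

theorem TE_mono {S : Set SL2R} {f h : ℝ × ℝ × ℝ → ℝ≥0∞} (hfh : ∀ g, f g ≤ h g)
    (g : ℝ × ℝ × ℝ) : TE S f g ≤ TE S h g := by
  unfold TE
  refine ENNReal.tsum_le_tsum fun M => ?_
  exact indicator_le_indicator (hfh _)

theorem TE_const {S : Set SL2R} {f : ℝ × ℝ × ℝ → ℝ≥0∞} (b : ℝ≥0∞)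
    (g : ℝ × ℝ × ℝ) : TE S (fun g => b * f g) g = b * TE S f g := by
  unfold TE
  rw [← ENNReal.tsum_mul_left]
  refine tsum_congr fun M => ?_
  by_cases h : act M.1 g ∈ Str
  · rw [indicator_of_mem h, indicator_of_mem h]
  · rw [indicator_of_notMem h, indicator_of_notMem h, mul_zero]

theorem TT_enorm_le {S : Set SL2R} (φ : ℝ × ℝ × ℝ → ℂ) (g : ℝ × ℝ × ℝ) :
    ‖TT S φ g‖ₑ ≤ TE S (fun g => ‖φ g‖ₑ) g := by
  unfold TT TE
  refine enorm_tsum_le_tsum_enorm.trans (le_of_eq ?_)
  exact tsum_congr fun M => ind_enorm φ _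

theorem meas_TT {S : Set SL2R} (hS : S.Countable) {f : ℝ × ℝ × ℝ → ℂ} (hf : Measurable f) :
    Measurable (TT S f) := by
  have : Countable S := hS.to_subtype
  unfold TT
  exact Measurable.tsum fun M => (hf.indicator meas_Str).comp (measurable_act M.1)

theorem one_le_TE {S : Set SL2R} {V : Set (ℝ × ℝ)} {g : ℝ × ℝ × ℝ} {M : SL2R} (hM : M ∈ S)
    (h1 : act M g ∈ Str) (h2 : (act M g).2 ∈ V) : 1 ≤ TE S (ct V) g := by
  unfold TE
  refine le_trans (le_of_eq ?_) (ENNReal.le_tsum (⟨M, hM⟩ : S))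
  rw [indicator_of_mem h1]
  unfold ct
  rw [indicator_of_mem h2]
  rfl

theorem ex_strip {n d : ℕ} (hn : 1 ≤ n) {M : SL2R} (hM : M ∈ AL n d) {g : ℝ × ℝ × ℝ}
    (hg : g ∈ Gd) : ∃ N ∈ AL n d, act N g ∈ Str ∧ (act N g).2 = (act M g).2 := by
  refine ⟨Tr (-⌊(act M g).1⌋) * M, Gam_mul_AL hn (Tr_mem _ _) hM, ?_, ?_⟩
  · rw [act_mul _ (AL_ok hn d hM) hg, act_Tr]
    constructor
    · push_cast
      have := Int.floor_le (act M g).1
      show 0 ≤ (act M g).1 + -(⌊(act M g).1⌋ : ℝ)
      linarith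
    · push_cast
      have := Int.lt_floor_add_one (act M g).1
      show (act M g).1 + -(⌊(act M g).1⌋ : ℝ) < 1
      linarith
  · rw [act_mul _ (AL_ok hn d hM) hg, act_Tr]

end Pool.Agent.LibSM56C
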