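import Pool.Agent.LibSM56C.G_5

/-! # SM56 part (C), GEO 6: assembly -/

set_option autoImplicit false

namespace Pool.Agent.LibSM56C

open MeasureTheory Set Filter Topology Complex
open scoped ENNReal ComplexConjugate

/-- First half: from the box to the weight. -/
theorem half1 {n d : ℕ} (hn : 1 ≤ n) (hd : 1 ≤ d) {ρ C0 : ℝ} (hρ : 0 < ρ) (hC0 : 0 ≤ C0)
    (hU : UU ρ ⊆ SQ C0) (F : ℝ × ℝ × ℝ → ℂ) (hF : Measurable F)
    (hinv : ∀ M ∈ Gam (n * d), ∀ g ∈ Gd, F (act M g) = F g) :
    ∫⁻ g in Str ∩ {g | g.2 ∈ UU ρ}, ‖F g‖ₑ ^ 2 ≤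
      ENNReal.ofReal (1 + 8 * ρ / (n * d)) *
        ∫⁻ g in Str, ‖F g‖ₑ ^ 2 / TE (Gam (n * d)) (ct (SQ C0)) g * ct (SQ C0) g := by
  have hq : 1 ≤ n * d := Nat.mul_pos hn hd
  set ν := TE (Gam (n * d)) (ct (SQ C0)) with hν
  have hνm : Measurable ν := meas_TE (Gam_ctb _) (meas_ct (meas_SQ _))
  have hAm : Measurable (fun g => ct (UU ρ) g * (‖F g‖ₑ ^ 2 / ν g)) :=
    (meas_ct (meas_UU ρ)).mul ((hF.enorm.pow_const 2).div hνm)
  have hUm : MeasurableSet {g : ℝ × ℝ × ℝ | g.2 ∈ UU ρ} := measurable_snd (meas_UU ρ)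
  calc ∫⁻ g in Str ∩ {g | g.2 ∈ UU ρ}, ‖F g‖ₑ ^ 2
      = ∫⁻ g in Str, ct (UU ρ) g * (‖F g‖ₑ ^ 2 / ν g) * ν g := by
        rw [← lintegral_indicator (meas_Str.inter hUm), ← lintegral_indicator meas_Str]
        refine lintegral_congr_ae ?_
        filter_upwards [ae_Gd] with g hg
        by_cases h1 : g ∈ Str
        · by_cases h2 : g.2 ∈ UU ρ
          · rw [indicator_of_mem (show g ∈ Str ∩ {g | g.2 ∈ UU ρ} from ⟨h1, h2⟩),
              indicator_of_mem h1]
            have e1 : ct (UU ρ) g = 1 := by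
              unfold ct
              rw [indicator_of_mem h2]; rfl
            have k1 : 1 ≤ ν g := one_le_TE (one_mem_Gam _) (by rw [act_one]; exact h1)
              (by rw [act_one]; exact hU h2)
            have k2 : ν g < ∞ := TE_fin (Gam_lat _) hC0 hg
            rw [e1, one_mul, ENNReal.div_mul_cancel (by positivity) k2.ne]
          · rw [indicator_of_notMem (show g ∉ Str ∩ {g | g.2 ∈ UU ρ} from fun h => h2 h.2),
              indicator_of_mem h1]
            have e1 : ct (UU ρ) g = 0 := by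
              unfold ct
              rw [indicator_of_notMem h2]
            rw [e1, zero_mul, zero_mul]
        · rw [indicator_of_notMem (show g ∉ Str ∩ {g | g.2 ∈ UU ρ} from fun h => h1 h.1),
            indicator_of_notMem h1]
    _ = ∫⁻ g in Str, TE (Gam (n * d)) (fun g => ct (UU ρ) g * (‖F g‖ₑ ^ 2 / ν g)) g *
          ct (SQ C0) g :=
        unfE (Gam_idx _) _ _ hAm.aemeasurable (meas_ct (meas_SQ _)).aemeasurable
    _ ≤ ∫⁻ g in Str, ENNReal.ofReal (1 + 8 * ρ / (n * d)) *
          (‖F g‖ₑ ^ 2 / ν g * ct (SQ C0) g) := by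
        refine lintegral_mono_ae (ae_restrict_of_ae ?_)
        filter_upwards [ae_Gd] with g hg
        have e : TE (Gam (n * d)) (fun g => ct (UU ρ) g * (‖F g‖ₑ ^ 2 / ν g)) g =
            TE (Gam (n * d)) (ct (UU ρ)) g * (‖F g‖ₑ ^ 2 / ν g) := by
          unfold TE
          rw [← ENNReal.tsum_mul_right]
          refine tsum_congr fun M => ?_
          by_cases h : act M.1 g ∈ Str
          · rw [indicator_of_mem h, indicator_of_mem h, hinv M.1 M.2 g hg, hν,
              TE_act (Gam_ok _ M.2) (GmG M.2) _ hg]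
          · rw [indicator_of_notMem h, indicator_of_notMem h, zero_mul]
        rw [e, mul_assoc]
        refine mul_le_mul_left ?_ _
        have := mult_U hq hρ hg
        push_cast at this
        exact this
    _ = _ := by
        rw [lintegral_const_mul]
        exact ((hF.enorm.pow_const 2).div hνm).mul (meas_ct (meas_SQ _))

end Pool.Agent.LibSM56C
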