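import Pool.Agent.LibSM56C.G_6

/-! # SM56 part (C), GEO 7: second half and the final inequality -/

set_option autoImplicit false

namespace Pool.Agent.LibSM56C

open MeasureTheory Set Filter Topology Complex
open scoped ENNReal ComplexConjugate

theorem TT_AL_act {n d : ℕ} (hn : 1 ≤ n) {M : SL2R} (hM : M ∈ AL n d) (φ : ℝ × ℝ × ℝ → ℂ)
    {g : ℝ × ℝ × ℝ} (hg : g ∈ Gd) : TT (AL n d) φ (act M g) = TT (Gam (n * d)) φ g :=
  TT_act (AL_ok hn d hM) (AA hn hM) φ hg

theorem TE_Gam_act {n d : ℕ} (hn : 1 ≤ n) {M : SL2R} (hM : M ∈ AL n d) (f : ℝ × ℝ × ℝ → ℝ≥0∞)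
    {g : ℝ × ℝ × ℝ} (hg : g ∈ Gd) : TE (Gam (n * d)) f (act M g) = TE (AL n d) f g :=
  TE_act (AL_ok hn d hM) (GA hn hM) f hg

/-- The finiteness of the diagonal form. -/
theorem fin_form {q : ℕ} {R θ B C0 : ℝ} (hR : 0 < R) (hθ : 0 < θ)
    (hC0 : 0 ≤ C0) (hK : KK R θ ⊆ SQ C0) (φ : ℝ × ℝ × ℝ → ℂ)
    (hb : ∀ g, ‖φ g‖ₑ ≤ ENNReal.ofReal B * ct (KK R θ) g) :
    ∫⁻ g in Str, TE (Gam q) (fun g => ‖φ g‖ₑ) g * ‖φ g‖ₑ < ∞ := by
  set A : ℝ := 1 + 8 * R + θ * (8 * R) + 1 / R with hA
  have hA0 : 0 ≤ A := by positivity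
  set N : ℝ≥0∞ := (((2 * ⌈(C0 * A + (C0 * A ^ 2 + C0) * A ^ 2) + (C0 * A ^ 2 + C0) * A⌉₊ + 1) ^ 2 :
    ℕ) : ℝ≥0∞) with hN
  set b := ENNReal.ofReal B with hb'
  have hUm : MeasurableSet {g : ℝ × ℝ × ℝ | g.2 ∈ KK R θ} := measurable_snd (meas_KK R θ)
  have h1 : ∀ᵐ g : ℝ × ℝ × ℝ, g ∈ Str → TE (Gam q) (fun g => ‖φ g‖ₑ) g * ‖φ g‖ₑ ≤
      (b * N * b) * {g : ℝ × ℝ × ℝ | g.2 ∈ KK R θ}.indicator 1 g := by
    filter_upwards [ae_Gd] with g hg hs
    by_cases h2 : g.2 ∈ KK R θ
    · rw [indicator_of_mem (show g ∈ {g : ℝ × ℝ × ℝ | g.2 ∈ KK R θ} from h2)]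
      obtain ⟨k1, k2, k3⟩ := h2
      have hv : 0 < g.2.1 := hR.trans_le k1
      have hfr := fin_rows (Gam_lat q) hC0 hA0 hg
        (by
          have h3 : 0 ≤ g.1 := hs.1
          have h4 : g.1 < 1 := hs.2
          rw [abs_of_nonneg h3, hA]
          have : 0 ≤ 8 * R + θ * (8 * R) + 1 / R := by positivity
          linarith)
        (by
          rw [abs_of_pos hv, hA]
          have : 0 ≤ 1 + θ * (8 * R) + 1 / R := by positivity
          linarith)
        (by
          refine k3.trans ?_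
          have h5 : θ * g.2.1 ≤ θ * (8 * R) := mul_le_mul_of_nonneg_left k2 hθ.le
          have : 0 ≤ 1 + 8 * R + 1 / R := by positivity
          rw [hA]
          linarith)
        (by
          rw [abs_of_pos hv, hA]
          have h5 : 1 / g.2.1 ≤ 1 / R := one_div_le_one_div_of_le hR k1
          have : 0 ≤ 1 + 8 * R + θ * (8 * R) := by positivity
          linarith)
      have hmono : TE (Gam q) (fun g => ‖φ g‖ₑ) g ≤ b * N := by
        refine (TE_mono (h := fun g => b * ct (SQ C0) g) (fun g => (hb g).trans ?_) g).trans ?_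
        · refine mul_le_mul_right ?_ _
          unfold ct
          exact indicator_le_indicator_of_subset hK (fun _ => zero_le) _
        · rw [TE_const]
          exact mul_le_mul_right hfr _
      have hle : ‖φ g‖ₑ ≤ b := by
        refine (hb g).trans ?_
        have : ct (KK R θ) g ≤ 1 := indicator_le_self' (by simp) _
        calc b * ct (KK R θ) g ≤ b * 1 := mul_le_mul_right this _
          _ = b := mul_one _
      calc _ ≤ b * N * b := mul_le_mul' hmono hle
        _ = _ := by simp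
    · have h3 : ‖φ g‖ₑ = 0 := by
        have := hb g
        unfold ct at this
        rw [indicator_of_notMem h2, mul_zero] at this
        exact le_antisymm this zero_le
      rw [h3, mul_zero]
      exact zero_le
  have hbN : b * N * b < ∞ :=
    ENNReal.mul_lt_top (ENNReal.mul_lt_top ENNReal.ofReal_lt_top (ENNReal.natCast_lt_top _))
      ENNReal.ofReal_lt_top
  calc _ ≤ ∫⁻ g in Str, (b * N * b) * {g : ℝ × ℝ × ℝ | g.2 ∈ KK R θ}.indicator 1 g :=
        lintegral_mono_ae ((ae_restrict_iff' meas_Str).mpr h1)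
    _ = (b * N * b) * volume (Str ∩ {g : ℝ × ℝ × ℝ | g.2 ∈ KK R θ}) := by
        rw [lintegral_const_mul _ (measurable_one.indicator hUm), lintegral_indicator_one hUm,
          Measure.restrict_apply hUm, inter_comm]
    _ < ∞ := by
        refine ENNReal.mul_lt_top hbN ?_
        have hsub : Str ∩ {g : ℝ × ℝ × ℝ | g.2 ∈ KK R θ} ⊆
            Icc ((0 : ℝ), (-C0 : ℝ), (-C0 : ℝ)) ((1 : ℝ), (C0 : ℝ), (C0 : ℝ)) := by
          rintro g ⟨hs, hk⟩
          obtain ⟨l1, l2⟩ := hK hk
          rw [abs_le] at l1 l2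
          exact ⟨⟨hs.1, l1.1, l2.1⟩, ⟨hs.2.le, l1.2, l2.2⟩⟩
        exact lt_of_le_of_lt (measure_mono hsub) isCompact_Icc.measure_lt_top

/-- Second half. -/
theorem half2 {n d : ℕ} (hn : 1 ≤ n) {R θ B C0 : ℝ} (hR : 0 < R) (hθ : 0 < θ)
    (hC0 : 0 ≤ C0) (hK : KK R θ ⊆ SQ C0) (ψ : ℝ × ℝ → ℂ) (hψ : Measurable ψ)
    (hb : ∀ g, ‖tw ψ g‖ₑ ≤ ENNReal.ofReal B * ct (KK R θ) g) {W : SL2R} (hW : W ∈ AL n d)
    (hWC : ∀ g : ℝ × ℝ × ℝ, g ∈ Str → g.2 ∈ KK R θ → (act W g).2 ∈ SQ C0) :
    ∫⁻ g in Str, ‖TT (AL n d) (tw ψ) g‖ₑ ^ 2 / TE (Gam (n * d)) (ct (SQ C0)) g * ct (SQ C0) g =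
      ENNReal.ofReal (DD (n * d) ψ) := by
  set φ := tw ψ with hφ
  have hφm : Measurable φ := meas_tw hψ
  set F := TT (AL n d) φ with hF
  set P := TT (Gam (n * d)) φ with hP
  set ν := TE (Gam (n * d)) (ct (SQ C0)) with hν
  set N := TE (AL n d) (ct (SQ C0)) with hN
  have hFm : Measurable F := meas_TT (AL_ctb n d) hφm
  have hPm : Measurable P := meas_TT (Gam_ctb _) hφm
  have hctm : Measurable (ct (SQ C0)) := meas_ct (meas_SQ _)
  have hνm : Measurable ν := meas_TE (Gam_ctb _) hctm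
  have hNm : Measurable N := meas_TE (AL_ctb n d) hctm
  set w : ℝ × ℝ × ℝ → ℝ≥0∞ := fun g => ct (SQ C0) g / ν g with hw
  have hwm : Measurable w := hctm.div hνm
  set A2 : ℝ × ℝ × ℝ → ℂ := fun g => ((w g).toReal : ℂ) * conj (F g) with hA2
  have hA2m : Measurable A2 :=
    (Complex.measurable_ofReal.comp hwm.ennreal_toReal).mul
      (Complex.continuous_conj.measurable.comp hFm)
  have hNfin : ∀ g ∈ Gd, N g ≠ ∞ := fun g hg => (TE_fin (AL_lat hn d) hC0 hg).ne
  -- the values along `AL`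
  have hwM : ∀ M ∈ AL n d, ∀ g ∈ Gd, w (act M g) = ct (SQ C0) (act M g) / N g := by
    intro M hM g hg
    rw [hw]
    simp only
    rw [hν, TE_Gam_act hn hM _ hg]
  have hFM : ∀ M ∈ AL n d, ∀ g ∈ Gd, F (act M g) = P g := fun M hM g hg => TT_AL_act hn hM φ hg
  -- finiteness
  have hfin1 : ∫⁻ g in Str, TE (Gam (n * d)) (fun g => ‖φ g‖ₑ) g * ‖φ g‖ₑ < ∞ :=
    fin_form hR hθ hC0 hK φ hb
  have hfin2 : ∫⁻ g in Str, TE (AL n d) (fun g => ‖A2 g‖ₑ) g * ‖φ g‖ₑ < ∞ := by
    refine lt_of_le_of_lt (lintegral_mono_ae (ae_restrict_of_ae ?_)) hfin1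
    filter_upwards [ae_Gd] with g hg
    refine mul_le_mul_left ?_ _
    have h1 : TE (AL n d) (fun g => ‖A2 g‖ₑ) g ≤ ‖P g‖ₑ := by
      have h2 : ∀ M : AL n d, Str.indicator (fun g => ‖A2 g‖ₑ) (act M.1 g) ≤
          Str.indicator (ct (SQ C0)) (act M.1 g) * (‖P g‖ₑ / N g) := by
        intro M
        by_cases h : act M.1 g ∈ Str
        · rw [indicator_of_mem h, indicator_of_mem h, hA2]
          simp only
          rw [enorm_mul, hFM M.1 M.2 g hg]
          have e1 : ‖conj (P g)‖ₑ = ‖P g‖ₑ := by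
            rw [← ofReal_norm, ← ofReal_norm, Complex.norm_conj]
          have e2 : ‖(((w (act M.1 g)).toReal : ℝ) : ℂ)‖ₑ ≤ w (act M.1 g) := by
            rw [← ofReal_norm, Complex.norm_real, Real.norm_of_nonneg ENNReal.toReal_nonneg]
            exact ENNReal.ofReal_toReal_le
          rw [e1]
          refine (mul_le_mul_left e2 _).trans (le_of_eq ?_)
          rw [hwM M.1 M.2 g hg, div_eq_mul_inv, div_eq_mul_inv]
          ring
        · rw [indicator_of_notMem h, indicator_of_notMem h, zero_mul]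
      unfold TE
      refine (ENNReal.tsum_le_tsum h2).trans ?_
      rw [ENNReal.tsum_mul_right]
      exact ENNReal.mul_div_le
    exact h1.trans (TT_enorm_le φ g)
  have hfin3 : ∫⁻ g in Str, ‖A2 g‖ₑ * TE (AL n d) (fun g => ‖φ g‖ₑ) g ≠ ∞ := by
    rw [unfE (AL_idx hn d) _ _ hA2m.enorm.aemeasurable hφm.enorm.aemeasurable]
    exact hfin2.ne
  -- unfolding
  have key := unfC (AL_idx hn d) A2 φ hA2m.aestronglyMeasurable hφm.aestronglyMeasurable hfin3
  have hR2 : ∫ g in Str, TT (AL n d) A2 g * φ g = ∫ g in Str, conj (P g) * φ g := by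
    refine integral_congr_ae ((ae_restrict_iff' meas_Str).mpr ?_)
    filter_upwards [ae_Gd] with g hg hs
    by_cases hk : g.2 ∈ KK R θ
    · congr 1
      have hN0 : N g ≠ 0 := by
        obtain ⟨M, hM, h1, h2⟩ := ex_strip hn hW hg
        have := one_le_TE hM h1 (by rw [h2]; exact hWC g hs hk)
        exact (lt_of_lt_of_le one_pos this).ne'
      have hNf := hNfin g hg
      have e1 : ∀ M : AL n d, Str.indicator A2 (act M.1 g) =
          (((Str.indicator (ct (SQ C0)) (act M.1 g)).toReal : ℝ) : ℂ) *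
            (conj (P g) / ((N g).toReal : ℂ)) := by
        intro M
        by_cases h : act M.1 g ∈ Str
        · rw [indicator_of_mem h, indicator_of_mem h, hA2]
          simp only
          rw [hFM M.1 M.2 g hg, hwM M.1 M.2 g hg, ENNReal.toReal_div]
          push_cast
          ring
        · rw [indicator_of_notMem h, indicator_of_notMem h, ENNReal.toReal_zero, ofReal_zero,
            zero_mul]
      unfold TT
      simp only [e1]
      rw [tsum_mul_right, ← Complex.ofReal_tsum, ← ENNReal.tsum_toReal_eq]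
      · have hNr : (((N g).toReal : ℝ) : ℂ) ≠ 0 := by
          rw [Complex.ofReal_ne_zero]
          exact (ENNReal.toReal_pos hN0 hNf).ne'
        show (((N g).toReal : ℝ) : ℂ) * _ = _
        field_simp
      · intro M
        by_cases h : act M.1 g ∈ Str
        · rw [indicator_of_mem h]
          unfold ct
          refine ne_of_lt (lt_of_le_of_lt (indicator_le_self' (by simp) _) ?_)
          simp
        · rw [indicator_of_notMem h]
          simp
    · have h3 : φ g = 0 := by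
        have := hb g
        unfold ct at this
        rw [indicator_of_notMem hk, mul_zero] at this
        exact enorm_eq_zero.mp (le_antisymm this zero_le)
      rw [h3, mul_zero, mul_zero]
  -- the left side is real
  have hL : ∀ g, A2 g * TT (AL n d) φ g = (((w g).toReal * ‖F g‖ ^ 2 : ℝ) : ℂ) := by
    intro g
    rw [hA2]
    simp only
    rw [← hF, mul_assoc, mul_comm (conj (F g)), Complex.mul_conj, Complex.normSq_eq_norm_sq]
    push_cast
    ring
  have hint : Integrable (fun g => A2 g * TT (AL n d) φ g) (volume.restrict Str) := by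
    refine ⟨(hA2m.mul hFm).aestronglyMeasurable, ?_⟩
    rw [hasFiniteIntegral_iff_enorm]
    refine lt_of_le_of_lt (lintegral_mono fun g => ?_) hfin3.lt_top
    rw [enorm_mul]
    exact mul_le_mul_right (TT_enorm_le φ g) _
  simp only [hL] at key hint
  have hint' : Integrable (fun g => (w g).toReal * ‖F g‖ ^ 2) (volume.restrict Str) := by
    exact hint.re.congr (Eventually.of_forall fun g => Complex.ofReal_re _)
  rw [integral_complex_ofReal, hR2] at key
  have hDD : DD (n * d) ψ = ∫ g in Str, (w g).toReal * ‖F g‖ ^ 2 := by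
    have h1 : ∫ g in Str, conj (P g) * φ g = conj (∫ g in Str, conj (φ g) * P g) := by
      rw [← integral_conj]
      refine integral_congr_ae (Eventually.of_forall fun g => ?_)
      simp only [map_mul, Complex.conj_conj]
      ring
    have h2 := congrArg Complex.re key
    rw [h1, Complex.conj_re, Complex.ofReal_re] at h2
    unfold DD
    exact h2.symm
  rw [hDD, ofReal_integral_eq_lintegral_ofReal hint'
    (Eventually.of_forall fun g => by positivity)]
  refine lintegral_congr_ae ((ae_restrict_iff' meas_Str).mpr ?_)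
  filter_upwards [ae_Gd] with g hg hs
  by_cases hk : g.2 ∈ SQ C0
  · have h1 : 1 ≤ ν g := one_le_TE (one_mem_Gam _) (by rw [act_one]; exact hs)
      (by rw [act_one]; exact hk)
    have h2 : ct (SQ C0) g = 1 := by
      unfold ct
      rw [indicator_of_mem hk]; rfl
    have h3 : w g ≠ ∞ := by
      rw [hw]
      simp only
      rw [h2]
      exact ENNReal.div_ne_top ENNReal.one_ne_top (lt_of_lt_of_le one_pos h1).ne'
    rw [ENNReal.ofReal_mul ENNReal.toReal_nonneg, ENNReal.ofReal_toReal h3,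
      ENNReal.ofReal_pow (norm_nonneg _), ofReal_norm, hw]
    simp only
    rw [div_eq_mul_inv, div_eq_mul_inv]
    ring
  · have h2 : ct (SQ C0) g = 0 := by
      unfold ct
      rw [indicator_of_notMem hk]
    have h3 : w g = 0 := by
      rw [hw]
      simp only
      rw [h2, ENNReal.zero_div]
    rw [h2, h3]
    simp

end Pool.Agent.LibSM56C
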