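import Pool.Agent.LibSM56C.G_7

/-! # SM56 part (C), GEO: `geo` of Face.lean -/

set_option autoImplicit false

namespace Pool.Agent.LibSM56C

open MeasureTheory Set Filter Topology Complex
open scoped ENNReal ComplexConjugate

/-- GEO: the box integral of the Atkin-Lehner series is at most the multiplicity times the
diagonal form. -/
theorem geo_proof (n d : ℕ) (hn : 1 ≤ n) (hd : 1 ≤ d) (hnd : Nat.Coprime n d) (R θ ρ B : ℝ)
    (hR : 0 < R) (hθ : 0 < θ)
    (hρ : 0 < ρ) (_hB : 0 ≤ B) (ψ : ℝ × ℝ → ℂ) (hψ : Measurable ψ)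
    (hb : ∀ v, ‖ψ v‖ ≤ B * (KK R θ).indicator 1 v) :
    ∫⁻ g in Str ∩ {g | g.2 ∈ UU ρ}, ‖TT (AL n d) (tw ψ) g‖ₑ ^ 2 ≤
      ENNReal.ofReal ((1 + 8 * ρ / (n * d)) * DD (n * d) ψ) := by
  obtain ⟨W, hW⟩ := AL_ne hn hnd
  have hn0 : (0 : ℝ) < n := by exact_mod_cast hn
  have hd0 : (0 : ℝ) < d := by exact_mod_cast hd
  set w0 : ℝ := |W.1 1 0| + |W.1 1 1| with hw0
  have hw0' : 0 ≤ w0 := by positivity
  have hW10 := abs_nonneg (W.1 1 0)
  have hW11 := abs_nonneg (W.1 1 1)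
  set C0 : ℝ := 1 + 3 * ρ + 8 * R + θ * (8 * R) + w0 * (8 * R) + w0 * (θ * (8 * R)) +
    |W.1 1 0| / R with hC0
  have p1 : 0 ≤ θ * (8 * R) := by positivity
  have p2 : 0 ≤ w0 * (8 * R) := by positivity
  have p3 : 0 ≤ w0 * (θ * (8 * R)) := by positivity
  have p4 : 0 ≤ |W.1 1 0| / R := by positivity
  have hC0' : 0 ≤ C0 := by positivity
  have hU : UU ρ ⊆ SQ C0 := by
    rintro v ⟨u1, u2, u3, u4⟩
    have e1 : 0 < Real.exp (-1) := Real.exp_pos _
    have v2 : 0 < v.2 := e1.trans_le u1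
    have he : (1 : ℝ) / 3 ≤ Real.exp (-1) := by
      rw [Real.exp_neg, one_div]
      exact inv_anti₀ (Real.exp_pos 1) (by have := Real.exp_one_lt_d9; linarith)
    constructor
    · rw [abs_of_pos u3]
      have : v.1 ≤ 3 * ρ := by nlinarith
      linarith
    · rw [abs_of_pos v2]
      linarith
  have hK : KK R θ ⊆ SQ C0 := by
    rintro v ⟨k1, k2, k3⟩
    have v1 : 0 < v.1 := hR.trans_le k1
    constructor
    · rw [abs_of_pos v1]
      linarith
    · have : θ * v.1 ≤ θ * (8 * R) := mul_le_mul_of_nonneg_left k2 hθ.le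
      refine k3.trans ?_
      linarith
  have hWC : ∀ g : ℝ × ℝ × ℝ, g ∈ Str → g.2 ∈ KK R θ → (act W g).2 ∈ SQ C0 := by
    rintro g ⟨s1, s2⟩ ⟨k1, k2, k3⟩
    have v1 : 0 < g.2.1 := hR.trans_le k1
    have hj : |W.1 1 0 * g.1 + W.1 1 1| ≤ w0 := by
      refine (abs_add_le _ _).trans ?_
      rw [abs_mul, abs_of_nonneg s1, hw0]
      nlinarith
    have k3' : |g.2.2| ≤ θ * (8 * R) :=
      k3.trans (mul_le_mul_of_nonneg_left k2 hθ.le)
    constructor
    · show |(W.1 1 0 * g.1 + W.1 1 1) * g.2.1| ≤ C0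
      rw [abs_mul, abs_of_pos v1]
      have := mul_le_mul hj k2 v1.le hw0'
      linarith
    · show |(W.1 1 0 * g.1 + W.1 1 1) * g.2.2 - W.1 1 0 / g.2.1| ≤ C0
      refine (abs_sub _ _).trans ?_
      rw [abs_mul, abs_div, abs_of_pos v1]
      have h1 := mul_le_mul hj k3' (abs_nonneg _) hw0'
      have h2 : |W.1 1 0| / g.2.1 ≤ |W.1 1 0| / R := div_le_div_of_nonneg_left hW10 hR k1
      linarith
  have hb' : ∀ g, ‖tw ψ g‖ₑ ≤ ENNReal.ofReal B * ct (KK R θ) g := by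
    intro g
    have h1 : ‖tw ψ g‖ = ‖ψ g.2‖ := by
      unfold tw
      rw [norm_mul]
      have : 2 * (Real.pi : ℂ) * I * (g.1 : ℂ) = ((2 * Real.pi * g.1 : ℝ) : ℂ) * I := by
        push_cast; ring
      rw [this, Complex.norm_exp_ofReal_mul_I, one_mul]
    rw [← ofReal_norm, h1]
    refine (ENNReal.ofReal_le_ofReal (hb g.2)).trans ?_
    unfold ct
    by_cases h : g.2 ∈ KK R θ
    · rw [indicator_of_mem h, indicator_of_mem h]
      simp
    · rw [indicator_of_notMem h, indicator_of_notMem h]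
      simp
  have H1 := half1 (n := n) (d := d) hn hd hρ hC0' hU (TT (AL n d) (tw ψ))
    (meas_TT (AL_ctb n d) (meas_tw hψ)) (fun M hM g hg => TT_act (Gam_ok _ hM) (AG hn hM) _ hg)
  have H2 := half2 (n := n) (d := d) hn hR hθ hC0' hK ψ hψ hb' hW hWC
  rw [H2] at H1
  rw [ENNReal.ofReal_mul (by positivity)]
  exact H1

end Pool.Agent.LibSM56C
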