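import Mathlib

/-!
The one and two dimensional Sobolev inequality.
-/

set_option autoImplicit false

namespace Pool.Agent.LibSM56C

open MeasureTheory Set
open scoped ComplexConjugate

/-- one dimensional Sobolev inequality -/
theorem sob1 (g g' : ℝ → ℂ) (hg : ∀ s ∈ Icc (0:ℝ) 1, HasDerivAt g (g' s) s)
    (hc : ContinuousOn g' (Icc 0 1)) :
    ‖g 0‖ ^ 2 ≤ 2 * (∫ s in (0:ℝ)..1, ‖g s‖ ^ 2) + 2 * (∫ s in (0:ℝ)..1, ‖g' s‖ ^ 2) := by
  have hgc : ContinuousOn g (Icc 0 1) := fun s hs => (hg s hs).continuousAt.continuousWithinAt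
  have hI1 : IntervalIntegrable (fun s => ‖g s‖) volume 0 1 :=
    (hgc.norm).intervalIntegrable_of_Icc zero_le_one
  have hI2 : IntervalIntegrable (fun s => ‖g' s‖) volume 0 1 :=
    (hc.norm).intervalIntegrable_of_Icc zero_le_one
  have hI1' : IntervalIntegrable (fun s => ‖g s‖ ^ 2) volume 0 1 :=
    (hgc.norm.pow 2).intervalIntegrable_of_Icc zero_le_one
  have hI2' : IntervalIntegrable (fun s => ‖g' s‖ ^ 2) volume 0 1 :=
    (hc.norm.pow 2).intervalIntegrable_of_Icc zero_le_one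
  -- `‖g 0‖ ≤ ‖g s‖ + ∫ ‖g'‖`
  have h1 : ∀ s ∈ Icc (0:ℝ) 1, ‖g 0‖ ≤ ‖g s‖ + ∫ u in (0:ℝ)..1, ‖g' u‖ := by
    intro s hs
    have hsub : uIcc (0:ℝ) s ⊆ Icc 0 1 := by
      rw [uIcc_of_le hs.1]
      exact Icc_subset_Icc_right hs.2
    have h2 : ∫ u in (0:ℝ)..s, g' u = g s - g 0 :=
      intervalIntegral.integral_eq_sub_of_hasDerivAt (fun u hu => hg u (hsub hu))
        ((hc.mono hsub).intervalIntegrable)
    have h3 : ‖∫ u in (0:ℝ)..s, g' u‖ ≤ ∫ u in (0:ℝ)..s, ‖g' u‖ :=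
      intervalIntegral.norm_integral_le_integral_norm hs.1
    have h4 : ∫ u in (0:ℝ)..s, ‖g' u‖ ≤ ∫ u in (0:ℝ)..1, ‖g' u‖ := by
      apply intervalIntegral.integral_mono_interval le_rfl hs.1 hs.2 _ hI2
      filter_upwards with u using norm_nonneg _
    have h5 : g 0 = g s - ∫ u in (0:ℝ)..s, g' u := by rw [h2]; ring
    calc ‖g 0‖ = ‖g s - ∫ u in (0:ℝ)..s, g' u‖ := by rw [← h5]
      _ ≤ ‖g s‖ + ‖∫ u in (0:ℝ)..s, g' u‖ := norm_sub_le _ _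
      _ ≤ ‖g s‖ + ∫ u in (0:ℝ)..1, ‖g' u‖ := by linarith
  have hsq : ∀ h : ℝ → ℝ, IntervalIntegrable h volume 0 1 →
      IntervalIntegrable (fun s => h s ^ 2) volume 0 1 →
      (∫ s in (0:ℝ)..1, h s) ^ 2 ≤ ∫ s in (0:ℝ)..1, h s ^ 2 := by
    intro h hh hh2
    set A := ∫ s in (0:ℝ)..1, h s
    have : 0 ≤ ∫ s in (0:ℝ)..1, (h s - A) ^ 2 :=
      intervalIntegral.integral_nonneg zero_le_one fun s _ => sq_nonneg _
    have e : ∫ s in (0:ℝ)..1, (h s - A) ^ 2 =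
        (∫ s in (0:ℝ)..1, h s ^ 2) - 2 * A * A + A ^ 2 := by
      have : ∀ s, (h s - A) ^ 2 = h s ^ 2 - 2 * A * h s + A ^ 2 := fun s => by ring
      simp_rw [this]
      rw [intervalIntegral.integral_add (hh2.sub (hh.const_mul _)) (by simp),
        intervalIntegral.integral_sub hh2 (hh.const_mul _), intervalIntegral.integral_const_mul]
      simp [A]
    nlinarith
  have h6 : ‖g 0‖ ≤ (∫ s in (0:ℝ)..1, ‖g s‖) + ∫ u in (0:ℝ)..1, ‖g' u‖ := by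
    have : ∫ _ in (0:ℝ)..1, ‖g 0‖ ≤
        ∫ s in (0:ℝ)..1, (‖g s‖ + ∫ u in (0:ℝ)..1, ‖g' u‖) :=
      intervalIntegral.integral_mono_on zero_le_one (by simp) (hI1.add (by simp)) h1
    rw [intervalIntegral.integral_add hI1 (by simp)] at this
    simpa using this
  have h7 := hsq _ hI1 hI1'
  have h8 := hsq _ hI2 hI2'
  have h9 : 0 ≤ ∫ s in (0:ℝ)..1, ‖g s‖ :=
    intervalIntegral.integral_nonneg zero_le_one fun s _ => norm_nonneg _
  have h10 : 0 ≤ ∫ s in (0:ℝ)..1, ‖g' s‖ :=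
    intervalIntegral.integral_nonneg zero_le_one fun s _ => norm_nonneg _
  have h11 := norm_nonneg (g 0)
  nlinarith [sq_nonneg ((∫ s in (0:ℝ)..1, ‖g s‖) - ∫ u in (0:ℝ)..1, ‖g' u‖)]

/-- two dimensional Sobolev inequality -/
theorem sob2 (g g1 g2 g12 : ℝ → ℝ → ℂ)
    (h1 : ∀ s, HasDerivAt (fun s => g s 0) (g1 s 0) s)
    (h2 : ∀ s r, HasDerivAt (fun r => g s r) (g2 s r) r)
    (h12 : ∀ s r, HasDerivAt (fun r => g1 s r) (g12 s r) r)
    (hg : Continuous (Function.uncurry g)) (hg1 : Continuous (Function.uncurry g1))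
    (hg2 : Continuous (Function.uncurry g2)) (hg12 : Continuous (Function.uncurry g12)) :
    ‖g 0 0‖ ^ 2 ≤ 4 * ∫ s in (0:ℝ)..1, ∫ r in (0:ℝ)..1,
      (‖g s r‖ ^ 2 + ‖g1 s r‖ ^ 2 + ‖g2 s r‖ ^ 2 + ‖g12 s r‖ ^ 2) := by
  have hr : ∀ (h : ℝ → ℝ → ℂ), Continuous (Function.uncurry h) → ∀ s, Continuous (h s) :=
    fun h hh s => hh.comp (by fun_prop : Continuous fun r => (s, r))
  have hn : ∀ (h : ℝ → ℝ → ℂ), Continuous (Function.uncurry h) →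
      Continuous (Function.uncurry fun s r => ‖h s r‖ ^ 2) := fun h hh => (hh.norm.pow 2)
  have hint : ∀ (h : ℝ → ℝ → ℂ), Continuous (Function.uncurry h) →
      Continuous fun s => ∫ r in (0:ℝ)..1, ‖h s r‖ ^ 2 := fun h hh =>
    intervalIntegral.continuous_parametric_intervalIntegral_of_continuous' (hn h hh) 0 1
  have a1 : ‖g 0 0‖ ^ 2 ≤ 2 * (∫ s in (0:ℝ)..1, ‖g s 0‖ ^ 2) +
      2 * (∫ s in (0:ℝ)..1, ‖g1 s 0‖ ^ 2) :=
    sob1 (fun s => g s 0) (fun s => g1 s 0) (fun s _ => h1 s)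
      (hg1.comp (by fun_prop : Continuous fun s : ℝ => (s, (0 : ℝ)))).continuousOn
  have a2 : ∀ s, ‖g s 0‖ ^ 2 ≤ 2 * (∫ r in (0:ℝ)..1, ‖g s r‖ ^ 2) +
      2 * (∫ r in (0:ℝ)..1, ‖g2 s r‖ ^ 2) := fun s =>
    sob1 (g s) (g2 s) (fun r _ => h2 s r) (hr g2 hg2 s).continuousOn
  have a3 : ∀ s, ‖g1 s 0‖ ^ 2 ≤ 2 * (∫ r in (0:ℝ)..1, ‖g1 s r‖ ^ 2) +
      2 * (∫ r in (0:ℝ)..1, ‖g12 s r‖ ^ 2) := fun s =>
    sob1 (g1 s) (g12 s) (fun r _ => h12 s r) (hr g12 hg12 s).continuousOn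
  have c0 : Continuous fun s => ‖g s 0‖ ^ 2 :=
    ((hg.comp (by fun_prop : Continuous fun s : ℝ => (s, (0 : ℝ)))).norm.pow 2)
  have c1 : Continuous fun s => ‖g1 s 0‖ ^ 2 :=
    ((hg1.comp (by fun_prop : Continuous fun s : ℝ => (s, (0 : ℝ)))).norm.pow 2)
  have i1 : ∫ s in (0:ℝ)..1, ‖g s 0‖ ^ 2 ≤ ∫ s in (0:ℝ)..1,
      (2 * (∫ r in (0:ℝ)..1, ‖g s r‖ ^ 2) + 2 * (∫ r in (0:ℝ)..1, ‖g2 s r‖ ^ 2)) :=
    intervalIntegral.integral_mono_on zero_le_one (c0.intervalIntegrable _ _)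
      ((((hint g hg).const_mul 2).add ((hint g2 hg2).const_mul 2)).intervalIntegrable _ _)
      fun s _ => a2 s
  have i2 : ∫ s in (0:ℝ)..1, ‖g1 s 0‖ ^ 2 ≤ ∫ s in (0:ℝ)..1,
      (2 * (∫ r in (0:ℝ)..1, ‖g1 s r‖ ^ 2) + 2 * (∫ r in (0:ℝ)..1, ‖g12 s r‖ ^ 2)) :=
    intervalIntegral.integral_mono_on zero_le_one (c1.intervalIntegrable _ _)
      ((((hint g1 hg1).const_mul 2).add ((hint g12 hg12).const_mul 2)).intervalIntegrable _ _)
      fun s _ => a3 s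
  have i3 : ∫ s in (0:ℝ)..1, ∫ r in (0:ℝ)..1,
      (‖g s r‖ ^ 2 + ‖g1 s r‖ ^ 2 + ‖g2 s r‖ ^ 2 + ‖g12 s r‖ ^ 2) =
      (∫ s in (0:ℝ)..1, ∫ r in (0:ℝ)..1, ‖g s r‖ ^ 2) +
      (∫ s in (0:ℝ)..1, ∫ r in (0:ℝ)..1, ‖g1 s r‖ ^ 2) +
      (∫ s in (0:ℝ)..1, ∫ r in (0:ℝ)..1, ‖g2 s r‖ ^ 2) +
      (∫ s in (0:ℝ)..1, ∫ r in (0:ℝ)..1, ‖g12 s r‖ ^ 2) := by
    have e : ∀ s, ∫ r in (0:ℝ)..1,
        (‖g s r‖ ^ 2 + ‖g1 s r‖ ^ 2 + ‖g2 s r‖ ^ 2 + ‖g12 s r‖ ^ 2) =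
        (∫ r in (0:ℝ)..1, ‖g s r‖ ^ 2) + (∫ r in (0:ℝ)..1, ‖g1 s r‖ ^ 2) +
        (∫ r in (0:ℝ)..1, ‖g2 s r‖ ^ 2) + (∫ r in (0:ℝ)..1, ‖g12 s r‖ ^ 2) := by
      intro s
      have k0 : IntervalIntegrable (fun r => ‖g s r‖ ^ 2) volume 0 1 :=
        ((hr g hg s).norm.pow 2).intervalIntegrable _ _
      have k1 : IntervalIntegrable (fun r => ‖g1 s r‖ ^ 2) volume 0 1 :=
        ((hr g1 hg1 s).norm.pow 2).intervalIntegrable _ _
      have k2 : IntervalIntegrable (fun r => ‖g2 s r‖ ^ 2) volume 0 1 :=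
        ((hr g2 hg2 s).norm.pow 2).intervalIntegrable _ _
      have k3 : IntervalIntegrable (fun r => ‖g12 s r‖ ^ 2) volume 0 1 :=
        ((hr g12 hg12 s).norm.pow 2).intervalIntegrable _ _
      rw [intervalIntegral.integral_add ((k0.add k1).add k2) k3,
        intervalIntegral.integral_add (k0.add k1) k2, intervalIntegral.integral_add k0 k1]
    simp_rw [e]
    have k0 := (hint g hg).intervalIntegrable (μ := volume) 0 1
    have k1 := (hint g1 hg1).intervalIntegrable (μ := volume) 0 1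
    have k2 := (hint g2 hg2).intervalIntegrable (μ := volume) 0 1
    have k3 := (hint g12 hg12).intervalIntegrable (μ := volume) 0 1
    rw [intervalIntegral.integral_add ((k0.add k1).add k2) k3,
      intervalIntegral.integral_add (k0.add k1) k2, intervalIntegral.integral_add k0 k1]
  rw [intervalIntegral.integral_add (((hint g hg).const_mul 2).intervalIntegrable _ _)
    (((hint g2 hg2).const_mul 2).intervalIntegrable _ _),
    intervalIntegral.integral_const_mul, intervalIntegral.integral_const_mul] at i1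
  rw [intervalIntegral.integral_add (((hint g1 hg1).const_mul 2).intervalIntegrable _ _)
    (((hint g12 hg12).const_mul 2).intervalIntegrable _ _),
    intervalIntegral.integral_const_mul, intervalIntegral.integral_const_mul] at i2
  rw [i3]
  linarith

end Pool.Agent.LibSM56C
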