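import Pool.Agent.LibSM56C.K_Defs

/-! # SM56 part (C), section K
K_01 (MEDIUM): the series over the matrices of `AL n d` at the point with Bruhat coordinates
`(x + 1/τ, τ e^r, e^(-r))`, `τ = ρ s`, is the finite sum `GG`.
PLAN. Write `τ = ρ s`. For `M ∈ AL n d` with integers `a b m' e`: `act M g = (x'', (p + τ q) e^r, q e^(-r))` with
`p = √n m'`, `q = √n (m' x + e)`, `x'' = a/m' - τ/(p (p+τ q))` (field_simp, `n a e - b m' = 1`; if `m' = 0` or
`p + τ q = 0` see below). (1) If the term of `M` is not 0 then `v = ((p+τq)e^r, q e^(-r)) ∈ KK R θ`, so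
`v₁ > 0`, `|τ q e^r| = |τ v₂ e^(2r)| ≤ ρ θ e² v₁ ≤ 0.4619 v₁` (`Real.exp_one_lt_d9`), so `p e^r ∈ [0.538 v₁, 1.462 v₁]`:
`m' ≥ 1`, `m' ≤ p ≤ 12 R`, and `|q| ≤ θ e^r v₁ ≤ (e²/16/0.538) p ≤ 0.86 p`, so `|m' x + e| ≤ 0.86 m'` and
`-2 m' ≤ e < m'`. (2) For `(m, e)` in the index set let `a₀ = ia n m e` (`n e a₀ ≡ 1` mod `m`:
`ZMod.coe_mul_inv_eq_one` / `ZMod.mul_inv_of_unit`), `k = -⌊xx n m e x τ⌋`, `a = a₀ + k m`, `b = (n a e - 1)/m`; this
matrix is in `AL n d`, its `x''` is `Int.fract (xx ..)`, in `[0, 1)`, and `ee (xx ..) = cexp (2πi x'')`. (3) Two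
matrices of `AL n d` with the same `m', e` have `a' ≡ a` mod `m'` (`n e a ≡ 1`) and both `x'' ∈ [0,1)`: equal.
So `TT = ∑` over the image of the index set (`tsum_eq_sum`, `Finset.sum_image`); `Finset.sum_sigma'`. -/

set_option autoImplicit false

namespace Pool.Agent.LibSM56C

open MeasureTheory Set Filter Topology Complex
open scoped ENNReal ComplexConjugate

private theorem K_01_S (n : ℕ) (hn : 1 ≤ n) : 1 ≤ √(n : ℝ) ∧ √(n : ℝ) * √(n : ℝ) = n := by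
  have h1 : (1 : ℝ) ≤ n := by exact_mod_cast hn
  have h2 : √(n : ℝ) * √(n : ℝ) = n := Real.mul_self_sqrt (by linarith)
  refine ⟨?_, h2⟩
  by_contra h
  have h3 : √(n : ℝ) < 1 := not_le.1 h
  have h4 : 0 ≤ √(n : ℝ) := Real.sqrt_nonneg _
  nlinarith

/-- the action on the point, second and third coordinate -/
private theorem K_01_act2 (n : ℕ) (M : SL2R) (m e x τ r : ℝ) (hτ : 0 < τ) (h10 : M.1 1 0 = √(n : ℝ) * m)
    (h11 : M.1 1 1 = √(n : ℝ) * e) :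
    (act M (x + 1 / τ, τ * Real.exp r, Real.exp (-r))).2 =
      ((√(n : ℝ) * m + τ * (√(n : ℝ) * (m * x + e))) * Real.exp r,
        √(n : ℝ) * (m * x + e) * Real.exp (-r)) := by
  have hE : Real.exp r ≠ 0 := Real.exp_ne_zero r
  have hτ' : τ ≠ 0 := hτ.ne'
  unfold act
  simp only
  rw [h10, h11, Real.exp_neg]
  ext
  · simp only
    field_simp
    ring
  · simp only
    field_simp
    ring

/-- the action on the point, first coordinate -/
private theorem K_01_act1 (n : ℕ) (hn : 1 ≤ n) (M : SL2R) (a b m e x τ r : ℝ) (hτ : 0 < τ) (hm : m ≠ 0)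
    (h1 : n * a * e - b * m = 1)
    (h00 : M.1 0 0 = √(n : ℝ) * a) (h01 : M.1 0 1 = b / √(n : ℝ))
    (h10 : M.1 1 0 = √(n : ℝ) * m) (h11 : M.1 1 1 = √(n : ℝ) * e)
    (hP : √(n : ℝ) * m + τ * (√(n : ℝ) * (m * x + e)) ≠ 0) :
    (act M (x + 1 / τ, τ * Real.exp r, Real.exp (-r))).1 =
      a / m - τ / (√(n : ℝ) * m * (√(n : ℝ) * m + τ * (√(n : ℝ) * (m * x + e)))) := by
  obtain ⟨hS1, hS2⟩ := K_01_S n hn
  unfold act
  simp only
  rw [h00, h01, h10, h11]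
  set S := √(n : ℝ) with hS
  have hS0 : S ≠ 0 := by linarith
  have hτ' : τ ≠ 0 := hτ.ne'
  set P := S * m + τ * (S * (m * x + e)) with hPd
  have hden : S * m * (x + 1 / τ) + S * e = P / τ := by
    rw [hPd]
    field_simp
    ring
  rw [hden, div_eq_iff (div_ne_zero hP hτ')]
  have e1 : (a / m - τ / (S * m * P)) * (P / τ) = a / m * (P / τ) - 1 / (S * m) := by
    field_simp
  rw [e1, ← hden]
  have e2 : a / m * (S * m * (x + 1 / τ) + S * e) = S * a * (x + 1 / τ) + S * a * e / m := by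
    field_simp
  have e3 : b / S = S * a * e / m - 1 / (S * m) := by
    rw [← hS2] at h1
    field_simp
    linarith
  rw [e2, e3]
  ring

/-- the inequalities -/
private theorem K_01_ineq (S R θ ρ : ℝ) (hS : 1 ≤ S) (hR : 0 < R) (hθ1 : θ ≤ 1 / 16)
    (hρθ : ρ * θ ≤ 1 / 16) (hθ : 0 < θ) (m e x τ r : ℝ) (hx : x ∈ Icc (0:ℝ) 1) (hτ : 0 < τ) (hτρ : τ ≤ ρ)
    (hr : r ∈ Icc (0:ℝ) 1)
    (hv : ((S * m + τ * (S * (m * x + e))) * Real.exp r, S * (m * x + e) * Real.exp (-r)) ∈ KK R θ) :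
    0 < m ∧ m ≤ 12 * R ∧ -2 * m < e ∧ e < m := by
  obtain ⟨hv1, hv2, hv3⟩ := hv
  simp only at hv1 hv2 hv3
  set q := S * (m * x + e) with hq
  have hE1 : 1 ≤ Real.exp r := Real.one_le_exp hr.1
  have hE2 : Real.exp r ≤ 2.7183 := by
    have h1 := Real.exp_le_exp.2 hr.2
    have h2 := Real.exp_one_lt_d9
    linarith
  rw [Real.exp_neg] at hv3
  set E := Real.exp r with hE
  have hE0 : 0 < E := by linarith
  have hEE : E * E ≤ 7.3892 := by nlinarith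
  set v1 := (S * m + τ * q) * E with hv1d
  have hv0 : 0 < v1 := by linarith
  have hq1 : |q| ≤ θ * v1 * E := by
    have h1 : |q| = |q * E⁻¹| * E := by
      rw [abs_mul q E⁻¹, abs_of_pos (inv_pos.2 hE0), mul_assoc, inv_mul_cancel₀ hE0.ne', mul_one]
    rw [h1]
    exact mul_le_mul_of_nonneg_right hv3 hE0.le
  have hq2 : |τ * q * E| ≤ 0.462 * v1 := by
    rw [abs_mul, abs_mul, abs_of_pos hτ, abs_of_pos hE0]
    have h1 : τ * |q| * E ≤ τ * (θ * v1 * E) * E := by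
      apply mul_le_mul_of_nonneg_right _ hE0.le
      exact mul_le_mul_of_nonneg_left hq1 hτ.le
    have h2 : τ * θ ≤ 1 / 16 := le_trans (mul_le_mul_of_nonneg_right hτρ hθ.le) hρθ
    have h3 : τ * (θ * v1 * E) * E = (τ * θ) * (E * E) * v1 := by ring
    have h4 : (τ * θ) * (E * E) ≤ 1 / 16 * 7.3892 :=
      mul_le_mul h2 hEE (by positivity) (by norm_num)
    have h5 : (τ * θ) * (E * E) * v1 ≤ 1 / 16 * 7.3892 * v1 := mul_le_mul_of_nonneg_right h4 hv0.le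
    rw [h3] at h1
    linarith
  have hpE : S * m * E = v1 - τ * q * E := by
    rw [hv1d]
    ring
  obtain ⟨hq3, hq4⟩ := abs_le.1 hq2
  have h1 : 0.538 * v1 ≤ S * m * E := by linarith
  have h2 : S * m * E ≤ 1.462 * v1 := by linarith
  have hp0 : 0 < S * m := by
    have h3 : 0 < S * m * E := by linarith
    exact (pos_iff_pos_of_mul_pos h3).2 hE0
  have hm0 : 0 < m := (pos_iff_pos_of_mul_pos hp0).1 (by linarith)
  have hm1 : m ≤ 12 * R := by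
    have h3 : m ≤ S * m := by nlinarith
    have h4 : S * m ≤ S * m * E := by nlinarith
    linarith
  have hq5 : |q| ≤ 0.86 * (S * m) := by
    have h3 : θ * v1 * E ≤ 1 / 16 * (S * m * E / 0.538) * E := by
      apply mul_le_mul_of_nonneg_right _ hE0.le
      apply mul_le_mul hθ1 _ hv0.le (by norm_num)
      rw [le_div_iff₀ (by norm_num)]
      linarith
    have h4 : 1 / 16 * (S * m * E / 0.538) * E = (E * E) * (S * m) / 8.608 := by ring
    have h5 : (E * E) * (S * m) ≤ 7.3892 * (S * m) := mul_le_mul_of_nonneg_right hEE hp0.le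
    have h6 : (E * E) * (S * m) / 8.608 ≤ 7.3892 * (S * m) / 8.608 := by
      apply div_le_div_of_nonneg_right h5 (by norm_num)
    have h7 : 7.3892 * (S * m) / 8.608 ≤ 0.86 * (S * m) := by
      rw [div_le_iff₀ (by norm_num)]
      nlinarith
    linarith
  have hq6 : |m * x + e| ≤ 0.86 * m := by
    rw [hq, abs_mul, abs_of_pos (by linarith : 0 < S)] at hq5
    have h3 : S * |m * x + e| ≤ S * (0.86 * m) := by linarith
    exact le_of_mul_le_mul_left h3 (by linarith)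
  obtain ⟨h3, h4⟩ := abs_le.1 hq6
  have h5 : 0 ≤ m * x := mul_nonneg hm0.le hx.1
  have h6 : m * x ≤ m := by nlinarith [hx.2]
  exact ⟨hm0, hm1, by linarith, by linarith⟩

/-- existence of the matrices -/
private theorem K_01_ex (n d m : ℕ) (hn : 1 ≤ n) (e : ℤ) (hm : 1 ≤ m) (hdm : d ∣ m) (hmn : Nat.Coprime m n)
    (he : IsCoprime e (m : ℤ)) (k : ℤ) :
    ∃ (M : SL2R) (b : ℤ), M ∈ AL n d ∧ M.1 0 0 = √(n : ℝ) * (((ia n m e : ℤ) + k * m : ℤ) : ℝ) ∧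
      M.1 0 1 = (b : ℝ) / √(n : ℝ) ∧ M.1 1 0 = √(n : ℝ) * ((m : ℤ) : ℝ) ∧ M.1 1 1 = √(n : ℝ) * (e : ℝ) ∧
      (n : ℤ) * ((ia n m e : ℤ) + k * m) * e - b * m = 1 := by
  have : NeZero m := ⟨by omega⟩
  have hu : IsUnit (((n : ℤ) * e : ℤ) : ZMod m) := by
    rw [ZMod.coe_int_isUnit_iff_isCoprime]
    have h1 : IsCoprime (m : ℤ) (n : ℤ) := Nat.isCoprime_iff_coprime.2 hmn
    exact h1.mul_right he.symm
  have h2 := ZMod.mul_inv_of_unit _ hu
  have h3 : ((ia n m e : ℕ) : ZMod m) = (((n : ℤ) * e : ℤ) : ZMod m)⁻¹ := by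
    unfold ia
    exact ZMod.natCast_zmod_val _
  have h4 : ((((n : ℤ) * e * (ia n m e : ℤ) - 1 : ℤ)) : ZMod m) = 0 := by
    rw [← h3] at h2
    push_cast at h2 ⊢
    rw [h2, sub_self]
  obtain ⟨c, hc⟩ := (ZMod.intCast_zmod_eq_zero_iff_dvd _ _).1 h4
  obtain ⟨hS1, hS2⟩ := K_01_S n hn
  have hS0 : √(n : ℝ) ≠ 0 := by linarith
  have hb : (n : ℤ) * ((ia n m e : ℤ) + k * m) * e - (c + n * k * e) * m = 1 := by
    linear_combination hc
  have hb' : (n : ℝ) * ((((ia n m e : ℤ) + k * m : ℤ)) : ℝ) * (e : ℝ) - ((c + n * k * e : ℤ) : ℝ) * ((m : ℤ) : ℝ) = 1 := by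
    exact_mod_cast hb
  have hdet : (!![√(n : ℝ) * (((ia n m e : ℤ) + k * m : ℤ) : ℝ), ((c + n * k * e : ℤ) : ℝ) / √(n : ℝ);
      √(n : ℝ) * ((m : ℤ) : ℝ), √(n : ℝ) * (e : ℝ)] : Matrix (Fin 2) (Fin 2) ℝ).det = 1 := by
    rw [Matrix.det_fin_two_of]
    have e1 : ((c + n * k * e : ℤ) : ℝ) / √(n : ℝ) * (√(n : ℝ) * ((m : ℤ) : ℝ)) =
        ((c + n * k * e : ℤ) : ℝ) * ((m : ℤ) : ℝ) := by
      field_simp
    rw [e1]
    linear_combination hb' + (((ia n m e : ℤ) + k * m : ℤ) : ℝ) * (e : ℝ) * hS2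
  refine ⟨⟨_, hdet⟩, c + n * k * e, ⟨(ia n m e : ℤ) + k * m, c + n * k * e, m, e, hb, ?_, rfl, rfl, rfl, rfl⟩,
    rfl, rfl, rfl, rfl, hb⟩
  exact_mod_cast hdm

/-- the matrix is determined by the bottom row and the range of the first coordinate -/
private theorem K_01_uniq (n d : ℕ) (hn : 1 ≤ n) (M M' : SL2R) (hM : M ∈ AL n d) (hM' : M' ∈ AL n d) (g : ℝ × ℝ × ℝ)
    (h10 : M.1 1 0 = M'.1 1 0) (h11 : M.1 1 1 = M'.1 1 1) (h0 : M.1 1 0 ≠ 0) (hD : M.1 1 0 * g.1 + M.1 1 1 ≠ 0)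
    (h1 : (act M g).1 ∈ Ico (0 : ℝ) 1) (h2 : (act M' g).1 ∈ Ico (0 : ℝ) 1) : M = M' := by
  obtain ⟨hS1, hS2⟩ := K_01_S n hn
  have hS0 : √(n : ℝ) ≠ 0 := by linarith
  have hn0 : (n : ℝ) ≠ 0 := by
    have : (1 : ℝ) ≤ n := by exact_mod_cast hn
    linarith
  obtain ⟨a, b, m, e, q1, q2, q3, q4, q5, q6⟩ := hM
  obtain ⟨a', b', m', e', r1, r2, r3, r4, r5, r6⟩ := hM'
  have hm : m' = m := by
    rw [q5, r5] at h10
    exact_mod_cast (mul_left_cancel₀ hS0 h10).symm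
  have he : e' = e := by
    rw [q6, r6] at h11
    exact_mod_cast (mul_left_cancel₀ hS0 h11).symm
  subst hm he
  have hm0 : (m' : ℝ) ≠ 0 := by
    intro h
    apply h0
    rw [q5, h, mul_zero]
  have hm0' : m' ≠ 0 := by
    intro h
    exact hm0 (by rw [h, Int.cast_zero])
  have hcop : IsCoprime m' ((n : ℤ) * e') := ⟨-b, a, by linear_combination q1⟩
  have hdvd : m' ∣ (a - a') * ((n : ℤ) * e') := ⟨b - b', by linear_combination q1 - r1⟩
  obtain ⟨k, hk⟩ := hcop.dvd_of_dvd_mul_right hdvd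
  have hb : b - b' = n * k * e' := by
    have : m' * (b - b') = m' * (n * k * e') := by linear_combination r1 - q1 + (n : ℤ) * e' * hk
    exact mul_left_cancel₀ hm0' this
  have hk' : (a : ℝ) - a' = m' * k := by exact_mod_cast hk
  have hb' : (b : ℝ) - b' = n * k * e' := by exact_mod_cast hb
  have hdiff : (act M g).1 - (act M' g).1 = k := by
    unfold act
    simp only
    rw [← h10, ← h11, ← sub_div, div_eq_iff hD, q3, q4, r3, r4, q5, q6]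
    have e1 : (b : ℝ) / √(n : ℝ) = b' / √(n : ℝ) + √(n : ℝ) * k * e' := by
      rw [show (b : ℝ) = b' + √(n : ℝ) * √(n : ℝ) * k * e' by rw [hS2]; linarith]
      field_simp
    rw [e1, show (a : ℝ) = a' + m' * k by linarith]
    ring
  have hk0 : k = 0 := by
    have h3 : (k : ℝ) < 1 := by rw [← hdiff]; linarith [h1.2, h2.1]
    have h4 : (-1 : ℝ) < k := by rw [← hdiff]; linarith [h1.1, h2.2]
    have h5 : k < 1 := by exact_mod_cast h3
    have h6 : -1 < k := by exact_mod_cast h4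
    omega
  subst hk0
  have ha : a = a' := by linarith
  have hbb : b = b' := by
    have : b - b' = 0 := by rw [hb]; ring
    linarith
  subst ha hbb
  apply Matrix.SpecialLinearGroup.ext
  intro i j
  fin_cases i <;> fin_cases j
  · exact q3.trans r3.symm
  · exact q4.trans r4.symm
  · exact h10
  · exact h11

theorem tt_eq (n d : ℕ) (hn : 1 ≤ n) (hd : 1 ≤ d) (R θ ρ : ℝ) (hR : 0 < R) (hθ : 0 < θ) (hθ1 : θ ≤ 1 / 16)
    (hρ : 0 < ρ) (hρθ : ρ * θ ≤ 1 / 16) (ψ : ℝ × ℝ → ℂ) (hψ : ∀ v, v ∉ KK R θ → ψ v = 0)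
    (x s r : ℝ) (hx : x ∈ Icc (0:ℝ) 1) (hs : s ∈ Ioc (0:ℝ) 1) (hr : r ∈ Icc (0:ℝ) 1) :
    TT (AL n d) (tw ψ) (x + 1 / (ρ * s), ρ * s * Real.exp r, Real.exp (-r)) = GG n d R ρ ψ x s r := by
  have hτ : 0 < ρ * s := mul_pos hρ hs.1
  have hτρ : ρ * s ≤ ρ := mul_le_of_le_one_right hρ.le hs.2
  have hGG : GG n d R ρ ψ x s r =
      ∑ p ∈ (MM n d (12 * R)).sigma (fun m => EE m), Tm n p.1 p.2 ψ x (ρ * s) r := by
    unfold GG
    rw [Finset.sum_sigma]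
  rw [hGG]
  generalize hτd : ρ * s = τ at hτ hτρ
  obtain ⟨hS1, hS2⟩ := K_01_S n hn
  have hS0 : √(n : ℝ) ≠ 0 := by linarith
  obtain ⟨g, hg⟩ : ∃ g : ℝ × ℝ × ℝ, g = (x + 1 / τ, τ * Real.exp r, Real.exp (-r)) := ⟨_, rfl⟩
  rw [← hg]
  obtain ⟨Sg, hSg⟩ : ∃ Sg : Finset (Σ _ : ℕ, ℤ), Sg = (MM n d (12 * R)).sigma (fun m => EE m) := ⟨_, rfl⟩
  rw [← hSg]
  have hmem : ∀ p : (Σ _ : ℕ, ℤ), p ∈ Sg ↔ (1 ≤ p.1 ∧ p.1 ≤ ⌊12 * R⌋₊ ∧ d ∣ p.1 ∧ Nat.Coprime p.1 n) ∧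
      (-2 * (p.1 : ℤ) ≤ p.2 ∧ p.2 < p.1 ∧ IsCoprime p.2 (p.1 : ℤ)) := by
    intro p
    rw [hSg, Finset.mem_sigma]
    unfold MM EE
    rw [Finset.mem_filter, Finset.mem_filter, Finset.mem_Icc, Finset.mem_Ico]
    tauto
  choose Mx bx hA hB00 hB01 hB10 hB11 hBd using fun p : Sg =>
    K_01_ex n d p.1.1 hn p.1.2 ((hmem p.1).1 p.2).1.1 ((hmem p.1).1 p.2).1.2.2.1
      ((hmem p.1).1 p.2).1.2.2.2 ((hmem p.1).1 p.2).2.2.2 (-⌊xx n p.1.1 p.1.2 x τ⌋)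
  have hm1 : ∀ p : Sg, 1 ≤ p.1.1 := fun p => ((hmem p.1).1 p.2).1.1
  have hval2 : ∀ p : Sg, (act (Mx p) g).2 = vv n p.1.1 p.1.2 x τ r := by
    intro p
    rw [hg, K_01_act2 n (Mx p) (((p.1.1 : ℕ) : ℤ) : ℝ) (p.1.2 : ℝ) x τ r hτ (hB10 p) (hB11 p)]
    unfold vv pw qw
    rw [Int.cast_natCast]
  have hpw : ∀ (m : ℕ) (e : ℤ), vv n m e x τ r ∈ KK R θ → pw n m e x τ ≠ 0 := by
    intro m e h h0
    have h1 := h.1
    unfold vv at h1
    simp only at h1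
    rw [h0, zero_mul] at h1
    linarith
  have hval1 : ∀ p : Sg, vv n p.1.1 p.1.2 x τ r ∈ KK R θ →
      (act (Mx p) g).1 = Int.fract (xx n p.1.1 p.1.2 x τ) := by
    intro p hp
    have h1 := hpw _ _ hp
    have hm0 : ((p.1.1 : ℕ) : ℝ) ≠ 0 := by
      have := hm1 p
      exact_mod_cast (by omega : p.1.1 ≠ 0)
    have hdR : (n : ℝ) * ((((ia n p.1.1 p.1.2 : ℕ) : ℤ) + -⌊xx n p.1.1 p.1.2 x τ⌋ * ((p.1.1 : ℕ) : ℤ) : ℤ) : ℝ) *
        (p.1.2 : ℝ) - (bx p : ℝ) * (((p.1.1 : ℕ) : ℤ) : ℝ) = 1 := by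
      exact_mod_cast hBd p
    have h2 := K_01_act1 n hn (Mx p) _ (bx p : ℝ) (((p.1.1 : ℕ) : ℤ) : ℝ) (p.1.2 : ℝ) x τ r hτ
      (by rw [Int.cast_natCast]; exact hm0) hdR (hB00 p) (hB01 p) (hB10 p) (hB11 p)
      (by
        unfold pw qw at h1
        rw [Int.cast_natCast]
        exact h1)
    rw [hg, h2]
    unfold Int.fract
    generalize ⌊xx n p.1.1 p.1.2 x τ⌋ = k
    unfold xx pw qw
    rw [Int.cast_natCast]
    push_cast
    rw [add_div, mul_div_cancel_right₀ _ hm0]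
    ring
  have hval : ∀ p : Sg, Str.indicator (tw ψ) (act (Mx p) g) = Tm n p.1.1 p.1.2 ψ x τ r := by
    intro p
    by_cases hK : vv n p.1.1 p.1.2 x τ r ∈ KK R θ
    · have h1 := hval1 p hK
      have h2 : act (Mx p) g ∈ Str := by
        show 0 ≤ (act (Mx p) g).1 ∧ (act (Mx p) g).1 < 1
        rw [h1]
        exact ⟨Int.fract_nonneg _, Int.fract_lt_one _⟩
      rw [indicator_of_mem h2]
      unfold tw Tm ee
      rw [hval2 p, h1]
      congr 1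
      have h3 := Complex.exp_periodic.sub_int_mul_eq (x := 2 * Real.pi * I * (xx n p.1.1 p.1.2 x τ : ℂ))
        ⌊xx n p.1.1 p.1.2 x τ⌋
      rw [← h3]
      congr 1
      unfold Int.fract
      push_cast
      ring
    · have h1 : Tm n p.1.1 p.1.2 ψ x τ r = 0 := by
        unfold Tm
        rw [hψ _ hK, mul_zero]
      rw [h1]
      apply indicator_apply_eq_zero.2
      intro _
      unfold tw
      rw [hval2 p, hψ _ hK, mul_zero]
  have hinj : Function.Injective (fun p : Sg => (⟨Mx p, hA p⟩ : AL n d)) := by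
    intro p p' h
    have h1 : Mx p = Mx p' := congrArg Subtype.val h
    have h2 : (((p.1.1 : ℕ) : ℤ) : ℝ) = (((p'.1.1 : ℕ) : ℤ) : ℝ) := by
      have h3 := hB10 p
      rw [h1, hB10 p'] at h3
      exact (mul_left_cancel₀ hS0 h3).symm
    have h4 : (p.1.2 : ℝ) = (p'.1.2 : ℝ) := by
      have h3 := hB11 p
      rw [h1, hB11 p'] at h3
      exact (mul_left_cancel₀ hS0 h3).symm
    have h5 : p.1.1 = p'.1.1 := by exact_mod_cast h2
    have h6 : p.1.2 = p'.1.2 := by exact_mod_cast h4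
    exact Subtype.ext (Sigma.ext h5 (heq_of_eq h6))
  have hsupp : Function.support (fun M : AL n d => Str.indicator (tw ψ) (act M.1 g)) ⊆
      Set.range (fun p : Sg => (⟨Mx p, hA p⟩ : AL n d)) := by
    intro M hM
    have hM' : Str.indicator (tw ψ) (act M.1 g) ≠ 0 := hM
    have h1 : act M.1 g ∈ Str := mem_of_indicator_ne_zero hM'
    rw [indicator_of_mem h1] at hM'
    have h2 : (act M.1 g).2 ∈ KK R θ := by
      by_contra h
      apply hM'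
      unfold tw
      rw [hψ _ h, mul_zero]
    obtain ⟨a, b, m', e, q1, q2, q3, q4, q5, q6⟩ := M.2
    have h3 := K_01_act2 n M.1 (m' : ℝ) (e : ℝ) x τ r hτ q5 q6
    rw [← hg] at h3
    have h2' := h2
    rw [h3] at h2'
    obtain ⟨i1, i2, i3, i4⟩ := K_01_ineq √(n : ℝ) R θ ρ hS1 hR hθ1 hρθ hθ (m' : ℝ) (e : ℝ) x τ r hx hτ hτρ
      hr h2'
    have i1' : 0 < m' := by exact_mod_cast i1
    obtain ⟨m, rfl⟩ : ∃ m : ℕ, m' = m := ⟨m'.toNat, (Int.toNat_of_nonneg i1'.le).symm⟩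
    rw [Int.cast_natCast] at i1 i2 i3 i4
    have hp : (⟨m, e⟩ : Σ _ : ℕ, ℤ) ∈ Sg := by
      rw [hmem]
      refine ⟨⟨by exact_mod_cast i1', Nat.le_floor i2, by exact_mod_cast q2, ?_⟩, ?_, ?_, ?_⟩
      · have h4 : IsCoprime (m : ℤ) (n : ℤ) := ⟨-b, a * e, by linear_combination q1⟩
        exact Nat.isCoprime_iff_coprime.1 h4
      · have h4 : (-2 * (m : ℤ) : ℤ) < e := by exact_mod_cast i3
        exact h4.le
      · exact_mod_cast i4
      · exact ⟨n * a, -b, by linear_combination q1⟩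
    have hv : (act (Mx ⟨⟨m, e⟩, hp⟩) g).2 = (act M.1 g).2 := by
      rw [hval2 ⟨⟨m, e⟩, hp⟩, h3]
      unfold vv pw qw
      rw [Int.cast_natCast]
    have hK : vv n m e x τ r ∈ KK R θ := by
      have h4 := hval2 ⟨⟨m, e⟩, hp⟩
      simp only at h4
      rw [← h4, hv]
      exact h2
    refine ⟨⟨⟨m, e⟩, hp⟩, Subtype.ext ?_⟩
    show Mx ⟨⟨m, e⟩, hp⟩ = M.1
    have h10 : (Mx ⟨⟨m, e⟩, hp⟩).1 1 0 = M.1.1 1 0 := by rw [hB10 ⟨⟨m, e⟩, hp⟩, q5]
    have h11 : (Mx ⟨⟨m, e⟩, hp⟩).1 1 1 = M.1.1 1 1 := by rw [hB11 ⟨⟨m, e⟩, hp⟩, q6]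
    refine K_01_uniq n d hn _ _ (hA ⟨⟨m, e⟩, hp⟩) M.2 g h10 h11 ?_ ?_ ?_ h1
    · rw [h10, q5, Int.cast_natCast]
      exact mul_ne_zero hS0 i1.ne'
    · rw [h10, h11, q5, q6, hg, Int.cast_natCast]
      intro h0
      apply hpw m e hK
      unfold pw qw
      have h5 : √(n : ℝ) * m + τ * (√(n : ℝ) * (m * x + e)) =
          (√(n : ℝ) * m * (x + 1 / τ) + √(n : ℝ) * e) * τ := by
        have hτ' : τ ≠ 0 := hτ.ne'
        field_simp
        ring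
      rw [h5]
      simp only at h0
      rw [h0, zero_mul]
    · rw [hval1 ⟨⟨m, e⟩, hp⟩ hK]
      exact ⟨Int.fract_nonneg _, Int.fract_lt_one _⟩
  unfold TT
  rw [← Finset.tsum_subtype Sg (fun p => Tm n p.1 p.2 ψ x τ r), ← hinj.tsum_eq hsupp]
  exact tsum_congr fun p => hval p

end Pool.Agent.LibSM56C
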