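import Pool.Agent.LibSM56C.K_Defs

/-! # SM56 part (C), section K
K_02 (SHORT): the series is periodic in `x`. PLAN. `M ↦ M n(1)`, `n(1) = (1, 1; 0, 1)`, is a bijection of
`AL n d` (new `b = n a + b`, new `e = m + e`), and `act M (x + 1, v) = act (M n(1)) (x, v)` (unfold act; the entries
of the product by `Matrix.mul_apply`, `Fin.sum_univ_two`). `Equiv.tsum_eq`. -/

set_option autoImplicit false

namespace Pool.Agent.LibSM56C

open MeasureTheory Set Filter Topology Complex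
open scoped ENNReal ComplexConjugate

private noncomputable def K_02_N : SL2R := ⟨!![1, 1; 0, 1], by simp [Matrix.det_fin_two]⟩

private theorem K_02_e00 (M : SL2R) : (M * K_02_N).1 0 0 = M.1 0 0 := by
  show (M.1 * !![(1 : ℝ), 1; 0, 1]) 0 0 = _
  simp [Matrix.mul_apply, Fin.sum_univ_two]

private theorem K_02_e01 (M : SL2R) : (M * K_02_N).1 0 1 = M.1 0 0 + M.1 0 1 := by
  show (M.1 * !![(1 : ℝ), 1; 0, 1]) 0 1 = _
  simp [Matrix.mul_apply, Fin.sum_univ_two]

private theorem K_02_e10 (M : SL2R) : (M * K_02_N).1 1 0 = M.1 1 0 := by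
  show (M.1 * !![(1 : ℝ), 1; 0, 1]) 1 0 = _
  simp [Matrix.mul_apply, Fin.sum_univ_two]

private theorem K_02_e11 (M : SL2R) : (M * K_02_N).1 1 1 = M.1 1 0 + M.1 1 1 := by
  show (M.1 * !![(1 : ℝ), 1; 0, 1]) 1 1 = _
  simp [Matrix.mul_apply, Fin.sum_univ_two]

private theorem K_02_mem (n d : ℕ) (M : SL2R) : M ∈ AL n d ↔ M * K_02_N ∈ AL n d := by
  have hs : ∀ a b : ℝ, √(n : ℝ) * a + b / √(n : ℝ) = (n * a + b) / √(n : ℝ) := by
    intro a b
    rcases Nat.eq_zero_or_pos n with h | h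
    · subst h
      simp
    · have h1 : 0 < (n : ℝ) := by exact_mod_cast h
      have h2 : √(n : ℝ) ≠ 0 := (Real.sqrt_pos.2 h1).ne'
      have h3 : √(n : ℝ) * √(n : ℝ) = n := Real.mul_self_sqrt h1.le
      field_simp
      rw [sq, h3]
      ring
  constructor
  · rintro ⟨a, b, m, e, h1, h2, h3, h4, h5, h6⟩
    refine ⟨a, n * a + b, m, m + e, by linear_combination h1, h2, ?_, ?_, ?_, ?_⟩
    · rw [K_02_e00, h3]
    · rw [K_02_e01, h3, h4, hs]
      push_cast
      ring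
    · rw [K_02_e10, h5]
    · rw [K_02_e11, h5, h6]
      push_cast
      ring
  · rintro ⟨a, b, m, e, h1, h2, h3, h4, h5, h6⟩
    rw [K_02_e00] at h3
    rw [K_02_e01] at h4
    rw [K_02_e10] at h5
    rw [K_02_e11] at h6
    refine ⟨a, b - n * a, m, e - m, by linear_combination h1, h2, h3, ?_, h5, ?_⟩
    · have h7 := hs (-a) b
      rw [show ((b - n * a : ℤ) : ℝ) = n * (-a) + b by push_cast; ring, ← h7, ← h4, h3]
      ring
    · rw [h5] at h6
      push_cast
      linear_combination h6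

private theorem K_02_act (M : SL2R) (x : ℝ) (v : ℝ × ℝ) : act M (x + 1, v) = act (M * K_02_N) (x, v) := by
  unfold act
  rw [K_02_e00, K_02_e01, K_02_e10, K_02_e11]
  simp only
  have e1 : M.1 0 0 * (x + 1) + M.1 0 1 = M.1 0 0 * x + (M.1 0 0 + M.1 0 1) := by ring
  have e2 : M.1 1 0 * (x + 1) + M.1 1 1 = M.1 1 0 * x + (M.1 1 0 + M.1 1 1) := by ring
  rw [e1, e2]

theorem tt_per (n d : ℕ) (φ : ℝ × ℝ × ℝ → ℂ) (x : ℝ) (v : ℝ × ℝ) :
    TT (AL n d) φ (x + 1, v) = TT (AL n d) φ (x, v) := by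
  unfold TT
  have h := Equiv.tsum_eq ((Equiv.mulRight K_02_N).subtypeEquiv (K_02_mem n d))
    (fun M : AL n d => Str.indicator φ (act M.1 (x, v)))
  rw [← h]
  refine tsum_congr fun M => ?_
  rw [K_02_act]
  rfl

theorem tt_per_int (n d : ℕ) (φ : ℝ × ℝ × ℝ → ℂ) (x : ℝ) (k : ℤ) (v : ℝ × ℝ) :
    TT (AL n d) φ (x + k, v) = TT (AL n d) φ (x, v) := by
  induction k using Int.induction_on with
  | zero => rw [Int.cast_zero, add_zero]
  | succ k ih =>
    rw [← ih, ← tt_per n d φ (x + (k : ℤ)) v]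
    push_cast
    rw [add_assoc]
  | pred k ih =>
    rw [← ih, ← tt_per n d φ (x + ((-(k : ℤ) - 1 : ℤ) : ℝ)) v]
    push_cast
    rw [show x + (-(k : ℝ) - 1) + 1 = x + -(k : ℝ) by ring]

end Pool.Agent.LibSM56C
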