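import Pool.Agent.LibSM56C.K_Defs

/-! # SM56 part (C), section K
K_03 (SHORT, only Mathlib): rotation of the unit interval. PLAN. `f x = H (Int.fract x)` has period 1;
`∫⁻ x in Ico 0 1, f (x - c) = ∫⁻ x in Ico (-c) (1 - c), f x` (translation, `MeasurePreserving.setLIntegral_comp_emb`)
and `IsAddFundamentalDomain.setLIntegral_eq` with `isAddFundamentalDomain_Ioc` (`Ico_ae_eq_Ioc`). -/

set_option autoImplicit false

namespace Pool.Agent.LibSM56C

open MeasureTheory Set Filter Topology Complex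
open scoped ENNReal ComplexConjugate

theorem lint_fract (H : ℝ → ℝ≥0∞) (c : ℝ) :
    ∫⁻ x in Ico (0:ℝ) 1, H (Int.fract (x - c)) = ∫⁻ x in Ico (0:ℝ) 1, H x := by
  have hmp : MeasurePreserving (fun x : ℝ => x - c) volume volume := measurePreserving_sub_right volume c
  have hme : MeasurableEmbedding (fun x : ℝ => x - c) := (Homeomorph.subRight c).measurableEmbedding
  have h5 := hmp.setLIntegral_comp_emb hme (fun y => H (Int.fract y)) (Ico 0 1)
  rw [h5, image_sub_const_Ico]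
  have h1 : ∫⁻ x in Ico (0 - c) (1 - c), H (Int.fract x) = ∫⁻ x in Ioc (0 - c) (0 - c + 1), H (Int.fract x) := by
    rw [show (0 - c + 1 : ℝ) = 1 - c by ring, Measure.restrict_congr_set Ico_ae_eq_Ioc]
  have h2 : ∫⁻ x in Ico (0 : ℝ) 1, H (Int.fract x) = ∫⁻ x in Ioc (0 : ℝ) (0 + 1), H (Int.fract x) := by
    rw [zero_add, Measure.restrict_congr_set Ico_ae_eq_Ioc]
  have h3 : ∫⁻ x in Ioc (0 - c) (0 - c + 1), H (Int.fract x) = ∫⁻ x in Ioc (0 : ℝ) (0 + 1), H (Int.fract x) := by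
    refine (isAddFundamentalDomain_Ioc one_pos (0 - c)).setLIntegral_eq (isAddFundamentalDomain_Ioc one_pos 0)
      (fun x => H (Int.fract x)) ?_
    rintro ⟨g, hg⟩ x
    obtain ⟨k, rfl⟩ := AddSubgroup.mem_zmultiples_iff.1 hg
    show H (Int.fract (k • (1 : ℝ) + x)) = H (Int.fract x)
    rw [zsmul_one, Int.fract_intCast_add]
  have h4 : ∫⁻ x in Ico (0 : ℝ) 1, H (Int.fract x) = ∫⁻ x in Ico (0 : ℝ) 1, H x :=
    setLIntegral_congr_fun measurableSet_Ico fun x hx => by
      show H (Int.fract x) = H x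
      rw [Int.fract_eq_self.2 ⟨hx.1, hx.2⟩]
  rw [h1, h3, ← h2, h4]

end Pool.Agent.LibSM56C
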