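import Pool.Agent.LibSM56C.K_Defs

/-! # SM56 part (C), section K
K_04 (MEDIUM, only real analysis): the coordinates `v = (ρ s e^r, e^(-r))` of the box. PLAN. `UU ρ` is, for fixed
`v₂ ∈ [e^(-1), 1]`, the interval `0 < v₁ ≤ ρ/v₂`; Tonelli (`lintegral_prod_symm`, indicator of the measurable set
`UU ρ`); `v₁ = (ρ/v₂) s`: scaling of the line (`lintegral_image_eq_lintegral_abs_deriv_mul` or
`Measure.map` of a multiplication), factor `ρ/v₂`; then `v₂ = e^(-r)`, factor `e^(-r)`
(`lintegral_image_eq_lintegral_abs_deriv_mul` on `Icc 0 1`): the total factor is `ρ`. Finally Tonelli again. -/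

set_option autoImplicit false

namespace Pool.Agent.LibSM56C

open MeasureTheory Set Filter Topology Complex
open scoped ENNReal ComplexConjugate

private theorem K_04_scale (c : ℝ) (hc : 0 < c) (f : ℝ → ℝ≥0∞) :
    ∫⁻ x in Ioc (0:ℝ) c, f (x / c) = ENNReal.ofReal c * ∫⁻ s in Ioc (0:ℝ) 1, f s := by
  have himg : Ioc (0:ℝ) c = (fun s : ℝ => c * s) '' Ioc (0:ℝ) 1 := by
    ext x
    constructor
    · rintro ⟨h1, h2⟩
      refine ⟨x / c, ⟨div_pos h1 hc, (div_le_one hc).mpr h2⟩, ?_⟩
      show c * (x / c) = x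
      field_simp
    · rintro ⟨s, ⟨h1, h2⟩, rfl⟩
      refine ⟨mul_pos hc h1, ?_⟩
      show c * s ≤ c
      nlinarith
  have hinj : InjOn (fun s : ℝ => c * s) (Ioc (0:ℝ) 1) := by
    intro a _ b _ h
    have h' : c * a = c * b := h
    exact mul_left_cancel₀ hc.ne' h'
  have hder : ∀ s ∈ Ioc (0:ℝ) 1, HasDerivWithinAt (fun s : ℝ => c * s) c (Ioc (0:ℝ) 1) s := by
    intro s _
    have := ((hasDerivAt_id s).const_mul c).hasDerivWithinAt (s := Ioc (0:ℝ) 1)
    simpa using this
  rw [himg, lintegral_image_eq_lintegral_abs_deriv_mul measurableSet_Ioc hder hinj, abs_of_pos hc]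
  have h2 : ∀ s : ℝ, f (c * s / c) = f s := by
    intro s
    rw [mul_div_cancel_left₀ _ hc.ne']
  simp only [h2]
  rw [lintegral_const_mul' _ _ ENNReal.ofReal_ne_top]

private theorem K_04_exp (ρ : ℝ) (hρ : 0 < ρ) (H : ℝ → ℝ≥0∞) :
    ∫⁻ y in Icc (Real.exp (-1)) 1, ENNReal.ofReal (ρ / y) * H (-Real.log y) =
      ENNReal.ofReal ρ * ∫⁻ r in Icc (0:ℝ) 1, H r := by
  have himg : Icc (Real.exp (-1)) 1 = (fun r : ℝ => Real.exp (-r)) '' Icc (0:ℝ) 1 := by
    ext y
    constructor
    · rintro ⟨h1, h2⟩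
      have hy : 0 < y := lt_of_lt_of_le (Real.exp_pos _) h1
      refine ⟨-Real.log y, ⟨?_, ?_⟩, ?_⟩
      · have := Real.log_nonpos hy.le h2
        linarith
      · have := (Real.le_log_iff_exp_le hy).mpr h1
        linarith
      · show Real.exp (-(-Real.log y)) = y
        rw [neg_neg, Real.exp_log hy]
    · rintro ⟨r, ⟨h1, h2⟩, rfl⟩
      refine ⟨?_, ?_⟩
      · show Real.exp (-1) ≤ Real.exp (-r)
        exact Real.exp_le_exp.mpr (by linarith)
      · show Real.exp (-r) ≤ 1
        exact Real.exp_le_one_iff.mpr (by linarith)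
  have hinj : InjOn (fun r : ℝ => Real.exp (-r)) (Icc (0:ℝ) 1) := by
    intro a _ b _ h
    have h' : Real.exp (-a) = Real.exp (-b) := h
    have := Real.exp_injective h'
    linarith
  have hder : ∀ r ∈ Icc (0:ℝ) 1,
      HasDerivWithinAt (fun r : ℝ => Real.exp (-r)) (-Real.exp (-r)) (Icc (0:ℝ) 1) r := by
    intro r _
    have := ((hasDerivAt_id r).neg.exp).hasDerivWithinAt (s := Icc (0:ℝ) 1)
    simpa using this
  rw [himg, lintegral_image_eq_lintegral_abs_deriv_mul measurableSet_Icc hder hinj]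
  have h2 : ∀ r : ℝ, ENNReal.ofReal |(-Real.exp (-r))| *
      (ENNReal.ofReal (ρ / Real.exp (-r)) * H (-Real.log (Real.exp (-r)))) =
      ENNReal.ofReal ρ * H r := by
    intro r
    rw [abs_neg, abs_of_pos (Real.exp_pos _), Real.log_exp, neg_neg, ← mul_assoc,
      ← ENNReal.ofReal_mul (Real.exp_pos _).le]
    congr 2
    have := (Real.exp_pos (-r)).ne'
    field_simp
  simp only [h2]
  rw [lintegral_const_mul' _ _ ENNReal.ofReal_ne_top]

private theorem K_04_meas (ρ : ℝ) : MeasurableSet (UU ρ) := by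
  unfold UU
  have h1 : MeasurableSet {v : ℝ × ℝ | Real.exp (-1) ≤ v.2} := measurableSet_le measurable_const measurable_snd
  have h2 : MeasurableSet {v : ℝ × ℝ | v.2 ≤ 1} := measurableSet_le measurable_snd measurable_const
  have h3 : MeasurableSet {v : ℝ × ℝ | 0 < v.1} := measurableSet_lt measurable_const measurable_fst
  have h4 : MeasurableSet {v : ℝ × ℝ | v.1 * v.2 ≤ ρ} :=
    measurableSet_le (measurable_fst.mul measurable_snd) measurable_const
  exact h1.inter (h2.inter (h3.inter h4))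

theorem lint_UU (ρ : ℝ) (hρ : 0 < ρ) (J : ℝ → ℝ → ℝ≥0∞) (hJ : Measurable (Function.uncurry J)) :
    ∫⁻ v in UU ρ, J (v.1 * v.2 / ρ) (-Real.log v.2) =
      ENNReal.ofReal ρ * ∫⁻ s in Ioc (0:ℝ) 1, ∫⁻ r in Icc (0:ℝ) 1, J s r := by
  have hUm := K_04_meas ρ
  have hJ2 : Measurable (fun v : ℝ × ℝ => J (v.1 * v.2 / ρ) (-Real.log v.2)) := by
    have h1 : Measurable (fun v : ℝ × ℝ => ((v.1 * v.2 / ρ, -Real.log v.2) : ℝ × ℝ)) :=
      ((measurable_fst.mul measurable_snd).div_const ρ).prodMk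
        (Real.measurable_log.comp measurable_snd).neg
    exact hJ.comp h1
  rw [← lintegral_indicator hUm, Measure.volume_eq_prod,
    lintegral_prod_symm _ ((hJ2.indicator hUm).aemeasurable)]
  have hin : ∀ y : ℝ, (∫⁻ x : ℝ, (UU ρ).indicator
      (fun v : ℝ × ℝ => J (v.1 * v.2 / ρ) (-Real.log v.2)) (x, y)) =
      (Icc (Real.exp (-1)) 1).indicator
        (fun y => ENNReal.ofReal (ρ / y) * ∫⁻ s in Ioc (0:ℝ) 1, J s (-Real.log y)) y := by
    intro y
    by_cases hy : y ∈ Icc (Real.exp (-1)) 1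
    · rw [indicator_of_mem hy]
      have hy0 : 0 < y := lt_of_lt_of_le (Real.exp_pos _) hy.1
      have hc : 0 < ρ / y := div_pos hρ hy0
      rw [← K_04_scale (ρ / y) hc (fun s => J s (-Real.log y)), ← lintegral_indicator measurableSet_Ioc]
      refine lintegral_congr fun x => ?_
      by_cases hx : x ∈ Ioc (0:ℝ) (ρ / y)
      · rw [indicator_of_mem hx]
        have hm : ((x, y) : ℝ × ℝ) ∈ UU ρ := by
          refine ⟨hy.1, hy.2, hx.1, ?_⟩
          exact (le_div_iff₀ hy0).mp hx.2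
        rw [indicator_of_mem hm]
        show J (x * y / ρ) (-Real.log y) = J (x / (ρ / y)) (-Real.log y)
        congr 1
        field_simp
      · rw [indicator_of_notMem hx]
        have hm : ((x, y) : ℝ × ℝ) ∉ UU ρ := by
          rintro ⟨_, _, h3, h4⟩
          exact hx ⟨h3, (le_div_iff₀ hy0).mpr h4⟩
        rw [indicator_of_notMem hm]
    · rw [indicator_of_notMem hy]
      have hz : ∀ x : ℝ, (UU ρ).indicator
          (fun v : ℝ × ℝ => J (v.1 * v.2 / ρ) (-Real.log v.2)) (x, y) = 0 := by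
        intro x
        apply indicator_of_notMem
        rintro ⟨h1, h2, _, _⟩
        exact hy ⟨h1, h2⟩
      simp only [hz, lintegral_zero]
  simp only [hin]
  rw [lintegral_indicator measurableSet_Icc,
    K_04_exp ρ hρ (fun r => ∫⁻ s in Ioc (0:ℝ) 1, J s r)]
  congr 1
  have hJs : Measurable (Function.uncurry (fun (r s : ℝ) => J s r)) := by
    have : (Function.uncurry (fun (r s : ℝ) => J s r)) =
        (Function.uncurry J) ∘ (fun p : ℝ × ℝ => (p.2, p.1)) := by
      ext p; rfl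
    rw [this]
    exact hJ.comp (measurable_snd.prodMk measurable_fst)
  exact lintegral_lintegral_swap hJs.aemeasurable

end Pool.Agent.LibSM56C
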