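import Pool.Agent.LibSM56C.K_Defs
import Pool.Agent.LibSM56C.K_01
import Pool.Agent.LibSM56C.K_02
import Pool.Agent.LibSM56C.K_03
import Pool.Agent.LibSM56C.K_04

/-! # SM56 part (C), section K
K_05 (MEDIUM): the integral of the explicit sum over the cube is at most `1/ρ` times the integral of the series
over the box. PLAN. `GG` is measurable in `(x, s, r)` (finite sum; `ψ` measurable; `qw`, `pw`, `xx` measurable). On
`Str ∩ {g | g.2 ∈ UU ρ}` put `τ = v₁ v₂`, `s = τ/ρ`, `r = -log v₂`, `x₀ = Int.fract (x - 1/τ)`: then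
`(x, v) = (x₀ + 1/τ + k, ρ s e^r, e^(-r))`, `k = ⌊x - 1/τ⌋`, so by `tt_per_int` and `tt_eq`
`TT .. g = GG .. x₀ s r`. Replace the integrand (`setLIntegral_congr_fun`), Tonelli on `ℝ × (ℝ × ℝ)`
(`Measure.volume_eq_prod`, `lintegral_prod_symm` or `setLIntegral_prod`), inner integral over `x` by `lint_fract`, the integral over `v` by
`lint_UU` with `J s r = ∫⁻ x in Ico 0 1, ‖GG n d R ρ ψ x s r‖ₑ ^ 2` (measurable: `Measurable.lintegral_prod_right`), and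
Tonelli again. -/

set_option autoImplicit false

namespace Pool.Agent.LibSM56C

open MeasureTheory Set Filter Topology Complex
open scoped ENNReal ComplexConjugate

theorem meas_GG (n d : ℕ) (R ρ : ℝ) (ψ : ℝ × ℝ → ℂ) (hψ : Measurable ψ) :
    Measurable fun p : ℝ × ℝ × ℝ => GG n d R ρ ψ p.1 p.2.1 p.2.2 := by
  unfold GG
  refine Finset.measurable_sum _ fun m _ => Finset.measurable_sum _ fun e _ => ?_
  unfold Tm ee
  refine Measurable.mul ?_ ?_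
  · have h1 : Measurable fun p : ℝ × ℝ × ℝ => xx n m e p.1 (ρ * p.2.1) := by
      unfold xx pw qw
      fun_prop
    have h2 : Continuous fun t : ℝ => cexp (2 * Real.pi * I * t) := by fun_prop
    exact h2.measurable.comp h1
  · refine hψ.comp ?_
    unfold vv pw qw
    fun_prop

private theorem K_05_UU (ρ : ℝ) : MeasurableSet (UU ρ) := by
  have e : UU ρ = {v : ℝ × ℝ | Real.exp (-1) ≤ v.2} ∩ ({v : ℝ × ℝ | v.2 ≤ 1} ∩
      ({v : ℝ × ℝ | 0 < v.1} ∩ {v : ℝ × ℝ | v.1 * v.2 ≤ ρ})) := rfl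
  rw [e]
  refine (measurableSet_le measurable_const measurable_snd).inter
    ((measurableSet_le measurable_snd measurable_const).inter
      ((measurableSet_lt measurable_const measurable_fst).inter
        (measurableSet_le (measurable_fst.mul measurable_snd) measurable_const)))

private theorem K_05_pt (n d : ℕ) (hn : 1 ≤ n) (hd : 1 ≤ d) (R θ ρ : ℝ) (hR : 0 < R) (hθ : 0 < θ)
    (hθ1 : θ ≤ 1 / 16) (hρ : 0 < ρ) (hρθ : ρ * θ ≤ 1 / 16) (ψ : ℝ × ℝ → ℂ)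
    (hψ : ∀ v, v ∉ KK R θ → ψ v = 0) (x : ℝ) (v : ℝ × ℝ) (hv : v ∈ UU ρ) :
    TT (AL n d) (tw ψ) (x, v) =
      GG n d R ρ ψ (Int.fract (x - 1 / (v.1 * v.2))) (v.1 * v.2 / ρ) (-Real.log v.2) := by
  obtain ⟨v1, v2⟩ := v
  obtain ⟨h1, h2, h3, h4⟩ := hv
  simp only at h1 h2 h3 h4 ⊢
  have h20 : 0 < v2 := lt_of_lt_of_le (Real.exp_pos _) h1
  have hτ : 0 < v1 * v2 := mul_pos h3 h20
  have hlog : -1 ≤ Real.log v2 := by
    rw [Real.le_log_iff_exp_le h20]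
    exact h1
  have hlog2 : Real.log v2 ≤ 0 := Real.log_nonpos h20.le h2
  have e1 : ρ * (v1 * v2 / ρ) = v1 * v2 := by field_simp
  have key := tt_eq n d hn hd R θ ρ hR hθ hθ1 hρ hρθ ψ hψ (Int.fract (x - 1 / (v1 * v2)))
    (v1 * v2 / ρ) (-Real.log v2) ⟨Int.fract_nonneg _, (Int.fract_lt_one _).le⟩
    ⟨div_pos hτ hρ, (div_le_one hρ).2 h4⟩ ⟨by linarith, by linarith⟩
  rw [← key, e1, neg_neg, Real.exp_log h20, Real.exp_neg, Real.exp_log h20]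
  have e2 : v1 * v2 * v2⁻¹ = v1 := by field_simp
  rw [e2, ← tt_per_int n d (tw ψ) (Int.fract (x - 1 / (v1 * v2)) + 1 / (v1 * v2))
    ⌊x - 1 / (v1 * v2)⌋ (v1, v2)]
  congr 2
  have e3 := Int.fract_add_floor (x - 1 / (v1 * v2))
  linarith

theorem box_int (n d : ℕ) (hn : 1 ≤ n) (hd : 1 ≤ d) (R θ ρ : ℝ) (hR : 0 < R) (hθ : 0 < θ) (hθ1 : θ ≤ 1 / 16)
    (hρ : 0 < ρ) (hρθ : ρ * θ ≤ 1 / 16) (ψ : ℝ × ℝ → ℂ) (hm : Measurable ψ) (hψ : ∀ v, v ∉ KK R θ → ψ v = 0) :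
    ∫⁻ x in Ico (0:ℝ) 1, ∫⁻ s in Ioc (0:ℝ) 1, ∫⁻ r in Icc (0:ℝ) 1, ‖GG n d R ρ ψ x s r‖ₑ ^ 2 ≤
      ENNReal.ofReal (1 / ρ) *
        ∫⁻ g in Str ∩ {g : ℝ × ℝ × ℝ | g.2 ∈ UU ρ}, ‖TT (AL n d) (tw ψ) g‖ₑ ^ 2 := by
  set F : ℝ × ℝ × ℝ → ℝ≥0∞ := fun p => ‖GG n d R ρ ψ p.1 p.2.1 p.2.2‖ₑ ^ 2 with hF
  have hFm : Measurable F := (meas_GG n d R ρ ψ hm).enorm.pow_const 2
  have hset : Str ∩ {g : ℝ × ℝ × ℝ | g.2 ∈ UU ρ} = Ico (0 : ℝ) 1 ×ˢ UU ρ := by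
    ext g
    constructor
    · rintro ⟨⟨h1, h2⟩, h3⟩
      exact ⟨⟨h1, h2⟩, h3⟩
    · rintro ⟨⟨h1, h2⟩, h3⟩
      exact ⟨⟨h1, h2⟩, h3⟩
  have hUm := K_05_UU ρ
  -- the substitution
  have hsub : Measurable fun g : ℝ × ℝ × ℝ =>
      (Int.fract (g.1 - 1 / (g.2.1 * g.2.2)), g.2.1 * g.2.2 / ρ, -Real.log g.2.2) := by
    refine Measurable.prodMk ?_ (Measurable.prodMk ?_ ?_)
    · exact measurable_fract.comp (by fun_prop)
    · fun_prop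
    · exact (Real.measurable_log.comp (by fun_prop)).neg
  have hJm : Measurable (Function.uncurry fun s r : ℝ => ∫⁻ x in Ico (0 : ℝ) 1, F (x, s, r)) := by
    have h1 : Measurable fun q : (ℝ × ℝ) × ℝ => F (q.2, q.1.1, q.1.2) :=
      hFm.comp (by fun_prop)
    exact h1.lintegral_prod_right'
  have h1 : ∫⁻ g in Str ∩ {g : ℝ × ℝ × ℝ | g.2 ∈ UU ρ}, ‖TT (AL n d) (tw ψ) g‖ₑ ^ 2 =
      ENNReal.ofReal ρ * ∫⁻ s in Ioc (0 : ℝ) 1, ∫⁻ r in Icc (0 : ℝ) 1, ∫⁻ x in Ico (0 : ℝ) 1, F (x, s, r) := by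
    rw [hset, ← lint_UU ρ hρ (fun s r => ∫⁻ x in Ico (0 : ℝ) 1, F (x, s, r)) hJm]
    have h2 : ∫⁻ g in Ico (0 : ℝ) 1 ×ˢ UU ρ, ‖TT (AL n d) (tw ψ) g‖ₑ ^ 2 =
        ∫⁻ g in Ico (0 : ℝ) 1 ×ˢ UU ρ,
          F (Int.fract (g.1 - 1 / (g.2.1 * g.2.2)), g.2.1 * g.2.2 / ρ, -Real.log g.2.2) := by
      refine setLIntegral_congr_fun (measurableSet_Ico.prod hUm) fun g hg => ?_
      obtain ⟨x, v⟩ := g
      have h3 := K_05_pt n d hn hd R θ ρ hR hθ hθ1 hρ hρθ ψ hψ x v hg.2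
      simp only [hF]
      rw [h3]
    have h4 : Measurable fun g : ℝ × ℝ × ℝ =>
        F (Int.fract (g.1 - 1 / (g.2.1 * g.2.2)), g.2.1 * g.2.2 / ρ, -Real.log g.2.2) := hFm.comp hsub
    rw [h2, Measure.volume_eq_prod ℝ (ℝ × ℝ), ← Measure.prod_restrict,
      lintegral_prod_symm _ h4.aemeasurable]
    refine lintegral_congr fun v => ?_
    exact lint_fract (fun x => F (x, v.1 * v.2 / ρ, -Real.log v.2)) (1 / (v.1 * v.2))
  have h2 : ∫⁻ x in Ico (0:ℝ) 1, ∫⁻ s in Ioc (0:ℝ) 1, ∫⁻ r in Icc (0:ℝ) 1, ‖GG n d R ρ ψ x s r‖ₑ ^ 2 =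
      ∫⁻ s in Ioc (0 : ℝ) 1, ∫⁻ r in Icc (0 : ℝ) 1, ∫⁻ x in Ico (0 : ℝ) 1, F (x, s, r) := by
    have h3 : Measurable (Function.uncurry fun x s : ℝ => ∫⁻ r in Icc (0 : ℝ) 1, F (x, s, r)) := by
      have h4 : Measurable fun q : (ℝ × ℝ) × ℝ => F (q.1.1, q.1.2, q.2) := hFm.comp (by fun_prop)
      exact h4.lintegral_prod_right'
    change ∫⁻ x in Ico (0:ℝ) 1, ∫⁻ s in Ioc (0:ℝ) 1, ∫⁻ r in Icc (0:ℝ) 1, F (x, s, r) = _
    rw [lintegral_lintegral_swap h3.aemeasurable]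
    refine lintegral_congr fun s => ?_
    have h5 : Measurable (Function.uncurry fun x r : ℝ => F (x, s, r)) := by
      have h6 : Measurable fun q : ℝ × ℝ => F (q.1, s, q.2) := hFm.comp (by fun_prop)
      exact h6
    exact lintegral_lintegral_swap h5.aemeasurable
  rw [h1, h2, ← mul_assoc, ← ENNReal.ofReal_mul (by positivity), one_div_mul_cancel hρ.ne',
    ENNReal.ofReal_one, one_mul]

end Pool.Agent.LibSM56C
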