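import Pool.Agent.LibSM56C.K_Defs

/-! # SM56 part (C), section K
K_06 (MEDIUM): derivatives of one term. PLAN. `w₁ = (p + τ q) e^r`, `w₂ = q e^(-r)`, `p = √n m > 0`. Where
`w₁ > 0`: `d/dr log w₁ = 1`, `d/dr (w₂/w₁) = -2 (w₂/w₁)`; `d/dτ log w₁ = e^(2r) w₂/w₁`,
`d/dτ (w₂/w₁) = -e^(2r) (w₂/w₁)²`, `d/dτ xx = -1/(p+τq)² = -e^(2r)/w₁²`; product rule. Where `w₁ < R` (an open set
which contains `w₁ ≤ 0`, R > 0): all the `bb` vanish in a neighbourhood (`A (log w₁) = 0` for `0 < w₁ < R` because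
`log w₁ < log R`), so the derivative is 0 (`HasDerivAt.congr_of_eventuallyEq`). Hypothesis hA: `A`, `A'` vanish below `log R`.
Continuity: `ee (xx ..)` is continuous where `w₁ > 0`, and the product vanishes for `w₁ < R`
(`continuous_iff_continuousAt`). -/

set_option autoImplicit false

namespace Pool.Agent.LibSM56C

open MeasureTheory Set Filter Topology Complex
open scoped ENNReal ComplexConjugate

private theorem K_06_bb_zero (A B : ℝ → ℂ) (k : ℕ) (R : ℝ) (_hR : 0 < R)
    (h0 : ∀ t < Real.log R, A t = 0) (v : ℝ × ℝ) (hv : v.1 < R) : bb A B k v = 0 := by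
  unfold bb
  split_ifs with h
  · rw [h0 _ (Real.log_lt_log h hv)]
    simp
  · rfl

private theorem K_06_bb_neg (A B : ℝ → ℂ) (k : ℕ) (v : ℝ × ℝ) (hv : ¬ 0 < v.1) : bb A B k v = 0 := by
  unfold bb
  rw [if_neg hv]

private theorem K_06_path (A A' B B' : ℝ → ℂ) (k : ℕ)
    (hA : ∀ t, HasDerivAt A (A' t) t) (hB : ∀ t, HasDerivAt B (B' t) t)
    (v1 v2 : ℝ → ℝ) (s a b : ℝ) (h1 : HasDerivAt v1 (a * v1 s) s)
    (h2 : HasDerivAt (fun s => v2 s / v1 s) b s) (hpos : 0 < v1 s) :
    HasDerivAt (fun s => bb A B k (v1 s, v2 s))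
      ((a * A' (Real.log (v1 s)) * B (v2 s / v1 s) + b * A (Real.log (v1 s)) * B' (v2 s / v1 s) -
        2 * k * a * A (Real.log (v1 s)) * B (v2 s / v1 s)) / (v1 s : ℂ) ^ (2 * k)) s := by
  have hev : ∀ᶠ u in 𝓝 s, 0 < v1 u := h1.continuousAt.eventually (lt_mem_nhds hpos)
  have heq : (fun s => bb A B k (v1 s, v2 s)) =ᶠ[𝓝 s]
      fun s => A (Real.log (v1 s)) * B (v2 s / v1 s) / (v1 s : ℂ) ^ (2 * k) := by
    filter_upwards [hev] with u hu
    unfold bb
    rw [if_pos hu]
  refine HasDerivAt.congr_of_eventuallyEq ?_ heq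
  have hl : HasDerivAt (fun s => Real.log (v1 s)) a s := by
    have := h1.log hpos.ne'
    rwa [mul_div_assoc, div_self hpos.ne', mul_one] at this
  have hA1 : HasDerivAt (fun s => A (Real.log (v1 s))) ((a : ℂ) * A' (Real.log (v1 s))) s := by
    have := (hA (Real.log (v1 s))).scomp s hl
    simpa [Function.comp_def] using this
  have hB1 : HasDerivAt (fun s => B (v2 s / v1 s)) ((b : ℂ) * B' (v2 s / v1 s)) s := by
    have := (hB (v2 s / v1 s)).scomp s h2
    simpa [Function.comp_def] using this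
  have hc : HasDerivAt (fun s => (v1 s : ℂ)) ((a * v1 s : ℝ) : ℂ) s := h1.ofReal_comp
  have hp : HasDerivAt (fun s => (v1 s : ℂ) ^ (2 * k)) (2 * k * a * (v1 s : ℂ) ^ (2 * k)) s := by
    have := hc.pow (2 * k)
    refine this.congr_deriv ?_
    rcases Nat.eq_zero_or_pos k with hk | hk
    · subst hk; simp
    · obtain ⟨j, rfl⟩ : ∃ j, k = j + 1 := ⟨k - 1, by omega⟩
      have : 2 * (j + 1) - 1 = 2 * j + 1 := by omega
      rw [this]
      push_cast
      ring
  have hne : (v1 s : ℂ) ^ (2 * k) ≠ 0 := pow_ne_zero _ (by exact_mod_cast hpos.ne')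
  refine ((hA1.mul hB1).div hp hne).congr_deriv ?_
  simp only [Pi.mul_apply]
  field_simp

private theorem K_06_vv (n m : ℕ) (e : ℤ) (x τ r : ℝ) :
    vv n m e x τ r = (pw n m e x τ * Real.exp r, qw n m e x * Real.exp (-r)) := rfl

theorem Tm_r (n m : ℕ) (e : ℤ) (hn : 1 ≤ n) (hm : 1 ≤ m) (R : ℝ) (hR : 0 < R) (A A' B B' : ℝ → ℂ) (k : ℕ)
    (hA : ∀ t, HasDerivAt A (A' t) t) (hB : ∀ t, HasDerivAt B (B' t) t)
    (h0 : ∀ t < Real.log R, A t = 0 ∧ A' t = 0) (x τ r : ℝ) :
    HasDerivAt (fun r => Tm n m e (bb A B k) x τ r)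
      (Tm n m e (bb A' B k) x τ r - 2 * Tm n m e (bb A (fun t => t * B' t) k) x τ r -
        2 * k * Tm n m e (bb A B k) x τ r) r := by
  by_cases hP : 0 < pw n m e x τ
  · have hpos : 0 < pw n m e x τ * Real.exp r := mul_pos hP (Real.exp_pos _)
    have h1 : HasDerivAt (fun r => pw n m e x τ * Real.exp r) (1 * (pw n m e x τ * Real.exp r)) r := by
      simpa using (Real.hasDerivAt_exp r).const_mul (pw n m e x τ)
    have h2 : HasDerivAt (fun r => qw n m e x * Real.exp (-r) / (pw n m e x τ * Real.exp r))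
        (-2 * (qw n m e x * Real.exp (-r) / (pw n m e x τ * Real.exp r))) r := by
      have ha : HasDerivAt (fun r => qw n m e x * Real.exp (-r)) (qw n m e x * (Real.exp (-r) * (-1))) r := by
        have := ((hasDerivAt_id r).neg).exp
        simpa using this.const_mul (qw n m e x)
      have hb : HasDerivAt (fun r => pw n m e x τ * Real.exp r) (pw n m e x τ * Real.exp r) r := by
        simpa using (Real.hasDerivAt_exp r).const_mul (pw n m e x τ)
      refine (ha.div hb hpos.ne').congr_deriv ?_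
      field_simp
      ring
    have key := K_06_path A A' B B' k hA hB (fun r => pw n m e x τ * Real.exp r)
      (fun r => qw n m e x * Real.exp (-r)) r 1 _ h1 h2 hpos
    have := key.const_mul (ee (xx n m e x τ))
    unfold Tm
    simp only [K_06_vv]
    refine this.congr_deriv ?_
    unfold bb
    simp only [if_pos hpos]
    push_cast
    ring
  · have hz : ∀ (A B : ℝ → ℂ) (k : ℕ) (r : ℝ), Tm n m e (bb A B k) x τ r = 0 := by
      intro A B k r
      unfold Tm
      rw [K_06_bb_neg, mul_zero]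
      rw [K_06_vv]
      simp only [not_lt] at hP ⊢
      exact mul_nonpos_of_nonpos_of_nonneg hP (Real.exp_pos _).le
    simp only [hz, mul_zero, sub_zero]
    exact hasDerivAt_const r 0

theorem Tm_s (n m : ℕ) (e : ℤ) (hn : 1 ≤ n) (hm : 1 ≤ m) (R ρ : ℝ) (hR : 0 < R) (A A' B B' : ℝ → ℂ) (k : ℕ)
    (hA : ∀ t, HasDerivAt A (A' t) t) (hB : ∀ t, HasDerivAt B (B' t) t)
    (h0 : ∀ t < Real.log R, A t = 0 ∧ A' t = 0) (x s r : ℝ) :
    HasDerivAt (fun s => Tm n m e (bb A B k) x (ρ * s) r)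
      (ρ * Real.exp (2 * r) * (Tm n m e (bb A' (fun t => t * B t) k) x (ρ * s) r -
        Tm n m e (bb A (fun t => t ^ 2 * B' t) k) x (ρ * s) r -
        2 * k * Tm n m e (bb A (fun t => t * B t) k) x (ρ * s) r -
        2 * Real.pi * I * Tm n m e (bb A B (k + 1)) x (ρ * s) r)) s := by
  have hn0 : (0 : ℝ) < √(n : ℝ) := Real.sqrt_pos.mpr (by exact_mod_cast hn)
  have hm0 : (0 : ℝ) < (m : ℝ) := by exact_mod_cast hm
  set Q := qw n m e x with hQ
  have hpw : HasDerivAt (fun s => pw n m e x (ρ * s)) (ρ * Q) s := by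
    unfold pw
    rw [← hQ]
    have := (((hasDerivAt_id s).const_mul ρ).mul_const Q).const_add (√(n : ℝ) * m)
    simpa using this
  by_cases hP : 0 < pw n m e x (ρ * s)
  · have hpos : 0 < pw n m e x (ρ * s) * Real.exp r := mul_pos hP (Real.exp_pos _)
    set P := pw n m e x (ρ * s) with hPd
    have hEr : Real.exp (-r) = (Real.exp r)⁻¹ := Real.exp_neg r
    have hE2 : Real.exp (2 * r) = Real.exp r ^ 2 := by
      rw [← Real.exp_nat_mul]; norm_num
    have hE0 : (Real.exp r) ≠ 0 := (Real.exp_pos r).ne'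
    have h1 : HasDerivAt (fun s => pw n m e x (ρ * s) * Real.exp r)
        (ρ * Q / P * (pw n m e x (ρ * s) * Real.exp r)) s := by
      refine (hpw.mul_const (Real.exp r)).congr_deriv ?_
      rw [← hPd]
      field_simp
    have h2 : HasDerivAt (fun s => Q * Real.exp (-r) / (pw n m e x (ρ * s) * Real.exp r))
        (-(ρ * Q / P) * (Q * Real.exp (-r) / (P * Real.exp r))) s := by
      refine ((hasDerivAt_const s (Q * Real.exp (-r))).div (hpw.mul_const (Real.exp r)) hpos.ne').congr_deriv ?_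
      rw [← hPd]
      field_simp
      ring
    have key := K_06_path A A' B B' k hA hB (fun s => pw n m e x (ρ * s) * Real.exp r)
      (fun s => Q * Real.exp (-r)) s _ _ h1 h2 hpos
    have hx : HasDerivAt (fun s => xx n m e x (ρ * s)) (-(ρ / P ^ 2)) s := by
      unfold xx
      have ha : HasDerivAt (fun s : ℝ => ρ * s) ρ s := by simpa using (hasDerivAt_id s).const_mul ρ
      have hb : HasDerivAt (fun s => √(n : ℝ) * m * pw n m e x (ρ * s)) (√(n : ℝ) * m * (ρ * Q)) s :=
        hpw.const_mul _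
      have hne : √(n : ℝ) * m * pw n m e x (ρ * s) ≠ 0 := by positivity
      refine ((ha.div hb hne).const_sub (ia n m e / m : ℝ)).congr_deriv ?_
      rw [← hPd]
      have hPe : P = √(n : ℝ) * m + ρ * s * Q := by rw [hPd]; unfold pw; rw [hQ]
      rw [neg_eq_iff_eq_neg, neg_neg]
      have hP0 : P ≠ 0 := hP.ne'
      rw [div_eq_div_iff (by positivity) (by positivity)]
      rw [hPe]
      ring
    have hex : HasDerivAt (fun s => ee (xx n m e x (ρ * s)))
        (ee (xx n m e x (ρ * s)) * (2 * Real.pi * I * ((-(ρ / P ^ 2) : ℝ) : ℂ))) s := by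
      unfold ee
      exact (hx.ofReal_comp.const_mul (2 * (Real.pi : ℂ) * I)).cexp
    have := hex.mul key
    unfold Tm
    simp only [K_06_vv]
    refine this.congr_deriv ?_
    unfold bb
    rw [← hQ]
    simp only [← hPd, if_pos hpos]
    rw [hE2, hEr]
    have hPc : (P : ℂ) ≠ 0 := by exact_mod_cast hP.ne'
    have hEc : cexp (r : ℂ) ≠ 0 := Complex.exp_ne_zero _
    push_cast
    field_simp
    ring
  · have hz : ∀ (A B : ℝ → ℂ) (k : ℕ), Tm n m e (bb A B k) x (ρ * s) r = 0 := by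
      intro A B k
      unfold Tm
      rw [K_06_bb_neg, mul_zero]
      rw [K_06_vv]
      simp only [not_lt] at hP ⊢
      exact mul_nonpos_of_nonpos_of_nonneg hP (Real.exp_pos _).le
    simp only [hz, mul_zero, sub_zero]
    have hlt : pw n m e x (ρ * s) * Real.exp r < R :=
      lt_of_le_of_lt (mul_nonpos_of_nonpos_of_nonneg (not_lt.mp hP) (Real.exp_pos _).le) hR
    have hev : ∀ᶠ u in 𝓝 s, pw n m e x (ρ * u) * Real.exp r < R :=
      (hpw.mul_const (Real.exp r)).continuousAt.eventually (gt_mem_nhds hlt)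
    refine (hasDerivAt_const s (0 : ℂ)).congr_of_eventuallyEq ?_
    filter_upwards [hev] with u hu
    unfold Tm
    rw [K_06_bb_zero A B k R hR (fun t ht => (h0 t ht).1) _ (by rw [K_06_vv]; exact hu), mul_zero]

theorem Tm_cont (n m : ℕ) (e : ℤ) (hn : 1 ≤ n) (hm : 1 ≤ m) (R ρ : ℝ) (hR : 0 < R) (A B : ℝ → ℂ) (k : ℕ)
    (hA : Continuous A) (hB : Continuous B) (h0 : ∀ t < Real.log R, A t = 0) :
    Continuous fun p : ℝ × ℝ × ℝ => Tm n m e (bb A B k) p.1 (ρ * p.2.1) p.2.2 := by
  have hn0 : (0 : ℝ) < √(n : ℝ) := Real.sqrt_pos.mpr (by exact_mod_cast hn)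
  have hm0 : (0 : ℝ) < (m : ℝ) := by exact_mod_cast hm
  have hq : Continuous fun p : ℝ × ℝ × ℝ => qw n m e p.1 := by
    unfold qw
    fun_prop
  have hp : Continuous fun p : ℝ × ℝ × ℝ => pw n m e p.1 (ρ * p.2.1) := by
    unfold pw
    exact continuous_const.add ((continuous_const.mul (continuous_fst.comp continuous_snd)).mul hq)
  have hv1 : Continuous fun p : ℝ × ℝ × ℝ => pw n m e p.1 (ρ * p.2.1) * Real.exp p.2.2 :=
    hp.mul (Real.continuous_exp.comp (continuous_snd.comp continuous_snd))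
  have hv2 : Continuous fun p : ℝ × ℝ × ℝ => qw n m e p.1 * Real.exp (-p.2.2) :=
    hq.mul (Real.continuous_exp.comp (continuous_snd.comp continuous_snd).neg)
  rw [continuous_iff_continuousAt]
  intro p
  by_cases hlt : pw n m e p.1 (ρ * p.2.1) * Real.exp p.2.2 < R
  · have hev : ∀ᶠ u : ℝ × ℝ × ℝ in 𝓝 p, pw n m e u.1 (ρ * u.2.1) * Real.exp u.2.2 < R :=
      hv1.continuousAt.eventually (gt_mem_nhds hlt)
    refine (continuousAt_const (y := (0 : ℂ))).congr ?_
    filter_upwards [hev] with u hu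
    unfold Tm
    rw [K_06_bb_zero A B k R hR h0 _ (by rw [K_06_vv]; exact hu), mul_zero]
  · have hpos : 0 < pw n m e p.1 (ρ * p.2.1) * Real.exp p.2.2 := lt_of_lt_of_le hR (not_lt.mp hlt)
    have hP : 0 < pw n m e p.1 (ρ * p.2.1) := by
      by_contra hcon
      exact absurd hpos (not_lt.mpr (mul_nonpos_of_nonpos_of_nonneg (not_lt.mp hcon) (Real.exp_pos _).le))
    have hev : ∀ᶠ u : ℝ × ℝ × ℝ in 𝓝 p, 0 < pw n m e u.1 (ρ * u.2.1) * Real.exp u.2.2 :=
      hv1.continuousAt.eventually (lt_mem_nhds hpos)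
    have hx : ContinuousAt (fun u : ℝ × ℝ × ℝ => ee (xx n m e u.1 (ρ * u.2.1))) p := by
      unfold ee xx
      have h1 : ContinuousAt (fun u : ℝ × ℝ × ℝ => (ia n m e / m : ℝ) -
          ρ * u.2.1 / (√(n : ℝ) * m * pw n m e u.1 (ρ * u.2.1))) p := by
        refine continuousAt_const.sub (ContinuousAt.div ?_ ?_ ?_)
        · exact (continuous_const.mul (continuous_fst.comp continuous_snd)).continuousAt
        · exact (continuous_const.mul hp).continuousAt
        · positivity
      exact (continuousAt_const.mul (Complex.continuous_ofReal.continuousAt.comp h1)).cexp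
    have hmain : ContinuousAt (fun u : ℝ × ℝ × ℝ =>
        A (Real.log (pw n m e u.1 (ρ * u.2.1) * Real.exp u.2.2)) *
          B (qw n m e u.1 * Real.exp (-u.2.2) / (pw n m e u.1 (ρ * u.2.1) * Real.exp u.2.2)) /
          ((pw n m e u.1 (ρ * u.2.1) * Real.exp u.2.2 : ℝ) : ℂ) ^ (2 * k)) p := by
      refine ContinuousAt.div (ContinuousAt.mul ?_ ?_) ?_ ?_
      · exact hA.continuousAt.comp (hv1.continuousAt.log hpos.ne')
      · exact hB.continuousAt.comp (hv2.continuousAt.div hv1.continuousAt hpos.ne')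
      · exact (Complex.continuous_ofReal.continuousAt.comp hv1.continuousAt).pow _
      · exact pow_ne_zero _ (by exact_mod_cast hpos.ne')
    refine (hx.mul hmain).congr ?_
    filter_upwards [hev] with u hu
    unfold Tm bb
    rw [K_06_vv]
    simp only [if_pos hu, Pi.mul_apply]

end Pool.Agent.LibSM56C
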