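import Pool.Agent.LibSM56C.K_Defs
import Pool.Agent.LibSM56C.K_07

/-! # SM56 part (C), section K
K_08 (SHORT): the four functions are measurable and bounded by 120 on `KK R θ`, zero outside. PLAN. `bb A B k v` is
0 unless `0 < v₁`, `log v₁ ∈ [log R, log 8R]` and `|v₂/v₁| ≤ θ` (bu_supp), i.e. `v ∈ KK R θ`; there `v₁ ≥ R`, `1/v₁² ≤ 1/R² ≤ 1/ρ`,
`|t^i bu0| ≤ θ^i`, `|t^i bu1| ≤ 6 θ^(i-1)`, `|t^i bu2| ≤ 30 θ^(i-2)` for `|t| ≤ θ`; `|ps00| ≤ 1`, `|ps01| ≤ 13`, `|ps10| ≤ ρ (7 θ + 2π/R²) ≤ 7`,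
`|ps11| ≤ 14 + ρ (15 θ + 90 θ + 30 π/R²) ≤ 120`. `f1`, `f2` vanish outside `[log R, log 8R]` by hypothesis. -/

set_option autoImplicit false

namespace Pool.Agent.LibSM56C

open MeasureTheory Set Filter Topology Complex
open scoped ENNReal ComplexConjugate

private theorem K_08_h (θ : ℝ) : Continuous fun t : ℝ => max 0 (1 - (t / θ) ^ 2) :=
  continuous_const.max (continuous_const.sub ((continuous_id.div_const θ).pow 2))

private theorem K_08_B0 (θ : ℝ) (i : ℕ) : Measurable (B0 θ i) := by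
  have h := K_08_h θ
  have : Continuous (B0 θ i) := by
    unfold B0 bu0
    exact continuous_ofReal.comp ((continuous_id.pow i).mul (h.pow 3))
  exact this.measurable

private theorem K_08_B1 (θ : ℝ) (i : ℕ) : Measurable (B1 θ i) := by
  have h := K_08_h θ
  have : Continuous (B1 θ i) := by
    unfold B1 bu1
    exact continuous_ofReal.comp ((continuous_id.pow i).mul
      (((continuous_const.mul continuous_id).div_const _).neg.mul (h.pow 2)))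
  exact this.measurable

private theorem K_08_B2 (θ : ℝ) (i : ℕ) : Measurable (B2 θ i) := by
  have h := K_08_h θ
  have : Continuous (B2 θ i) := by
    unfold B2 bu2
    exact continuous_ofReal.comp ((continuous_id.pow i).mul
      ((continuous_const.mul (h.pow 2)).add
        (((continuous_const.mul (continuous_id.pow 2)).div_const _).mul h)))
  exact this.measurable

private theorem K_08_bb (A B : ℝ → ℂ) (k : ℕ) (hA : Measurable A) (hB : Measurable B) : Measurable (bb A B k) := by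
  unfold bb
  refine Measurable.ite (measurableSet_lt measurable_const measurable_fst) ?_ measurable_const
  exact ((hA.comp (Real.measurable_log.comp measurable_fst)).mul (hB.comp (measurable_snd.div measurable_fst))).div
    ((measurable_ofReal.comp measurable_fst).pow_const (2 * k))

theorem ps_meas (ρ θ : ℝ) (hθ : 0 < θ) (f f1 f2 : ℝ → ℂ) (hf : Measurable f) (hf1 : Measurable f1) (hf2 : Measurable f2) :
    Measurable (ps00 θ f) ∧ Measurable (ps01 θ f f1) ∧ Measurable (ps10 ρ θ f f1) ∧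
      Measurable (ps11 ρ θ f f1 f2) := by
  have a0 : ∀ g : ℝ → ℂ, Measurable g → ∀ i k, Measurable (bb g (B0 θ i) k) := fun g hg i k =>
    K_08_bb g _ k hg (K_08_B0 θ i)
  have a1 : ∀ g : ℝ → ℂ, Measurable g → ∀ i k, Measurable (bb g (B1 θ i) k) := fun g hg i k =>
    K_08_bb g _ k hg (K_08_B1 θ i)
  have a2 : ∀ g : ℝ → ℂ, Measurable g → ∀ i k, Measurable (bb g (B2 θ i) k) := fun g hg i k =>
    K_08_bb g _ k hg (K_08_B2 θ i)
  have h10 : Measurable (ps10 ρ θ f f1) := by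
    unfold ps10
    exact ((((a0 f1 hf1 1 0).sub (a1 f hf 2 0)).sub ((a0 f hf 0 1).const_mul _))).const_mul _
  refine ⟨?_, ?_, h10, ?_⟩
  · unfold ps00
    exact a0 f hf 0 0
  · unfold ps01
    exact (a0 f1 hf1 0 0).sub ((a1 f hf 1 0).const_mul _)
  · unfold ps11
    refine (h10.const_mul _).add (Measurable.const_mul ?_ _)
    refine Measurable.sub (Measurable.sub ?_ ?_) (Measurable.const_mul ?_ _)
    · exact (a0 f2 hf2 1 0).sub (((a0 f1 hf1 1 0).add (a1 f1 hf1 2 0)).const_mul _)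
    · exact (a1 f1 hf1 2 0).sub ((((a1 f hf 2 0).const_mul _).add (a2 f hf 3 0)).const_mul _)
    · exact ((a0 f1 hf1 0 1).sub ((a1 f hf 1 1).const_mul _)).sub ((a0 f hf 0 1).const_mul _)

private theorem K_08_zero {R θ : ℝ} (hR : 0 < R) (A B : ℝ → ℂ) (k : ℕ)
    (hA : ∀ t, t ∉ Icc (Real.log R) (Real.log (8 * R)) → A t = 0) (hB : ∀ t, θ < |t| → B t = 0) {v : ℝ × ℝ}
    (hv : v ∉ KK R θ) : bb A B k v = 0 := by
  unfold bb
  split_ifs with h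
  · by_cases h1 : Real.log v.1 ∈ Icc (Real.log R) (Real.log (8 * R))
    · have h2 : R ≤ v.1 := (Real.log_le_log_iff hR h).1 h1.1
      have h3 : v.1 ≤ 8 * R := (Real.log_le_log_iff h (by positivity)).1 h1.2
      have h4 : θ * v.1 < |v.2| := by
        by_contra h5
        exact hv ⟨h2, h3, not_lt.1 h5⟩
      have h5 : θ < |v.2 / v.1| := by
        rw [abs_div, abs_of_pos h, lt_div_iff₀ h]
        exact h4
      rw [hB _ h5, mul_zero, zero_div]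
    · rw [hA _ h1, zero_mul, zero_div]
  · rfl

private theorem K_08_bd {R θ : ℝ} (hR : 0 < R) (A B : ℝ → ℂ) (hA : ∀ t, ‖A t‖ ≤ 1) {C : ℝ}
    (hB : ∀ t, |t| ≤ θ → ‖B t‖ ≤ C) {v : ℝ × ℝ} (hv : v ∈ KK R θ) :
    ‖bb A B 0 v‖ ≤ C ∧ ‖bb A B 1 v‖ ≤ C / R ^ 2 := by
  obtain ⟨h1, h2, h3⟩ := hv
  have h : 0 < v.1 := by linarith
  have ht : |v.2 / v.1| ≤ θ := by
    rw [abs_div, abs_of_pos h, div_le_iff₀ h]
    exact h3
  have hb := hB _ ht
  have hC : 0 ≤ C := (norm_nonneg _).trans hb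
  have hn : ‖A (Real.log v.1) * B (v.2 / v.1)‖ ≤ C := by
    rw [norm_mul]
    calc ‖A (Real.log v.1)‖ * ‖B (v.2 / v.1)‖ ≤ 1 * C :=
          mul_le_mul (hA _) hb (norm_nonneg _) zero_le_one
      _ = C := one_mul C
  unfold bb
  rw [if_pos h, if_pos h]
  constructor
  · rw [mul_zero, pow_zero, div_one]
    exact hn
  · rw [norm_div, mul_one, norm_pow, norm_real, Real.norm_eq_abs, abs_of_pos h]
    exact div_le_div₀ hC hn (by positivity) (pow_le_pow_left₀ hR.le h1 2)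

private theorem K_08_t {θ : ℝ} (i : ℕ) {t c : ℝ} {M : ℝ} (ht : |t| ≤ θ) (hc : |c| ≤ M) :
    ‖((t ^ i * c : ℝ) : ℂ)‖ ≤ θ ^ i * M := by
  rw [norm_real, Real.norm_eq_abs, abs_mul, abs_pow]
  exact mul_le_mul (pow_le_pow_left₀ (abs_nonneg _) ht i) hc (abs_nonneg _) (pow_nonneg ((abs_nonneg _).trans ht) i)

theorem ps_bound (R ρ θ : ℝ) (hR : 0 < R) (hθ : 0 < θ) (hθ1 : θ ≤ 1) (hρ : 0 < ρ) (hρθ : ρ * θ ≤ 1 / 16)
    (hρR : ρ ≤ R ^ 2) (f f1 f2 : ℝ → ℂ) (hb : ∀ t, ‖f t‖ ≤ 1 ∧ ‖f1 t‖ ≤ 1 ∧ ‖f2 t‖ ≤ 1)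
    (h0 : ∀ t, t ∉ Icc (Real.log R) (Real.log (8 * R)) → f t = 0 ∧ f1 t = 0 ∧ f2 t = 0) (v : ℝ × ℝ) :
    ‖ps00 θ f v‖ ≤ 120 * (KK R θ).indicator 1 v ∧ ‖ps01 θ f f1 v‖ ≤ 120 * (KK R θ).indicator 1 v ∧
      ‖ps10 ρ θ f f1 v‖ ≤ 120 * (KK R θ).indicator 1 v ∧
      ‖ps11 ρ θ f f1 f2 v‖ ≤ 120 * (KK R θ).indicator 1 v := by
  have z0 : ∀ i t, θ < |t| → B0 θ i t = 0 := fun i t ht => by
    unfold B0; rw [(bu_supp θ t hθ ht).1, mul_zero, ofReal_zero]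
  have z1 : ∀ i t, θ < |t| → B1 θ i t = 0 := fun i t ht => by
    unfold B1; rw [(bu_supp θ t hθ ht).2.1, mul_zero, ofReal_zero]
  have z2 : ∀ i t, θ < |t| → B2 θ i t = 0 := fun i t ht => by
    unfold B2; rw [(bu_supp θ t hθ ht).2.2, mul_zero, ofReal_zero]
  by_cases hv : v ∈ KK R θ
  · rw [Set.indicator_of_mem hv, Pi.one_apply, mul_one]
    have b0 : ∀ (i : ℕ) t, |t| ≤ θ → ‖B0 θ i t‖ ≤ θ ^ i * 1 := fun i t ht => by
      obtain ⟨h1, h2, -, -⟩ := bu_bound θ t hθ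
      exact K_08_t i ht (by rw [abs_of_nonneg h1]; exact h2)
    have b1 : ∀ (i : ℕ) t, |t| ≤ θ → ‖B1 θ i t‖ ≤ θ ^ i * (6 / θ) := fun i t ht =>
      K_08_t i ht (bu_bound θ t hθ).2.2.1
    have b2 : ∀ (i : ℕ) t, |t| ≤ θ → ‖B2 θ i t‖ ≤ θ ^ i * (30 / θ ^ 2) := fun i t ht =>
      K_08_t i ht (bu_bound θ t hθ).2.2.2
    have hf : ∀ t, ‖f t‖ ≤ 1 := fun t => (hb t).1
    have hf1 : ∀ t, ‖f1 t‖ ≤ 1 := fun t => (hb t).2.1
    have hf2 : ∀ t, ‖f2 t‖ ≤ 1 := fun t => (hb t).2.2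
    have hR2 : 0 < R ^ 2 := by positivity
    have hq : ρ * (1 / R ^ 2) ≤ 1 := by
      rw [mul_one_div, div_le_one hR2]; exact hρR
    have c00 : ‖bb f (B0 θ 0) 0 v‖ ≤ 1 := by
      have := (K_08_bd hR f _ hf (b0 0) hv).1
      simpa using this
    have c00' : ‖bb f1 (B0 θ 0) 0 v‖ ≤ 1 := by
      have := (K_08_bd hR f1 _ hf1 (b0 0) hv).1
      simpa using this
    have c11 : ‖bb f (B1 θ 1) 0 v‖ ≤ 6 ∧ ‖bb f (B1 θ 1) 1 v‖ ≤ 6 / R ^ 2 := by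
      have := K_08_bd hR f _ hf (b1 1) hv
      have e : θ ^ 1 * (6 / θ) = 6 := by field_simp
      rwa [e] at this
    have c01 : ∀ g : ℝ → ℂ, (∀ t, ‖g t‖ ≤ 1) → ‖bb g (B0 θ 1) 0 v‖ ≤ θ := fun g hg => by
      have := (K_08_bd hR g _ hg (b0 1) hv).1
      have e : θ ^ 1 * 1 = θ := by ring
      rwa [e] at this
    have c12 : ∀ g : ℝ → ℂ, (∀ t, ‖g t‖ ≤ 1) → ‖bb g (B1 θ 2) 0 v‖ ≤ 6 * θ := fun g hg => by
      have := (K_08_bd hR g _ hg (b1 2) hv).1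
      have e : θ ^ 2 * (6 / θ) = 6 * θ := by field_simp
      rwa [e] at this
    have c23 : ‖bb f (B2 θ 3) 0 v‖ ≤ 30 * θ := by
      have := (K_08_bd hR f _ hf (b2 3) hv).1
      have e : θ ^ 3 * (30 / θ ^ 2) = 30 * θ := by field_simp
      rwa [e] at this
    have d00 : ∀ g : ℝ → ℂ, (∀ t, ‖g t‖ ≤ 1) → ‖bb g (B0 θ 0) 1 v‖ ≤ 1 / R ^ 2 := fun g hg => by
      have := (K_08_bd hR g _ hg (b0 0) hv).2
      simpa using this
    have hpi : Real.pi < 3.15 := Real.pi_lt_d2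
    have hpi0 : 0 < Real.pi := Real.pi_pos
    have nI : ∀ w : ℂ, ‖2 * (Real.pi : ℂ) * I * w‖ = 2 * Real.pi * ‖w‖ := fun w => by
      rw [norm_mul, norm_mul, norm_mul, norm_I, mul_one, norm_real, Real.norm_eq_abs, abs_of_pos hpi0]
      norm_num
    have n2 : ∀ w : ℂ, ‖2 * w‖ = 2 * ‖w‖ := fun w => by
      rw [norm_mul]; norm_num
    have nρ : ∀ w : ℂ, ‖(ρ : ℂ) * w‖ = ρ * ‖w‖ := fun w => by
      rw [norm_mul, norm_real, Real.norm_eq_abs, abs_of_pos hρ]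
    have h10 : ‖ps10 ρ θ f f1 v‖ ≤ 7 := by
      unfold ps10
      rw [nρ]
      have e1 : ‖bb f1 (B0 θ 1) 0 v - bb f (B1 θ 2) 0 v - 2 * Real.pi * I * bb f (B0 θ 0) 1 v‖ ≤
          θ + 6 * θ + 2 * Real.pi * (1 / R ^ 2) := by
        refine (norm_sub_le _ _).trans (add_le_add ((norm_sub_le _ _).trans (add_le_add (c01 f1 hf1) (c12 f hf))) ?_)
        rw [nI]
        exact mul_le_mul_of_nonneg_left (d00 f hf) (by positivity)
      calc ρ * ‖bb f1 (B0 θ 1) 0 v - bb f (B1 θ 2) 0 v - 2 * Real.pi * I * bb f (B0 θ 0) 1 v‖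
          ≤ ρ * (θ + 6 * θ + 2 * Real.pi * (1 / R ^ 2)) := mul_le_mul_of_nonneg_left e1 hρ.le
        _ = 7 * (ρ * θ) + 2 * Real.pi * (ρ * (1 / R ^ 2)) := by ring
        _ ≤ 7 * (1 / 16) + 2 * Real.pi * 1 := by
            apply add_le_add
            · linarith
            · exact mul_le_mul_of_nonneg_left hq (by positivity)
        _ ≤ 7 := by linarith
    refine ⟨?_, ?_, by linarith, ?_⟩
    · unfold ps00; linarith
    · unfold ps01
      have := norm_sub_le (bb f1 (B0 θ 0) 0 v) (2 * bb f (B1 θ 1) 0 v)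
      rw [n2] at this
      linarith [c11.1]
    · unfold ps11
      have e1 : ‖bb f2 (B0 θ 1) 0 v - 2 * (bb f1 (B0 θ 1) 0 v + bb f1 (B1 θ 2) 0 v)‖ ≤ 15 * θ := by
        have g1 := norm_sub_le (bb f2 (B0 θ 1) 0 v) (2 * (bb f1 (B0 θ 1) 0 v + bb f1 (B1 θ 2) 0 v))
        rw [n2] at g1
        have g2 := norm_add_le (bb f1 (B0 θ 1) 0 v) (bb f1 (B1 θ 2) 0 v)
        linarith [c01 f2 hf2, c01 f1 hf1, c12 f1 hf1]
      have e2 : ‖bb f1 (B1 θ 2) 0 v - 2 * (2 * bb f (B1 θ 2) 0 v + bb f (B2 θ 3) 0 v)‖ ≤ 90 * θ := by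
        have g1 := norm_sub_le (bb f1 (B1 θ 2) 0 v) (2 * (2 * bb f (B1 θ 2) 0 v + bb f (B2 θ 3) 0 v))
        rw [n2] at g1
        have g2 := norm_add_le (2 * bb f (B1 θ 2) 0 v) (bb f (B2 θ 3) 0 v)
        rw [n2] at g2
        linarith [c12 f hf, c12 f1 hf1, c23]
      have e3 : ‖bb f1 (B0 θ 0) 1 v - 2 * bb f (B1 θ 1) 1 v - 2 * bb f (B0 θ 0) 1 v‖ ≤ 15 * (1 / R ^ 2) := by
        have g1 := norm_sub_le (bb f1 (B0 θ 0) 1 v - 2 * bb f (B1 θ 1) 1 v) (2 * bb f (B0 θ 0) 1 v)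
        rw [n2] at g1
        have g2 := norm_sub_le (bb f1 (B0 θ 0) 1 v) (2 * bb f (B1 θ 1) 1 v)
        rw [n2] at g2
        have g3 : ‖bb f (B1 θ 1) 1 v‖ ≤ 6 * (1 / R ^ 2) := by
          have := c11.2
          rwa [div_eq_mul_one_div] at this
        linarith [d00 f hf, d00 f1 hf1]
      have e4 := norm_add_le (2 * ps10 ρ θ f f1 v)
        (ρ * ((bb f2 (B0 θ 1) 0 v - 2 * (bb f1 (B0 θ 1) 0 v + bb f1 (B1 θ 2) 0 v)) -
          (bb f1 (B1 θ 2) 0 v - 2 * (2 * bb f (B1 θ 2) 0 v + bb f (B2 θ 3) 0 v)) -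
          2 * Real.pi * I * (bb f1 (B0 θ 0) 1 v - 2 * bb f (B1 θ 1) 1 v - 2 * bb f (B0 θ 0) 1 v)))
      rw [n2, nρ] at e4
      have e5 : ‖(bb f2 (B0 θ 1) 0 v - 2 * (bb f1 (B0 θ 1) 0 v + bb f1 (B1 θ 2) 0 v)) -
          (bb f1 (B1 θ 2) 0 v - 2 * (2 * bb f (B1 θ 2) 0 v + bb f (B2 θ 3) 0 v)) -
          2 * Real.pi * I * (bb f1 (B0 θ 0) 1 v - 2 * bb f (B1 θ 1) 1 v - 2 * bb f (B0 θ 0) 1 v)‖ ≤
          105 * θ + 30 * Real.pi * (1 / R ^ 2) := by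
        refine (norm_sub_le _ _).trans ?_
        rw [nI]
        have g1 := (norm_sub_le (bb f2 (B0 θ 1) 0 v - 2 * (bb f1 (B0 θ 1) 0 v + bb f1 (B1 θ 2) 0 v))
          (bb f1 (B1 θ 2) 0 v - 2 * (2 * bb f (B1 θ 2) 0 v + bb f (B2 θ 3) 0 v))).trans (add_le_add e1 e2)
        have g2 := mul_le_mul_of_nonneg_left e3 (show 0 ≤ 2 * Real.pi by positivity)
        have g3 : 2 * Real.pi * (15 * (1 / R ^ 2)) = 30 * Real.pi * (1 / R ^ 2) := by ring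
        linarith
      have e6 := mul_le_mul_of_nonneg_left e5 hρ.le
      have e7 : ρ * (105 * θ + 30 * Real.pi * (1 / R ^ 2)) = 105 * (ρ * θ) + 30 * Real.pi * (ρ * (1 / R ^ 2)) := by
        ring
      have e8 : 30 * Real.pi * (ρ * (1 / R ^ 2)) ≤ 30 * Real.pi * 1 :=
        mul_le_mul_of_nonneg_left hq (by positivity)
      linarith
  · rw [Set.indicator_of_notMem hv, mul_zero]
    have zf : ∀ t, t ∉ Icc (Real.log R) (Real.log (8 * R)) → f t = 0 := fun t ht => (h0 t ht).1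
    have zf1 : ∀ t, t ∉ Icc (Real.log R) (Real.log (8 * R)) → f1 t = 0 := fun t ht => (h0 t ht).2.1
    have zf2 : ∀ t, t ∉ Icc (Real.log R) (Real.log (8 * R)) → f2 t = 0 := fun t ht => (h0 t ht).2.2
    have y0 : ∀ g : ℝ → ℂ, (∀ t, t ∉ Icc (Real.log R) (Real.log (8 * R)) → g t = 0) → ∀ i k,
        bb g (B0 θ i) k v = 0 := fun g hg i k => K_08_zero hR g _ k hg (z0 i) hv
    have y1 : ∀ g : ℝ → ℂ, (∀ t, t ∉ Icc (Real.log R) (Real.log (8 * R)) → g t = 0) → ∀ i k,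
        bb g (B1 θ i) k v = 0 := fun g hg i k => K_08_zero hR g _ k hg (z1 i) hv
    have y2 : ∀ g : ℝ → ℂ, (∀ t, t ∉ Icc (Real.log R) (Real.log (8 * R)) → g t = 0) → ∀ i k,
        bb g (B2 θ i) k v = 0 := fun g hg i k => K_08_zero hR g _ k hg (z2 i) hv
    have h10 : ps10 ρ θ f f1 v = 0 := by
      unfold ps10
      rw [y0 f1 zf1, y1 f zf, y0 f zf]
      simp
    refine ⟨?_, ?_, ?_, ?_⟩
    · unfold ps00; rw [y0 f zf, norm_zero]
    · unfold ps01; rw [y0 f1 zf1, y1 f zf]; simp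
    · rw [h10, norm_zero]
    · unfold ps11
      rw [h10, y0 f2 zf2, y0 f1 zf1, y1 f1 zf1, y1 f zf, y2 f zf, y0 f1 zf1, y1 f zf, y0 f zf]
      simp

end Pool.Agent.LibSM56C
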