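import Pool.Agent.LibSM56C.K_Defs
import Pool.Agent.LibSM56C.K_06
import Pool.Agent.LibSM56C.K_07
import Pool.Agent.LibSM56C.K_00

/-! # SM56 part (C), section K
K_09 (MEDIUM): Sobolev inequality for `GG`. PLAN. `sob2` (K_00) with `g s r = GG .. (ps00 ..) x s r`,
`g1 s r = e^(2r) GG .. (ps10 ..) x s r`, `g2 = GG .. (ps01 ..)`, `g12 = e^(2r) GG .. (ps11 ..)`. `GG` is linear in `ψ`; termwise
`Tm_s`, `Tm_r` (K_06) with `B = B0 θ i, B1 θ i`, whose derivatives are `i t^(i-1) bu0 + t^i bu1` etc. (rewrite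
`t * B' t` as the combination of `B0`, `B1`, `B2` in the definition of `ps..`: `funext`, `ring`, and
`bb A (B + c • B')` is linear in `B`). Continuity: `Tm_cont`. Finally `‖e^(2r) z‖² ≤ e^4 ‖z‖² ≤ 60 ‖z‖²` for `r ≤ 1`. -/

set_option autoImplicit false

namespace Pool.Agent.LibSM56C

open MeasureTheory Set Filter Topology Complex
open scoped ENNReal ComplexConjugate

private theorem K_09_B0d (θ : ℝ) (hθ : 0 < θ) (i : ℕ) (t : ℝ) :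
    HasDerivAt (B0 θ i) ((i * t ^ (i - 1) * bu0 θ t + t ^ i * bu1 θ t : ℝ) : ℂ) t :=
  ((hasDerivAt_pow i t).mul (bu0_deriv θ hθ t)).ofReal_comp

private theorem K_09_B1d (θ : ℝ) (hθ : 0 < θ) (i : ℕ) (t : ℝ) :
    HasDerivAt (B1 θ i) ((i * t ^ (i - 1) * bu1 θ t + t ^ i * bu2 θ t : ℝ) : ℂ) t :=
  ((hasDerivAt_pow i t).mul (bu1_deriv θ hθ t)).ofReal_comp

private theorem K_09_lin (n m : ℕ) (e : ℤ) (A B C : ℝ → ℂ) (c d : ℂ) (k : ℕ) (x τ r : ℝ) :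
    Tm n m e (bb A (fun t => c * B t + d * C t) k) x τ r =
      c * Tm n m e (bb A B k) x τ r + d * Tm n m e (bb A C k) x τ r := by
  unfold Tm bb
  split_ifs
  · ring
  · simp

private theorem K_09_01 (n m : ℕ) (e : ℤ) (θ : ℝ) (f f1 : ℝ → ℂ) (x τ r : ℝ) :
    Tm n m e (ps01 θ f f1) x τ r = Tm n m e (bb f1 (B0 θ 0) 0) x τ r -
      2 * Tm n m e (bb f (B1 θ 1) 0) x τ r := by
  unfold Tm ps01
  ring

private theorem K_09_10 (n m : ℕ) (e : ℤ) (ρ θ : ℝ) (f f1 : ℝ → ℂ) (x τ r : ℝ) :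
    Tm n m e (ps10 ρ θ f f1) x τ r = ρ * (Tm n m e (bb f1 (B0 θ 1) 0) x τ r -
      Tm n m e (bb f (B1 θ 2) 0) x τ r - 2 * Real.pi * I * Tm n m e (bb f (B0 θ 0) 1) x τ r) := by
  unfold Tm ps10
  ring

private theorem K_09_11 (n m : ℕ) (e : ℤ) (ρ θ : ℝ) (f f1 f2 : ℝ → ℂ) (x τ r : ℝ) :
    Tm n m e (ps11 ρ θ f f1 f2) x τ r = 2 * Tm n m e (ps10 ρ θ f f1) x τ r +
      ρ * ((Tm n m e (bb f2 (B0 θ 1) 0) x τ r -
        2 * (Tm n m e (bb f1 (B0 θ 1) 0) x τ r + Tm n m e (bb f1 (B1 θ 2) 0) x τ r)) -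
      (Tm n m e (bb f1 (B1 θ 2) 0) x τ r -
        2 * (2 * Tm n m e (bb f (B1 θ 2) 0) x τ r + Tm n m e (bb f (B2 θ 3) 0) x τ r)) -
      2 * Real.pi * I * (Tm n m e (bb f1 (B0 θ 0) 1) x τ r - 2 * Tm n m e (bb f (B1 θ 1) 1) x τ r -
        2 * Tm n m e (bb f (B0 θ 0) 1) x τ r)) := by
  unfold Tm ps11
  ring

private theorem K_09_r00 (n m : ℕ) (e : ℤ) (hn : 1 ≤ n) (hm : 1 ≤ m) (R θ : ℝ) (hR : 0 < R) (hθ : 0 < θ)
    (f f1 : ℝ → ℂ) (k : ℕ) (hf : ∀ t, HasDerivAt f (f1 t) t)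
    (h0 : ∀ t < Real.log R, f t = 0 ∧ f1 t = 0) (x τ r : ℝ) :
    HasDerivAt (fun r => Tm n m e (bb f (B0 θ 0) k) x τ r) (Tm n m e (bb f1 (B0 θ 0) k) x τ r -
      2 * Tm n m e (bb f (B1 θ 1) k) x τ r - 2 * k * Tm n m e (bb f (B0 θ 0) k) x τ r) r := by
  have h := Tm_r n m e hn hm R hR f f1 (B0 θ 0) _ k hf (K_09_B0d θ hθ 0) h0 x τ r
  refine h.congr_deriv ?_
  have e1 : (fun t : ℝ => (t : ℂ) * (((0 : ℕ) * t ^ (0 - 1) * bu0 θ t + t ^ 0 * bu1 θ t : ℝ) : ℂ)) = B1 θ 1 := by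
    funext t
    unfold B1
    push_cast
    ring
  rw [e1]

private theorem K_09_r01 (n m : ℕ) (e : ℤ) (hn : 1 ≤ n) (hm : 1 ≤ m) (R θ : ℝ) (hR : 0 < R) (hθ : 0 < θ)
    (f f1 : ℝ → ℂ) (hf : ∀ t, HasDerivAt f (f1 t) t)
    (h0 : ∀ t < Real.log R, f t = 0 ∧ f1 t = 0) (x τ r : ℝ) :
    HasDerivAt (fun r => Tm n m e (bb f (B0 θ 1) 0) x τ r) (Tm n m e (bb f1 (B0 θ 1) 0) x τ r -
      2 * (Tm n m e (bb f (B0 θ 1) 0) x τ r + Tm n m e (bb f (B1 θ 2) 0) x τ r)) r := by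
  have h := Tm_r n m e hn hm R hR f f1 (B0 θ 1) _ 0 hf (K_09_B0d θ hθ 1) h0 x τ r
  refine h.congr_deriv ?_
  have e1 : (fun t : ℝ => (t : ℂ) * (((1 : ℕ) * t ^ (1 - 1) * bu0 θ t + t ^ 1 * bu1 θ t : ℝ) : ℂ)) =
      fun t => 1 * B0 θ 1 t + 1 * B1 θ 2 t := by
    funext t
    unfold B1 B0
    push_cast
    ring
  rw [e1, K_09_lin]
  push_cast
  ring

private theorem K_09_r12 (n m : ℕ) (e : ℤ) (hn : 1 ≤ n) (hm : 1 ≤ m) (R θ : ℝ) (hR : 0 < R) (hθ : 0 < θ)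
    (f f1 : ℝ → ℂ) (hf : ∀ t, HasDerivAt f (f1 t) t)
    (h0 : ∀ t < Real.log R, f t = 0 ∧ f1 t = 0) (x τ r : ℝ) :
    HasDerivAt (fun r => Tm n m e (bb f (B1 θ 2) 0) x τ r) (Tm n m e (bb f1 (B1 θ 2) 0) x τ r -
      2 * (2 * Tm n m e (bb f (B1 θ 2) 0) x τ r + Tm n m e (bb f (B2 θ 3) 0) x τ r)) r := by
  have h := Tm_r n m e hn hm R hR f f1 (B1 θ 2) _ 0 hf (K_09_B1d θ hθ 2) h0 x τ r
  refine h.congr_deriv ?_
  have e1 : (fun t : ℝ => (t : ℂ) * (((2 : ℕ) * t ^ (2 - 1) * bu1 θ t + t ^ 2 * bu2 θ t : ℝ) : ℂ)) =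
      fun t => 2 * B1 θ 2 t + 1 * B2 θ 3 t := by
    funext t
    unfold B1 B2
    push_cast
    ring
  rw [e1, K_09_lin]
  push_cast
  ring

private theorem K_09_s00 (n m : ℕ) (e : ℤ) (hn : 1 ≤ n) (hm : 1 ≤ m) (R ρ θ : ℝ) (hR : 0 < R) (hθ : 0 < θ)
    (f f1 : ℝ → ℂ) (hf : ∀ t, HasDerivAt f (f1 t) t)
    (h0 : ∀ t < Real.log R, f t = 0 ∧ f1 t = 0) (x s r : ℝ) :
    HasDerivAt (fun s => Tm n m e (ps00 θ f) x (ρ * s) r)
      (Real.exp (2 * r) * Tm n m e (ps10 ρ θ f f1) x (ρ * s) r) s := by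
  have h := Tm_s n m e hn hm R ρ hR f f1 (B0 θ 0) _ 0 hf (K_09_B0d θ hθ 0) h0 x s r
  have e0 : (fun s => Tm n m e (ps00 θ f) x (ρ * s) r) = fun s => Tm n m e (bb f (B0 θ 0) 0) x (ρ * s) r := rfl
  rw [e0]
  refine h.congr_deriv ?_
  have e1 : (fun t : ℝ => (t : ℂ) ^ 2 * (((0 : ℕ) * t ^ (0 - 1) * bu0 θ t + t ^ 0 * bu1 θ t : ℝ) : ℂ)) =
      B1 θ 2 := by
    funext t
    unfold B1
    push_cast
    ring
  have e2 : (fun t : ℝ => (t : ℂ) * B0 θ 0 t) = B0 θ 1 := by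
    funext t
    unfold B0
    push_cast
    ring
  rw [e1, e2, K_09_10]
  push_cast
  ring

private theorem K_09_r10 (n m : ℕ) (e : ℤ) (hn : 1 ≤ n) (hm : 1 ≤ m) (R ρ θ : ℝ) (hR : 0 < R) (hθ : 0 < θ)
    (f f1 f2 : ℝ → ℂ) (hf : ∀ t, HasDerivAt f (f1 t) t) (hf1 : ∀ t, HasDerivAt f1 (f2 t) t)
    (h0 : ∀ t < Real.log R, f t = 0 ∧ f1 t = 0 ∧ f2 t = 0) (x τ r : ℝ) :
    HasDerivAt (fun r : ℝ => (Real.exp (2 * r) : ℂ) * Tm n m e (ps10 ρ θ f f1) x τ r)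
      (Real.exp (2 * r) * Tm n m e (ps11 ρ θ f f1 f2) x τ r) r := by
  have ha := K_09_r01 n m e hn hm R θ hR hθ f1 f2 hf1 (fun t ht => ⟨(h0 t ht).2.1, (h0 t ht).2.2⟩) x τ r
  have hb := K_09_r12 n m e hn hm R θ hR hθ f f1 hf (fun t ht => ⟨(h0 t ht).1, (h0 t ht).2.1⟩) x τ r
  have hc := K_09_r00 n m e hn hm R θ hR hθ f f1 1 hf (fun t ht => ⟨(h0 t ht).1, (h0 t ht).2.1⟩) x τ r
  have hd := ((ha.sub hb).sub (hc.const_mul (2 * (Real.pi : ℂ) * I))).const_mul (ρ : ℂ)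
  have he : HasDerivAt (fun r : ℝ => (Real.exp (2 * r) : ℂ)) ((Real.exp (2 * r) * 2 : ℝ) : ℂ) r := by
    have : HasDerivAt (fun r : ℝ => 2 * r) 2 r := by simpa using (hasDerivAt_id r).const_mul 2
    exact this.exp.ofReal_comp
  have e0 : (fun r : ℝ => (Real.exp (2 * r) : ℂ) * Tm n m e (ps10 ρ θ f f1) x τ r) =
      fun r : ℝ => (Real.exp (2 * r) : ℂ) * (ρ * (Tm n m e (bb f1 (B0 θ 1) 0) x τ r -
      Tm n m e (bb f (B1 θ 2) 0) x τ r - 2 * Real.pi * I * Tm n m e (bb f (B0 θ 0) 1) x τ r)) := by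
    funext r
    rw [K_09_10]
  rw [e0]
  refine (he.mul hd).congr_deriv ?_
  rw [K_09_11, K_09_10]
  push_cast
  simp only [Pi.sub_apply]
  ring

private theorem K_09_B0c (θ : ℝ) (hθ : 0 < θ) (i : ℕ) : Continuous (B0 θ i) :=
  continuous_iff_continuousAt.mpr fun t => (K_09_B0d θ hθ i t).continuousAt

private theorem K_09_B1c (θ : ℝ) (hθ : 0 < θ) (i : ℕ) : Continuous (B1 θ i) :=
  continuous_iff_continuousAt.mpr fun t => (K_09_B1d θ hθ i t).continuousAt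

private theorem K_09_B2c (θ : ℝ) (hθ : 0 < θ) (i : ℕ) : Continuous (B2 θ i) := by
  unfold B2
  exact Complex.continuous_ofReal.comp ((continuous_pow i).mul (bu2_cont θ hθ))

private theorem K_09_m (n d : ℕ) (X : ℝ) (m : ℕ) (hm : m ∈ MM n d X) : 1 ≤ m := by
  unfold MM at hm
  exact (Finset.mem_Icc.mp (Finset.mem_filter.mp hm).1).1

private theorem K_09_Tc (n m : ℕ) (e : ℤ) (hn : 1 ≤ n) (hm : 1 ≤ m) (R ρ θ : ℝ) (hR : 0 < R) (hθ : 0 < θ)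
    (f f1 f2 : ℝ → ℂ)
    (hf : ∀ t, HasDerivAt f (f1 t) t) (hf1 : ∀ t, HasDerivAt f1 (f2 t) t) (hf2 : Continuous f2)
    (h0 : ∀ t < Real.log R, f t = 0 ∧ f1 t = 0 ∧ f2 t = 0) :
    (Continuous fun p : ℝ × ℝ × ℝ => Tm n m e (ps00 θ f) p.1 (ρ * p.2.1) p.2.2) ∧
    (Continuous fun p : ℝ × ℝ × ℝ => Tm n m e (ps10 ρ θ f f1) p.1 (ρ * p.2.1) p.2.2) ∧
    (Continuous fun p : ℝ × ℝ × ℝ => Tm n m e (ps01 θ f f1) p.1 (ρ * p.2.1) p.2.2) ∧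
    (Continuous fun p : ℝ × ℝ × ℝ => Tm n m e (ps11 ρ θ f f1 f2) p.1 (ρ * p.2.1) p.2.2) := by
  have cf : Continuous f := continuous_iff_continuousAt.mpr fun t => (hf t).continuousAt
  have cf1 : Continuous f1 := continuous_iff_continuousAt.mpr fun t => (hf1 t).continuousAt
  have T := fun (A B : ℝ → ℂ) (k : ℕ) (hA : Continuous A) (hB : Continuous B)
    (h : ∀ t < Real.log R, A t = 0) => Tm_cont n m e hn hm R ρ hR A B k hA hB h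
  have F := fun (B : ℝ → ℂ) (k : ℕ) (hB : Continuous B) => T f B k cf hB fun t ht => (h0 t ht).1
  have F1 := fun (B : ℝ → ℂ) (k : ℕ) (hB : Continuous B) => T f1 B k cf1 hB fun t ht => (h0 t ht).2.1
  have F2 := fun (B : ℝ → ℂ) (k : ℕ) (hB : Continuous B) => T f2 B k hf2 hB fun t ht => (h0 t ht).2.2
  have b0 := K_09_B0c θ hθ
  have b1 := K_09_B1c θ hθ
  have b2 := K_09_B2c θ hθ
  have c10 : Continuous fun p : ℝ × ℝ × ℝ => Tm n m e (ps10 ρ θ f f1) p.1 (ρ * p.2.1) p.2.2 := by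
    simp only [K_09_10]
    exact continuous_const.mul (((F1 _ 0 (b0 1)).sub (F _ 0 (b1 2))).sub
      (continuous_const.mul (F _ 1 (b0 0))))
  refine ⟨F (B0 θ 0) 0 (b0 0), c10, ?_, ?_⟩
  · simp only [K_09_01]
    exact (F1 _ 0 (b0 0)).sub (continuous_const.mul (F _ 0 (b1 1)))
  · simp only [K_09_11]
    refine (continuous_const.mul c10).add (continuous_const.mul ?_)
    refine (Continuous.sub (Continuous.sub ?_ ?_) (continuous_const.mul ?_))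
    · exact (F2 _ 0 (b0 1)).sub (continuous_const.mul ((F1 _ 0 (b0 1)).add (F1 _ 0 (b1 2))))
    · exact (F1 _ 0 (b1 2)).sub (continuous_const.mul ((continuous_const.mul (F _ 0 (b1 2))).add (F _ 0 (b2 3))))
    · exact ((F1 _ 1 (b0 0)).sub (continuous_const.mul (F _ 1 (b1 1)))).sub (continuous_const.mul (F _ 1 (b0 0)))

theorem GG_cont (n d : ℕ) (hn : 1 ≤ n) (R ρ θ : ℝ) (hR : 0 < R) (hθ : 0 < θ) (f f1 f2 : ℝ → ℂ)
    (hf : ∀ t, HasDerivAt f (f1 t) t) (hf1 : ∀ t, HasDerivAt f1 (f2 t) t) (hf2 : Continuous f2)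
    (h0 : ∀ t < Real.log R, f t = 0 ∧ f1 t = 0 ∧ f2 t = 0) :
    (Continuous fun p : ℝ × ℝ × ℝ => GG n d R ρ (ps00 θ f) p.1 p.2.1 p.2.2) ∧
    (Continuous fun p : ℝ × ℝ × ℝ => GG n d R ρ (ps10 ρ θ f f1) p.1 p.2.1 p.2.2) ∧
    (Continuous fun p : ℝ × ℝ × ℝ => GG n d R ρ (ps01 θ f f1) p.1 p.2.1 p.2.2) ∧
    (Continuous fun p : ℝ × ℝ × ℝ => GG n d R ρ (ps11 ρ θ f f1 f2) p.1 p.2.1 p.2.2) := by
  unfold GG
  have H := fun (m : ℕ) (hm : m ∈ MM n d (12 * R)) (e : ℤ) =>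
    K_09_Tc n m e hn (K_09_m _ _ _ m hm) R ρ θ hR hθ f f1 f2 hf hf1 hf2 h0
  refine ⟨?_, ?_, ?_, ?_⟩
  · exact continuous_finsetSum _ fun m hm => continuous_finsetSum _ fun e _ => (H m hm e).1
  · exact continuous_finsetSum _ fun m hm => continuous_finsetSum _ fun e _ => (H m hm e).2.1
  · exact continuous_finsetSum _ fun m hm => continuous_finsetSum _ fun e _ => (H m hm e).2.2.1
  · exact continuous_finsetSum _ fun m hm => continuous_finsetSum _ fun e _ => (H m hm e).2.2.2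

private theorem K_09_fin (g00 g10 g01 g11 : ℝ → ℝ → ℂ)
    (d00 : Continuous fun p : ℝ × ℝ => g00 p.1 p.2) (d10 : Continuous fun p : ℝ × ℝ => g10 p.1 p.2)
    (d01 : Continuous fun p : ℝ × ℝ => g01 p.1 p.2) (d11 : Continuous fun p : ℝ × ℝ => g11 p.1 p.2)
    (h1 : ∀ s, HasDerivAt (fun s => g00 s 0) ((Real.exp (2 * 0) : ℂ) * g10 s 0) s)
    (h2 : ∀ s r, HasDerivAt (fun r => g00 s r) (g01 s r) r)
    (h12 : ∀ s r : ℝ, HasDerivAt (fun r : ℝ => (Real.exp (2 * r) : ℂ) * g10 s r)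
      ((Real.exp (2 * r) : ℂ) * g11 s r) r) :
    ‖g00 0 0‖ ^ 2 ≤ 240 * ∫ s in (0:ℝ)..1, ∫ r in (0:ℝ)..1,
      (‖g00 s r‖ ^ 2 + ‖g10 s r‖ ^ 2 + ‖g01 s r‖ ^ 2 + ‖g11 s r‖ ^ 2) := by
  have hE : Continuous fun p : ℝ × ℝ => (Real.exp (2 * p.2) : ℂ) := by fun_prop
  have key := sob2 g00 (fun s r => (Real.exp (2 * r) : ℂ) * g10 s r) g01
    (fun s r => (Real.exp (2 * r) : ℂ) * g11 s r) h1 h2 h12 d00 (hE.mul d10) d01 (hE.mul d11)
  refine key.trans ?_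
  have q00 := d00.norm.pow 2
  have q10 := d10.norm.pow 2
  have q01 := d01.norm.pow 2
  have q11 := d11.norm.pow 2
  have e10 := (hE.mul d10).norm.pow 2
  have e11 := (hE.mul d11).norm.pow 2
  have CL := ((q00.add e10).add q01).add e11
  have CR := ((q00.add q10).add q01).add q11
  have hcs : ∀ (F : ℝ × ℝ → ℝ), Continuous F → Continuous fun s => ∫ r in (0:ℝ)..1, F (s, r) := fun F hF =>
    intervalIntegral.continuous_parametric_intervalIntegral_of_continuous' (f := fun s r => F (s, r)) hF 0 1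
  have hm : ∫ s in (0:ℝ)..1, ∫ r in (0:ℝ)..1,
      (‖g00 s r‖ ^ 2 + ‖(Real.exp (2 * r) : ℂ) * g10 s r‖ ^ 2 +
        ‖g01 s r‖ ^ 2 + ‖(Real.exp (2 * r) : ℂ) * g11 s r‖ ^ 2) ≤
      ∫ s in (0:ℝ)..1, ∫ r in (0:ℝ)..1, 60 *
      (‖g00 s r‖ ^ 2 + ‖g10 s r‖ ^ 2 + ‖g01 s r‖ ^ 2 + ‖g11 s r‖ ^ 2) := by
    refine intervalIntegral.integral_mono_on zero_le_one ((hcs _ CL).intervalIntegrable _ _)
      ((hcs _ (CR.const_mul 60)).intervalIntegrable _ _) fun s _ => ?_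
    have hs : Continuous fun r : ℝ => (s, r) := by fun_prop
    refine intervalIntegral.integral_mono_on zero_le_one ((CL.comp hs).intervalIntegrable _ _)
      (((CR.const_mul 60).comp hs).intervalIntegrable _ _) fun r hr => ?_
    have hE4 : (Real.exp (2 * r)) ^ 2 ≤ 60 := by
      rw [← Real.exp_nat_mul]
      have h1 : ((2 : ℕ) : ℝ) * (2 * r) ≤ 4 := by push_cast; linarith [hr.2]
      have h2 : Real.exp 4 ≤ 60 := by
        have h3 : Real.exp 4 = Real.exp 1 ^ 4 := by rw [← Real.exp_nat_mul]; norm_num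
        rw [h3]
        have h4 := Real.exp_one_lt_d9
        have h5 : Real.exp 1 ^ 4 ≤ (2.7182818286 : ℝ) ^ 4 := pow_le_pow_left₀ (Real.exp_pos 1).le h4.le 4
        refine h5.trans (by norm_num)
      exact (Real.exp_le_exp.mpr h1).trans h2
    have hb : ∀ z : ℂ, ‖(Real.exp (2 * r) : ℂ) * z‖ ^ 2 ≤ 60 * ‖z‖ ^ 2 := by
      intro z
      rw [norm_mul, mul_pow, Complex.norm_real, Real.norm_of_nonneg (Real.exp_pos _).le]
      exact mul_le_mul_of_nonneg_right hE4 (by positivity)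
    have h1 := hb (g10 s r)
    have h2 := hb (g11 s r)
    have h3 : 0 ≤ ‖g00 s r‖ ^ 2 := by positivity
    have h4 : 0 ≤ ‖g01 s r‖ ^ 2 := by positivity
    linarith
  simp only [intervalIntegral.integral_const_mul] at hm
  linarith

theorem GG_sob (n d : ℕ) (hn : 1 ≤ n) (R ρ θ : ℝ) (hR : 0 < R) (hθ : 0 < θ) (f f1 f2 : ℝ → ℂ)
    (hf : ∀ t, HasDerivAt f (f1 t) t) (hf1 : ∀ t, HasDerivAt f1 (f2 t) t) (hf2 : Continuous f2)
    (h0 : ∀ t < Real.log R, f t = 0 ∧ f1 t = 0 ∧ f2 t = 0) (x : ℝ) :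
    ‖GG n d R ρ (ps00 θ f) x 0 0‖ ^ 2 ≤ 240 * ∫ s in (0:ℝ)..1, ∫ r in (0:ℝ)..1,
      (‖GG n d R ρ (ps00 θ f) x s r‖ ^ 2 + ‖GG n d R ρ (ps10 ρ θ f f1) x s r‖ ^ 2 +
        ‖GG n d R ρ (ps01 θ f f1) x s r‖ ^ 2 + ‖GG n d R ρ (ps11 ρ θ f f1 f2) x s r‖ ^ 2) := by
  obtain ⟨c00, c10, c01, c11⟩ := GG_cont n d hn R ρ θ hR hθ f f1 f2 hf hf1 hf2 h0
  have hi : Continuous fun p : ℝ × ℝ => (x, p.1, p.2) := by fun_prop
  have hcomp : ∀ F : ℝ × ℝ × ℝ → ℂ, Continuous F → Continuous fun p : ℝ × ℝ => F (x, p.1, p.2) :=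
    fun F hF => hF.comp hi
  have d00 := hcomp _ c00
  have d10 := hcomp _ c10
  have d01 := hcomp _ c01
  have d11 := hcomp _ c11
  have a1 : ∀ s, HasDerivAt (fun s => GG n d R ρ (ps00 θ f) x s 0)
      ((Real.exp (2 * 0) : ℂ) * GG n d R ρ (ps10 ρ θ f f1) x s 0) s := by
    intro s
    unfold GG
    rw [Finset.mul_sum]
    refine HasDerivAt.fun_sum fun m hm => ?_
    rw [Finset.mul_sum]
    exact HasDerivAt.fun_sum fun e _ => K_09_s00 n m e hn (K_09_m _ _ _ m hm) R ρ θ hR hθ f f1 hf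
        (fun t ht => ⟨(h0 t ht).1, (h0 t ht).2.1⟩) x s 0
  have a2 : ∀ s r, HasDerivAt (fun r => GG n d R ρ (ps00 θ f) x s r) (GG n d R ρ (ps01 θ f f1) x s r) r := by
    intro s r
    unfold GG
    refine HasDerivAt.fun_sum fun m hm => HasDerivAt.fun_sum fun e _ => ?_
    have := K_09_r00 n m e hn (K_09_m _ _ _ m hm) R θ hR hθ f f1 0 hf
        (fun t ht => ⟨(h0 t ht).1, (h0 t ht).2.1⟩) x (ρ * s) r
    rw [K_09_01]
    refine this.congr_deriv ?_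
    push_cast
    ring
  have a3 : ∀ s r : ℝ, HasDerivAt (fun r : ℝ => (Real.exp (2 * r) : ℂ) * GG n d R ρ (ps10 ρ θ f f1) x s r)
      ((Real.exp (2 * r) : ℂ) * GG n d R ρ (ps11 ρ θ f f1 f2) x s r) r := by
    intro s r
    unfold GG
    simp only [Finset.mul_sum]
    exact HasDerivAt.fun_sum fun m hm => HasDerivAt.fun_sum fun e _ =>
        K_09_r10 n m e hn (K_09_m _ _ _ m hm) R ρ θ hR hθ f f1 f2 hf hf1 h0 x (ρ * s) r
  exact K_09_fin (fun s r => GG n d R ρ (ps00 θ f) x s r) (fun s r => GG n d R ρ (ps10 ρ θ f f1) x s r)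
    (fun s r => GG n d R ρ (ps01 θ f f1) x s r) (fun s r => GG n d R ρ (ps11 ρ θ f f1 f2) x s r)
    d00 d10 d01 d11 a1 a2 a3

end Pool.Agent.LibSM56C
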