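import Pool.Agent.LibSM56C.K_Defs

/-! # SM56 part (C), section K
K_11 (SHORT, only Mathlib): Bessel's inequality. PLAN. `0 ≤ ∫ ‖F - ∑ c_N e(N x)‖²`, `c_N` the coefficients;
or `AddCircle` Fourier series. `ee (-(N x))` is the conjugate of `ee (N x)`, `∫₀¹ ee ((N - M) x) = 0` for `N ≠ M`. -/

set_option autoImplicit false

namespace Pool.Agent.LibSM56C

open MeasureTheory Set Filter Topology Complex
open scoped ENNReal ComplexConjugate

private theorem K_11_cont (k : ℤ) : Continuous fun x : ℝ => ee (-(k * x)) := by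
  unfold ee
  fun_prop

private theorem K_11_cont' (k : ℤ) : Continuous fun x : ℝ => ee (k * x) := by
  unfold ee
  fun_prop

private theorem K_11_conj (x : ℝ) : conj (ee x) = ee (-x) := by
  unfold ee
  rw [← Complex.exp_conj]
  congr 1
  simp only [map_mul, Complex.conj_I, Complex.conj_ofReal, map_ofNat]
  push_cast
  ring

private theorem K_11_orth (M N : ℤ) :
    ∫ x in (0:ℝ)..1, ee (M * x) * ee (-(N * x)) = if M = N then 1 else 0 := by
  have e1 : ∀ x : ℝ, ee (M * x) * ee (-(N * x)) =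
      cexp ((((M - N : ℤ) : ℂ) * (2 * Real.pi * I)) * x) := by
    intro x
    unfold ee
    rw [← Complex.exp_add]
    congr 1
    push_cast
    ring
  simp only [e1]
  by_cases h : M = N
  · rw [if_pos h, h]
    simp
  · rw [if_neg h]
    have hc : (((M - N : ℤ) : ℂ) * (2 * Real.pi * I)) ≠ 0 := by
      refine mul_ne_zero ?_ Complex.two_pi_I_ne_zero
      rw [Int.cast_ne_zero]
      exact sub_ne_zero.2 h
    rw [integral_exp_mul_complex hc]
    have e2 : cexp ((((M - N : ℤ) : ℂ) * (2 * Real.pi * I)) * ((1 : ℝ) : ℂ)) = 1 := by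
      rw [Complex.ofReal_one, mul_one]
      exact Complex.exp_int_mul_two_pi_mul_I _
    rw [e2, Complex.ofReal_zero, mul_zero, Complex.exp_zero, sub_self, zero_div]

theorem bessel (F : ℝ → ℂ) (hF : Continuous F) (J : Finset ℤ) :
    ∑ N ∈ J, ‖∫ x in (0:ℝ)..1, F x * ee (-(N * x))‖ ^ 2 ≤ ∫ x in (0:ℝ)..1, ‖F x‖ ^ 2 := by
  obtain ⟨c, hc⟩ : ∃ c : ℤ → ℂ, ∀ N : ℤ, c N = ∫ x in (0:ℝ)..1, F x * ee (-(N * x)) :=
    ⟨fun N => ∫ x in (0:ℝ)..1, F x * ee (-(N * x)), fun N => rfl⟩
  obtain ⟨S, hS⟩ : ∃ S : ℝ → ℂ, ∀ x : ℝ, S x = ∑ N ∈ J, c N * ee (N * x) :=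
    ⟨fun x => ∑ N ∈ J, c N * ee (N * x), fun x => rfl⟩
  have hSc : Continuous S := by
    have h1 : S = fun x => ∑ N ∈ J, c N * ee (N * x) := funext hS
    rw [h1]
    exact continuous_finset_sum _ fun N _ => continuous_const.mul (K_11_cont' N)
  have hconj : ∀ x, conj (S x) = ∑ N ∈ J, conj (c N) * ee (-(N * x)) := by
    intro x
    rw [hS, map_sum]
    refine Finset.sum_congr rfl fun N _ => ?_
    rw [map_mul, K_11_conj]
  have hA : ∀ H : ℝ → ℂ, Continuous H → ∫ x in (0:ℝ)..1, H x * conj (S x) =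
      ∑ N ∈ J, conj (c N) * ∫ x in (0:ℝ)..1, H x * ee (-(N * x)) := by
    intro H hH
    have h1 : ∀ x, H x * conj (S x) = ∑ N ∈ J, conj (c N) * (H x * ee (-(N * x))) := by
      intro x
      rw [hconj, Finset.mul_sum]
      refine Finset.sum_congr rfl fun N _ => ?_
      ring
    simp only [h1]
    rw [intervalIntegral.integral_finset_sum]
    · refine Finset.sum_congr rfl fun N _ => ?_
      rw [intervalIntegral.integral_const_mul]
    · intro N _
      exact (continuous_const.mul (hH.mul (K_11_cont N))).intervalIntegrable _ _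
  have hB : ∀ N ∈ J, ∫ x in (0:ℝ)..1, S x * ee (-(N * x)) = c N := by
    intro N hN
    have h1 : ∀ x : ℝ, S x * ee (-(N * x)) = ∑ M ∈ J, c M * (ee (M * x) * ee (-(N * x))) := by
      intro x
      rw [hS, Finset.sum_mul]
      refine Finset.sum_congr rfl fun M _ => ?_
      ring
    simp only [h1]
    rw [intervalIntegral.integral_finset_sum]
    · have h2 : ∀ M ∈ J, ∫ x in (0:ℝ)..1, c M * (ee (M * x) * ee (-(N * x))) =
          if M = N then c M else 0 := by
        intro M _
        rw [intervalIntegral.integral_const_mul, K_11_orth]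
        split_ifs <;> simp
      rw [Finset.sum_congr rfl h2, Finset.sum_ite_eq' J N, if_pos hN]
    · intro M _
      exact (continuous_const.mul ((K_11_cont' M).mul (K_11_cont N))).intervalIntegrable _ _
  have hn : ∀ z : ℂ, conj z * z = ((‖z‖ ^ 2 : ℝ) : ℂ) := by
    intro z
    rw [mul_comm, Complex.mul_conj, Complex.normSq_eq_norm_sq]
  have i1 : ∫ x in (0:ℝ)..1, F x * conj (S x) = ((∑ N ∈ J, ‖c N‖ ^ 2 : ℝ) : ℂ) := by
    rw [hA F hF, Complex.ofReal_sum]
    refine Finset.sum_congr rfl fun N _ => ?_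
    rw [← hc, hn]
  have i2 : ∫ x in (0:ℝ)..1, S x * conj (S x) = ((∑ N ∈ J, ‖c N‖ ^ 2 : ℝ) : ℂ) := by
    rw [hA S hSc, Complex.ofReal_sum]
    refine Finset.sum_congr rfl fun N hN => ?_
    rw [hB N hN, hn]
  have hFS : Continuous fun x => F x * conj (S x) := hF.mul (Complex.continuous_conj.comp hSc)
  have hSS : Continuous fun x => S x * conj (S x) := hSc.mul (Complex.continuous_conj.comp hSc)
  have hre : ∀ f : ℝ → ℂ, Continuous f →
      ∫ x in (0:ℝ)..1, (f x).re = (∫ x in (0:ℝ)..1, f x).re := by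
    intro f hf
    have h1 := Complex.reCLM.intervalIntegral_comp_comm (hf.intervalIntegrable (μ := volume) 0 1)
    exact h1
  have hp : ∀ x, 2 * (F x * conj (S x)).re - (S x * conj (S x)).re ≤ ‖F x‖ ^ 2 := by
    intro x
    have h1 : 0 ≤ ‖F x - S x‖ ^ 2 := sq_nonneg _
    have h2 : ‖F x - S x‖ ^ 2 = ‖F x‖ ^ 2 + (S x * conj (S x)).re - 2 * (F x * conj (S x)).re := by
      rw [← Complex.normSq_eq_norm_sq, Complex.normSq_sub, Complex.normSq_eq_norm_sq,
        Complex.mul_conj (S x), Complex.ofReal_re]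
    linarith
  have key : ∫ x in (0:ℝ)..1, (2 * (F x * conj (S x)).re - (S x * conj (S x)).re) ≤
      ∫ x in (0:ℝ)..1, ‖F x‖ ^ 2 := by
    apply intervalIntegral.integral_mono (by norm_num)
    · exact ((continuous_const.mul (Complex.continuous_re.comp hFS)).sub
        (Complex.continuous_re.comp hSS)).intervalIntegrable _ _
    · exact (hF.norm.pow 2).intervalIntegrable _ _
    · exact hp
  rw [intervalIntegral.integral_sub, intervalIntegral.integral_const_mul, hre _ hFS, hre _ hSS,
    i1, i2, Complex.ofReal_re] at key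
  · simp only [hc] at key
    linarith
  · exact (continuous_const.mul (Complex.continuous_re.comp hFS)).intervalIntegrable _ _
  · exact (Complex.continuous_re.comp hSS).intervalIntegrable _ _

end Pool.Agent.LibSM56C
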