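import Pool.Agent.LibSM56C.K_Defs
import Pool.Agent.LibSM56C.G_8
import Pool.Agent.LibSM56C.D_diag
import Pool.Agent.LibSM56C.K_05
import Pool.Agent.LibSM56C.K_08
import Pool.Agent.LibSM56C.K_09
import Pool.Agent.LibSM56C.K_10
import Pool.Agent.LibSM56C.K_11

/-! # SM56 part (C), section K
K_12: assembly of LEMMA KL. -/

set_option autoImplicit false

namespace Pool.Agent.LibSM56C

open MeasureTheory Set Filter Topology Complex
open scoped ENNReal ComplexConjugate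

private theorem ofReal_int (h : ℝ → ℝ) (hc : Continuous h) (h0 : ∀ x, 0 ≤ h x) :
    ENNReal.ofReal (∫ x in (0:ℝ)..1, h x) = ∫⁻ x in Ioc (0:ℝ) 1, ENNReal.ofReal (h x) := by
  rw [intervalIntegral.integral_of_le zero_le_one]
  exact ofReal_integral_eq_lintegral_ofReal
    ((hc.continuousOn.integrableOn_Icc (a := 0) (b := 1)).mono_set Ioc_subset_Icc_self)
    (Filter.Eventually.of_forall h0)

private theorem ofReal_int3 (h : ℝ × ℝ × ℝ → ℝ) (hc : Continuous h) (h0 : ∀ x, 0 ≤ h x) :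
    ENNReal.ofReal (∫ x in (0:ℝ)..1, ∫ s in (0:ℝ)..1, ∫ r in (0:ℝ)..1, h (x, s, r)) =
      ∫⁻ x in Ico (0:ℝ) 1, ∫⁻ s in Ioc (0:ℝ) 1, ∫⁻ r in Icc (0:ℝ) 1, ENNReal.ofReal (h (x, s, r)) := by
  have e1 : ∀ φ : ℝ → ℝ≥0∞, ∫⁻ r in Icc (0:ℝ) 1, φ r = ∫⁻ r in Ioc (0:ℝ) 1, φ r := fun φ =>
    setLIntegral_congr Ioc_ae_eq_Icc.symm
  have e2 : ∀ φ : ℝ → ℝ≥0∞, ∫⁻ r in Ico (0:ℝ) 1, φ r = ∫⁻ r in Ioc (0:ℝ) 1, φ r := fun φ =>
    setLIntegral_congr Ico_ae_eq_Ioc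
  have c1 : ∀ x s, Continuous fun r => h (x, s, r) := fun x s => hc.comp (by fun_prop)
  have c2 : Continuous fun p : ℝ × ℝ => ∫ r in (0:ℝ)..1, h (p.1, p.2, r) := by
    apply intervalIntegral.continuous_parametric_intervalIntegral_of_continuous'
    exact hc.comp (by fun_prop : Continuous fun q : (ℝ × ℝ) × ℝ => (q.1.1, q.1.2, q.2))
  have c3 : ∀ x, Continuous fun s => ∫ r in (0:ℝ)..1, h (x, s, r) := fun x =>
    c2.comp (by fun_prop : Continuous fun s : ℝ => (x, s))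
  have c4 : Continuous fun x => ∫ s in (0:ℝ)..1, ∫ r in (0:ℝ)..1, h (x, s, r) := by
    apply intervalIntegral.continuous_parametric_intervalIntegral_of_continuous'
    exact c2
  rw [e2, ofReal_int _ c4 fun x => intervalIntegral.integral_nonneg zero_le_one fun s _ =>
    intervalIntegral.integral_nonneg zero_le_one fun r _ => h0 _]
  refine lintegral_congr fun x => ?_
  rw [ofReal_int _ (c3 x) fun s => intervalIntegral.integral_nonneg zero_le_one fun r _ => h0 _]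
  refine lintegral_congr fun s => ?_
  rw [ofReal_int _ (c1 x s) fun r => h0 _, e1]

/-- the integral of one of the four functions over the cube -/
private theorem cube (n d : ℕ) (hn : 1 ≤ n) (hd : 1 ≤ d) (hnd : Nat.Coprime n d) (R L : ℝ) (hR : 0 < R)
    (hL : 1 ≤ L) (ψ : ℝ × ℝ → ℂ) (hm : Measurable ψ)
    (hb : ∀ v, ‖ψ v‖ ≤ 120 * (KK R (1 / (16 * L))).indicator 1 v)
    (hc : Continuous fun p : ℝ × ℝ × ℝ => GG n d R L ψ p.1 p.2.1 p.2.2) :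
    ∫ x in (0:ℝ)..1, ∫ s in (0:ℝ)..1, ∫ r in (0:ℝ)..1, ‖GG n d R L ψ x s r‖ ^ 2 ≤
      1 / L * ((1 + 8 * L / (n * d)) * (120 ^ 2 * (63 * (1 / (16 * L)) * R ^ 2) *
        (1 + 16 * KX (n * d) (64 * R ^ 2 / L)))) := by
  have hL0 : 0 < L := by linarith
  have hθ : 0 < 1 / (16 * L) := by positivity
  have hθ1 : 1 / (16 * L) ≤ 1 / 16 := by
    apply one_div_le_one_div_of_le <;> linarith
  have hρθ : L * (1 / (16 * L)) ≤ 1 / 16 := by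
    have : L * (1 / (16 * L)) = 1 / 16 := by field_simp
    linarith
  have hψ : ∀ v, v ∉ KK R (1 / (16 * L)) → ψ v = 0 := by
    intro v hv
    have := hb v
    rw [indicator_of_notMem hv, mul_zero] at this
    exact norm_eq_zero.1 (le_antisymm this (norm_nonneg _))
  have h1 := box_int n d hn hd R (1 / (16 * L)) L hR hθ hθ1 hL0 hρθ ψ hm hψ
  have h2 := geo_proof n d hn hd hnd R (1 / (16 * L)) L 120 hR hθ hL0 (by norm_num) ψ hm hb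
  have h3 := diag_proof (n * d) (Nat.mul_pos hn hd) R (1 / (16 * L)) 120 hR hθ (by norm_num) ψ hm hb
  have e : 1024 * (1 / (16 * L)) * R ^ 2 = 64 * R ^ 2 / L := by field_simp; norm_num
  rw [e] at h3
  have hnd0 : (0 : ℝ) ≤ n * d := by positivity
  have hK : 0 ≤ KX (n * d) (64 * R ^ 2 / L) := by
    unfold KX
    positivity
  have hq : 0 ≤ 1 + 8 * L / (n * d) := by positivity
  have hB : 0 ≤ 1 / L * ((1 + 8 * L / (n * d)) * (120 ^ 2 * (63 * (1 / (16 * L)) * R ^ 2) *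
        (1 + 16 * KX (n * d) (64 * R ^ 2 / L)))) := by positivity
  rw [← ENNReal.ofReal_le_ofReal_iff hB,
    ofReal_int3 (fun p => ‖GG n d R L ψ p.1 p.2.1 p.2.2‖ ^ 2) (hc.norm.pow 2) fun p => by positivity]
  have e3 : ∀ x s r, ENNReal.ofReal (‖GG n d R L ψ x s r‖ ^ 2) = ‖GG n d R L ψ x s r‖ₑ ^ 2 := by
    intro x s r
    rw [ENNReal.ofReal_pow (norm_nonneg _), ofReal_norm]
  simp only [e3]
  refine h1.trans ?_
  rw [ENNReal.ofReal_mul (by positivity)]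
  refine mul_le_mul_right ?_ _
  refine h2.trans (ENNReal.ofReal_le_ofReal ?_)
  exact mul_le_mul_of_nonneg_left h3 hq

private theorem add4 (A B C D : ℝ → ℝ) (hA : Continuous A) (hB : Continuous B) (hC : Continuous C)
    (hD : Continuous D) (Q : ℝ) (qA : ∫ x in (0:ℝ)..1, A x ≤ Q) (qB : ∫ x in (0:ℝ)..1, B x ≤ Q)
    (qC : ∫ x in (0:ℝ)..1, C x ≤ Q) (qD : ∫ x in (0:ℝ)..1, D x ≤ Q) :
    ∫ x in (0:ℝ)..1, 240 * (A x + B x + C x + D x) ≤ 240 * (4 * Q) := by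
  rw [intervalIntegral.integral_const_mul,
    intervalIntegral.integral_add
      ((by fun_prop : Continuous fun x => A x + B x + C x).intervalIntegrable _ _)
      (hD.intervalIntegrable _ _),
    intervalIntegral.integral_add
      ((by fun_prop : Continuous fun x => A x + B x).intervalIntegrable _ _)
      (hC.intervalIntegrable _ _),
    intervalIntegral.integral_add (hA.intervalIntegrable _ _) (hB.intervalIntegrable _ _)]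
  linarith

/-- four functions on the cube -/
private theorem sob_int (g0 g1 g2 g3 : ℝ × ℝ × ℝ → ℂ) (c0 : Continuous g0) (c1 : Continuous g1)
    (c2 : Continuous g2) (c3 : Continuous g3) (Q : ℝ)
    (h : ∀ x, ‖g0 (x, 0, 0)‖ ^ 2 ≤ 240 * ∫ s in (0:ℝ)..1, ∫ r in (0:ℝ)..1,
      (‖g0 (x, s, r)‖ ^ 2 + ‖g1 (x, s, r)‖ ^ 2 + ‖g2 (x, s, r)‖ ^ 2 + ‖g3 (x, s, r)‖ ^ 2))
    (q0 : ∫ x in (0:ℝ)..1, ∫ s in (0:ℝ)..1, ∫ r in (0:ℝ)..1, ‖g0 (x, s, r)‖ ^ 2 ≤ Q)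
    (q1 : ∫ x in (0:ℝ)..1, ∫ s in (0:ℝ)..1, ∫ r in (0:ℝ)..1, ‖g1 (x, s, r)‖ ^ 2 ≤ Q)
    (q2 : ∫ x in (0:ℝ)..1, ∫ s in (0:ℝ)..1, ∫ r in (0:ℝ)..1, ‖g2 (x, s, r)‖ ^ 2 ≤ Q)
    (q3 : ∫ x in (0:ℝ)..1, ∫ s in (0:ℝ)..1, ∫ r in (0:ℝ)..1, ‖g3 (x, s, r)‖ ^ 2 ≤ Q) :
    ∫ x in (0:ℝ)..1, ‖g0 (x, 0, 0)‖ ^ 2 ≤ 240 * (4 * Q) := by
  have key : ∀ g : ℝ × ℝ × ℝ → ℂ, Continuous g →
      (Continuous fun p : ℝ × ℝ => ∫ r in (0:ℝ)..1, ‖g (p.1, p.2, r)‖ ^ 2) ∧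
      (Continuous fun x => ∫ s in (0:ℝ)..1, ∫ r in (0:ℝ)..1, ‖g (x, s, r)‖ ^ 2) := by
    intro g hg
    have c2 : Continuous fun p : ℝ × ℝ => ∫ r in (0:ℝ)..1, ‖g (p.1, p.2, r)‖ ^ 2 := by
      apply intervalIntegral.continuous_parametric_intervalIntegral_of_continuous'
      exact (hg.comp (by fun_prop : Continuous fun q : (ℝ × ℝ) × ℝ => (q.1.1, q.1.2, q.2))).norm.pow 2
    refine ⟨c2, ?_⟩
    apply intervalIntegral.continuous_parametric_intervalIntegral_of_continuous'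
    exact c2
  have split : ∀ x, ∫ s in (0:ℝ)..1, ∫ r in (0:ℝ)..1,
      (‖g0 (x, s, r)‖ ^ 2 + ‖g1 (x, s, r)‖ ^ 2 + ‖g2 (x, s, r)‖ ^ 2 + ‖g3 (x, s, r)‖ ^ 2) =
      (∫ s in (0:ℝ)..1, ∫ r in (0:ℝ)..1, ‖g0 (x, s, r)‖ ^ 2) +
      (∫ s in (0:ℝ)..1, ∫ r in (0:ℝ)..1, ‖g1 (x, s, r)‖ ^ 2) +
      (∫ s in (0:ℝ)..1, ∫ r in (0:ℝ)..1, ‖g2 (x, s, r)‖ ^ 2) +
      (∫ s in (0:ℝ)..1, ∫ r in (0:ℝ)..1, ‖g3 (x, s, r)‖ ^ 2) := by
    intro x
    have kr : ∀ g : ℝ × ℝ × ℝ → ℂ, Continuous g → ∀ s,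
        IntervalIntegrable (fun r => ‖g (x, s, r)‖ ^ 2) volume 0 1 := fun g hg s =>
      ((hg.comp (by fun_prop : Continuous fun r : ℝ => (x, s, r))).norm.pow 2).intervalIntegrable _ _
    have ks : ∀ g : ℝ × ℝ × ℝ → ℂ, Continuous g →
        IntervalIntegrable (fun s => ∫ r in (0:ℝ)..1, ‖g (x, s, r)‖ ^ 2) volume 0 1 := fun g hg =>
      ((key g hg).1.comp (by fun_prop : Continuous fun s : ℝ => (x, s))).intervalIntegrable _ _
    have e : ∀ s, ∫ r in (0:ℝ)..1,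
      (‖g0 (x, s, r)‖ ^ 2 + ‖g1 (x, s, r)‖ ^ 2 + ‖g2 (x, s, r)‖ ^ 2 + ‖g3 (x, s, r)‖ ^ 2) =
      (∫ r in (0:ℝ)..1, ‖g0 (x, s, r)‖ ^ 2) + (∫ r in (0:ℝ)..1, ‖g1 (x, s, r)‖ ^ 2) +
      (∫ r in (0:ℝ)..1, ‖g2 (x, s, r)‖ ^ 2) + (∫ r in (0:ℝ)..1, ‖g3 (x, s, r)‖ ^ 2) := by
      intro s
      rw [intervalIntegral.integral_add (((kr _ c0 s).add (kr _ c1 s)).add (kr _ c2 s)) (kr _ c3 s),
        intervalIntegral.integral_add ((kr _ c0 s).add (kr _ c1 s)) (kr _ c2 s),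
        intervalIntegral.integral_add (kr _ c0 s) (kr _ c1 s)]
    simp_rw [e]
    rw [intervalIntegral.integral_add (((ks _ c0).add (ks _ c1)).add (ks _ c2)) (ks _ c3),
      intervalIntegral.integral_add ((ks _ c0).add (ks _ c1)) (ks _ c2),
      intervalIntegral.integral_add (ks _ c0) (ks _ c1)]
  have i0 := (key _ c0).2
  have i1 := (key _ c1).2
  have i2 := (key _ c2).2
  have i3 := (key _ c3).2
  have cx : Continuous fun x : ℝ => g0 (x, 0, 0) :=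
    c0.comp (by fun_prop : Continuous fun x : ℝ => (x, (0:ℝ), (0:ℝ)))
  have : ∫ x in (0:ℝ)..1, ‖g0 (x, 0, 0)‖ ^ 2 ≤ ∫ x in (0:ℝ)..1, 240 * (
      (∫ s in (0:ℝ)..1, ∫ r in (0:ℝ)..1, ‖g0 (x, s, r)‖ ^ 2) +
      (∫ s in (0:ℝ)..1, ∫ r in (0:ℝ)..1, ‖g1 (x, s, r)‖ ^ 2) +
      (∫ s in (0:ℝ)..1, ∫ r in (0:ℝ)..1, ‖g2 (x, s, r)‖ ^ 2) +
      (∫ s in (0:ℝ)..1, ∫ r in (0:ℝ)..1, ‖g3 (x, s, r)‖ ^ 2)) := by
    refine intervalIntegral.integral_mono_on zero_le_one ((cx.norm.pow 2).intervalIntegrable _ _)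
      ((((((i0.add i1).add i2).add i3).const_mul 240) : Continuous fun x => 240 * (
      (∫ s in (0:ℝ)..1, ∫ r in (0:ℝ)..1, ‖g0 (x, s, r)‖ ^ 2) +
      (∫ s in (0:ℝ)..1, ∫ r in (0:ℝ)..1, ‖g1 (x, s, r)‖ ^ 2) +
      (∫ s in (0:ℝ)..1, ∫ r in (0:ℝ)..1, ‖g2 (x, s, r)‖ ^ 2) +
      (∫ s in (0:ℝ)..1, ∫ r in (0:ℝ)..1, ‖g3 (x, s, r)‖ ^ 2))).intervalIntegrable _ _) fun x _ => ?_
    rw [← split x]
    exact h x
  exact this.trans (add4 _ _ _ _ i0 i1 i2 i3 Q q0 q1 q2 q3)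

private theorem slice (g : ℝ × ℝ × ℝ → ℂ) (hg : Continuous g) : Continuous fun x => g (x, 0, 0) :=
  hg.comp (by fun_prop : Continuous fun x : ℝ => (x, (0:ℝ), (0:ℝ)))

/-- the integral of the square of `GG` at `s = r = 0` -/
private theorem int_bound (n d : ℕ) (hn : 1 ≤ n) (hd : 1 ≤ d) (hnd : Nat.Coprime n d) (R L : ℝ) (hR : 0 < R)
    (hL : 1 ≤ L) (hLR : L ≤ R ^ 2) (f f1 f2 : ℝ → ℂ) (hf : ∀ t, HasDerivAt f (f1 t) t)
    (hf1 : ∀ t, HasDerivAt f1 (f2 t) t) (hf2 : Continuous f2) (hb : ∀ t, ‖f t‖ ≤ 1 ∧ ‖f1 t‖ ≤ 1 ∧ ‖f2 t‖ ≤ 1)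
    (h0 : ∀ t, t ∉ Icc (Real.log R) (Real.log (8 * R)) → f t = 0) :
    (Continuous fun x : ℝ => GG n d R L (ps00 (1 / (16 * L)) f) x 0 0) ∧
    ∫ x in (0:ℝ)..1, ‖GG n d R L (ps00 (1 / (16 * L)) f) x 0 0‖ ^ 2 ≤
      240 * (4 * (1 / L * ((1 + 8 * L / (n * d)) *
      (120 ^ 2 * (63 * (1 / (16 * L)) * R ^ 2) * (1 + 16 * KX (n * d) (64 * R ^ 2 / L)))))) := by
  have hL0 : 0 < L := by linarith
  have hθ : 0 < 1 / (16 * L) := by positivity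
  have hθ1 : 1 / (16 * L) ≤ 1 := by
    have : 1 / (16 * L) ≤ 1 / 16 := by apply one_div_le_one_div_of_le <;> linarith
    linarith
  have hopen : IsOpen (Icc (Real.log R) (Real.log (8 * R)))ᶜ := isClosed_Icc.isOpen_compl
  have h01 : ∀ t, t ∉ Icc (Real.log R) (Real.log (8 * R)) → f1 t = 0 := by
    intro t ht
    have : f =ᶠ[𝓝 t] fun _ => 0 := by
      filter_upwards [hopen.mem_nhds ht] with u hu using h0 u hu
    exact (hf t).unique ((hasDerivAt_const t (0 : ℂ)).congr_of_eventuallyEq this)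
  have h02 : ∀ t, t ∉ Icc (Real.log R) (Real.log (8 * R)) → f2 t = 0 := by
    intro t ht
    have : f1 =ᶠ[𝓝 t] fun _ => 0 := by
      filter_upwards [hopen.mem_nhds ht] with u hu using h01 u hu
    exact (hf1 t).unique ((hasDerivAt_const t (0 : ℂ)).congr_of_eventuallyEq this)
  have h000 : ∀ t, t ∉ Icc (Real.log R) (Real.log (8 * R)) → f t = 0 ∧ f1 t = 0 ∧ f2 t = 0 :=
    fun t ht => ⟨h0 t ht, h01 t ht, h02 t ht⟩
  have h0lt : ∀ t < Real.log R, f t = 0 ∧ f1 t = 0 ∧ f2 t = 0 := fun t ht =>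
    h000 t fun h => absurd h.1 (not_le.2 ht)
  have hcf : Continuous f := continuous_iff_continuousAt.2 fun t => (hf t).continuousAt
  have hcf1 : Continuous f1 := continuous_iff_continuousAt.2 fun t => (hf1 t).continuousAt
  obtain ⟨m00, m01, m10, m11⟩ := ps_meas L (1 / (16 * L)) hθ f f1 f2 hcf.measurable hcf1.measurable
    hf2.measurable
  have hρθ : L * (1 / (16 * L)) ≤ 1 / 16 := by
    have : L * (1 / (16 * L)) = 1 / 16 := by field_simp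
    linarith
  have hbd := fun v => ps_bound R L (1 / (16 * L)) hR hθ hθ1 hL0 hρθ hLR f f1 f2 hb h000 v
  obtain ⟨c00, c10, c01, c11⟩ := GG_cont n d hn R L (1 / (16 * L)) hR hθ f f1 f2 hf hf1 hf2 h0lt
  have q00 := cube n d hn hd hnd R L hR hL _ m00 (fun v => (hbd v).1) c00
  have q01 := cube n d hn hd hnd R L hR hL _ m01 (fun v => (hbd v).2.1) c01
  have q10 := cube n d hn hd hnd R L hR hL _ m10 (fun v => (hbd v).2.2.1) c10
  have q11 := cube n d hn hd hnd R L hR hL _ m11 (fun v => (hbd v).2.2.2) c11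
  refine ⟨slice _ c00, ?_⟩
  exact sob_int _ _ _ _ c00 c10 c01 c11 _
    (fun x => GG_sob n d hn R L (1 / (16 * L)) hR hθ f f1 f2 hf hf1 hf2 h0lt x) q00 q10 q01 q11

private theorem fin_arith (L R K D S : ℝ) (hL : 0 < L) (hR : 0 < R) (hD : 0 < D) (hK : 0 ≤ K)
    (h : 1 / (1024 * L ^ 2) * S ≤ 240 * (4 * (1 / L * ((1 + 8 * L / D) *
      (120 ^ 2 * (63 * (1 / (16 * L)) * R ^ 2) * (1 + 16 * K)))))) :
    S ≤ 10 ^ 15 * (1 + L / D) * R ^ 2 * (1 + K) := by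
  have h5 : S ≤ 1024 * L ^ 2 * (240 * (4 * (1 / L * ((1 + 8 * L / D) *
      (120 ^ 2 * (63 * (1 / (16 * L)) * R ^ 2) * (1 + 16 * K)))))) := by
    have : S = 1024 * L ^ 2 * (1 / (1024 * L ^ 2) * S) := by field_simp
    rw [this]
    exact mul_le_mul_of_nonneg_left h (by positivity)
  have e : 1024 * L ^ 2 * (240 * (4 * (1 / L * ((1 + 8 * L / D) *
      (120 ^ 2 * (63 * (1 / (16 * L)) * R ^ 2) * (1 + 16 * K)))))) =
      1024 * 240 * 4 * 120 ^ 2 * 63 / 16 * ((1 + 8 * (L / D)) * (R ^ 2 * (1 + 16 * K))) := by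
    field_simp
  rw [e] at h5
  have h8 : 0 ≤ L / D := by positivity
  have h9 : (1 + 8 * (L / D)) * (R ^ 2 * (1 + 16 * K)) ≤
      (8 * (1 + L / D)) * (R ^ 2 * (16 * (1 + K))) := by
    gcongr
    · linarith
    · linarith
  calc S ≤ _ := h5
    _ ≤ 1024 * 240 * 4 * 120 ^ 2 * 63 / 16 * ((8 * (1 + L / D)) * (R ^ 2 * (16 * (1 + K)))) := by
        gcongr
    _ = (1024 * 240 * 4 * 120 ^ 2 * 63 / 16 * 8 * 16) * ((1 + L / D) * (R ^ 2 * (1 + K))) := by ring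
    _ ≤ 10 ^ 15 * ((1 + L / D) * (R ^ 2 * (1 + K))) := by
        refine mul_le_mul_of_nonneg_right ?_ (by positivity)
        norm_num
    _ = _ := by ring

theorem KL_main : ∃ C : ℝ, 0 < C ∧ ∀ n d : ℕ, 1 ≤ n → 1 ≤ d → Nat.Coprime n d → ∀ R L : ℝ, 0 < R → 1 ≤ L → L ≤ R ^ 2 →
    ∀ f f1 f2 : ℝ → ℂ, (∀ t, HasDerivAt f (f1 t) t) → (∀ t, HasDerivAt f1 (f2 t) t) → Continuous f2 →
    (∀ t, ‖f t‖ ≤ 1 ∧ ‖f1 t‖ ≤ 1 ∧ ‖f2 t‖ ≤ 1) → (∀ t, t ∉ Icc (Real.log R) (Real.log (8 * R)) → f t = 0) →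
    ∑ N ∈ (Finset.Icc (-⌊2 * L⌋) ⌊2 * L⌋).filter (fun N : ℤ => L ≤ |(N : ℝ)|),
      ‖∑ m ∈ (Finset.Icc 1 ⌊8 * R⌋₊).filter (fun m => d ∣ m ∧ Nat.Coprime m n),
        Sk m (N : ZMod m) ((n : ZMod m)⁻¹) * f (Real.log (√(n : ℝ) * m))‖ ^ 2 ≤
    C * (1 + L / (n * d)) * R ^ 2 * (1 + KX (n * d) (64 * R ^ 2 / L)) := by
  refine ⟨10 ^ 15, by positivity, ?_⟩
  intro n d hn hd hnd R L hR hL hLR f f1 f2 hf hf1 hf2 hb h0
  have hL0 : 0 < L := by linarith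
  set θ : ℝ := 1 / (16 * L) with hθdef
  have hθ : 0 < θ := by positivity
  have hθ1 : θ ≤ 1 / 16 := by
    rw [hθdef]
    apply one_div_le_one_div_of_le <;> linarith
  obtain ⟨cx, hint⟩ := int_bound n d hn hd hnd R L hR hL hLR f f1 f2 hf hf1 hf2 hb h0
  rw [← hθdef] at cx
  -- Bessel and Fourier coefficients
  set J := (Finset.Icc (-⌊2 * L⌋) ⌊2 * L⌋).filter (fun N : ℤ => L ≤ |(N : ℝ)|) with hJ
  have hbes := bessel (fun x => GG n d R L (ps00 θ f) x 0 0) cx J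
  have hsum : ∑ N ∈ J, (θ / 2) ^ 2 * ‖∑ m ∈ (Finset.Icc 1 ⌊8 * R⌋₊).filter (fun m => d ∣ m ∧ Nat.Coprime m n),
        Sk m (N : ZMod m) ((n : ZMod m)⁻¹) * f (Real.log (√(n : ℝ) * m))‖ ^ 2 ≤
      ∑ N ∈ J, ‖∫ x in (0:ℝ)..1, GG n d R L (ps00 θ f) x 0 0 * ee (-(N * x))‖ ^ 2 := by
    refine Finset.sum_le_sum fun N hN => ?_
    rw [GG_four n d hn hd R L θ hR hθ hθ1 f h0 N, norm_mul, mul_pow]
    have hN' : |(N : ℝ)| ≤ 2 * L := by
      rw [hJ, Finset.mem_filter, Finset.mem_Icc] at hN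
      have h1 := hN.1
      have h2 : ((⌊2 * L⌋ : ℤ) : ℝ) ≤ 2 * L := Int.floor_le _
      have h3 : (N : ℝ) ≤ (⌊2 * L⌋ : ℤ) := by exact_mod_cast h1.2
      have h4 : -((⌊2 * L⌋ : ℤ) : ℝ) ≤ N := by exact_mod_cast h1.1
      rw [abs_le]
      constructor <;> linarith
    have hN2 : |(N : ℝ)| * θ ≤ 1 / 8 := by
      calc |(N : ℝ)| * θ ≤ 2 * L * θ := mul_le_mul_of_nonneg_right hN' hθ.le
        _ = 1 / 8 := by rw [hθdef]; field_simp; norm_num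
    have hh := bu_hat θ hθ (by linarith) N hN2
    exact mul_le_mul_of_nonneg_right (pow_le_pow_left₀ (by positivity) hh 2) (by positivity)
  rw [← Finset.mul_sum] at hsum
  have hfin := hsum.trans (hbes.trans hint)
  set S := ∑ N ∈ J, ‖∑ m ∈ (Finset.Icc 1 ⌊8 * R⌋₊).filter (fun m => d ∣ m ∧ Nat.Coprime m n),
        Sk m (N : ZMod m) ((n : ZMod m)⁻¹) * f (Real.log (√(n : ℝ) * m))‖ ^ 2 with hS
  have hK : 0 ≤ KX (n * d) (64 * R ^ 2 / L) := by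
    unfold KX
    positivity
  have hnd0 : (0 : ℝ) < n * d := by
    have h1 : (0 : ℝ) < n := by exact_mod_cast hn
    have h2 : (0 : ℝ) < d := by exact_mod_cast hd
    positivity
  have h4 : (θ / 2) ^ 2 = 1 / (1024 * L ^ 2) := by rw [hθdef]; field_simp; norm_num
  rw [h4] at hfin
  have h := fin_arith L R _ (n * d) S hL0 hR hnd0 hK hfin
  simpa using h

end Pool.Agent.LibSM56C
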