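import Pool.Agent.LibSM56C.Defs

/-! # SM56 part (C), section K: definitions -/

set_option autoImplicit false

namespace Pool.Agent.LibSM56C

open MeasureTheory Set Filter Topology Complex
open scoped ENNReal ComplexConjugate

/-- `e(x)`. -/
noncomputable def ee (x : ℝ) : ℂ := cexp (2 * Real.pi * I * x)

/-- The inverse of `n e` modulo `m`, as a natural number. -/
noncomputable def ia (n m : ℕ) (e : ℤ) : ℕ := ((((n : ℤ) * e : ℤ) : ZMod m)⁻¹).val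

/-- `q = √n (m x + e)`. -/
noncomputable def qw (n m : ℕ) (e : ℤ) (x : ℝ) : ℝ := √(n : ℝ) * (m * x + e)

/-- `p + τ q`, `p = √n m`. -/
noncomputable def pw (n m : ℕ) (e : ℤ) (x τ : ℝ) : ℝ := √(n : ℝ) * m + τ * qw n m e x

/-- The coordinate `x' = a/m - τ / (p (p + τ q))`. -/
noncomputable def xx (n m : ℕ) (e : ℤ) (x τ : ℝ) : ℝ :=
  ia n m e / m - τ / (√(n : ℝ) * m * pw n m e x τ)

/-- The bottom row `((p + τ q) e^r, q e^(-r))`. -/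
noncomputable def vv (n m : ℕ) (e : ℤ) (x τ r : ℝ) : ℝ × ℝ :=
  (pw n m e x τ * Real.exp r, qw n m e x * Real.exp (-r))

/-- One term of the series at the point `n(x) n⁻(τ) a(r)`. -/
noncomputable def Tm (n m : ℕ) (e : ℤ) (ψ : ℝ × ℝ → ℂ) (x τ r : ℝ) : ℂ :=
  ee (xx n m e x τ) * ψ (vv n m e x τ r)

/-- The moduli. -/
noncomputable def MM (n d : ℕ) (X : ℝ) : Finset ℕ :=
  (Finset.Icc 1 ⌊X⌋₊).filter (fun m => d ∣ m ∧ Nat.Coprime m n)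

/-- The second entries of the bottom rows. -/
noncomputable def EE (m : ℕ) : Finset ℤ := (Finset.Ico (-2 * (m : ℤ)) m).filter (fun e => IsCoprime e m)

/-- The series at the point `n(x) n⁻(ρ s) a(r)`, as a finite sum. -/
noncomputable def GG (n d : ℕ) (R ρ : ℝ) (ψ : ℝ × ℝ → ℂ) (x s r : ℝ) : ℂ :=
  ∑ m ∈ MM n d (12 * R), ∑ e ∈ EE m, Tm n m e ψ x (ρ * s) r

/-- The building block `A(log v₁) B(v₂/v₁) v₁^(-2k)`. -/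
noncomputable def bb (A B : ℝ → ℂ) (k : ℕ) (v : ℝ × ℝ) : ℂ :=
  if 0 < v.1 then A (Real.log v.1) * B (v.2 / v.1) / (v.1 : ℂ) ^ (2 * k) else 0

/-- The bump `(1 - (t/θ)²)³`, its first and second derivative. -/
noncomputable def bu0 (θ t : ℝ) : ℝ := (max 0 (1 - (t / θ) ^ 2)) ^ 3
noncomputable def bu1 (θ t : ℝ) : ℝ := -(6 * t / θ ^ 2) * (max 0 (1 - (t / θ) ^ 2)) ^ 2
noncomputable def bu2 (θ t : ℝ) : ℝ :=
  -(6 / θ ^ 2) * (max 0 (1 - (t / θ) ^ 2)) ^ 2 + 24 * t ^ 2 / θ ^ 4 * max 0 (1 - (t / θ) ^ 2)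

/-- The functions `B`: `t^i` times a derivative of the bump. -/
noncomputable def B0 (θ : ℝ) (i : ℕ) (t : ℝ) : ℂ := ((t ^ i * bu0 θ t : ℝ) : ℂ)
noncomputable def B1 (θ : ℝ) (i : ℕ) (t : ℝ) : ℂ := ((t ^ i * bu1 θ t : ℝ) : ℂ)
noncomputable def B2 (θ : ℝ) (i : ℕ) (t : ℝ) : ℂ := ((t ^ i * bu2 θ t : ℝ) : ℂ)

/-- The four functions. -/
noncomputable def ps00 (θ : ℝ) (f : ℝ → ℂ) (v : ℝ × ℝ) : ℂ := bb f (B0 θ 0) 0 v

noncomputable def ps01 (θ : ℝ) (f f1 : ℝ → ℂ) (v : ℝ × ℝ) : ℂ :=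
  bb f1 (B0 θ 0) 0 v - 2 * bb f (B1 θ 1) 0 v

noncomputable def ps10 (ρ θ : ℝ) (f f1 : ℝ → ℂ) (v : ℝ × ℝ) : ℂ :=
  ρ * (bb f1 (B0 θ 1) 0 v - bb f (B1 θ 2) 0 v - 2 * Real.pi * I * bb f (B0 θ 0) 1 v)

noncomputable def ps11 (ρ θ : ℝ) (f f1 f2 : ℝ → ℂ) (v : ℝ × ℝ) : ℂ :=
  2 * ps10 ρ θ f f1 v +
  ρ * ((bb f2 (B0 θ 1) 0 v - 2 * (bb f1 (B0 θ 1) 0 v + bb f1 (B1 θ 2) 0 v)) -
    (bb f1 (B1 θ 2) 0 v - 2 * (2 * bb f (B1 θ 2) 0 v + bb f (B2 θ 3) 0 v)) -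
    2 * Real.pi * I * (bb f1 (B0 θ 0) 1 v - 2 * bb f (B1 θ 1) 1 v - 2 * bb f (B0 θ 0) 1 v))

end Pool.Agent.LibSM56C
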