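import Pool.Agent.LibSM56C.S_A

/-! # SM56 part (C), section (S), S_B: `wt` is a weight for `KL` (helper20) -/

set_option autoImplicit false

namespace Pool.Agent.LibSM56C

open MeasureTheory Set Filter Topology Complex
open scoped ENNReal ComplexConjugate

private lemma bdd_of_cs (g : ℝ → ℝ) (hg : Continuous g) (hc : HasCompactSupport g) : ∃ M : ℝ, 0 < M ∧ ∀ t, |g t| ≤ M := by
  obtain ⟨C, hC⟩ := hc.exists_bound_of_continuous hg
  refine ⟨|C| + 1, by positivity, fun t => ?_⟩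
  have h1 := hC t
  rw [Real.norm_eq_abs] at h1
  have h2 := le_abs_self C
  linarith

/-- Three bounds for a smooth function of compact support. -/
private lemma bdd3 (g : ℝ → ℝ) (hg : ContDiff ℝ ((⊤ : ℕ∞) : WithTop ℕ∞) g) (hc : HasCompactSupport g) :
    ∃ M : ℝ, 0 < M ∧ (∀ t, |g t| ≤ M) ∧ (∀ t, |deriv g t| ≤ M) ∧ (∀ t, |deriv (deriv g) t| ≤ M) ∧
      (∀ t, HasDerivAt g (deriv g t) t) ∧ (∀ t, HasDerivAt (deriv g) (deriv (deriv g) t) t) ∧
      Continuous (deriv (deriv g)) := by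
  have hg1 : ContDiff ℝ ((⊤ : ℕ∞) : WithTop ℕ∞) (deriv g) := (contDiff_infty_iff_deriv.1 hg).2
  have hg2 : ContDiff ℝ ((⊤ : ℕ∞) : WithTop ℕ∞) (deriv (deriv g)) := (contDiff_infty_iff_deriv.1 hg1).2
  obtain ⟨M0, h0, h0'⟩ := bdd_of_cs g hg.continuous hc
  obtain ⟨M1, h1, h1'⟩ := bdd_of_cs (deriv g) hg1.continuous hc.deriv
  obtain ⟨M2, h2, h2'⟩ := bdd_of_cs (deriv (deriv g)) hg2.continuous hc.deriv.deriv
  refine ⟨M0 + M1 + M2, by positivity, fun t => ?_, fun t => ?_, fun t => ?_, fun t => ?_, fun t => ?_, hg2.continuous⟩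
  · have := h0' t; linarith
  · have := h1' t; linarith
  · have := h2' t; linarith
  · exact ((contDiff_infty_iff_deriv.1 hg).1 t).hasDerivAt
  · exact ((contDiff_infty_iff_deriv.1 hg1).1 t).hasDerivAt

theorem psi0_cs : HasCompactSupport psi0 := by
  refine HasCompactSupport.intro (isCompact_Icc (a := (-1 : ℝ)) (b := 1)) fun t ht => ?_
  refine psi0_supp t ?_
  by_contra h
  push Not at h
  exact ht ⟨by linarith [neg_abs_le t], by linarith [le_abs_self t]⟩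

private lemma supp_ext (g : ℝ → ℝ) (h : ∀ t, 1 ≤ |t| → g t = 0) : ∀ t, 1 < |t| → deriv g t = 0 := by
  intro t ht
  have h1 : g =ᶠ[𝓝 t] fun _ => (0 : ℝ) := by
    have h2 : ∀ᶠ x in 𝓝 t, 1 < |x| := continuous_abs.continuousAt.eventually (lt_mem_nhds ht)
    filter_upwards [h2] with x hx
    exact h x hx.le
  rw [h1.deriv_eq]
  simp

private lemma supp_ext' (g : ℝ → ℝ) (h : ∀ t, 1 < |t| → g t = 0) : ∀ t, 1 < |t| → deriv g t = 0 := by
  intro t ht
  have h1 : g =ᶠ[𝓝 t] fun _ => (0 : ℝ) := by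
    have h2 : ∀ᶠ x in 𝓝 t, 1 < |x| := continuous_abs.continuousAt.eventually (lt_mem_nhds ht)
    filter_upwards [h2] with x hx
    exact h x hx
  rw [h1.deriv_eq]
  simp

theorem wt_KL (b : ℝ → ℝ) (hb : ContDiff ℝ ((⊤ : ℕ∞) : WithTop ℕ∞) b) (hb' : HasCompactSupport b) :
    ∃ C : ℝ, 0 < C ∧ ∀ T : ℝ, 3 ≤ T → ∀ n d q j : ℕ, 1 ≤ n → 1 ≤ d → 1 ≤ q → ∀ y : ℝ,
      ∃ f1 f2 : ℝ → ℂ, (∀ t, HasDerivAt (wt b T n d q j ((3 / 4 : ℝ) + y * I)) (f1 t) t) ∧ (∀ t, HasDerivAt f1 (f2 t) t) ∧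
        Continuous f2 ∧
        (∀ t, ‖wt b T n d q j ((3 / 4 : ℝ) + y * I) t‖ ≤ C * (1 + |y|) ^ 2 * (Real.exp j * √(n : ℝ)) ^ (-(3 / 2) : ℝ) ∧
          ‖f1 t‖ ≤ C * (1 + |y|) ^ 2 * (Real.exp j * √(n : ℝ)) ^ (-(3 / 2) : ℝ) ∧
          ‖f2 t‖ ≤ C * (1 + |y|) ^ 2 * (Real.exp j * √(n : ℝ)) ^ (-(3 / 2) : ℝ)) ∧
        ∀ t, t ∉ Icc (Real.log (Real.exp (j - 1) * √(n : ℝ) / q)) (Real.log (8 * (Real.exp (j - 1) * √(n : ℝ) / q))) →
          wt b T n d q j ((3 / 4 : ℝ) + y * I) t = 0 := by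
  obtain ⟨Mb, hMb, b0, b1, b2, db0, db1, cb2⟩ := bdd3 b hb hb'
  obtain ⟨Mp, hMp, p0, p1, p2, dp0, dp1, cp2⟩ := bdd3 psi0 psi0_smooth psi0_cs
  refine ⟨400 * (Mb * Mp), by positivity, ?_⟩
  intro T hT n d q j hn hd hq y
  have hlT : 1 ≤ Real.log T := by
    rw [Real.le_log_iff_exp_le (by linarith)]
    exact (Real.exp_one_lt_d9.le.trans (by norm_num)).trans hT
  have hn0 : (0 : ℝ) < n := by exact_mod_cast hn
  have hq0 : (0 : ℝ) < q := by exact_mod_cast hq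
  obtain ⟨lam, hlam⟩ : ∃ x : ℝ, x = Real.log T := ⟨_, rfl⟩
  obtain ⟨be, hbe⟩ : ∃ x : ℝ, x = -(Real.log n / 2) + Real.log q - Real.log d := ⟨_, rfl⟩
  obtain ⟨ga, hga⟩ : ∃ x : ℝ, x = -(Real.log n / 2) + Real.log q - j := ⟨_, rfl⟩
  obtain ⟨lq, hlq⟩ : ∃ x : ℝ, x = Real.log q := ⟨_, rfl⟩
  obtain ⟨s, hs⟩ : ∃ x : ℂ, x = (3 / 4 : ℝ) + y * I := ⟨_, rfl⟩
  rw [← hs]
  rw [← hlam] at hlT
  have hl0 : lam ≠ 0 := by positivity
  -- the pieces
  obtain ⟨B0, hB0⟩ : ∃ f : ℝ → ℝ, f = fun t => b ((t + be) / lam) := ⟨_, rfl⟩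
  obtain ⟨B1, hB1⟩ : ∃ f : ℝ → ℝ, f = fun t => deriv b ((t + be) / lam) * (1 / lam) := ⟨_, rfl⟩
  obtain ⟨B2, hB2⟩ : ∃ f : ℝ → ℝ, f = fun t => deriv (deriv b) ((t + be) / lam) * (1 / lam) * (1 / lam) := ⟨_, rfl⟩
  obtain ⟨P0, hP0⟩ : ∃ f : ℝ → ℝ, f = fun t => psi0 (t + ga) := ⟨_, rfl⟩
  obtain ⟨P1, hP1⟩ : ∃ f : ℝ → ℝ, f = fun t => deriv psi0 (t + ga) := ⟨_, rfl⟩
  obtain ⟨P2, hP2⟩ : ∃ f : ℝ → ℝ, f = fun t => deriv (deriv psi0) (t + ga) := ⟨_, rfl⟩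
  obtain ⟨E, hE⟩ : ∃ f : ℝ → ℂ, f = fun t => cexp (-(2 * s) * ((t + lq : ℝ) : ℂ)) := ⟨_, rfl⟩
  have hin : ∀ t : ℝ, HasDerivAt (fun t : ℝ => (t + be) / lam) (1 / lam) t := fun t =>
    ((hasDerivAt_id t).add_const be).div_const lam
  have hin2 : ∀ t : ℝ, HasDerivAt (fun t : ℝ => t + ga) 1 t := fun t => (hasDerivAt_id t).add_const ga
  have dB0 : ∀ t, HasDerivAt B0 (B1 t) t := by
    intro t
    rw [hB0, hB1]
    exact (db0 _).comp t (hin t)
  have dB1 : ∀ t, HasDerivAt B1 (B2 t) t := by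
    intro t
    rw [hB1, hB2]
    exact ((db1 _).comp t (hin t)).mul_const _
  have dP0 : ∀ t, HasDerivAt P0 (P1 t) t := by
    intro t
    rw [hP0, hP1]
    have := (dp0 (t + ga)).comp t (hin2 t)
    rw [mul_one] at this
    exact this
  have dP1 : ∀ t, HasDerivAt P1 (P2 t) t := by
    intro t
    rw [hP1, hP2]
    have := (dp1 (t + ga)).comp t (hin2 t)
    rw [mul_one] at this
    exact this
  have dE : ∀ t, HasDerivAt E (-(2 * s) * E t) t := by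
    intro t
    rw [hE]
    have h1 : HasDerivAt (fun t : ℝ => ((t + lq : ℝ) : ℂ)) 1 t := by
      have := ((hasDerivAt_id t).add_const lq).ofReal_comp
      simpa using this
    have h2 := (h1.const_mul (-(2 * s))).cexp
    have e : -(2 * s) * cexp (-(2 * s) * ((t + lq : ℝ) : ℂ)) = cexp (-(2 * s) * ((t + lq : ℝ) : ℂ)) * (-(2 * s) * 1) := by
      ring
    rw [e]
    exact h2
  have cB2 : Continuous B2 := by
    rw [hB2]
    exact ((cb2.comp ((continuous_id.add continuous_const).div_const _)).mul continuous_const).mul continuous_const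
  have cP2 : Continuous P2 := by
    rw [hP2]
    exact cp2.comp (continuous_id.add continuous_const)
  have cB0 : Continuous B0 := continuous_iff_continuousAt.2 fun t => (dB0 t).continuousAt
  have cB1 : Continuous B1 := continuous_iff_continuousAt.2 fun t => (dB1 t).continuousAt
  have cP0 : Continuous P0 := continuous_iff_continuousAt.2 fun t => (dP0 t).continuousAt
  have cP1 : Continuous P1 := continuous_iff_continuousAt.2 fun t => (dP1 t).continuousAt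
  have cE : Continuous E := continuous_iff_continuousAt.2 fun t => (dE t).continuousAt
  have hwt : wt b T n d q j s = fun t => ((B0 t * P0 t : ℝ) : ℂ) * E t := by
    funext t
    unfold wt
    rw [hB0, hP0, hE]
    simp only
    rw [← hlam, ← hlq]
    have e1 : t - Real.log n / 2 + lq - Real.log d = t + be := by rw [hbe, hlq]; ring
    have e2 : t - Real.log n / 2 + lq - (j : ℝ) = t + ga := by rw [hga, hlq]; ring
    rw [e1, e2]
  obtain ⟨W, hW⟩ : ∃ x : ℝ, x = (Real.exp j * √(n : ℝ)) ^ (-(3 / 2) : ℝ) := ⟨_, rfl⟩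
  have hsq : √(n : ℝ) = Real.exp (Real.log n / 2) := by
    rw [Real.sqrt_eq_rpow, Real.rpow_def_of_pos hn0]
    congr 1
    ring
  have hWe : W = Real.exp (-(3 / 2) * (j + Real.log n / 2)) := by
    rw [hW, hsq, ← Real.exp_add, ← Real.exp_mul]
    congr 1
    ring
  have hW0 : 0 < W := by rw [hWe]; exact Real.exp_pos _
  -- size of E on the support
  have hEn : ∀ t, |t + ga| ≤ 1 → ‖E t‖ ≤ 5 * W := by
    intro t ht
    rw [hE]
    simp only
    rw [Complex.norm_exp]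
    have e1 : (-(2 * s) * ((t + lq : ℝ) : ℂ)).re = -(3 / 2) * (t + lq) := by
      rw [Complex.re_mul_ofReal]
      congr 1
      rw [hs]
      simp
      norm_num
    rw [e1, hWe]
    have h1 : -1 ≤ t + ga := by linarith [neg_abs_le (t + ga)]
    have h2 : -(3 / 2) * (t + lq) ≤ 3 / 2 + -(3 / 2) * (j + Real.log n / 2) := by
      rw [hga] at h1
      rw [hlq]
      linarith
    refine (Real.exp_le_exp.2 h2).trans ?_
    rw [Real.exp_add]
    have h3 : Real.exp (3 / 2) ≤ 5 := by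
      have h4 : Real.exp (3 / 2) ^ 2 = Real.exp 1 ^ 3 := by
        rw [← Real.exp_nat_mul, ← Real.exp_nat_mul]
        norm_num
      have h5 : Real.exp 1 ^ 3 ≤ 2.7182818286 ^ 3 := pow_le_pow_left₀ (Real.exp_pos 1).le Real.exp_one_lt_d9.le 3
      have h6 : Real.exp (3 / 2) ^ 2 ≤ 5 ^ 2 := by
        rw [h4]
        refine h5.trans ?_
        norm_num
      exact le_of_sq_le_sq h6 (by norm_num)
    exact mul_le_mul_of_nonneg_right h3 (Real.exp_pos _).le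
  have hs2 : ‖2 * s‖ ≤ 2 * (1 + |y|) := by
    rw [norm_mul, hs]
    have h1 : ‖((3 / 4 : ℝ) : ℂ) + (y : ℂ) * I‖ ≤ 3 / 4 + |y| := by
      refine (norm_add_le _ _).trans ?_
      rw [norm_mul, Complex.norm_real, Complex.norm_real, Complex.norm_I, mul_one]
      norm_num
    have h2 : ‖(2 : ℂ)‖ = 2 := by simp
    rw [h2]
    linarith
  -- product bounds
  have psup : ∀ (g : ℝ → ℝ), (∀ t, |g t| ≤ Mp) → (∀ t, 1 < |t| → g t = 0) → ∀ t, |g (t + ga)| * ‖E t‖ ≤ 5 * Mp * W := by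
    intro g h1 h2 t
    by_cases ht : |t + ga| ≤ 1
    · have h3 := mul_le_mul (h1 (t + ga)) (hEn t ht) (norm_nonneg _) hMp.le
      linarith
    · rw [h2 (t + ga) (not_le.1 ht), abs_zero, zero_mul]
      positivity
  have q0 : ∀ t, |P0 t| * ‖E t‖ ≤ 5 * Mp * W := by
    rw [hP0]
    exact psup psi0 p0 fun t ht => psi0_supp t ht.le
  have q1 : ∀ t, |P1 t| * ‖E t‖ ≤ 5 * Mp * W := by
    rw [hP1]
    exact psup (deriv psi0) p1 (supp_ext psi0 psi0_supp)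
  have q2 : ∀ t, |P2 t| * ‖E t‖ ≤ 5 * Mp * W := by
    rw [hP2]
    exact psup (deriv (deriv psi0)) p2 (supp_ext' (deriv psi0) (supp_ext psi0 psi0_supp))
  have hil : |1 / lam| ≤ 1 := by
    rw [abs_of_nonneg (by positivity)]
    rw [div_le_one (by positivity)]
    exact hlT
  have r0 : ∀ t, |B0 t| ≤ Mb := by
    intro t
    rw [hB0]
    exact b0 _
  have r1 : ∀ t, |B1 t| ≤ Mb := by
    intro t
    rw [hB1]
    simp only
    rw [abs_mul]
    calc |deriv b ((t + be) / lam)| * |1 / lam| ≤ Mb * 1 := mul_le_mul (b1 _) hil (abs_nonneg _) hMb.le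
      _ = Mb := mul_one _
  have r2 : ∀ t, |B2 t| ≤ Mb := by
    intro t
    rw [hB2]
    simp only
    rw [abs_mul, abs_mul]
    calc |deriv (deriv b) ((t + be) / lam)| * |1 / lam| * |1 / lam| ≤ Mb * 1 * 1 :=
          mul_le_mul (mul_le_mul (b2 _) hil (abs_nonneg _) hMb.le) hil (abs_nonneg _) (by positivity)
      _ = Mb := by ring
  have key : ∀ (u v : ℝ → ℝ), (∀ t, |u t| ≤ Mb) → (∀ t, |v t| * ‖E t‖ ≤ 5 * Mp * W) →
      ∀ t, ‖((u t * v t : ℝ) : ℂ) * E t‖ ≤ 5 * (Mb * Mp) * W := by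
    intro u v hu hv t
    rw [norm_mul, Complex.norm_real, Real.norm_eq_abs, abs_mul, mul_assoc]
    calc |u t| * (|v t| * ‖E t‖) ≤ Mb * (5 * Mp * W) := mul_le_mul (hu t) (hv t) (by positivity) hMb.le
      _ = 5 * (Mb * Mp) * W := by ring
  obtain ⟨f1, hf1⟩ : ∃ f : ℝ → ℂ, f = fun t => ((B1 t * P0 t : ℝ) : ℂ) * E t + ((B0 t * P1 t : ℝ) : ℂ) * E t +
      -(2 * s) * (((B0 t * P0 t : ℝ) : ℂ) * E t) := ⟨_, rfl⟩
  obtain ⟨f2, hf2⟩ : ∃ f : ℝ → ℂ, f = fun t => ((B2 t * P0 t : ℝ) : ℂ) * E t + 2 * (((B1 t * P1 t : ℝ) : ℂ) * E t) +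
      ((B0 t * P2 t : ℝ) : ℂ) * E t + 2 * (-(2 * s)) * (((B1 t * P0 t : ℝ) : ℂ) * E t) +
      2 * (-(2 * s)) * (((B0 t * P1 t : ℝ) : ℂ) * E t) + (2 * s) * (2 * s) * (((B0 t * P0 t : ℝ) : ℂ) * E t) := ⟨_, rfl⟩
  have dprod : ∀ (u u' v v' : ℝ → ℝ), (∀ t, HasDerivAt u (u' t) t) → (∀ t, HasDerivAt v (v' t) t) → ∀ t,
      HasDerivAt (fun t => ((u t * v t : ℝ) : ℂ) * E t) (((u' t * v t : ℝ) : ℂ) * E t + ((u t * v' t : ℝ) : ℂ) * E t +
        -(2 * s) * (((u t * v t : ℝ) : ℂ) * E t)) t := by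
    intro u u' v v' hu hv t
    have h1 := ((hu t).mul (hv t)).ofReal_comp.mul (dE t)
    refine h1.congr_deriv ?_
    simp only [Pi.mul_apply]
    push_cast
    ring
  have y1 : 1 ≤ 1 + |y| := by linarith [abs_nonneg y]
  have y2 : 1 + |y| ≤ (1 + |y|) ^ 2 := by nlinarith
  have y3 : 1 ≤ (1 + |y|) ^ 2 := y1.trans y2
  have hQ : 0 < (Mb * Mp) * W := by positivity
  have k00 := key B0 P0 r0 q0
  have k10 := key B1 P0 r1 q0
  have k01 := key B0 P1 r0 q1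
  have k20 := key B2 P0 r2 q0
  have k11 := key B1 P1 r1 q1
  have k02 := key B0 P2 r0 q2
  refine ⟨f1, f2, ?_, ?_, ?_, ?_, ?_⟩
  · intro t
    rw [hwt, hf1]
    exact dprod B0 B1 P0 P1 dB0 dP0 t
  · intro t
    rw [hf1, hf2]
    have h1 := dprod B1 B2 P0 P1 dB1 dP0 t
    have h2 := dprod B0 B1 P1 P2 dB0 dP1 t
    have h3 := (dprod B0 B1 P0 P1 dB0 dP0 t).const_mul (-(2 * s))
    refine ((h1.add h2).add h3).congr_deriv ?_
    ring
  · rw [hf2]
    have c : ∀ u v : ℝ → ℝ, Continuous u → Continuous v → Continuous (fun t => ((u t * v t : ℝ) : ℂ) * E t) :=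
      fun u v hu hv => (Complex.continuous_ofReal.comp (hu.mul hv)).mul cE
    exact ((((((c B2 P0 cB2 cP0).add (continuous_const.mul (c B1 P1 cB1 cP1))).add (c B0 P2 cB0 cP2)).add
      (continuous_const.mul (c B1 P0 cB1 cP0))).add (continuous_const.mul (c B0 P1 cB0 cP1))).add
      (continuous_const.mul (c B0 P0 cB0 cP0)))
  · intro t
    rw [← hW]
    have a1 : ‖(2 * s) * (((B0 t * P0 t : ℝ) : ℂ) * E t)‖ ≤ 2 * (1 + |y|) * (5 * (Mb * Mp) * W) := by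
      rw [norm_mul]
      exact mul_le_mul hs2 (k00 t) (norm_nonneg _) (by positivity)
    have a2 : ‖(2 * s) * (((B1 t * P0 t : ℝ) : ℂ) * E t)‖ ≤ 2 * (1 + |y|) * (5 * (Mb * Mp) * W) := by
      rw [norm_mul]
      exact mul_le_mul hs2 (k10 t) (norm_nonneg _) (by positivity)
    have a3 : ‖(2 * s) * (((B0 t * P1 t : ℝ) : ℂ) * E t)‖ ≤ 2 * (1 + |y|) * (5 * (Mb * Mp) * W) := by
      rw [norm_mul]
      exact mul_le_mul hs2 (k01 t) (norm_nonneg _) (by positivity)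
    have a4 : ‖(2 * s) * (2 * s) * (((B0 t * P0 t : ℝ) : ℂ) * E t)‖ ≤ 4 * (1 + |y|) ^ 2 * (5 * (Mb * Mp) * W) := by
      rw [mul_assoc, norm_mul]
      calc ‖2 * s‖ * ‖(2 * s) * (((B0 t * P0 t : ℝ) : ℂ) * E t)‖ ≤ 2 * (1 + |y|) * (2 * (1 + |y|) * (5 * (Mb * Mp) * W)) :=
            mul_le_mul hs2 a1 (norm_nonneg _) (by positivity)
        _ = _ := by ring
    have z1 : (1 + |y|) * ((Mb * Mp) * W) ≤ (1 + |y|) ^ 2 * ((Mb * Mp) * W) := mul_le_mul_of_nonneg_right y2 hQ.le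
    have z2 : (Mb * Mp) * W ≤ (1 + |y|) ^ 2 * ((Mb * Mp) * W) := by
      have := mul_le_mul_of_nonneg_right y3 hQ.le
      linarith
    refine ⟨?_, ?_, ?_⟩
    · rw [hwt]
      simp only
      have := k00 t
      nlinarith
    · rw [hf1]
      simp only
      refine (norm_add_le _ _).trans ?_
      have h1 := norm_add_le (((B1 t * P0 t : ℝ) : ℂ) * E t) (((B0 t * P1 t : ℝ) : ℂ) * E t)
      have h2 : ‖-(2 * s) * (((B0 t * P0 t : ℝ) : ℂ) * E t)‖ = ‖(2 * s) * (((B0 t * P0 t : ℝ) : ℂ) * E t)‖ := by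
        rw [neg_mul, norm_neg]
      rw [h2]
      have h3 := k10 t
      have h4 := k01 t
      linarith
    · rw [hf2]
      simp only
      have h1 := norm_add_le (((B2 t * P0 t : ℝ) : ℂ) * E t) (2 * (((B1 t * P1 t : ℝ) : ℂ) * E t))
      have h2 := norm_add_le (((B2 t * P0 t : ℝ) : ℂ) * E t + 2 * (((B1 t * P1 t : ℝ) : ℂ) * E t)) (((B0 t * P2 t : ℝ) : ℂ) * E t)
      have h3 := norm_add_le (((B2 t * P0 t : ℝ) : ℂ) * E t + 2 * (((B1 t * P1 t : ℝ) : ℂ) * E t) + ((B0 t * P2 t : ℝ) : ℂ) * E t)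
        (2 * (-(2 * s)) * (((B1 t * P0 t : ℝ) : ℂ) * E t))
      have h4 := norm_add_le (((B2 t * P0 t : ℝ) : ℂ) * E t + 2 * (((B1 t * P1 t : ℝ) : ℂ) * E t) + ((B0 t * P2 t : ℝ) : ℂ) * E t +
        2 * (-(2 * s)) * (((B1 t * P0 t : ℝ) : ℂ) * E t)) (2 * (-(2 * s)) * (((B0 t * P1 t : ℝ) : ℂ) * E t))
      refine (norm_add_le _ _).trans ?_
      have e1 : ‖2 * (((B1 t * P1 t : ℝ) : ℂ) * E t)‖ = 2 * ‖((B1 t * P1 t : ℝ) : ℂ) * E t‖ := by
        rw [norm_mul]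
        simp
      have e2 : ‖2 * (-(2 * s)) * (((B1 t * P0 t : ℝ) : ℂ) * E t)‖ = 2 * ‖(2 * s) * (((B1 t * P0 t : ℝ) : ℂ) * E t)‖ := by
        rw [mul_assoc, norm_mul, neg_mul, norm_neg]
        simp
      have e3 : ‖2 * (-(2 * s)) * (((B0 t * P1 t : ℝ) : ℂ) * E t)‖ = 2 * ‖(2 * s) * (((B0 t * P1 t : ℝ) : ℂ) * E t)‖ := by
        rw [mul_assoc, norm_mul, neg_mul, norm_neg]
        simp
      rw [e1] at h1
      rw [e2] at h3
      rw [e3] at h4
      have w1 := k20 t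
      have w2 := k11 t
      have w3 := k02 t
      linarith
  · intro t ht
    rw [hwt]
    simp only
    have hR : Real.log (Real.exp ((j : ℝ) - 1) * √(n : ℝ) / q) = -ga - 1 := by
      rw [hsq, Real.log_div (by positivity) hq0.ne', ← Real.exp_add, Real.log_exp, hga]
      ring
    have hR0 : 0 < Real.exp ((j : ℝ) - 1) * √(n : ℝ) / q := by positivity
    have h8 : 2 ≤ Real.log 8 := by
      have e8 : (8 : ℝ) = 2 ^ 3 := by norm_num
      rw [e8, Real.log_pow]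
      have := Real.log_two_gt_d9
      push_cast
      linarith
    have hz : P0 t = 0 := by
      rw [hP0]
      simp only
      apply psi0_supp
      by_contra hcon
      push Not at hcon
      apply ht
      rw [Real.log_mul (by norm_num) hR0.ne', hR]
      exact ⟨by linarith [neg_abs_le (t + ga)], by linarith [le_abs_self (t + ga)]⟩
    rw [hz, mul_zero, Complex.ofReal_zero, zero_mul]

end Pool.Agent.LibSM56C
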