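import Pool.Agent.LibSM56C.Face
import Pool.Agent.LibSM56C.S_B

/-! # SM56 part (C), section (S), S_C: one block by Cauchy-Schwarz and `KL` (helper20) -/

set_option autoImplicit false

namespace Pool.Agent.LibSM56C

open MeasureTheory Set Filter Topology Complex
open scoped ENNReal ComplexConjugate

private lemma KX_nn (q : ℕ) (X : ℝ) : 0 ≤ KX q X := by
  unfold KX
  exact Finset.sum_nonneg fun c _ => by positivity

/-- `S(1, N n̄; m) = S(N, n̄; m)`. -/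
theorem Sk_swap (m n : ℕ) (N : ℤ) (h : Nat.Coprime m n) :
    Sk m 1 ((N : ZMod m) * (n : ZMod m)⁻¹) = Sk m (N : ZMod m) ((n : ZMod m)⁻¹) := by
  unfold Sk
  by_cases hm : m = 0
  · rw [dif_pos hm, dif_pos hm]
  · rw [dif_neg hm, dif_neg hm]
    haveI : NeZero m := ⟨hm⟩
    unfold Kl
    obtain ⟨u, hu⟩ : ∃ u : (ZMod m)ˣ, u = ZMod.unitOfCoprime n h.symm := ⟨_, rfl⟩
    have hun : (n : ZMod m) = (u : ZMod m) := by rw [hu, ZMod.coe_unitOfCoprime]
    have hinv : (n : ZMod m)⁻¹ = ((u⁻¹ : (ZMod m)ˣ) : ZMod m) := by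
      rw [hun, ZMod.inv_coe_unit]
    rw [hinv]
    refine Fintype.sum_equiv ((Equiv.inv (ZMod m)ˣ).trans (Equiv.mulLeft u⁻¹)) _ _ ?_
    intro x
    congr 1
    simp only [Equiv.trans_apply, Equiv.inv_apply, Equiv.coe_mulLeft, mul_inv_rev, inv_inv, Units.val_mul]
    have h1 : ((u⁻¹ : (ZMod m)ˣ) : ZMod m) * (u : ZMod m) = 1 := Units.inv_mul u
    linear_combination (-(1 : ZMod m) * (x : ZMod m)) * h1

theorem block (b : ℝ → ℝ) (hb : ContDiff ℝ ((⊤ : ℕ∞) : WithTop ℕ∞) b) (hb' : HasCompactSupport b) :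
    ∃ C : ℝ, 0 < C ∧ ∀ T : ℝ, 3 ≤ T → ∀ n d q j : ℕ, 1 ≤ n → 1 ≤ d → 1 ≤ q → Nat.Coprime q n → ∀ y : ℝ, ∀ σ : ℤ,
      (σ = 1 ∨ σ = -1) → ∀ L : ℝ, 1 ≤ L → L ≤ (Real.exp (j - 1) * √(n : ℝ) / q) ^ 2 → ∀ α : ℕ → ℂ,
      ∀ S : Finset ℕ, (∀ k ∈ S, L ≤ (k : ℝ) ∧ (k : ℝ) ≤ 2 * L) →
      ‖∑ k ∈ S, α k * innS b T n d q j ((3 / 4 : ℝ) + y * I) σ k‖ ^ 2 ≤
        (∑ k ∈ S, ‖α k‖ ^ 2) * (C * (1 + |y|) ^ 4 * (Real.exp j * √(n : ℝ)) ^ (-3 : ℝ) *
          ((1 + L / (n * (d / Nat.gcd d q : ℕ))) * (Real.exp j * √(n : ℝ) / q) ^ 2 *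
            (1 + KX (n * (d / Nat.gcd d q)) (64 * (Real.exp (j - 1) * √(n : ℝ) / q) ^ 2 / L)))) := by
  obtain ⟨C1, hC1, H1⟩ := wt_KL b hb hb'
  obtain ⟨CK, hCK, HK⟩ := KL
  refine ⟨C1 ^ 2 * CK, by positivity, ?_⟩
  intro T hT n d q j hn hd hq hqn y σ hσ L hL hLR α S hS
  obtain ⟨D, hD⟩ : ∃ D : ℕ, D = d / Nat.gcd d q := ⟨_, rfl⟩
  obtain ⟨s, hs⟩ : ∃ x : ℂ, x = (3 / 4 : ℝ) + y * I := ⟨_, rfl⟩
  obtain ⟨R, hR⟩ : ∃ x : ℝ, x = Real.exp ((j : ℝ) - 1) * √(n : ℝ) / q := ⟨_, rfl⟩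
  have hn0 : (0 : ℝ) < n := by exact_mod_cast hn
  have hq0 : (0 : ℝ) < q := by exact_mod_cast hq
  have hL0 : 0 < L := by linarith
  obtain ⟨f1, f2, hd1, hd2, hc2, hbd, hsu⟩ := H1 T hT n d q j hn hd hq y
  rw [← hs] at hd1 hbd hsu ⊢
  rw [← hR] at hsu hLR ⊢
  rw [← hD]
  have hD1 : 1 ≤ D := by
    rw [hD]
    exact Nat.div_pos (Nat.le_of_dvd hd (Nat.gcd_dvd_left d q)) (Nat.gcd_pos_of_pos_left q hd)
  have hD0 : (0 : ℝ) < D := by exact_mod_cast hD1
  have hR0 : 0 < R := by rw [hR]; positivity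
  obtain ⟨W, hW⟩ : ∃ x : ℝ, x = (Real.exp j * √(n : ℝ)) ^ (-(3 / 2) : ℝ) := ⟨_, rfl⟩
  have hW0 : 0 < W := by rw [hW]; positivity
  have hW2 : (Real.exp j * √(n : ℝ)) ^ (-3 : ℝ) = W ^ 2 := by
    rw [hW, ← Real.rpow_natCast, ← Real.rpow_mul (by positivity)]
    norm_num
  rw [← hW] at hbd
  rw [hW2]
  obtain ⟨G, hG⟩ : ∃ x : ℝ, x = 1 + KX (n * D) (64 * R ^ 2 / L) := ⟨_, rfl⟩
  have hG0 : 0 < G := by
    rw [hG]
    have := KX_nn (n * D) (64 * R ^ 2 / L)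
    linarith
  rw [← hG]
  have hRHS : 0 ≤ C1 ^ 2 * CK * (1 + |y|) ^ 4 * W ^ 2 * ((1 + L / (n * D)) * (Real.exp j * √(n : ℝ) / q) ^ 2 * G) := by
    positivity
  by_cases hcop : Nat.Coprime n D
  swap
  · have hz : ∀ k : ℕ, innS b T n d q j s σ k = 0 := by
      intro k
      unfold innS
      refine Finset.sum_eq_zero fun m hm => ?_
      exfalso
      rw [Finset.mem_filter, ← hD] at hm
      exact hcop (Nat.Coprime.symm (Nat.Coprime.coprime_dvd_left hm.2.1 hm.2.2))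
    have h0 : ∑ k ∈ S, α k * innS b T n d q j s σ k = 0 :=
      Finset.sum_eq_zero fun k _ => by rw [hz k, mul_zero]
    rw [h0, norm_zero]
    have : 0 ≤ ∑ k ∈ S, ‖α k‖ ^ 2 := Finset.sum_nonneg fun k _ => by positivity
    have := mul_nonneg this hRHS
    simpa using this
  obtain ⟨A, hA⟩ : ∃ x : ℝ, x = C1 * (1 + |y|) ^ 2 * W := ⟨_, rfl⟩
  have hA0 : 0 < A := by rw [hA]; positivity
  rw [← hA] at hbd
  have hAc : (A : ℂ) ≠ 0 := by exact_mod_cast hA0.ne'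
  have hdiv : ∀ z : ℂ, ‖z‖ ≤ A → ‖z / A‖ ≤ 1 := by
    intro z hz
    rw [norm_div, Complex.norm_real, Real.norm_eq_abs, abs_of_pos hA0, div_le_one hA0]
    exact hz
  have hKL := HK n D hn hD1 hcop R L hR0 hL hLR (fun t => wt b T n d q j s t / A) (fun t => f1 t / A) (fun t => f2 t / A)
    (fun t => (hd1 t).div_const _) (fun t => (hd2 t).div_const _) (hc2.div_const _)
    (fun t => ⟨hdiv _ (hbd t).1, hdiv _ (hbd t).2.1, hdiv _ (hbd t).2.2⟩)
    (fun t ht => by rw [hsu t ht, zero_div])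
  rw [← hG] at hKL
  -- the inner sums
  obtain ⟨X, hX⟩ : ∃ X : ℤ → ℂ, X = fun N => ∑ m ∈ (Finset.Icc 1 ⌊8 * R⌋₊).filter (fun m => D ∣ m ∧ Nat.Coprime m n),
        Sk m (N : ZMod m) ((n : ZMod m)⁻¹) * (wt b T n d q j s (Real.log (√(n : ℝ) * m)) / A) := ⟨_, rfl⟩
  have hinn : ∀ k : ℕ, innS b T n d q j s σ k = A * X (σ * k) := by
    intro k
    obtain ⟨B, hB⟩ : ∃ B : ℕ, B = max ⌊8 * R⌋₊ ⌊Real.exp (j + 1)⌋₊ := ⟨_, rfl⟩
    have hs1 : innS b T n d q j s σ k = ∑ m ∈ (Finset.Icc 1 B).filter (fun m => D ∣ m ∧ Nat.Coprime m n),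
        Sk m 1 (((σ * k : ℤ) : ZMod m) * ((n : ZMod m)⁻¹)) * wt b T n d q j s (Real.log (√(n : ℝ) * m)) := by
      unfold innS
      rw [← hD]
      refine Finset.sum_subset ?_ ?_
      · intro m hm
        rw [Finset.mem_filter, Finset.mem_Icc] at hm ⊢
        refine ⟨⟨hm.1.1, hm.1.2.trans ?_⟩, hm.2⟩
        rw [hB]
        exact le_max_right _ _
      · intro m hm hm'
        rw [Finset.mem_filter, Finset.mem_Icc] at hm hm'
        have hbig : ⌊Real.exp ((j : ℝ) + 1)⌋₊ < m := by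
          by_contra hcon
          exact hm' ⟨⟨hm.1.1, not_lt.1 hcon⟩, hm.2⟩
        have hbig' : Real.exp ((j : ℝ) + 1) < m := (Nat.floor_lt (Real.exp_pos _).le).1 hbig
        have hm0 : (0 : ℝ) < m := (Real.exp_pos _).trans hbig'
        have hlog : (j : ℝ) + 1 < Real.log m := (Real.lt_log_iff_exp_lt hm0).2 hbig'
        have hlq : 0 ≤ Real.log q := Real.log_nonneg (by exact_mod_cast hq)
        have hw : wt b T n d q j s (Real.log (√(n : ℝ) * m)) = 0 := by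
          unfold wt
          have harg : Real.log (√(n : ℝ) * m) - Real.log n / 2 + Real.log q - (j : ℝ) = Real.log m + Real.log q - j := by
            rw [Real.log_mul (by positivity) hm0.ne', Real.log_sqrt hn0.le]
            ring
          rw [harg, psi0_supp _ (by rw [abs_of_nonneg (by linarith)]; linarith), mul_zero, Complex.ofReal_zero, zero_mul]
        rw [hw, mul_zero]
    have hs2 : X (σ * k) = ∑ m ∈ (Finset.Icc 1 B).filter (fun m => D ∣ m ∧ Nat.Coprime m n),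
        Sk m ((σ * k : ℤ) : ZMod m) ((n : ZMod m)⁻¹) * (wt b T n d q j s (Real.log (√(n : ℝ) * m)) / A) := by
      rw [hX]
      refine Finset.sum_subset ?_ ?_
      · intro m hm
        rw [Finset.mem_filter, Finset.mem_Icc] at hm ⊢
        refine ⟨⟨hm.1.1, hm.1.2.trans ?_⟩, hm.2⟩
        rw [hB]
        exact le_max_left _ _
      · intro m hm hm'
        rw [Finset.mem_filter, Finset.mem_Icc] at hm hm'
        have hbig : ⌊8 * R⌋₊ < m := by
          by_contra hcon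
          exact hm' ⟨⟨hm.1.1, not_lt.1 hcon⟩, hm.2⟩
        have hbig' : 8 * R < m := (Nat.floor_lt (by positivity)).1 hbig
        have hm0 : (0 : ℝ) < m := (by positivity : 0 < 8 * R).trans hbig'
        have hsq1 : 1 ≤ √(n : ℝ) := by
          rw [Real.one_le_sqrt]
          exact_mod_cast hn
        have hw : wt b T n d q j s (Real.log (√(n : ℝ) * m)) = 0 := by
          apply hsu
          intro hcon
          have h1 := hcon.2
          have h2 : Real.log (8 * R) < Real.log (√(n : ℝ) * m) := by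
            refine Real.log_lt_log (by positivity) ?_
            nlinarith
          linarith
        rw [hw, zero_div, mul_zero]
    rw [hs1, hs2, Finset.mul_sum]
    refine Finset.sum_congr rfl fun m hm => ?_
    rw [Finset.mem_filter] at hm
    rw [Sk_swap m n (σ * k) hm.2.2]
    field_simp
  have hsum : ∑ k ∈ S, ‖innS b T n d q j s σ k‖ ^ 2 ≤ A ^ 2 * (CK * (1 + L / (n * D)) * R ^ 2 * G) := by
    have e1 : ∀ k ∈ S, ‖innS b T n d q j s σ k‖ ^ 2 = A ^ 2 * ‖X (σ * k)‖ ^ 2 := by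
      intro k _
      rw [hinn k, norm_mul, Complex.norm_real, Real.norm_eq_abs, abs_of_pos hA0, mul_pow]
    rw [Finset.sum_congr rfl e1, ← Finset.mul_sum]
    refine mul_le_mul_of_nonneg_left ?_ (by positivity)
    refine le_trans ?_ hKL
    have hX' : ∀ N : ℤ, ‖∑ m ∈ (Finset.Icc 1 ⌊8 * R⌋₊).filter (fun m => D ∣ m ∧ Nat.Coprime m n),
        Sk m (N : ZMod m) ((n : ZMod m)⁻¹) * (wt b T n d q j s (Real.log (√(n : ℝ) * m)) / A)‖ ^ 2 = ‖X N‖ ^ 2 := by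
      intro N
      rw [hX]
    rw [Finset.sum_congr rfl (fun N _ => hX' N)]
    have hinj : Set.InjOn (fun k : ℕ => σ * (k : ℤ)) (S : Set ℕ) := by
      intro a _ a' _ haa
      have h1 : σ * (a : ℤ) = σ * (a' : ℤ) := haa
      rcases hσ with h | h
      · rw [h] at h1
        have : (a : ℤ) = a' := by linarith
        exact_mod_cast this
      · rw [h] at h1
        have : (a : ℤ) = a' := by linarith
        exact_mod_cast this
    rw [← Finset.sum_image (f := fun N : ℤ => ‖X N‖ ^ 2) hinj]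
    refine Finset.sum_le_sum_of_subset_of_nonneg ?_ fun _ _ _ => by positivity
    intro N hN
    rw [Finset.mem_image] at hN
    obtain ⟨k, hk, rfl⟩ := hN
    obtain ⟨hk1, hk2⟩ := hS k hk
    have hkL : (k : ℤ) ≤ ⌊2 * L⌋ := by
      rw [Int.le_floor]
      exact_mod_cast hk2
    have hk0 : (0 : ℤ) ≤ k := Int.natCast_nonneg k
    rw [Finset.mem_filter, Finset.mem_Icc]
    rcases hσ with h | h
    · rw [h]
      refine ⟨⟨by linarith, by linarith⟩, ?_⟩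
      push_cast
      rw [one_mul, abs_of_nonneg (Nat.cast_nonneg k)]
      exact hk1
    · rw [h]
      refine ⟨⟨by linarith, by linarith⟩, ?_⟩
      push_cast
      rw [neg_mul, one_mul, abs_neg, abs_of_nonneg (Nat.cast_nonneg k)]
      exact hk1
  have hR2 : R ^ 2 ≤ (Real.exp j * √(n : ℝ) / q) ^ 2 := by
    refine pow_le_pow_left₀ hR0.le ?_ 2
    rw [hR]
    gcongr
    linarith
  have hCS : ‖∑ k ∈ S, α k * innS b T n d q j s σ k‖ ^ 2 ≤
      (∑ k ∈ S, ‖α k‖ ^ 2) * ∑ k ∈ S, ‖innS b T n d q j s σ k‖ ^ 2 := by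
    refine le_trans ?_ (Finset.sum_mul_sq_le_sq_mul_sq S (fun k => ‖α k‖) (fun k => ‖innS b T n d q j s σ k‖))
    refine pow_le_pow_left₀ (norm_nonneg _) ?_ 2
    refine (norm_sum_le _ _).trans (le_of_eq ?_)
    exact Finset.sum_congr rfl fun k _ => norm_mul _ _
  refine hCS.trans (mul_le_mul_of_nonneg_left ?_ (Finset.sum_nonneg fun k _ => by positivity))
  refine hsum.trans ?_
  calc A ^ 2 * (CK * (1 + L / (n * D)) * R ^ 2 * G)
      = C1 ^ 2 * CK * (1 + |y|) ^ 4 * W ^ 2 * ((1 + L / (n * D)) * R ^ 2 * G) := by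
        rw [hA]
        ring
    _ ≤ C1 ^ 2 * CK * (1 + |y|) ^ 4 * W ^ 2 * ((1 + L / (n * D)) * (Real.exp j * √(n : ℝ) / q) ^ 2 * G) := by
        gcongr

end Pool.Agent.LibSM56C
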