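import Pool.Agent.LibSM56C.Sums51

/-! # SM56 part (C), S_D: Kloosterman sums and `1/(n d/(d,q))` on average over levels (helper51) -/

set_option autoImplicit false

namespace Pool.Agent.LibSM56C

open Complex

theorem KX_sum (η : ℝ) (hη : 0 < η) : ∃ C : ℝ, 0 < C ∧ ∀ (X : ℝ), 1 ≤ X → ∀ N D q : ℕ, 1 ≤ q →
    ∑ n ∈ Finset.Icc 1 N, ∑ d ∈ Finset.Icc 1 D, KX (n * (d / Nat.gcd d q)) X ≤ C * (q : ℝ) ^ η * X ^ (1 / 2 + η) := by
  obtain ⟨C₁, hC₁, h1⟩ := KX_avg_Icc η hη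
  obtain ⟨C₂, hC₂, h2⟩ := LibJes52.card_divisors_le_rpow η hη
  refine ⟨C₁ * C₂, by positivity, fun X hX N D q hq => (h1 q hq X hX N D).trans ?_⟩
  have h3 := h2 q hq
  calc C₁ * (q.divisors.card : ℝ) * X ^ (1 / 2 + η) ≤ C₁ * (C₂ * (q : ℝ) ^ η) * X ^ (1 / 2 + η) := by
        refine mul_le_mul_of_nonneg_right (mul_le_mul_of_nonneg_left h3 hC₁.le) (Real.rpow_nonneg (by linarith) _)
    _ = _ := by ring

private theorem harm_le (N : ℕ) (hN : 1 ≤ N) (η : ℝ) (hη : 0 < η) :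
    ∑ n ∈ Finset.Icc 1 N, (1 : ℝ) / n ≤ (1 + 1 / η) * (N : ℝ) ^ η := by
  have h1 : ((harmonic N : ℚ) : ℝ) = ∑ n ∈ Finset.Icc 1 N, (1 : ℝ) / n := by
    rw [harmonic_eq_sum_Icc]
    push_cast
    exact Finset.sum_congr rfl fun n _ => (one_div _).symm
  have h2 := harmonic_le_one_add_log N
  have hN0 : (0 : ℝ) ≤ N := Nat.cast_nonneg N
  have h3 := Real.log_le_rpow_div hN0 hη
  have h4 : (1 : ℝ) ≤ (N : ℝ) ^ η := Real.one_le_rpow (by exact_mod_cast hN) hη.le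
  rw [← h1]
  calc ((harmonic N : ℚ) : ℝ) ≤ 1 + Real.log N := h2
    _ ≤ (N : ℝ) ^ η + (N : ℝ) ^ η / η := add_le_add h4 h3
    _ = (1 + 1 / η) * (N : ℝ) ^ η := by ring

private theorem dq_sum (D q : ℕ) (hq : 1 ≤ q) :
    ∑ d ∈ Finset.Icc 1 D, (1 : ℝ) / (d / Nat.gcd d q : ℕ) ≤ (q.divisors.card : ℝ) * ∑ d ∈ Finset.Icc 1 D, (1 : ℝ) / d := by
  have hinj : Set.InjOn (fun d : ℕ => (Nat.gcd d q, d / Nat.gcd d q)) (Finset.Icc 1 D : Finset ℕ) := by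
    intro d _ e _ h
    simp only [Prod.mk.injEq] at h
    obtain ⟨h1, h2⟩ := h
    calc d = Nat.gcd d q * (d / Nat.gcd d q) := (Nat.mul_div_cancel' (Nat.gcd_dvd_left _ _)).symm
      _ = Nat.gcd e q * (e / Nat.gcd e q) := by rw [h2, h1]
      _ = e := Nat.mul_div_cancel' (Nat.gcd_dvd_left _ _)
  calc ∑ d ∈ Finset.Icc 1 D, (1 : ℝ) / (d / Nat.gcd d q : ℕ)
      = ∑ x ∈ (Finset.Icc 1 D).image (fun d : ℕ => (Nat.gcd d q, d / Nat.gcd d q)), (1 : ℝ) / (x.2 : ℕ) :=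
        (Finset.sum_image (f := fun x : ℕ × ℕ => (1 : ℝ) / (x.2 : ℕ)) hinj).symm
    _ ≤ ∑ x ∈ q.divisors ×ˢ Finset.Icc 1 D, (1 : ℝ) / (x.2 : ℕ) := by
        refine Finset.sum_le_sum_of_subset_of_nonneg ?_ (fun x _ _ => by positivity)
        intro x hx
        rw [Finset.mem_image] at hx
        obtain ⟨d, hd, rfl⟩ := hx
        rw [Finset.mem_Icc] at hd
        have hg : 0 < Nat.gcd d q := Nat.gcd_pos_of_pos_left _ hd.1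
        rw [Finset.mem_product, Nat.mem_divisors, Finset.mem_Icc]
        refine ⟨⟨Nat.gcd_dvd_right _ _, by omega⟩, ?_, ?_⟩
        · exact Nat.div_pos (Nat.gcd_le_left _ hd.1) hg
        · exact (Nat.div_le_self _ _).trans hd.2
    _ = _ := by
        rw [Finset.sum_product]
        simp only [Finset.sum_const, nsmul_eq_mul]

theorem lev_sum (η : ℝ) (hη : 0 < η) : ∃ C : ℝ, 0 < C ∧ ∀ N D q : ℕ, 1 ≤ N → 1 ≤ D → 1 ≤ q →
    ∑ n ∈ Finset.Icc 1 N, ∑ d ∈ Finset.Icc 1 D, (1 : ℝ) / (n * (d / Nat.gcd d q : ℕ)) ≤ C * ((N : ℝ) * D * q) ^ η := by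
  obtain ⟨C₂, hC₂, h2⟩ := LibJes52.card_divisors_le_rpow η hη
  have hη1 : (0 : ℝ) < 1 + 1 / η := by positivity
  refine ⟨(1 + 1 / η) ^ 2 * C₂, by positivity, fun N D q hN hD hq => ?_⟩
  have hN0 : (0 : ℝ) ≤ N := Nat.cast_nonneg N
  have hD0 : (0 : ℝ) ≤ D := Nat.cast_nonneg D
  have hq0 : (0 : ℝ) ≤ q := Nat.cast_nonneg q
  have h3 := dq_sum D q hq
  have h4 := harm_le N hN η hη
  have h5 := harm_le D hD η hη
  have h6 := h2 q hq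
  have h7 : ∑ n ∈ Finset.Icc 1 N, ∑ d ∈ Finset.Icc 1 D, (1 : ℝ) / (n * (d / Nat.gcd d q : ℕ)) =
      (∑ n ∈ Finset.Icc 1 N, (1 : ℝ) / n) * ∑ d ∈ Finset.Icc 1 D, (1 : ℝ) / (d / Nat.gcd d q : ℕ) := by
    rw [Finset.sum_mul_sum]
    refine Finset.sum_congr rfl fun n _ => Finset.sum_congr rfl fun d _ => ?_
    rw [one_div_mul_one_div]
  rw [h7, Real.mul_rpow (by positivity) hq0, Real.mul_rpow hN0 hD0]
  have h8 : ∑ d ∈ Finset.Icc 1 D, (1 : ℝ) / (d / Nat.gcd d q : ℕ) ≤ (C₂ * (q : ℝ) ^ η) * ((1 + 1 / η) * (D : ℝ) ^ η) :=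
    h3.trans (mul_le_mul h6 h5 (Finset.sum_nonneg fun _ _ => by positivity) (by positivity))
  calc (∑ n ∈ Finset.Icc 1 N, (1 : ℝ) / n) * ∑ d ∈ Finset.Icc 1 D, (1 : ℝ) / (d / Nat.gcd d q : ℕ)
      ≤ ((1 + 1 / η) * (N : ℝ) ^ η) * ((C₂ * (q : ℝ) ^ η) * ((1 + 1 / η) * (D : ℝ) ^ η)) :=
        mul_le_mul h4 h8 (Finset.sum_nonneg fun _ _ => by positivity) (by positivity)
    _ = _ := by ring

end Pool.Agent.LibSM56C
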