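import Pool.Agent.LibSM56C.Defs

/-! # SM56 part (C), section (S): separation of variables and summation. Definitions.

`m = q m'`, `d ∣ q m'`; `t = log(√n m')`, so `t - (log n)/2 + log q = log m` and `n m² = (q e^t)²`. -/

set_option autoImplicit false

namespace Pool.Agent.LibSM56C

open MeasureTheory Set Filter Topology Complex
open scoped ENNReal ComplexConjugate

/-- A smooth bump supported in `(-1,1)` whose integer translates sum to `1`. -/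
noncomputable def psi0 (t : ℝ) : ℝ := Real.smoothTransition (t + 1) - Real.smoothTransition t

/-- The weight in `t = log(√n m')`. -/
noncomputable def wt (b : ℝ → ℝ) (T : ℝ) (n d q j : ℕ) (s : ℂ) (t : ℝ) : ℂ :=
  ((b ((t - Real.log n / 2 + Real.log q - Real.log d) / Real.log T) *
    psi0 (t - Real.log n / 2 + Real.log q - j) : ℝ) : ℂ) * cexp (-(2 * s) * ((t + Real.log q : ℝ) : ℂ))

/-- The cut of the dual sum on the block `m ~ e^j`. -/
noncomputable def Lam (κ T : ℝ) (n j : ℕ) : ℕ := ⌊T ^ (κ - 1) * n * Real.exp (2 * (j + 1))⌋₊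

/-- The sum over the smooth variable `m'`. -/
noncomputable def innS (b : ℝ → ℝ) (T : ℝ) (n d q j : ℕ) (s : ℂ) (σ : ℤ) (k : ℕ) : ℂ :=
  ∑ m ∈ (Finset.Icc 1 ⌊Real.exp (j + 1)⌋₊).filter (fun m => d / Nat.gcd d q ∣ m ∧ Nat.Coprime m n),
    Sk m 1 (((σ * k : ℤ) : ZMod m) * ((n : ZMod m)⁻¹)) * wt b T n d q j s (Real.log (√(n : ℝ) * m))

/-- The sum over `k = |a|/q²` for one `(n, d, q)`. -/
noncomputable def kS (b : ℝ → ℝ) (rr : ℕ → ℕ → ℝ) (T : ℝ) (n d q j K : ℕ) (s : ℂ) (σ : ℤ) : ℂ :=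
  ∑ k ∈ Finset.Icc 1 K, (rr q k : ℂ) * ((q ^ 2 * k : ℕ) : ℂ) ^ (s - 1) * innS b T n d q j s σ k

/-- The whole sum on the block `m ~ e^j`. -/
noncomputable def TT1 (a b c : ℝ → ℝ) (rr : ℕ → ℕ → ℝ) (κ T : ℝ) (j : ℕ) (σ : ℤ) (s : ℂ) : ℂ :=
  ∑ n ∈ Finset.Icc 1 ⌊T⌋₊, ∑ d ∈ Finset.Icc 1 ⌊T⌋₊,
    (((Nat.totient d : ℝ) / d * a (Real.log d / Real.log T) * c (Real.log n / Real.log T) : ℝ) : ℂ) *
    ∑ q ∈ (Finset.Icc 1 (Nat.sqrt (Lam κ T n j))).filter (fun q => Nat.Coprime q n),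
      (q : ℂ) * kS b rr T n d q j (Lam κ T n j / q ^ 2) s σ

end Pool.Agent.LibSM56C
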