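import Pool.Agent.LibSM56C.S_C

/-! # SM56 part (C), S_E1: the four terms; one block (helper51) -/

set_option autoImplicit false

namespace Pool.Agent.LibSM56C

open MeasureTheory Set Filter Topology Complex

/-- The four terms of the summation, `W = e^j √N`, `ℓ = q √L`. -/
theorem four_terms (T κ y₀ z z' δ E ℓ : ℝ) (hT : 1 ≤ T) (hκ : 0 < κ) (hδ : 0 < δ)
    (hA : (y₀ + z) / 2 ≤ 1 / 4 - δ / 2) (hB : z + z' + y₀ / 2 - 1 / 2 ≤ 1 / 4 - δ / 2) (hE : 0 < E)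
    (hE' : E ≤ Real.exp 1 * T ^ (z + z' + 2 * κ)) (hℓ : 0 < ℓ)
    (hℓ' : ℓ ≤ Real.exp 1 * T ^ ((κ - 1) / 2) * (E * T ^ ((y₀ + κ) / 2))) :
    √(ℓ / (E * T ^ ((y₀ - κ) / 2))) * (√(T ^ (y₀ + z + 2 * κ) + ℓ ^ 2) *
      √(T ^ (y₀ + z + 2 * κ) + 8 * Real.exp (-1) * (E * T ^ ((y₀ + κ) / 2)) / ℓ)) ≤
      24 * T ^ (1 / 4 - δ / 2 + 5 * κ) := by
  have hT0 : 0 < T := by linarith
  have he : Real.exp 1 ≤ 2.7182818286 := Real.exp_one_lt_d9.le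
  have he0 : 0 < Real.exp 1 := Real.exp_pos 1
  have hem : Real.exp (-1) ≤ 0.37 := by
    rw [Real.exp_neg, inv_le_comm₀ he0 (by norm_num)]
    have := Real.exp_one_gt_d9
    norm_num at this ⊢
    linarith
  have hem0 : 0 < Real.exp (-1) := Real.exp_pos _
  have ha : 0 < T ^ ((y₀ - κ) / 2) := Real.rpow_pos_of_pos hT0 _
  have hb : 0 < T ^ ((y₀ + κ) / 2) := Real.rpow_pos_of_pos hT0 _
  have hab : T ^ ((y₀ + κ) / 2) = T ^ κ * T ^ ((y₀ - κ) / 2) := by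
    rw [← Real.rpow_add hT0]
    congr 1
    ring
  have hND : 0 < T ^ (y₀ + z + 2 * κ) := Real.rpow_pos_of_pos hT0 _
  -- first factor times third factor
  have h1 : √(ℓ / (E * T ^ ((y₀ - κ) / 2))) * √(T ^ (y₀ + z + 2 * κ) + 8 * Real.exp (-1) * (E * T ^ ((y₀ + κ) / 2)) / ℓ) ≤
      3 * T ^ (2 * κ) := by
    rw [← Real.sqrt_mul (by positivity)]
    have h2 : ℓ / (E * T ^ ((y₀ - κ) / 2)) * (T ^ (y₀ + z + 2 * κ) + 8 * Real.exp (-1) * (E * T ^ ((y₀ + κ) / 2)) / ℓ) =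
        ℓ / (E * T ^ ((y₀ - κ) / 2)) * T ^ (y₀ + z + 2 * κ) + 8 * Real.exp (-1) * T ^ κ := by
      rw [hab]
      field_simp
    have h3 : ℓ / (E * T ^ ((y₀ - κ) / 2)) ≤ Real.exp 1 * T ^ ((κ - 1) / 2) * T ^ κ := by
      rw [div_le_iff₀ (by positivity)]
      refine hℓ'.trans (le_of_eq ?_)
      rw [hab]
      ring
    have h4 : ℓ / (E * T ^ ((y₀ - κ) / 2)) * T ^ (y₀ + z + 2 * κ) ≤ 3 * T ^ (4 * κ) := by
      calc ℓ / (E * T ^ ((y₀ - κ) / 2)) * T ^ (y₀ + z + 2 * κ)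
          ≤ (Real.exp 1 * T ^ ((κ - 1) / 2) * T ^ κ) * T ^ (y₀ + z + 2 * κ) := mul_le_mul_of_nonneg_right h3 hND.le
        _ = Real.exp 1 * T ^ ((κ - 1) / 2 + κ + (y₀ + z + 2 * κ)) := by
            rw [Real.rpow_add hT0 ((κ - 1) / 2 + κ) (y₀ + z + 2 * κ), Real.rpow_add hT0 ((κ - 1) / 2) κ]
            ring
        _ ≤ 3 * T ^ (4 * κ) := by
            refine mul_le_mul (by linarith) (Real.rpow_le_rpow_of_exponent_le hT (by linarith)) (by positivity) (by norm_num)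
    have h5 : 8 * Real.exp (-1) * T ^ κ ≤ 3 * T ^ (4 * κ) :=
      mul_le_mul (by linarith) (Real.rpow_le_rpow_of_exponent_le hT (by linarith)) (by positivity) (by norm_num)
    have hk : 0 < T ^ (2 * κ) := Real.rpow_pos_of_pos hT0 _
    rw [h2]
    refine Real.sqrt_le_iff.mpr ⟨by positivity, ?_⟩
    rw [mul_pow]
    have h7 : T ^ (4 * κ) = (T ^ (2 * κ)) ^ 2 := by
      rw [← Real.rpow_natCast, ← Real.rpow_mul hT0.le]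
      congr 1
      push_cast
      ring
    have h8 : 0 < T ^ (4 * κ) := Real.rpow_pos_of_pos hT0 _
    rw [← h7]
    linarith
  -- second factor
  have h2 : √(T ^ (y₀ + z + 2 * κ) + ℓ ^ 2) ≤ 8 * T ^ (1 / 4 - δ / 2 + 3 * κ) := by
    have hp : 0 < T ^ (1 / 4 - δ / 2 + 3 * κ) := Real.rpow_pos_of_pos hT0 _
    have h3 : ℓ ≤ 7.4 * T ^ (1 / 4 - δ / 2 + 3 * κ) := by
      calc ℓ ≤ Real.exp 1 * T ^ ((κ - 1) / 2) * (E * T ^ ((y₀ + κ) / 2)) := hℓ'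
        _ ≤ Real.exp 1 * T ^ ((κ - 1) / 2) * ((Real.exp 1 * T ^ (z + z' + 2 * κ)) * T ^ ((y₀ + κ) / 2)) := by
            refine mul_le_mul_of_nonneg_left (mul_le_mul_of_nonneg_right hE' hb.le) (by positivity)
        _ = (Real.exp 1 * Real.exp 1) * T ^ ((κ - 1) / 2 + (z + z' + 2 * κ) + (y₀ + κ) / 2) := by
            rw [Real.rpow_add hT0 ((κ - 1) / 2 + (z + z' + 2 * κ)) ((y₀ + κ) / 2),
              Real.rpow_add hT0 ((κ - 1) / 2) (z + z' + 2 * κ)]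
            ring
        _ ≤ 7.4 * T ^ (1 / 4 - δ / 2 + 3 * κ) := by
            refine mul_le_mul ?_ (Real.rpow_le_rpow_of_exponent_le hT (by linarith)) (by positivity) (by norm_num)
            calc Real.exp 1 * Real.exp 1 ≤ 2.7182818286 * 2.7182818286 := mul_le_mul he he he0.le (by norm_num)
              _ ≤ 7.4 := by norm_num
    have h4 : T ^ (y₀ + z + 2 * κ) ≤ (T ^ (1 / 4 - δ / 2 + 3 * κ)) ^ 2 := by
      rw [← Real.rpow_natCast, ← Real.rpow_mul hT0.le]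
      refine Real.rpow_le_rpow_of_exponent_le hT ?_
      push_cast
      linarith
    refine Real.sqrt_le_iff.mpr ⟨by positivity, ?_⟩
    have h5 : ℓ ^ 2 ≤ (7.4 * T ^ (1 / 4 - δ / 2 + 3 * κ)) ^ 2 := pow_le_pow_left₀ hℓ.le h3 2
    calc T ^ (y₀ + z + 2 * κ) + ℓ ^ 2 ≤ (T ^ (1 / 4 - δ / 2 + 3 * κ)) ^ 2 + (7.4 * T ^ (1 / 4 - δ / 2 + 3 * κ)) ^ 2 :=
          add_le_add h4 h5
      _ ≤ (8 * T ^ (1 / 4 - δ / 2 + 3 * κ)) ^ 2 := by nlinarith [sq_nonneg (T ^ (1 / 4 - δ / 2 + 3 * κ))]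
  calc √(ℓ / (E * T ^ ((y₀ - κ) / 2))) * (√(T ^ (y₀ + z + 2 * κ) + ℓ ^ 2) *
        √(T ^ (y₀ + z + 2 * κ) + 8 * Real.exp (-1) * (E * T ^ ((y₀ + κ) / 2)) / ℓ))
      = √(T ^ (y₀ + z + 2 * κ) + ℓ ^ 2) * (√(ℓ / (E * T ^ ((y₀ - κ) / 2))) *
        √(T ^ (y₀ + z + 2 * κ) + 8 * Real.exp (-1) * (E * T ^ ((y₀ + κ) / 2)) / ℓ)) := by ring
    _ ≤ (8 * T ^ (1 / 4 - δ / 2 + 3 * κ)) * (3 * T ^ (2 * κ)) :=
        mul_le_mul h2 h1 (by positivity) (by positivity)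
    _ = 24 * (T ^ (1 / 4 - δ / 2 + 3 * κ) * T ^ (2 * κ)) := by ring
    _ = 24 * T ^ (1 / 4 - δ / 2 + 5 * κ) := by
        rw [← Real.rpow_add hT0]
        congr 2
        ring

/-- One block of the sum over `k`. -/
theorem one_block (b : ℝ → ℝ) (hb : ContDiff ℝ ((⊤ : ℕ∞) : WithTop ℕ∞) b) (hb' : HasCompactSupport b) :
    ∃ C : ℝ, 0 < C ∧ ∀ T : ℝ, 3 ≤ T → ∀ n d q j : ℕ, 1 ≤ n → 1 ≤ d → 1 ≤ q → Nat.Coprime q n → ∀ y : ℝ, ∀ σ : ℤ,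
      (σ = 1 ∨ σ = -1) → ∀ i : ℕ, (2 : ℝ) ^ i ≤ (Real.exp (j - 1) * √(n : ℝ) / q) ^ 2 → ∀ (ρ : ℕ → ℝ) (G : ℝ), 0 ≤ G →
      ∀ S : Finset ℕ, (∀ k ∈ S, 2 ^ i ≤ k ∧ k < 2 ^ (i + 1)) → (∀ k ∈ S, |ρ k| ≤ G) →
      (q : ℝ) * ‖∑ k ∈ S, ((ρ k : ℂ) * ((q ^ 2 * k : ℕ) : ℂ) ^ (((3 / 4 : ℝ) : ℂ) + y * I - 1)) *
          innS b T n d q j ((3 / 4 : ℝ) + y * I) σ k‖ ≤
        C * G * (1 + |y|) ^ 2 * (1 / q) * √((q * √((2 : ℝ) ^ i)) / (Real.exp j * √(n : ℝ))) *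
          (√(1 + (2 : ℝ) ^ i / (n * (d / Nat.gcd d q : ℕ))) *
            √(1 + KX (n * (d / Nat.gcd d q)) (64 * (Real.exp (j - 1) * √(n : ℝ) / q) ^ 2 / (2 : ℝ) ^ i))) := by
  obtain ⟨C, hC, h⟩ := block b hb hb'
  refine ⟨√C, Real.sqrt_pos.mpr hC, fun T hT n d q j hn hd hq hqn y σ hσ i hi ρ G hG S hS hρ => ?_⟩
  have hq0 : (0 : ℝ) < q := by exact_mod_cast hq
  have hn0 : (0 : ℝ) < n := by exact_mod_cast hn
  have hL1 : (1 : ℝ) ≤ (2 : ℝ) ^ i := one_le_pow₀ (by norm_num)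
  have hL0 : (0 : ℝ) < (2 : ℝ) ^ i := by positivity
  have hw : 0 < Real.exp j * √(n : ℝ) := mul_pos (Real.exp_pos _) (Real.sqrt_pos.mpr hn0)
  have h1 := h T hT n d q j hn hd hq hqn y σ hσ ((2 : ℝ) ^ i) hL1 hi
    (fun k => (ρ k : ℂ) * ((q ^ 2 * k : ℕ) : ℂ) ^ (((3 / 4 : ℝ) : ℂ) + y * I - 1)) S (by
      intro k hk
      obtain ⟨ha, hb⟩ := hS k hk
      have ha' : ((2 ^ i : ℕ) : ℝ) ≤ k := by exact_mod_cast ha
      have hb' : (k : ℝ) ≤ ((2 ^ (i + 1) : ℕ) : ℝ) := by exact_mod_cast hb.le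
      push_cast at ha' hb'
      rw [pow_succ] at hb'
      exact ⟨ha', by linarith⟩)
  -- the sum of the squares of the coefficients
  have h2 : ∀ k ∈ S, ‖(ρ k : ℂ) * ((q ^ 2 * k : ℕ) : ℂ) ^ (((3 / 4 : ℝ) : ℂ) + y * I - 1)‖ ^ 2 ≤
      G ^ 2 * (1 / (q * √((2 : ℝ) ^ i))) := by
    intro k hk
    obtain ⟨ha, _⟩ := hS k hk
    have hk1 : 1 ≤ k := le_trans Nat.one_le_two_pow ha
    have hk0 : 0 < q ^ 2 * k := by positivity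
    rw [norm_mul, Complex.norm_natCast_cpow_of_pos hk0, Complex.norm_real, Real.norm_eq_abs, mul_pow]
    have hre : (((3 / 4 : ℝ) : ℂ) + y * I - 1).re = -(1 / 4) := by
      simp
      norm_num
    rw [hre]
    have hpos : (0 : ℝ) < ((q ^ 2 * k : ℕ) : ℝ) := by exact_mod_cast hk0
    have h3 : (((q ^ 2 * k : ℕ) : ℝ) ^ (-(1 / 4) : ℝ)) ^ 2 = 1 / √((q ^ 2 * k : ℕ) : ℝ) := by
      have h31 : 1 / √((q ^ 2 * k : ℕ) : ℝ) = ((q ^ 2 * k : ℕ) : ℝ) ^ (-(1 / 2) : ℝ) := by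
        rw [Real.rpow_neg hpos.le, ← Real.sqrt_eq_rpow, one_div]
      rw [h31, ← Real.rpow_natCast, ← Real.rpow_mul hpos.le]
      congr 1
      norm_num
    rw [h3]
    have h4 : q * √((2 : ℝ) ^ i) ≤ √((q ^ 2 * k : ℕ) : ℝ) := by
      have ha' : ((2 ^ i : ℕ) : ℝ) ≤ k := by exact_mod_cast ha
      push_cast at ha' ⊢
      rw [Real.sqrt_mul (by positivity), Real.sqrt_sq hq0.le]
      exact mul_le_mul_of_nonneg_left (Real.sqrt_le_sqrt ha') hq0.le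
    have h5 : |ρ k| ^ 2 ≤ G ^ 2 := pow_le_pow_left₀ (abs_nonneg _) (hρ k hk) 2
    refine mul_le_mul h5 ?_ (by positivity) (by positivity)
    exact one_div_le_one_div_of_le (by positivity) h4
  have h3 : (S.card : ℝ) ≤ (2 : ℝ) ^ i := by
    have h4 : S ⊆ Finset.Ico (2 ^ i) (2 ^ (i + 1)) := fun k hk => Finset.mem_Ico.mpr (hS k hk)
    have h5 := Finset.card_le_card h4
    rw [Nat.card_Ico] at h5
    have h6 : 2 ^ (i + 1) - 2 ^ i = 2 ^ i := by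
      rw [pow_succ]
      omega
    rw [h6] at h5
    exact_mod_cast h5
  have h4 : ∑ k ∈ S, ‖(ρ k : ℂ) * ((q ^ 2 * k : ℕ) : ℂ) ^ (((3 / 4 : ℝ) : ℂ) + y * I - 1)‖ ^ 2 ≤
      G ^ 2 * (√((2 : ℝ) ^ i) / q) := by
    calc ∑ k ∈ S, ‖(ρ k : ℂ) * ((q ^ 2 * k : ℕ) : ℂ) ^ (((3 / 4 : ℝ) : ℂ) + y * I - 1)‖ ^ 2
        ≤ ∑ k ∈ S, G ^ 2 * (1 / (q * √((2 : ℝ) ^ i))) := Finset.sum_le_sum h2
      _ = S.card * (G ^ 2 * (1 / (q * √((2 : ℝ) ^ i)))) := by rw [Finset.sum_const, nsmul_eq_mul]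
      _ ≤ (2 : ℝ) ^ i * (G ^ 2 * (1 / (q * √((2 : ℝ) ^ i)))) := mul_le_mul_of_nonneg_right h3 (by positivity)
      _ = G ^ 2 * (√((2 : ℝ) ^ i) / q) := by
          have h5 : (2 : ℝ) ^ i = √((2 : ℝ) ^ i) * √((2 : ℝ) ^ i) := (Real.mul_self_sqrt hL0.le).symm
          have h6 : 0 < √((2 : ℝ) ^ i) := Real.sqrt_pos.mpr hL0
          nth_rewrite 1 [h5]
          field_simp
  -- square
  have hF1 : 0 < 1 + (2 : ℝ) ^ i / (n * (d / Nat.gcd d q : ℕ)) := by positivity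
  have hKX : 0 ≤ KX (n * (d / Nat.gcd d q)) (64 * (Real.exp (j - 1) * √(n : ℝ) / q) ^ 2 / (2 : ℝ) ^ i) :=
    Finset.sum_nonneg fun c _ => div_nonneg (norm_nonneg _) (Nat.cast_nonneg c)
  have hF2 : 0 < 1 + KX (n * (d / Nat.gcd d q)) (64 * (Real.exp (j - 1) * √(n : ℝ) / q) ^ 2 / (2 : ℝ) ^ i) := by
    linarith
  refine le_of_sq_le_sq ?_ (by positivity)
  have h5 : (√C * G * (1 + |y|) ^ 2 * (1 / q) * √((q * √((2 : ℝ) ^ i)) / (Real.exp j * √(n : ℝ))) *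
          (√(1 + (2 : ℝ) ^ i / (n * (d / Nat.gcd d q : ℕ))) *
            √(1 + KX (n * (d / Nat.gcd d q)) (64 * (Real.exp (j - 1) * √(n : ℝ) / q) ^ 2 / (2 : ℝ) ^ i)))) ^ 2 =
      C * G ^ 2 * (1 + |y|) ^ 4 * (1 / q) ^ 2 * ((q * √((2 : ℝ) ^ i)) / (Real.exp j * √(n : ℝ))) *
          ((1 + (2 : ℝ) ^ i / (n * (d / Nat.gcd d q : ℕ))) *
            (1 + KX (n * (d / Nat.gcd d q)) (64 * (Real.exp (j - 1) * √(n : ℝ) / q) ^ 2 / (2 : ℝ) ^ i))) := by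
    rw [mul_pow, mul_pow, mul_pow, mul_pow, mul_pow, mul_pow, Real.sq_sqrt hC.le, Real.sq_sqrt (by positivity),
      Real.sq_sqrt hF1.le, Real.sq_sqrt hF2.le]
    ring
  rw [h5, mul_pow]
  have h6 : (Real.exp j * √(n : ℝ)) ^ (-3 : ℝ) = 1 / (Real.exp j * √(n : ℝ)) ^ 3 := by
    rw [Real.rpow_neg hw.le, one_div]
    congr 1
    rw [show (3 : ℝ) = ((3 : ℕ) : ℝ) by norm_num, Real.rpow_natCast]
  have h7 : (q : ℝ) ^ 2 * ‖∑ k ∈ S, ((ρ k : ℂ) * ((q ^ 2 * k : ℕ) : ℂ) ^ (((3 / 4 : ℝ) : ℂ) + y * I - 1)) *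
          innS b T n d q j ((3 / 4 : ℝ) + y * I) σ k‖ ^ 2 ≤
      (q : ℝ) ^ 2 * ((G ^ 2 * (√((2 : ℝ) ^ i) / q)) * (C * (1 + |y|) ^ 4 * (Real.exp j * √(n : ℝ)) ^ (-3 : ℝ) *
          ((1 + (2 : ℝ) ^ i / (n * (d / Nat.gcd d q : ℕ))) * (Real.exp j * √(n : ℝ) / q) ^ 2 *
            (1 + KX (n * (d / Nat.gcd d q)) (64 * (Real.exp (j - 1) * √(n : ℝ) / q) ^ 2 / (2 : ℝ) ^ i))))) := by
    refine mul_le_mul_of_nonneg_left (h1.trans (mul_le_mul_of_nonneg_right h4 ?_)) (by positivity)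
    have : 0 < (Real.exp j * √(n : ℝ)) ^ (-3 : ℝ) := Real.rpow_pos_of_pos hw _
    positivity
  refine h7.trans (le_of_eq ?_)
  rw [h6]
  generalize (1 + (2 : ℝ) ^ i / (n * (d / Nat.gcd d q : ℕ))) = F1
  generalize (1 + KX (n * (d / Nat.gcd d q)) (64 * (Real.exp (j - 1) * √(n : ℝ) / q) ^ 2 / (2 : ℝ) ^ i)) = F2
  generalize √((2 : ℝ) ^ i) = x
  generalize hww : Real.exp j * √(n : ℝ) = w at hw ⊢
  field_simp

end Pool.Agent.LibSM56C
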