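import Pool.Agent.LibSM56C.S_Defs
import Pool.Agent.LibSM56.Regions
import Pool.Agent.LibSM56A.A_Defs
import Pool.Agent.LibSM56K.Main

/-! # SM56 part (C): from the Voronoi form to `GoodAt` (statements)

Plan of `good_C`: `κ` small, `k` large (`k ≥ 12/κ`), `δ₀` small (`(4k+6) δ₀ ≤ 1/10`, `12 δ₀ ≤ σ₁/2`). `VV = ∑_j ψ_j(log m) VV`, `voronoi_c k (3/4)` with
`Λ = Lam κ T n j`. Short part = `∑_j ∑_b ∫ Om(3/4+iy) TT1 dy` (`main_eq`), `S_core` with `Cr` from `rrK_le`, `Om_mid 2 (3/4)`: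
`≤ C (log T) T^{12 δ + 3/4 - 1 + 1/4 - σ₁}`. Long part: trivial bounds, `pr a > Λ ⇒ pr a ≥ T^{κ-1} n m²` (`m ≤ e^{j+1}`), `Om_left k 0`. -/

set_option autoImplicit false

namespace Pool.Agent.LibSM56C

open MeasureTheory Set Filter Topology Complex
open scoped ENNReal ComplexConjugate
open Pool.Agent.LibSM47 Pool.Agent.LibSM56 Pool.Agent.LibSM56A

/-- The coefficient of `k = pr(a)/q²`. -/
noncomputable def rrK (q k : ℕ) : ℝ :=
  ∑ a ∈ (trLe (q ^ 2 * k)).filter (fun a => SD.pr a = q ^ 2 * k), (LibSM56K.rho q a : ℝ)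

/-- The short dual sum without `NeZero`. -/
noncomputable def DSn (m n : ℕ) (b : B3) (Λ : ℕ) (s : ℂ) : ℂ :=
  if h : m = 0 then 0 else @DSle m ⟨h⟩ (n : ZMod m) b Λ s

/-- The sign in the Kloosterman sums. -/
def sgB (b : B3) : ℤ := -(SD.sg b.1 * SD.sg b.2.1 * SD.sg b.2.2)

end Pool.Agent.LibSM56C
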