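import Pool.Agent.LibSM47.C_G
import Pool.Agent.LibSM47.C_K
import Pool.Agent.LibSM56C.Defs

/-! # SM56 part (C): sums of Kloosterman sums over moduli and levels (helper51)

`Sk_one_le`: Weil's bound `|S(1,1;c)| ≤ d(c) c^{1/2} pw(c)^{1/2}` (`pw` the powerful part), from `LibSM47.FT_le_card`.
`sum_Sk_le`: `∑_{c ≤ X} d(c)^j |S(1,1;c)|/c ≤ C X^{1/2+η}`.
`KX_le`: one level.  `KX_avg`: average over levels `n d/(d,k)`, over any finite set of pairs `(n,d)`. -/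

set_option autoImplicit false

namespace Pool.Agent.LibSM56C

open Complex
open Pool.Agent.LibSM47

private theorem sum_hyper (c : ℕ) [NeZero c] (F : ZMod c → ZMod c → ℂ) :
    ∑ x : ZMod c × ZMod c, (if x.1 * x.2 = 1 then F x.1 x.2 else 0) =
      ∑ u : (ZMod c)ˣ, F (u : ZMod c) ((u⁻¹ : (ZMod c)ˣ) : ZMod c) := by
  rw [← Finset.sum_filter]
  symm
  refine Finset.sum_bij (fun (u : (ZMod c)ˣ) _ => ((u : ZMod c), ((u⁻¹ : (ZMod c)ˣ) : ZMod c))) ?_ ?_ ?_ ?_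
  · intro u _
    rw [Finset.mem_filter]
    exact ⟨Finset.mem_univ _, by simp⟩
  · intro u _ v _ h
    exact Units.ext (Prod.ext_iff.mp h).1
  · rintro ⟨a, b⟩ h
    rw [Finset.mem_filter] at h
    have hab : a * b = 1 := h.2
    exact ⟨⟨a, b, hab, by rw [mul_comm]; exact hab⟩, Finset.mem_univ _, rfl⟩
  · intro u _
    rfl

private theorem kl_FT (c : ℕ) [NeZero c] :
    FT c (ff c 1) (-1, -1, -1) = (c : ℂ) * Kl c 1 1 := by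
  rw [FT_sum3]
  congr 1
  unfold Kl
  rw [← sum_hyper c (fun a b => (ZMod.stdAddChar (1 * a + 1 * b) : ℂ))]
  refine Finset.sum_congr rfl fun x _ => ?_
  have h1 : ((1 : ZMod c) * x.1 * x.2 + (-1 : ZMod c) = 0) ↔ (x.1 * x.2 = 1) := by
    rw [one_mul, add_neg_eq_zero]
  by_cases h : x.1 * x.2 = 1
  · rw [if_pos (h1.mpr h), if_pos h]
    congr 1
    ring
  · rw [if_neg (fun h' => h (h1.mp h')), if_neg h]

private theorem gd_neg_one (c : ℕ) [NeZero c] : gd c (-1 : ZMod c) = 1 := by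
  unfold gd
  have h := ZMod.val_coe_unit_coprime (-1 : (ZMod c)ˣ)
  rw [Units.val_neg, Units.val_one] at h
  exact h

/-- Weil's bound with the powerful part lost. -/
theorem Kl_one_le (c : ℕ) [NeZero c] :
    ‖Kl c 1 1‖ ≤ (c.divisors.card : ℝ) * (c : ℝ) ^ (1 / 2 : ℝ) * (pw c : ℝ) ^ (1 / 2 : ℝ) := by
  have hc : (0 : ℝ) < c := by exact_mod_cast NeZero.pos c
  have h := FT_le_card c 1 isUnit_one (-1, -1, -1)
  rw [kl_FT, norm_mul, Complex.norm_natCast] at h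
  simp only [gd_neg_one, Nat.cast_one, mul_one, Real.one_rpow] at h
  have h2 : (c : ℝ) ^ (3 / 2 : ℝ) = c * (c : ℝ) ^ (1 / 2 : ℝ) := by
    rw [show (3 / 2 : ℝ) = 1 + 1 / 2 by norm_num, Real.rpow_add hc, Real.rpow_one]
  rw [h2] at h
  have h3 : (c : ℝ) * ‖Kl c 1 1‖ ≤ c * ((c.divisors.card : ℝ) * (c : ℝ) ^ (1 / 2 : ℝ) * (pw c : ℝ) ^ (1 / 2 : ℝ)) := by
    calc (c : ℝ) * ‖Kl c 1 1‖ ≤ _ := h
      _ = _ := by ring
  exact le_of_mul_le_mul_left h3 hc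

theorem Sk_one_le (c : ℕ) (hc : 1 ≤ c) :
    ‖Sk c 1 1‖ ≤ (c.divisors.card : ℝ) * (c : ℝ) ^ (1 / 2 : ℝ) * (pw c : ℝ) ^ (1 / 2 : ℝ) := by
  have h0 : c ≠ 0 := by omega
  unfold Sk
  rw [dif_neg h0]
  have : NeZero c := ⟨h0⟩
  exact Kl_one_le c

private theorem term_le (j : ℕ) (η : ℝ) (hη : 0 < η) : ∃ C : ℝ, 0 < C ∧ ∀ c M : ℕ, 1 ≤ c → c ≤ M →
    (c.divisors.card : ℝ) ^ j * (‖Sk c 1 1‖ / c) ≤
      C * (M : ℝ) ^ (1 / 2 + η) * ((c : ℝ)⁻¹ * (pw c : ℝ) ^ (1 / 2 : ℝ)) := by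
  have hj : (0 : ℝ) < (j + 1 : ℕ) := by positivity
  obtain ⟨C, hC, hd⟩ := LibJes52.card_divisors_le_rpow (η / (j + 1 : ℕ)) (by positivity)
  refine ⟨C ^ (j + 1), by positivity, fun c M hc hM => ?_⟩
  have hc0 : (0 : ℝ) < c := by exact_mod_cast hc
  have hcM : (c : ℝ) ≤ M := by exact_mod_cast hM
  have h1 : (c.divisors.card : ℝ) ^ (j + 1) ≤ C ^ (j + 1) * (M : ℝ) ^ η := by
    calc (c.divisors.card : ℝ) ^ (j + 1) ≤ (C * (c : ℝ) ^ (η / (j + 1 : ℕ))) ^ (j + 1) :=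
          pow_le_pow_left₀ (by positivity) (hd c hc) _
      _ = C ^ (j + 1) * (c : ℝ) ^ η := by
          rw [mul_pow]
          congr 1
          rw [← Real.rpow_natCast, ← Real.rpow_mul hc0.le, div_mul_cancel₀ _ hj.ne']
      _ ≤ C ^ (j + 1) * (M : ℝ) ^ η :=
          mul_le_mul_of_nonneg_left (Real.rpow_le_rpow hc0.le hcM hη.le) (by positivity)
  have h2 : (c : ℝ) ^ (1 / 2 : ℝ) ≤ (M : ℝ) ^ (1 / 2 : ℝ) := Real.rpow_le_rpow hc0.le hcM (by norm_num)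
  have hM0 : (0 : ℝ) < M := lt_of_lt_of_le hc0 hcM
  have hp : (0 : ℝ) ≤ (pw c : ℝ) ^ (1 / 2 : ℝ) := Real.rpow_nonneg (Nat.cast_nonneg _) _
  calc (c.divisors.card : ℝ) ^ j * (‖Sk c 1 1‖ / c)
      ≤ (c.divisors.card : ℝ) ^ j *
        (((c.divisors.card : ℝ) * (c : ℝ) ^ (1 / 2 : ℝ) * (pw c : ℝ) ^ (1 / 2 : ℝ)) / c) := by
        refine mul_le_mul_of_nonneg_left ?_ (by positivity)
        exact div_le_div_of_nonneg_right (Sk_one_le c hc) hc0.le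
    _ = (c.divisors.card : ℝ) ^ (j + 1) * (c : ℝ) ^ (1 / 2 : ℝ) * ((c : ℝ)⁻¹ * (pw c : ℝ) ^ (1 / 2 : ℝ)) := by
        rw [pow_succ, div_eq_mul_inv]
        ring
    _ ≤ (C ^ (j + 1) * (M : ℝ) ^ η) * (M : ℝ) ^ (1 / 2 : ℝ) * ((c : ℝ)⁻¹ * (pw c : ℝ) ^ (1 / 2 : ℝ)) := by
        refine mul_le_mul_of_nonneg_right ?_ (by positivity)
        exact mul_le_mul h1 h2 (by positivity) (by positivity)
    _ = C ^ (j + 1) * (M : ℝ) ^ (1 / 2 + η) * ((c : ℝ)⁻¹ * (pw c : ℝ) ^ (1 / 2 : ℝ)) := by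
        rw [Real.rpow_add hM0]
        ring

/-- `∑_{c ≤ M} d(c)^j |S(1,1;c)|/c ≤ C M^{1/2+η}`. -/
theorem sum_Sk_le (j : ℕ) (η : ℝ) (hη : 0 < η) : ∃ C : ℝ, 0 < C ∧ ∀ M : ℕ, 1 ≤ M →
    ∑ c ∈ Finset.Icc 1 M, (c.divisors.card : ℝ) ^ j * (‖Sk c 1 1‖ / c) ≤ C * (M : ℝ) ^ (1 / 2 + η) := by
  obtain ⟨C₁, hC₁, h1⟩ := term_le j (η / 2) (by positivity)
  obtain ⟨C₂, hC₂, h2⟩ := pw_sum (η / 2) (by positivity)
  refine ⟨C₁ * C₂, by positivity, fun M hM => ?_⟩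
  have hM0 : (0 : ℝ) < M := by exact_mod_cast hM
  calc ∑ c ∈ Finset.Icc 1 M, (c.divisors.card : ℝ) ^ j * (‖Sk c 1 1‖ / c)
      ≤ ∑ c ∈ Finset.Icc 1 M, C₁ * (M : ℝ) ^ (1 / 2 + η / 2) * ((c : ℝ)⁻¹ * (pw c : ℝ) ^ (1 / 2 : ℝ)) := by
        refine Finset.sum_le_sum fun c hc => ?_
        rw [Finset.mem_Icc] at hc
        exact h1 c M hc.1 hc.2
    _ = C₁ * (M : ℝ) ^ (1 / 2 + η / 2) * ∑ c ∈ Finset.Icc 1 M, ((c : ℝ)⁻¹ * (pw c : ℝ) ^ (1 / 2 : ℝ)) := by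
        rw [Finset.mul_sum]
    _ ≤ C₁ * (M : ℝ) ^ (1 / 2 + η / 2) * (C₂ * (M : ℝ) ^ (η / 2)) :=
        mul_le_mul_of_nonneg_left (h2 M hM) (by positivity)
    _ = C₁ * C₂ * (M : ℝ) ^ (1 / 2 + η) := by
        rw [show (1 / 2 + η : ℝ) = (1 / 2 + η / 2) + η / 2 by ring, Real.rpow_add hM0 (1 / 2 + η / 2)]
        ring

private theorem floor_case (X : ℝ) (hX : 1 ≤ X) : 1 ≤ ⌊X⌋₊ ∧ ((⌊X⌋₊ : ℕ) : ℝ) ≤ X :=
  ⟨Nat.floor_pos.mpr hX, Nat.floor_le (by linarith)⟩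

/-- The same, real `X`. -/
theorem sum_Sk_le' (j : ℕ) (η : ℝ) (hη : 0 < η) : ∃ C : ℝ, 0 < C ∧ ∀ X : ℝ, 1 ≤ X →
    ∑ c ∈ Finset.Icc 1 ⌊X⌋₊, (c.divisors.card : ℝ) ^ j * (‖Sk c 1 1‖ / c) ≤ C * X ^ (1 / 2 + η) := by
  obtain ⟨C, hC, h⟩ := sum_Sk_le j η hη
  refine ⟨C, hC, fun X hX => ?_⟩
  obtain ⟨h1, h2⟩ := floor_case X hX
  exact (h _ h1).trans (mul_le_mul_of_nonneg_left (Real.rpow_le_rpow (Nat.cast_nonneg _) h2 (by positivity)) hC.le)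

theorem KX_nonneg (q : ℕ) (X : ℝ) : 0 ≤ KX q X :=
  Finset.sum_nonneg fun c _ => div_nonneg (norm_nonneg _) (Nat.cast_nonneg c)

theorem KX_lt_one (q : ℕ) (X : ℝ) (hX : X < 1) : KX q X = 0 := by
  unfold KX
  rw [Nat.floor_eq_zero.mpr hX]
  rfl

theorem KX_mono (q : ℕ) (X Y : ℝ) (h : X ≤ Y) : KX q X ≤ KX q Y := by
  unfold KX
  refine Finset.sum_le_sum_of_subset_of_nonneg ?_ (fun c _ _ => div_nonneg (norm_nonneg _) (Nat.cast_nonneg c))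
  exact Finset.filter_subset_filter _ (Finset.Icc_subset_Icc_right (Nat.floor_le_floor h))

/-- One level. -/
theorem KX_le (η : ℝ) (hη : 0 < η) : ∃ C : ℝ, 0 < C ∧ ∀ (q : ℕ) (X : ℝ), 1 ≤ X → KX q X ≤ C * X ^ (1 / 2 + η) := by
  obtain ⟨C, hC, h⟩ := sum_Sk_le' 0 η hη
  refine ⟨C, hC, fun q X hX => le_trans ?_ (h X hX)⟩
  unfold KX
  calc ∑ c ∈ (Finset.Icc 1 ⌊X⌋₊).filter (fun c => q ∣ c), ‖Sk c 1 1‖ / c
      ≤ ∑ c ∈ Finset.Icc 1 ⌊X⌋₊, ‖Sk c 1 1‖ / c :=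
        Finset.sum_le_sum_of_subset_of_nonneg (Finset.filter_subset _ _)
          (fun c _ _ => div_nonneg (norm_nonneg _) (Nat.cast_nonneg c))
    _ = _ := Finset.sum_congr rfl fun c _ => by rw [pow_zero, one_mul]

/-- For given `c` the number of pairs `(n, d)` with `n d/(d,k) ∣ c` is at most `d(c)² d(k)`. -/
private theorem pairs_le (k c : ℕ) (hk : 1 ≤ k) (hc : 1 ≤ c) (S : Finset (ℕ × ℕ)) :
    (S.filter (fun p => p.1 * (p.2 / Nat.gcd p.2 k) ∣ c)).card ≤ c.divisors.card ^ 2 * k.divisors.card := by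
  have h : (S.filter (fun p => p.1 * (p.2 / Nat.gcd p.2 k) ∣ c)).card ≤
      (c.divisors ×ˢ (c.divisors ×ˢ k.divisors)).card := by
    refine Finset.card_le_card_of_injOn (fun p => (p.1, p.2 / Nat.gcd p.2 k, Nat.gcd p.2 k)) ?_ ?_
    · intro p hp
      rw [Finset.mem_coe, Finset.mem_filter] at hp
      simp only [Finset.coe_product, Set.mem_prod, Finset.mem_coe, Nat.mem_divisors]
      have hc0 : c ≠ 0 := by omega
      have hk0 : k ≠ 0 := by omega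
      exact ⟨⟨(dvd_mul_right _ _).trans hp.2, hc0⟩, ⟨(dvd_mul_left _ _).trans hp.2, hc0⟩, Nat.gcd_dvd_right _ _, hk0⟩
    · intro p _ p' _ h
      simp only [Prod.mk.injEq] at h
      obtain ⟨h1, h2, h3⟩ := h
      refine Prod.ext h1 ?_
      calc p.2 = Nat.gcd p.2 k * (p.2 / Nat.gcd p.2 k) := (Nat.mul_div_cancel' (Nat.gcd_dvd_left _ _)).symm
        _ = Nat.gcd p'.2 k * (p'.2 / Nat.gcd p'.2 k) := by rw [h2, h3]
        _ = p'.2 := Nat.mul_div_cancel' (Nat.gcd_dvd_left _ _)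
  refine h.trans (le_of_eq ?_)
  rw [Finset.card_product, Finset.card_product]
  ring

/-- Average over levels: any finite set of pairs `(n, d)`, levels `n d/(d,k)`. -/
theorem KX_avg (η : ℝ) (hη : 0 < η) : ∃ C : ℝ, 0 < C ∧ ∀ k : ℕ, 1 ≤ k → ∀ X : ℝ, 1 ≤ X → ∀ S : Finset (ℕ × ℕ),
    ∑ p ∈ S, KX (p.1 * (p.2 / Nat.gcd p.2 k)) X ≤ C * k.divisors.card * X ^ (1 / 2 + η) := by
  obtain ⟨C, hC, h⟩ := sum_Sk_le' 2 η hη
  refine ⟨C, hC, fun k hk X hX S => ?_⟩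
  have hK : (0 : ℝ) ≤ k.divisors.card := Nat.cast_nonneg _
  unfold KX
  calc ∑ p ∈ S, ∑ c ∈ (Finset.Icc 1 ⌊X⌋₊).filter (fun c => p.1 * (p.2 / Nat.gcd p.2 k) ∣ c), ‖Sk c 1 1‖ / c
      = ∑ c ∈ Finset.Icc 1 ⌊X⌋₊, ∑ p ∈ S, (if p.1 * (p.2 / Nat.gcd p.2 k) ∣ c then ‖Sk c 1 1‖ / c else 0) := by
        rw [Finset.sum_comm]
        exact Finset.sum_congr rfl fun p _ => Finset.sum_filter _ _
    _ = ∑ c ∈ Finset.Icc 1 ⌊X⌋₊,
          ((S.filter (fun p => p.1 * (p.2 / Nat.gcd p.2 k) ∣ c)).card : ℝ) * (‖Sk c 1 1‖ / c) := by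
        refine Finset.sum_congr rfl fun c _ => ?_
        rw [← Finset.sum_filter, Finset.sum_const, nsmul_eq_mul]
    _ ≤ ∑ c ∈ Finset.Icc 1 ⌊X⌋₊, (k.divisors.card : ℝ) * ((c.divisors.card : ℝ) ^ 2 * (‖Sk c 1 1‖ / c)) := by
        refine Finset.sum_le_sum fun c hc => ?_
        rw [Finset.mem_Icc] at hc
        have h1 : ((S.filter (fun p => p.1 * (p.2 / Nat.gcd p.2 k) ∣ c)).card : ℝ) ≤
            (c.divisors.card : ℝ) ^ 2 * k.divisors.card := by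
          exact_mod_cast pairs_le k c hk hc.1 S
        calc ((S.filter (fun p => p.1 * (p.2 / Nat.gcd p.2 k) ∣ c)).card : ℝ) * (‖Sk c 1 1‖ / c)
            ≤ ((c.divisors.card : ℝ) ^ 2 * k.divisors.card) * (‖Sk c 1 1‖ / c) :=
              mul_le_mul_of_nonneg_right h1 (div_nonneg (norm_nonneg _) (Nat.cast_nonneg c))
          _ = _ := by ring
    _ = (k.divisors.card : ℝ) * ∑ c ∈ Finset.Icc 1 ⌊X⌋₊, ((c.divisors.card : ℝ) ^ 2 * (‖Sk c 1 1‖ / c)) := by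
        rw [Finset.mul_sum]
    _ ≤ (k.divisors.card : ℝ) * (C * X ^ (1 / 2 + η)) := mul_le_mul_of_nonneg_left (h X hX) hK
    _ = C * k.divisors.card * X ^ (1 / 2 + η) := by ring

/-- The form `∑_{n ≤ N} ∑_{d ≤ D}`. -/
theorem KX_avg_Icc (η : ℝ) (hη : 0 < η) : ∃ C : ℝ, 0 < C ∧ ∀ k : ℕ, 1 ≤ k → ∀ X : ℝ, 1 ≤ X → ∀ N D : ℕ,
    ∑ n ∈ Finset.Icc 1 N, ∑ d ∈ Finset.Icc 1 D, KX (n * (d / Nat.gcd d k)) X ≤
      C * k.divisors.card * X ^ (1 / 2 + η) := by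
  obtain ⟨C, hC, h⟩ := KX_avg η hη
  refine ⟨C, hC, fun k hk X hX N D => ?_⟩
  rw [← Finset.sum_product']
  exact h k hk X hX _

end Pool.Agent.LibSM56C
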